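import Pool.Agent.Helper41.SV.BC

/-!
Rigidity of the poset `{0,1}^4` in dimension 6.
-/

open Finset Function

noncomputable section

namespace Pool.Agent.Helper41.SV

namespace B1

/-- The vertices. -/
abbrev V : Type := Fin 2 × Fin 2 × Fin 2 × Fin 2

/-- The number of a vertex. -/
def enc (v : V) : ℕ := (v.1 : ℕ) * 8 + (v.2.1 : ℕ) * 4 + (v.2.2.1 : ℕ) * 2 + (v.2.2.2 : ℕ)

/-- The vertex of a number. -/
def dec (n : ℕ) : V := (Fin.ofNat 2 (n / 8), Fin.ofNat 2 (n / 4), Fin.ofNat 2 (n / 2), Fin.ofNat 2 n)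

/-- The coordinates. -/
def tab : List (List ℤ) :=
  [[1, 0, 0, 0, 0, 0], [0, 0, 0, 1, 1, 0], [0, 1, 0, 2, 0, 0], [2, 2, 0, 0, -1, 0],
   [0, 0, 0, 1, 0, 1], [-1, 2, 0, 0, 1, 0], [1, 2, 1, 0, 1, 0], [-1, 0, 1, 0, 1, 0],
   [0, 1, 0, 0, 0, 0], [0, 0, -1, 0, 2, 0], [0, 0, -1, 0, 0, 0], [0, 0, 0, 0, 0, 1],
   [0, 0, 1, 0, 0, 0], [1, 0, 0, 0, 0, 1], [0, 0, 0, 1, 0, 0], [0, 0, 0, 0, 1, 0]]

/-- The configuration. -/
def p (v : V) (i : Fin 6) : ℤ := (tab.getD (enc v) []).getD i 0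

/-- The steps. -/
def st : List (ℕ × ℕ × ℕ × ℕ) :=
  [(0, 1, 1, 0), (0, 2, 2, 0), (0, 3, 3, 0), (0, 4, 4, 0), (0, 5, 5, 0), (0, 6, 6, 0),
   (0, 7, 7, 0), (0, 9, 9, 0), (0, 10, 10, 0), (0, 11, 11, 0), (0, 13, 13, 0), (1, 15, 1, 4),
   (2, 14, 2, 3), (2, 15, 2, 4), (3, 15, 3, 4), (4, 12, 4, 2), (4, 14, 4, 3), (4, 15, 4, 4),
   (5, 15, 5, 4), (6, 14, 6, 3), (6, 15, 6, 4), (7, 15, 7, 4), (8, 9, 9, 1), (8, 10, 10, 1),
   (8, 11, 11, 1), (8, 13, 13, 1), (9, 15, 9, 4), (10, 10, 10, 2), (10, 14, 10, 3),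
   (10, 15, 10, 4), (11, 11, 11, 5), (11, 15, 11, 4), (12, 13, 13, 2), (13, 13, 13, 5),
   (13, 15, 13, 4), (1, 1, 1, 3), (2, 2, 2, 1), (2, 10, 2, 2), (3, 3, 3, 1), (3, 11, 3, 5),
   (4, 4, 4, 5), (4, 13, 13, 3), (5, 5, 5, 1), (5, 13, 5, 5), (7, 7, 7, 2), (9, 9, 9, 2),
   (9, 13, 9, 5), (1, 13, 1, 5), (2, 3, 3, 3), (2, 6, 6, 1), (6, 6, 6, 2), (6, 7, 7, 1),
   (9, 11, 11, 2), (10, 11, 10, 5), (1, 3, 1, 1), (1, 5, 5, 3), (1, 11, 11, 3), (2, 7, 7, 3),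
   (2, 11, 2, 5), (3, 7, 3, 2), (4, 5, 4, 1), (4, 6, 6, 5), (4, 7, 7, 5), (5, 7, 5, 2),
   (1, 7, 1, 2), (1, 9, 9, 3)]

/-- The steps in terms of the vertices. -/
def stV : List ((V × V) × V × Fin 6) :=
  st.map fun s => ((dec s.1, dec s.2.1), dec s.2.2.1, Fin.ofNat 6 s.2.2.2)

/-- The chain. -/
def chain (i : Fin 5) : V := dec ([0, 8, 12, 14, 15].getD i 0)

theorem dec_enc : ∀ v : V, dec (enc v) = v := by decide +kernel

theorem enc_lt : ∀ v : V, enc v < 16 := by decide +kernel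

theorem chain_adj : ∀ i j : Fin 5, chain i ≤ chain j ∨ chain j ≤ chain i := by decide +kernel

theorem p_chain : ∀ (i : Fin 5) (j : Fin 6), p (chain i) j = if j = i.castSucc then 1 else 0 := by
  decide +kernel

theorem st_adj : ∀ s ∈ stV, s.1.1 ≤ s.1.2 := by decide +kernel

theorem run_ok : Elim.run (bitOf enc) (2 ^ (16 * 6) - 1)
    (chainSteps p ((List.finRange 5).map chain) stV) 0 = true := by decide +kernel

end B1

/-- The four coordinates of a vertex. -/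
def toV (v : Fin 4 → Fin 2) : B1.V := (v 0, v 1, v 2, v 3)

/-- The vertex with given coordinates. -/
def ofV (v : B1.V) : Fin 4 → Fin 2 := ![v.1, v.2.1, v.2.2.1, v.2.2.2]

theorem ofV_toV (v : Fin 4 → Fin 2) : ofV (toV v) = v := by
  funext i
  fin_cases i <;> rfl

theorem toV_ofV (v : B1.V) : toV (ofV v) = v := rfl

theorem ofV_mono {u v : B1.V} (h : u ≤ v) : ofV u ≤ ofV v := by
  obtain ⟨u0, u1, u2, u3⟩ := u
  obtain ⟨v0, v1, v2, v3⟩ := v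
  simp only [Prod.mk_le_mk] at h
  obtain ⟨h0, h1, h2, h3⟩ := h
  intro i
  fin_cases i
  · exact h0
  · exact h1
  · exact h2
  · exact h3

theorem base1111 : StBase1111 := by
  have h := rigOn_of_cert (n := 5) (fun α β => α ≤ β) B1.p B1.chain B1.enc
    (LeftInverse.injective B1.dec_enc) 16 B1.enc_lt B1.stV B1.chain_adj B1.p_chain
    B1.st_adj B1.run_ok
  refine ⟨fun v i => ((B1.p (toV v) i : ℤ) : ℂ), ?_⟩
  intro P hP
  have h2 : ∀ u ∈ (univ : Finset B1.V), ∀ v ∈ (univ : Finset B1.V), u ≤ v →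
      ∑ i, (P (ofV u) i * ((B1.p v i : ℤ) : ℂ) + P (ofV v) i * ((B1.p u i : ℤ) : ℂ)) = 0 := by
    intro u _ v _ huv
    have := hP (ofV u) (mem_univ _) (ofV v) (mem_univ _) (ofV_mono huv)
    simpa only [toV_ofV] using this
  obtain ⟨A, hA, h1⟩ := h (fun v => P (ofV v)) h2
  refine ⟨A, hA, fun v _ i => ?_⟩
  have := h1 (toV v) (mem_univ _) i
  rwa [ofV_toV] at this

end Pool.Agent.Helper41.SV
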