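import Pool.Agent.Helper41.SV.BC

/-!
Rigidity of the poset `2 × 3 × 3` in dimension 7.
-/

open Finset Function

noncomputable section

namespace Pool.Agent.Helper41.SV

namespace B2

/-- The vertices. -/
abbrev V : Type := Fin 2 × Fin 3 × Fin 3

/-- The number of a vertex. -/
def enc (v : V) : ℕ := (v.1 : ℕ) * 9 + (v.2.1 : ℕ) * 3 + (v.2.2 : ℕ)

/-- The vertex of a number. -/
def dec (n : ℕ) : V := (Fin.ofNat 2 (n / 9), Fin.ofNat 3 (n / 3), Fin.ofNat 3 n)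

/-- The coordinates. -/
def tab : List (List ℤ) :=
  [[1, 0, 0, 0, 0, 0, 0], [0, 0, 0, 0, 0, 0, 2], [0, 0, 0, 0, 2, 2, 0], [0, 1, 0, 0, 0, 0, 0],
   [1, 0, 1, 0, 1, 2, 0], [0, 0, 0, 1, 0, 1, 0], [1, -1, 1, 0, 0, 0, 0], [0, 2, 0, 0, 0, 1, 1],
   [0, -1, 0, 1, 0, 0, 0], [0, 0, 0, 0, 0, 1, 2], [1, 2, 0, 0, 0, 0, 0], [2, 0, 0, 1, 0, 0, 0],
   [0, 0, 1, 0, 0, 0, 0], [0, 0, 0, 1, 0, 0, 0], [2, 0, 1, 0, 0, 1, 0], [2, 0, 0, 1, 0, 1, 0],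
   [0, 0, 0, 0, 1, 0, 0], [0, 0, 0, 0, 0, 1, 0]]

/-- The configuration. -/
def p (v : V) (i : Fin 7) : ℤ := (tab.getD (enc v) []).getD i 0

/-- The steps. -/
def st : List (ℕ × ℕ × ℕ × ℕ) :=
  [(0, 1, 1, 0), (0, 2, 2, 0), (0, 4, 4, 0), (0, 5, 5, 0), (0, 6, 6, 0), (0, 7, 7, 0),
   (0, 8, 8, 0), (0, 9, 9, 0), (0, 10, 10, 0), (0, 11, 11, 0), (0, 14, 14, 0), (0, 15, 15, 0),
   (1, 1, 1, 6), (1, 13, 1, 3), (1, 16, 1, 4), (1, 17, 1, 5), (2, 17, 2, 5), (3, 4, 4, 1),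
   (3, 5, 5, 1), (3, 6, 6, 1), (3, 7, 7, 1), (3, 8, 8, 1), (3, 14, 14, 1), (3, 15, 15, 1),
   (4, 13, 4, 3), (4, 16, 4, 4), (4, 17, 4, 5), (5, 17, 5, 5), (6, 6, 6, 2), (6, 16, 6, 4),
   (6, 17, 6, 5), (7, 16, 7, 4), (7, 17, 7, 5), (8, 8, 8, 3), (8, 17, 8, 5), (9, 12, 9, 2),
   (9, 13, 9, 3), (9, 16, 9, 4), (9, 17, 9, 5), (10, 10, 10, 1), (10, 13, 10, 3),
   (10, 16, 10, 4), (10, 17, 10, 5), (11, 11, 11, 3), (11, 17, 11, 5), (12, 14, 14, 2),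
   (12, 15, 15, 2), (13, 14, 14, 3), (14, 14, 14, 5), (15, 16, 15, 4), (15, 17, 15, 5),
   (1, 2, 2, 6), (1, 5, 5, 6), (1, 11, 11, 6), (2, 2, 2, 4), (4, 4, 4, 2), (4, 14, 14, 4),
   (5, 5, 5, 3), (5, 14, 5, 2), (6, 15, 6, 3), (7, 7, 7, 6), (9, 9, 9, 6), (9, 14, 14, 6),
   (9, 15, 15, 6), (10, 11, 11, 1), (10, 14, 10, 2), (11, 14, 11, 2), (15, 15, 15, 3),
   (1, 7, 1, 1), (1, 8, 8, 6), (1, 10, 10, 6), (1, 14, 1, 2), (2, 14, 2, 2), (4, 5, 5, 4),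
   (6, 8, 8, 2), (7, 8, 7, 3), (9, 10, 9, 1), (1, 4, 4, 6), (2, 5, 2, 3), (2, 11, 11, 4),
   (4, 7, 7, 2), (4, 8, 8, 4), (6, 7, 6, 6), (2, 8, 2, 1)]

/-- The steps in terms of the vertices. -/
def stV : List ((V × V) × V × Fin 7) :=
  st.map fun s => ((dec s.1, dec s.2.1), dec s.2.2.1, Fin.ofNat 7 s.2.2.2)

/-- The chain. -/
def chain (i : Fin 6) : V := dec ([0, 3, 12, 13, 16, 17].getD i 0)

theorem dec_enc : ∀ v : V, dec (enc v) = v := by decide +kernel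

theorem enc_lt : ∀ v : V, enc v < 18 := by decide +kernel

theorem chain_adj : ∀ i j : Fin 6, chain i ≤ chain j ∨ chain j ≤ chain i := by decide +kernel

theorem p_chain : ∀ (i : Fin 6) (j : Fin 7), p (chain i) j = if j = i.castSucc then 1 else 0 := by
  decide +kernel

theorem st_adj : ∀ s ∈ stV, s.1.1 ≤ s.1.2 := by decide +kernel

theorem run_ok : Elim.run (bitOf enc) (2 ^ (18 * 7) - 1)
    (chainSteps p ((List.finRange 6).map chain) stV) 0 = true := by decide +kernel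

end B2

theorem base122 : StBase122 :=
  ⟨_, rigOn_of_cert (n := 6) (fun α β => α ≤ β) B2.p B2.chain B2.enc
    (LeftInverse.injective B2.dec_enc) 18 B2.enc_lt B2.stV B2.chain_adj B2.p_chain
    B2.st_adj B2.run_ok⟩

end Pool.Agent.Helper41.SV
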