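import Pool.Agent.Helper41.SV.Defs

/-!
Closure properties of polynomial functions and of generic properties; exactness and determinants.
-/

open Finset Function

noncomputable section

namespace Pool.Agent.Helper41.SV

variable {σ τ : Type}

theorem IsPoly.const (c : ℂ) : IsPoly (fun _ : σ → ℂ => c) :=
  ⟨MvPolynomial.C c, fun t => by simp⟩

theorem IsPoly.coord (i : σ) : IsPoly (fun t : σ → ℂ => t i) :=
  ⟨MvPolynomial.X i, fun t => by simp⟩

theorem IsPoly.add {f g : (σ → ℂ) → ℂ} (hf : IsPoly f) (hg : IsPoly g) :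
    IsPoly (fun t => f t + g t) := by
  obtain ⟨P, hP⟩ := hf
  obtain ⟨Q, hQ⟩ := hg
  exact ⟨P + Q, fun t => by simp [hP, hQ]⟩

theorem IsPoly.neg {f : (σ → ℂ) → ℂ} (hf : IsPoly f) : IsPoly (fun t => - f t) := by
  obtain ⟨P, hP⟩ := hf
  exact ⟨-P, fun t => by simp [hP]⟩

theorem IsPoly.sub {f g : (σ → ℂ) → ℂ} (hf : IsPoly f) (hg : IsPoly g) :
    IsPoly (fun t => f t - g t) := by
  obtain ⟨P, hP⟩ := hf
  obtain ⟨Q, hQ⟩ := hg
  exact ⟨P - Q, fun t => by simp [hP, hQ]⟩

theorem IsPoly.mul {f g : (σ → ℂ) → ℂ} (hf : IsPoly f) (hg : IsPoly g) :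
    IsPoly (fun t => f t * g t) := by
  obtain ⟨P, hP⟩ := hf
  obtain ⟨Q, hQ⟩ := hg
  exact ⟨P * Q, fun t => by simp [hP, hQ]⟩

theorem IsPoly.pow {f : (σ → ℂ) → ℂ} (hf : IsPoly f) (n : ℕ) : IsPoly (fun t => f t ^ n) := by
  obtain ⟨P, hP⟩ := hf
  exact ⟨P ^ n, fun t => by simp [hP]⟩

theorem IsPoly.sum {α : Type*} (s : Finset α) {f : α → (σ → ℂ) → ℂ}
    (hf : ∀ a ∈ s, IsPoly (f a)) : IsPoly (fun t => ∑ a ∈ s, f a t) := by
  classical
  induction s using Finset.induction_on with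
  | empty => simpa using IsPoly.const (σ := σ) 0
  | insert a s ha ih =>
    simp only [Finset.sum_insert ha]
    exact (hf a (by simp)).add (ih fun b hb => hf b (by simp [hb]))

theorem IsPoly.prod {α : Type*} (s : Finset α) {f : α → (σ → ℂ) → ℂ}
    (hf : ∀ a ∈ s, IsPoly (f a)) : IsPoly (fun t => ∏ a ∈ s, f a t) := by
  classical
  induction s using Finset.induction_on with
  | empty => simpa using IsPoly.const (σ := σ) 1
  | insert a s ha ih =>
    simp only [Finset.prod_insert ha]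
    exact (hf a (by simp)).mul (ih fun b hb => hf b (by simp [hb]))

theorem IsPoly.ite {p : Prop} [Decidable p] {f g : (σ → ℂ) → ℂ} (hf : IsPoly f) (hg : IsPoly g) :
    IsPoly (fun t => if p then f t else g t) := by
  by_cases h : p <;> simp [h, hf, hg]

theorem IsPoly.congr {f g : (σ → ℂ) → ℂ} (hf : IsPoly f) (h : ∀ t, f t = g t) : IsPoly g := by
  have : f = g := funext h
  exact this ▸ hf

/-- Composition with a polynomial map. -/
theorem IsPoly.comp {f : (τ → ℂ) → ℂ} (hf : IsPoly f) {φ : (σ → ℂ) → τ → ℂ}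
    (hφ : ∀ i, IsPoly (fun t => φ t i)) : IsPoly (fun t => f (φ t)) := by
  obtain ⟨P, hP⟩ := hf
  choose R hR using hφ
  refine ⟨MvPolynomial.bind₁ R P, fun t => ?_⟩
  have h1 : φ t = fun i => MvPolynomial.eval t (R i) := funext fun i => hR i t
  change f (φ t) = _
  rw [hP, h1]
  exact (MvPolynomial.eval₂Hom_bind₁ (RingHom.id ℂ) t R P).symm

theorem IsPoly.det {n : Type} [Fintype n] [DecidableEq n] {A : (σ → ℂ) → Matrix n n ℂ}
    (hA : ∀ i j, IsPoly (fun t => A t i j)) : IsPoly (fun t => (A t).det) := by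
  simp only [Matrix.det_apply]
  refine IsPoly.sum _ fun s _ => ?_
  have h := (IsPoly.const (σ := σ) ((Equiv.Perm.sign s : ℤ) : ℂ)).mul
    (IsPoly.prod Finset.univ fun i (_ : i ∈ Finset.univ) => hA (s i) i)
  refine h.congr fun t => ?_
  rw [Units.smul_def, zsmul_eq_mul]

/-! ### Generic properties -/

theorem Gen.mono {Q R : (σ → ℂ) → Prop} (h : Gen Q) (hQR : ∀ t, Q t → R t) : Gen R := by
  obtain ⟨P, hP, h⟩ := h
  exact ⟨P, hP, fun t ht => hQR t (h t ht)⟩

theorem Gen.of_forall {Q : (σ → ℂ) → Prop} (h : ∀ t, Q t) : Gen Q :=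
  ⟨1, one_ne_zero, fun t _ => h t⟩

theorem Gen.and {Q R : (σ → ℂ) → Prop} (hQ : Gen Q) (hR : Gen R) : Gen (fun t => Q t ∧ R t) := by
  obtain ⟨P, hP, h⟩ := hQ
  obtain ⟨P', hP', h'⟩ := hR
  refine ⟨P * P', mul_ne_zero hP hP', fun t ht => ?_⟩
  rw [map_mul] at ht
  exact ⟨h t (left_ne_zero_of_mul ht), h' t (right_ne_zero_of_mul ht)⟩

theorem Gen.forall_finset {α : Type*} (s : Finset α) {Q : α → (σ → ℂ) → Prop}
    (h : ∀ a ∈ s, Gen (Q a)) : Gen (fun t => ∀ a ∈ s, Q a t) := by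
  classical
  induction s using Finset.induction_on with
  | empty => exact Gen.of_forall (by simp)
  | insert a s ha ih =>
    refine ((h a (by simp)).and (ih fun b hb => h b (by simp [hb]))).mono fun t ht => ?_
    intro b hb
    rcases Finset.mem_insert.1 hb with rfl | hb
    · exact ht.1
    · exact ht.2 b hb

theorem Gen.forall {α : Type*} [Fintype α] {Q : α → (σ → ℂ) → Prop}
    (h : ∀ a, Gen (Q a)) : Gen (fun t => ∀ a, Q a t) :=
  (Gen.forall_finset Finset.univ (fun a _ => h a)).mono fun _ ht a => ht a (Finset.mem_univ a)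

/-- A generic property under a decidable (constant) hypothesis. -/
theorem Gen.imp_const {p : Prop} {Q : (σ → ℂ) → Prop} (h : p → Gen Q) :
    Gen (fun t => p → Q t) := by
  by_cases hp : p
  · exact (h hp).mono fun t ht _ => ht
  · exact Gen.of_forall fun t h => absurd h hp

theorem Gen.of_poly {f : (σ → ℂ) → ℂ} (hf : IsPoly f) {t₀ : σ → ℂ} (h : f t₀ ≠ 0) :
    Gen (fun t => f t ≠ 0) := by
  obtain ⟨P, hP⟩ := hf
  refine ⟨P, fun h0 => h ?_, fun t ht => ?_⟩
  · rw [hP, h0, map_zero]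
  · change f t ≠ 0
    rwa [hP]

theorem exists_eval_ne_zero {P : MvPolynomial σ ℂ} (hP : P ≠ 0) :
    ∃ t, MvPolynomial.eval t P ≠ 0 := by
  by_contra h
  push Not at h
  exact hP (MvPolynomial.funext fun t => by rw [h t, map_zero])

theorem Gen.exists {Q : (σ → ℂ) → Prop} (h : Gen Q) : ∃ t, Q t := by
  obtain ⟨P, hP, h⟩ := h
  obtain ⟨t, ht⟩ := exists_eval_ne_zero hP
  exact ⟨t, h t ht⟩

/-- Pull-back along an injective selection of coordinates. -/
theorem Gen.comp_inj {Q : (τ → ℂ) → Prop} (h : Gen Q) {e : τ → σ} (he : Injective e) :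
    Gen (fun t : σ → ℂ => Q (fun i => t (e i))) := by
  obtain ⟨P, hP, h⟩ := h
  refine ⟨MvPolynomial.rename e P, fun h0 => hP ?_, fun t ht => h _ ?_⟩
  · exact MvPolynomial.rename_injective e he (by rw [h0, map_zero])
  · rwa [MvPolynomial.eval_rename] at ht

/-- Specialisation of the coordinates outside the range of an injective map. -/
theorem Gen.extend {Q : (σ → ℂ) → Prop} (h : Gen Q) {e : τ → σ} (he : Injective e) :
    ∃ c : σ → ℂ, Gen (fun t : τ → ℂ => Q (Function.extend e t c)) := by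
  classical
  obtain ⟨P, hP, h⟩ := h
  obtain ⟨c, hc⟩ := exists_eval_ne_zero hP
  refine ⟨c, ?_⟩
  have h1 : IsPoly (fun t : τ → ℂ => MvPolynomial.eval (Function.extend e t c) P) := by
    refine IsPoly.comp (f := fun z => MvPolynomial.eval z P) ⟨P, fun _ => rfl⟩ fun i => ?_
    by_cases hi : ∃ j, e j = i
    · obtain ⟨j, rfl⟩ := hi
      exact (IsPoly.coord j).congr fun t => (he.extend_apply t c j).symm
    · exact (IsPoly.const (c i)).congr fun t => (Function.extend_apply' t c i hi).symm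
  have h2 : MvPolynomial.eval (Function.extend e (fun j => c (e j)) c) P ≠ 0 := by
    have : Function.extend e (fun j => c (e j)) c = c := by
      funext i
      by_cases hi : ∃ j, e j = i
      · obtain ⟨j, rfl⟩ := hi
        rw [he.extend_apply]
      · rw [Function.extend_apply' _ _ _ hi]
    rwa [this]
  exact (Gen.of_poly h1 h2).mono fun t ht => h _ ht

/-- In one parameter a generic property holds at some nonzero parameter. -/
theorem Gen.exists_unit {Q : (Unit → ℂ) → Prop} (h : Gen Q) : ∃ δ : ℂ, δ ≠ 0 ∧ Q (fun _ => δ) := by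
  obtain ⟨t, h1, h2⟩ := (h.and (Gen.of_poly (IsPoly.coord ()) (t₀ := fun _ => 1)
    one_ne_zero)).exists
  exact ⟨t (), h2, by convert h1⟩

/-! ### Exactness -/

open Matrix in
theorem exact_of_det {v w a : Type} [Fintype v] [DecidableEq v] [Fintype w]
    [Fintype a] (E : Matrix w v ℂ) (Om : Matrix v a ℂ) (B : Matrix v w ℂ)
    (C : Matrix a v ℂ) (h : E * Om = 0) (hd : (B * E + Om * C).det ≠ 0) (P : v → ℂ)
    (hP : E *ᵥ P = 0) : ∃ A, P = Om *ᵥ A := by
  -- the operator `Z = B E + Om C` maps the kernel of `E` injectively into the range of `Om`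
  set Z := B * E + Om * C with hZ
  let K : Submodule ℂ (v → ℂ) := LinearMap.ker (Matrix.mulVecLin E)
  let R : Submodule ℂ (v → ℂ) := LinearMap.range (Matrix.mulVecLin Om)
  have hRK : R ≤ K := by
    rintro _ ⟨A, rfl⟩
    simp only [K, LinearMap.mem_ker, Matrix.mulVecLin_apply, Matrix.mulVec_mulVec, h,
      Matrix.zero_mulVec]
  have hinj : Function.Injective (Matrix.mulVecLin Z) := by
    have : IsUnit Z := (Matrix.isUnit_iff_isUnit_det Z).2 (isUnit_iff_ne_zero.2 hd)
    exact Matrix.mulVec_injective_of_isUnit this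
  have hmap : ∀ x ∈ K, Matrix.mulVecLin Z x ∈ R := by
    intro x hx
    simp only [K, LinearMap.mem_ker, Matrix.mulVecLin_apply] at hx
    refine ⟨C *ᵥ x, ?_⟩
    simp only [Matrix.mulVecLin_apply, hZ, Matrix.add_mulVec, ← Matrix.mulVec_mulVec, hx,
      Matrix.mulVec_zero, zero_add]
  have hfin : Module.finrank ℂ K ≤ Module.finrank ℂ R := by
    refine LinearMap.finrank_le_finrank_of_injective
      (f := (Matrix.mulVecLin Z).restrict hmap) ?_
    intro x y hxy
    have := congrArg Subtype.val hxy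
    exact Subtype.ext (hinj this)
  have hKR : R = K := Submodule.eq_of_le_of_finrank_le hRK hfin
  have : P ∈ R := by
    rw [hKR]
    simpa [K] using hP
  obtain ⟨A, hA⟩ := this
  exact ⟨A, by rw [← hA]; rfl⟩

open Matrix in
theorem exists_split {v w a : Type} [Fintype v] [DecidableEq v] [Fintype w] [DecidableEq w]
    [Fintype a] [DecidableEq a] (E : Matrix w v ℂ) (Om : Matrix v a ℂ)
    (h : ∀ P, E *ᵥ P = 0 → ∃ A, P = Om *ᵥ A) :
    ∃ (B : Matrix v w ℂ) (C : Matrix a v ℂ), B * E + Om * C = 1 := by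
  -- choose a projection onto the kernel of `E`
  let K : Submodule ℂ (v → ℂ) := LinearMap.ker (Matrix.mulVecLin E)
  obtain ⟨L, hL⟩ := Submodule.exists_isCompl K
  let π : (v → ℂ) →ₗ[ℂ] (v → ℂ) := K.subtype ∘ₗ K.projectionOnto L hL
  have hπK : ∀ x, π x ∈ K := fun x => (K.projectionOnto L hL x).2
  have hπid : ∀ x ∈ K, π x = x := fun x hx => by
    have := Submodule.projectionOnto_apply_left hL ⟨x, hx⟩
    simp only [π, LinearMap.comp_apply, Submodule.subtype_apply]
    rw [this]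
  -- lift `π` through `Om`
  have hlift : ∀ i : v, ∃ A : a → ℂ, π (Pi.single i 1) = Om *ᵥ A := fun i =>
    h _ (by simpa [K] using hπK (Pi.single i 1))
  choose Cf hCf using hlift
  let C : Matrix a v ℂ := fun i j => Cf j i
  -- left inverse of `E` on the complement
  have hLinj : LinearMap.ker ((Matrix.mulVecLin E) ∘ₗ L.subtype) = ⊥ := by
    rw [LinearMap.ker_eq_bot']
    intro x hx
    have h1 : (x : v → ℂ) ∈ K := by simpa [K] using hx
    have h2 : (x : v → ℂ) ∈ K ⊓ L := ⟨h1, x.2⟩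
    rw [hL.inf_eq_bot] at h2
    exact Subtype.ext (by simpa using h2)
  obtain ⟨g, hg⟩ := LinearMap.exists_leftInverse_of_injective _ hLinj
  let Bl : (w → ℂ) →ₗ[ℂ] (v → ℂ) := L.subtype ∘ₗ g
  have hL1 : ∀ x, x - π x ∈ L := by
    intro x
    have h1 : π (x - π x) = 0 := by
      rw [map_sub, hπid _ (hπK x), sub_self]
    exact (Submodule.projectionOnto_apply_eq_zero_iff hL).1 (Subtype.ext h1)
  have hB : ∀ x, Bl (E *ᵥ x) = x - π x := by
    intro x
    have h1 : E *ᵥ x = E *ᵥ (x - π x) := by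
      have : E *ᵥ π x = 0 := by simpa [K] using hπK x
      rw [Matrix.mulVec_sub, this, sub_zero]
    have h2 := LinearMap.congr_fun hg ⟨x - π x, hL1 x⟩
    have h3 : g (E *ᵥ (x - π x)) = ⟨x - π x, hL1 x⟩ := h2
    rw [h1]
    change (g (E *ᵥ (x - π x)) : v → ℂ) = _
    rw [h3]
  refine ⟨LinearMap.toMatrix' Bl, C, ?_⟩
  refine Matrix.ext_of_mulVec_single fun i => ?_
  have h1 : C *ᵥ Pi.single i 1 = Cf i := by
    rw [Matrix.mulVec_single_one]
    rfl
  rw [Matrix.add_mulVec, ← Matrix.mulVec_mulVec, ← Matrix.mulVec_mulVec, h1, ← hCf,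
    LinearMap.toMatrix'_mulVec, hB, Matrix.one_mulVec, sub_add_cancel]

open Matrix in
theorem exists_left_inv {v w : Type} [Fintype v] [DecidableEq v] [Fintype w] [DecidableEq w]
    (E : Matrix w v ℂ) (h : ∀ P, E *ᵥ P = 0 → P = 0) : ∃ B : Matrix v w ℂ, B * E = 1 := by
  obtain ⟨B, C, hBC⟩ := exists_split E (0 : Matrix v Unit ℂ) fun P hP =>
    ⟨0, by rw [h P hP, Matrix.zero_mulVec]⟩
  exact ⟨B, by rwa [Matrix.zero_mul, add_zero] at hBC⟩

open Matrix in
theorem inj_of_det {v w : Type} [Fintype v] [DecidableEq v] [Fintype w]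
    (E : Matrix w v ℂ) (B : Matrix v w ℂ) (hd : (B * E).det ≠ 0) (P : v → ℂ)
    (hP : E *ᵥ P = 0) : P = 0 := by
  have h1 : (B * E) *ᵥ P = 0 := by rw [← Matrix.mulVec_mulVec, hP, Matrix.mulVec_zero]
  exact Matrix.eq_zero_of_mulVec_eq_zero hd h1

end Pool.Agent.Helper41.SV
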