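import Pool.Agent.Helper41.SV.Stmts
import Pool.Agent.Helper41.SV.Poly

/-!
Triangular elimination (a checker) and the chain lemma for rigidity.
-/

open Finset Function

noncomputable section

namespace Pool.Agent.Helper41.SV

namespace Elim

variable {α : Type} (c : α → ℕ)

/-- In the equation `l` every unknown other than `t` is known to be zero, and the coefficient of
`t` is not zero. -/
def okStep (m : ℕ) (l : List (α × ℤ)) (t : α) : Bool :=
  l.all (fun s => s.2 == 0 || (c s.1 == c t || m.testBit (c s.1))) &&
    (((l.filter (fun s => c s.1 == c t)).map Prod.snd).sum != 0)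

/-- The elimination; `m` is the bit mask of the unknowns known to be zero. -/
def run (full : ℕ) : List (List (α × ℤ) × α) → ℕ → Bool
  | [], m => m == full
  | s :: r, m => okStep c m s.1 s.2 && run full r (m ||| (1 <<< c s.2))

theorem sum_filter (X : α → ℂ) (m : ℕ) (t : α) (hc : Injective c)
    (hm : ∀ a, m.testBit (c a) = true → X a = 0) (l : List (α × ℤ))
    (h : l.all (fun s => s.2 == 0 || (c s.1 == c t || m.testBit (c s.1))) = true) :
    (l.map fun s => (s.2 : ℂ) * X s.1).sum =
      ((((l.filter (fun s => c s.1 == c t)).map Prod.snd).sum : ℤ) : ℂ) * X t := by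
  induction l with
  | nil => simp
  | cons s l ih =>
    simp only [List.all_cons, Bool.and_eq_true] at h
    obtain ⟨h1, h2⟩ := h
    have ih := ih h2
    rw [List.map_cons, List.sum_cons, ih]
    by_cases hs : c s.1 = c t
    · have hst : s.1 = t := hc hs
      rw [List.filter_cons_of_pos (by simpa using hs), List.map_cons, List.sum_cons]
      push_cast
      rw [hst]
      ring
    · rw [List.filter_cons_of_neg (by simpa using hs)]
      have h3 : (s.2 : ℂ) * X s.1 = 0 := by
        simp only [Bool.or_eq_true, beq_iff_eq] at h1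
        rcases h1 with h1 | h1 | h1
        · rw [h1]; simp
        · exact absurd h1 hs
        · rw [hm _ h1, mul_zero]
      rw [h3, zero_add]

theorem run_sound (hc : Injective c) (X : α → ℂ) (N : ℕ) (hN : ∀ a, c a < N)
    (steps : List (List (α × ℤ) × α))
    (h : ∀ s ∈ steps, (s.1.map fun t => (t.2 : ℂ) * X t.1).sum = 0) :
    ∀ m, (∀ a, m.testBit (c a) = true → X a = 0) → run c (2 ^ N - 1) steps m = true →
      ∀ a, X a = 0 := by
  induction steps with
  | nil =>
    intro m hm hr a
    simp only [run, beq_iff_eq] at hr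
    refine hm a ?_
    rw [hr, Nat.testBit_two_pow_sub_one]
    simpa using hN a
  | cons s r ih =>
    intro m hm hr
    simp only [run, Bool.and_eq_true] at hr
    obtain ⟨h1, h2⟩ := hr
    refine ih (fun s' hs' => h s' (List.mem_cons_of_mem _ hs')) _ ?_ h2
    intro a ha
    rw [Nat.testBit_or, Bool.or_eq_true] at ha
    rcases ha with ha | ha
    · exact hm a ha
    · have hac : c a = c s.2 := by
        rw [Nat.one_shiftLeft, Nat.testBit_two_pow] at ha
        simpa using (of_decide_eq_true ha).symm
      have has : a = s.2 := hc hac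
      simp only [okStep, Bool.and_eq_true] at h1
      obtain ⟨h3, h4⟩ := h1
      have h5 := sum_filter c X m s.2 hc hm s.1 h3
      rw [h s (List.mem_cons_self ..)] at h5
      have h6 : ((((s.1.filter (fun s' => c s'.1 == c s.2)).map Prod.snd).sum : ℤ) : ℂ) ≠ 0 := by
        have : ((s.1.filter (fun s' => c s'.1 == c s.2)).map Prod.snd).sum ≠ 0 := by
          simpa using h4
        exact_mod_cast this
      rw [has]
      exact (mul_eq_zero.1 h5.symm).resolve_left h6

end Elim

/-! ### The chain lemma -/

/-- If `p` is the standard basis on a chain of `n` vertices (in `ℂ ^ (n + 1)`) and every motion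
vanishing on the chain is zero, then `p` is rigid. -/
theorem rigOn_of_chain {V : Type} [Fintype V] (adj : V → V → Prop) {n : ℕ}
    (p : V → Fin (n + 1) → ℂ) (c : Fin n → V) (hadj : ∀ i j, adj (c i) (c j) ∨ adj (c j) (c i))
    (hp : ∀ i, p (c i) = Pi.single i.castSucc 1)
    (h : ∀ P : V → Fin (n + 1) → ℂ,
      (∀ u v, adj u v → ∑ i, (P u i * p v i + P v i * p u i) = 0) → (∀ i, P (c i) = 0) → P = 0) :
    RigOn adj univ p := by
  intro P hP
  have hP' : ∀ u v, adj u v → ∑ i, (P u i * p v i + P v i * p u i) = 0 := fun u v huv =>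
    hP u (mem_univ _) v (mem_univ _) huv
  let A : Fin (n + 1) → Fin (n + 1) → ℂ := fun i j =>
    Fin.lastCases (motive := fun _ => ℂ)
      (Fin.lastCases (motive := fun _ => ℂ) 0 (fun i' => - P (c i') (Fin.last n)) i)
      (fun j' => P (c j') i) j
  have hA1 : ∀ i (j : Fin n), A i j.castSucc = P (c j) i := by
    intro i j
    simp [A]
  have hA2 : ∀ i : Fin n, A i.castSucc (Fin.last n) = - P (c i) (Fin.last n) := by
    intro i
    simp [A]
  have hA3 : A (Fin.last n) (Fin.last n) = 0 := by
    simp [A]
  have hch : ∀ i j : Fin n, P (c i) j.castSucc + P (c j) i.castSucc = 0 := by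
    intro i j
    have key : ∀ i j : Fin n, adj (c i) (c j) → P (c i) j.castSucc + P (c j) i.castSucc = 0 := by
      intro i j hij
      have h1 := hP' _ _ hij
      rw [hp, hp, sum_add_distrib] at h1
      simpa [Pi.single_apply] using h1
    rcases hadj i j with hij | hij
    · exact key i j hij
    · rw [add_comm]; exact key j i hij
  have hA : ∀ i j, A i j = - A j i := by
    intro i j
    induction i using Fin.lastCases with
    | last =>
      induction j using Fin.lastCases with
      | last => rw [hA3, neg_zero]
      | cast j => rw [hA1, hA2, neg_neg]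
    | cast i =>
      induction j using Fin.lastCases with
      | last => rw [hA1, hA2]
      | cast j =>
        rw [hA1, hA1]
        exact eq_neg_of_add_eq_zero_left (hch j i)
  refine ⟨A, hA, ?_⟩
  have h0 := h (fun v i => P v i - ∑ j, A i j * p v j) ?_ ?_
  · intro v _ i
    have := congrFun (congrFun h0 v) i
    exact sub_eq_zero.1 this
  · intro u v huv
    have h1 : ∑ i, ((∑ j, A i j * p u j) * p v i + (∑ j, A i j * p v j) * p u i) = 0 := by
      rw [sum_add_distrib]
      simp only [sum_mul]
      rw [sum_comm (f := fun i j => A i j * p v j * p u i), ← sum_add_distrib]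
      refine sum_eq_zero fun i _ => ?_
      rw [← sum_add_distrib]
      refine sum_eq_zero fun j _ => ?_
      rw [hA j i]
      ring
    have h2 := hP' u v huv
    calc ∑ i, ((P u i - ∑ j, A i j * p u j) * p v i + (P v i - ∑ j, A i j * p v j) * p u i)
        = ∑ i, (P u i * p v i + P v i * p u i)
          - ∑ i, ((∑ j, A i j * p u j) * p v i + (∑ j, A i j * p v j) * p u i) := by
          rw [← sum_sub_distrib]
          refine sum_congr rfl fun i _ => ?_
          ring
      _ = 0 := by rw [h1, h2, sub_zero]
  · intro k
    funext i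
    change P (c k) i - ∑ j, A i j * p (c k) j = 0
    rw [hp]
    simp only [Pi.single_apply, mul_ite, mul_one, mul_zero, sum_ite_eq', mem_univ, if_true]
    rw [hA1, sub_self]

/-- The equation of a pair. -/
def pairEq {V : Type} {d : ℕ} (p : V → Fin d → ℤ) (u v : V) : List ((V × Fin d) × ℤ) :=
  ((List.finRange d).map fun i => ((u, i), p v i)) ++
    ((List.finRange d).map fun i => ((v, i), p u i))

/-- The steps: first the chain, then the steps of the certificate. -/
def chainSteps {V : Type} {n : ℕ} (p : V → Fin (n + 1) → ℤ) (c : List V)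
    (st : List ((V × V) × V × Fin (n + 1))) : List (List ((V × Fin (n + 1)) × ℤ) × (V × Fin (n + 1))) :=
  (c.flatMap fun v => (List.finRange (n + 1)).map fun i => ([((v, i), 1)], (v, i))) ++
    (st.map fun s => (pairEq p s.1.1 s.1.2, s.2))

/-- The bit of an unknown. -/
def bitOf {V : Type} {d : ℕ} (e : V → ℕ) (a : V × Fin d) : ℕ := e a.1 * d + a.2

theorem bitOf_injective {V : Type} {d : ℕ} (e : V → ℕ) (he : Injective e) :
    Injective (bitOf (d := d) e) := by
  rintro ⟨u, i⟩ ⟨v, j⟩ h
  simp only [bitOf] at h
  have hi := i.2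
  have hj := j.2
  have hd : 0 < d := lt_of_le_of_lt (Nat.zero_le _) hi
  have h1 : e u = e v := by
    have h2 : (e u * d + i) / d = (e v * d + j) / d := by rw [h]
    rw [Nat.add_comm, Nat.add_mul_div_right _ _ hd, Nat.div_eq_of_lt hi,
      Nat.add_comm (e v * d), Nat.add_mul_div_right _ _ hd, Nat.div_eq_of_lt hj] at h2
    simpa using h2
  have h3 : (i : ℕ) = j := by
    rw [h1] at h
    exact Nat.add_left_cancel h
  rw [he h1, Fin.ext h3]

theorem bitOf_lt {V : Type} {d : ℕ} (e : V → ℕ) {N : ℕ} (he : ∀ v, e v < N) (a : V × Fin d) :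
    bitOf e a < N * d := by
  have h1 := he a.1
  have h2 := a.2.2
  calc e a.1 * d + a.2 < e a.1 * d + d := Nat.add_lt_add_left h2 _
    _ = (e a.1 + 1) * d := by ring
    _ ≤ N * d := Nat.mul_le_mul_right _ h1

/-- Rigidity from a certificate. -/
theorem rigOn_of_cert {V : Type} [Fintype V] (adj : V → V → Prop) {n : ℕ}
    (p : V → Fin (n + 1) → ℤ) (c : Fin n → V) (e : V → ℕ) (he : Injective e) (N : ℕ)
    (hN : ∀ v, e v < N) (st : List ((V × V) × V × Fin (n + 1)))
    (hadj : ∀ i j, adj (c i) (c j) ∨ adj (c j) (c i))
    (hp : ∀ i j, p (c i) j = if j = i.castSucc then 1 else 0)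
    (hst : ∀ s ∈ st, adj s.1.1 s.1.2)
    (hrun : Elim.run (bitOf e) (2 ^ (N * (n + 1)) - 1)
      (chainSteps p ((List.finRange n).map c) st) 0 = true) :
    RigOn adj univ (fun v i => ((p v i : ℤ) : ℂ)) := by
  refine rigOn_of_chain adj _ c hadj ?_ ?_
  · intro i
    funext j
    rw [hp, Pi.single_apply]
    split_ifs <;> simp
  · intro P hP hc
    have h1 := Elim.run_sound (bitOf e) (bitOf_injective e he) (fun a => P a.1 a.2)
      (N * (n + 1)) (bitOf_lt e hN) (chainSteps p ((List.finRange n).map c) st) ?_ 0
      (by intro a ha; simp at ha) hrun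
    · funext v i
      exact h1 (v, i)
    · intro s hs
      rw [chainSteps, List.mem_append] at hs
      rcases hs with hs | hs
      · simp only [List.mem_flatMap, List.mem_map] at hs
        obtain ⟨v, ⟨k, _, rfl⟩, i, _, rfl⟩ := hs
        simp [hc k]
      · simp only [List.mem_map] at hs
        obtain ⟨s, hs, rfl⟩ := hs
        have h2 := hP _ _ (hst s hs)
        simp only [pairEq, List.map_append, List.map_map, List.sum_append]
        rw [sum_add_distrib, Fin.sum_univ_def, Fin.sum_univ_def] at h2
        refine Eq.trans ?_ h2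
        congr 1
        · refine congrArg List.sum (List.map_congr_left fun i _ => ?_)
          simp [mul_comm]
        · refine congrArg List.sum (List.map_congr_left fun i _ => ?_)
          simp [mul_comm]

end Pool.Agent.Helper41.SV
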