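import Pool.Agent.Helper41.SV.Poly

/-!
Basic facts on multilinear forms, forms of degree `(2,...,2)` and the critical system.
-/

open Finset Function

noncomputable section

set_option linter.unusedSectionVars false

namespace Pool.Agent.Helper41.SV

variable {κ ι : Type} [Fintype κ] [DecidableEq κ] [Fintype ι] [DecidableEq ι]

/-! ### Evaluation of multilinear forms -/

theorem prod_update (x : κ → ι → ℂ) (j : κ) (v : ι → ℂ) (α : κ → ι) :
    ∏ m, update x j v m (α m) = v (α j) * ∏ m ∈ univ.erase j, x m (α m) := by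
  rw [← Finset.mul_prod_erase univ _ (mem_univ j), update_self]
  congr 1
  refine Finset.prod_congr rfl fun m hm => ?_
  rw [update_of_ne (Finset.ne_of_mem_erase hm)]

theorem ev_update (t : (κ → ι) → ℂ) (x : κ → ι → ℂ) (j : κ) (v : ι → ℂ) :
    ev t (update x j v) = ∑ α, t α * (v (α j) * ∏ m ∈ univ.erase j, x m (α m)) := by
  simp only [ev, prod_update]

theorem ev_update_sum (t : (κ → ι) → ℂ) (x : κ → ι → ℂ) (j : κ) (v : ι → ℂ) :
    ev t (update x j v) = ∑ i, v i * ev t (update x j (Pi.single i 1)) := by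
  simp only [ev_update, Finset.mul_sum]
  rw [Finset.sum_comm]
  refine Finset.sum_congr rfl fun α _ => ?_
  rw [Finset.sum_eq_single (α j)]
  · rw [Pi.single_eq_same]; ring
  · intro b _ hb
    rw [Pi.single_eq_of_ne (Ne.symm hb)]; ring
  · intro h; exact absurd (mem_univ _) h

theorem ev_eq_sum (t : (κ → ι) → ℂ) (x : κ → ι → ℂ) (j : κ) :
    ev t x = ∑ i, x j i * ev t (update x j (Pi.single i 1)) := by
  rw [← ev_update_sum, update_eq_self]

theorem ev_update_zero (t : (κ → ι) → ℂ) (x : κ → ι → ℂ) (j : κ) : ev t (update x j 0) = 0 := by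
  rw [ev_update]; simp

theorem ev_add (t t' : (κ → ι) → ℂ) (x : κ → ι → ℂ) : ev (t + t') x = ev t x + ev t' x := by
  simp [ev, add_mul, Finset.sum_add_distrib]

theorem ev_smul (c : ℂ) (t : (κ → ι) → ℂ) (x : κ → ι → ℂ) : ev (c • t) x = c * ev t x := by
  simp [ev, Finset.mul_sum, mul_assoc]

theorem ev_mul_left (c : ℂ) (t : (κ → ι) → ℂ) (x : κ → ι → ℂ) :
    ev (fun α => c * t α) x = c * ev t x := by
  simp [ev, Finset.mul_sum, mul_assoc]

theorem ev_zero (x : κ → ι → ℂ) : ev (0 : (κ → ι) → ℂ) x = 0 := by simp [ev]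

theorem ev_sum {γ : Type*} (s : Finset γ) (t : γ → (κ → ι) → ℂ) (x : κ → ι → ℂ) :
    ev (fun α => ∑ a ∈ s, t a α) x = ∑ a ∈ s, ev (t a) x := by
  simp only [ev, Finset.sum_mul]
  rw [Finset.sum_comm]

theorem ev_single (t : (κ → ι) → ℂ) (α : κ → ι) :
    ev t (fun j => Pi.single (α j) 1) = t α := by
  simp only [ev]
  rw [Finset.sum_eq_single α]
  · simp
  · intro β _ hβ
    obtain ⟨j, hj⟩ := Function.ne_iff.1 hβ
    rw [Finset.prod_eq_zero (mem_univ j), mul_zero]
    exact Pi.single_eq_of_ne hj _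
  · intro h; exact absurd (mem_univ _) h

/-- Evaluation of the form `∏ x j (o j)`. -/
theorem ev_basis (o : κ → ι) (x : κ → ι → ℂ) : ev (Pi.single o 1) x = ∏ j, x j (o j) := by
  simp only [ev]
  rw [Finset.sum_eq_single o]
  · simp
  · intro β _ hβ
    rw [Pi.single_eq_of_ne hβ, zero_mul]
  · intro h; exact absurd (mem_univ _) h

theorem hasDerivAt_ev (t : (κ → ι) → ℂ) (x ξ : κ → ι → ℂ) :
    HasDerivAt (fun s : ℂ => ev t (x + s • ξ)) (∑ j, ev t (update x j (ξ j))) 0 := by
  have h1 : ∀ α : κ → ι, HasDerivAt (fun s : ℂ => ∏ j, (x + s • ξ) j (α j))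
      (∑ j, (∏ m ∈ univ.erase j, x m (α m)) • ξ j (α j)) 0 := by
    intro α
    have h2 : ∀ j ∈ (univ : Finset κ), HasDerivAt (fun s : ℂ => (x + s • ξ) j (α j))
        (ξ j (α j)) 0 := by
      intro j _
      simp only [Pi.add_apply, Pi.smul_apply, smul_eq_mul]
      have h3 := ((hasDerivAt_id (0 : ℂ)).mul_const (ξ j (α j))).const_add (x j (α j))
      simpa using h3
    have h4 := HasDerivAt.fun_finsetProd h2
    simpa using h4
  have h5 : HasDerivAt (fun s : ℂ => ∑ α, t α * ∏ j, (x + s • ξ) j (α j))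
      (∑ α, t α * ∑ j, (∏ m ∈ univ.erase j, x m (α m)) • ξ j (α j)) 0 :=
    HasDerivAt.fun_sum fun α _ => (h1 α).const_mul (t α)
  have h6 : ∑ j, ev t (update x j (ξ j)) =
      ∑ α, t α * ∑ j, (∏ m ∈ univ.erase j, x m (α m)) • ξ j (α j) := by
    simp only [ev_update, Finset.mul_sum]
    rw [Finset.sum_comm]
    refine Finset.sum_congr rfl fun α _ => Finset.sum_congr rfl fun j _ => ?_
    rw [smul_eq_mul, mul_comm (ξ j (α j))]
  rw [h6]
  exact h5

/-! ### Supports -/

theorem ev_eq_zero {I : κ → Finset ι} {t : (κ → ι) → ℂ} (ht : SuppU I t)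
    (h : ∀ x, SuppX I x → ev t x = 0) : t = 0 := by
  funext α
  by_cases hα : ∃ j, α j ∉ I j
  · exact ht α hα
  · push Not at hα
    rw [← ev_single t α]
    refine h _ fun j i hi => ?_
    refine Pi.single_eq_of_ne (fun h => hi ?_) _
    rw [h]; exact hα j

theorem suppU_cutU (I : κ → Finset ι) (t : (κ → ι) → ℂ) : SuppU I (cutU I t) := by
  rintro α ⟨j, hj⟩
  simp only [cutU]
  rw [if_neg]
  intro h; exact hj (h j)

theorem ev_cutU {I : κ → Finset ι} (t : (κ → ι) → ℂ) {x : κ → ι → ℂ} (hx : SuppX I x) :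
    ev (cutU I t) x = ev t x := by
  simp only [ev, cutU]
  refine Finset.sum_congr rfl fun α _ => ?_
  split_ifs with h
  · rfl
  · push Not at h
    obtain ⟨j, hj⟩ := h
    rw [Finset.prod_eq_zero (mem_univ j) (hx j _ hj)]
    simp

theorem suppX_update {I : κ → Finset ι} {x : κ → ι → ℂ} (hx : SuppX I x) {j : κ} {v : ι → ℂ}
    (hv : ∀ i, i ∉ I j → v i = 0) : SuppX I (update x j v) := by
  intro m i hi
  by_cases h : m = j
  · subst h; rw [update_self]; exact hv i hi
  · rw [update_of_ne h]; exact hx m i hi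

theorem suppX_update_single {I : κ → Finset ι} {x : κ → ι → ℂ} (hx : SuppX I x) {j : κ} {i : ι}
    (hi : i ∈ I j) : SuppX I (update x j (Pi.single i 1)) := by
  refine suppX_update hx fun i' hi' => ?_
  refine Pi.single_eq_of_ne (fun h => hi' ?_) _
  rw [h]; exact hi

theorem del_subset (I : κ → Finset ι) (o : κ → ι) (S : Finset κ) (j : κ) :
    del I o S j ⊆ I j := by
  simp only [del]
  split_ifs
  · exact Finset.erase_subset _ _
  · exact Finset.Subset.refl _

theorem suppX_mono {I J : κ → Finset ι} (h : ∀ j, I j ⊆ J j) {x : κ → ι → ℂ} (hx : SuppX I x) :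
    SuppX J x := fun j i hi => hx j i fun h' => hi (h j h')

theorem suppX_del {I : κ → Finset ι} {o : κ → ι} {S : Finset κ} {x : κ → ι → ℂ}
    (hx : SuppX (del I o S) x) : SuppX I x := suppX_mono (del_subset I o S) hx

/-! ### Forms of degree `(2,...,2)` -/

theorem mon_mk (a b : ι) (v : ι → ℂ) : mon s(a, b) v = v a * v b := rfl

theorem evS_mulS (t t' : (κ → ι) → ℂ) (x : κ → ι → ℂ) :
    evS (mulS t t') x = ev t x * ev t' x := by
  have h1 : ∀ (α β : κ → ι) (s : κ → Sym2 ι), (∀ j, s(α j, β j) = s j) ↔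
      s = fun j => s(α j, β j) := by
    intro α β s
    constructor
    · intro h; funext j; exact (h j).symm
    · rintro rfl j; rfl
  simp only [evS, mulS, h1, Finset.sum_mul, ite_mul, zero_mul]
  rw [Finset.sum_comm]
  simp only [ev, Finset.sum_mul_sum]
  refine Finset.sum_congr rfl fun α _ => ?_
  rw [Finset.sum_comm]
  refine Finset.sum_congr rfl fun β _ => ?_
  rw [Finset.sum_ite_eq' univ (fun j => s(α j, β j))]
  simp only [mem_univ, if_true, mon_mk, Finset.prod_mul_distrib]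
  ring

theorem evS_add (P P' : (κ → Sym2 ι) → ℂ) (x : κ → ι → ℂ) :
    evS (P + P') x = evS P x + evS P' x := by
  simp [evS, add_mul, Finset.sum_add_distrib]

theorem evS_sub (P P' : (κ → Sym2 ι) → ℂ) (x : κ → ι → ℂ) :
    evS (P - P') x = evS P x - evS P' x := by
  simp [evS, sub_mul, Finset.sum_sub_distrib]

theorem evS_smul (c : ℂ) (P : (κ → Sym2 ι) → ℂ) (x : κ → ι → ℂ) :
    evS (c • P) x = c * evS P x := by
  simp [evS, Finset.mul_sum, mul_assoc]

theorem evS_mul_left (c : ℂ) (P : (κ → Sym2 ι) → ℂ) (x : κ → ι → ℂ) :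
    evS (fun s => c * P s) x = c * evS P x := by
  simp [evS, Finset.mul_sum, mul_assoc]

theorem evS_sum {γ : Type*} (u : Finset γ) (P : γ → (κ → Sym2 ι) → ℂ) (x : κ → ι → ℂ) :
    evS (fun s => ∑ a ∈ u, P a s) x = ∑ a ∈ u, evS (P a) x := by
  simp only [evS, Finset.sum_mul]
  rw [Finset.sum_comm]

/-- Moving a coordinate from the form to the point. -/
theorem sum_swap (j : κ) (f : (κ → ι) → ι → ℂ) :
    ∑ α : κ → ι, ∑ b, f α b = ∑ β : κ → ι, ∑ a, f (update β j a) (β j) := by
  rw [← Finset.sum_product', ← Finset.sum_product']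
  refine Finset.sum_bij' (fun p _ => (update p.1 j p.2, p.1 j))
    (fun p _ => (update p.1 j p.2, p.1 j)) ?_ ?_ ?_ ?_ ?_
  · intro p _; simp
  · intro p _; simp
  · intro p _; simp
  · intro p _; simp
  · intro p _; simp

theorem ev_actU (A : κ → ι → ι → ℂ) (t : (κ → ι) → ℂ) (x : κ → ι → ℂ) :
    ev (actU A t) x = act A t x := by
  simp only [act]
  change ev (fun β => ∑ j, ∑ a, t (update β j a) * A j a (β j)) x = _
  rw [ev_sum]
  refine Finset.sum_congr rfl fun j _ => ?_
  rw [ev_update]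
  have h1 : ∀ α : κ → ι, t α * ((∑ b, A j (α j) b * x j b) * ∏ m ∈ univ.erase j, x m (α m)) =
      ∑ b, t α * (A j (α j) b * x j b * ∏ m ∈ univ.erase j, x m (α m)) := by
    intro α
    rw [Finset.sum_mul, Finset.mul_sum]
  simp only [h1]
  rw [sum_swap j]
  simp only [ev, Finset.sum_mul]
  refine Finset.sum_congr rfl fun β _ => Finset.sum_congr rfl fun a _ => ?_
  rw [← Finset.mul_prod_erase univ _ (mem_univ j)]
  have h2 : ∏ m ∈ univ.erase j, x m (update β j a m) = ∏ m ∈ univ.erase j, x m (β m) := by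
    refine Finset.prod_congr rfl fun m hm => ?_
    rw [update_of_ne (Finset.ne_of_mem_erase hm)]
  rw [h2, update_self]
  ring

theorem evS_soS (A : κ → ι → ι → ℂ) {r : ℕ} (T : Fin r → (κ → ι) → ℂ) (x : κ → ι → ℂ) :
    evS (soS A T) x = soG A T x := by
  simp only [soG]
  change evS (fun s => 2 * ∑ a, mulS (T a) (actU A (T a)) s) x = _
  rw [evS_mul_left, evS_sum]
  simp only [evS_mulS, ev_actU]

theorem soG_eq (A : κ → ι → ι → ℂ) {r : ℕ} (T : Fin r → (κ → ι) → ℂ) (x : κ → ι → ℂ) :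
    soG A T x = ∑ j, ∑ i, (∑ b, A j i b * x j b) * dG T x j i := by
  simp only [soG, act, dG, Finset.mul_sum]
  rw [Finset.sum_comm]
  refine Finset.sum_congr rfl fun j _ => ?_
  rw [Finset.sum_comm]
  refine Finset.sum_congr rfl fun a _ => ?_
  rw [ev_update_sum, Finset.mul_sum, Finset.mul_sum]
  refine Finset.sum_congr rfl fun i _ => ?_
  ring

/-- Cutting. -/
theorem suppS_cutS (I : κ → Finset ι) (P : (κ → Sym2 ι) → ℂ) : SuppS I (cutS I P) := by
  rintro s ⟨j, i, hi, hI⟩
  simp only [cutS]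
  rw [if_neg]
  intro h; exact hI (h j i hi)

theorem mon_eq_zero {v : ι → ℂ} {s : Sym2 ι} {i : ι} (hi : i ∈ s) (h : v i = 0) : mon s v = 0 := by
  obtain ⟨b, rfl⟩ := hi
  rw [mon_mk, h, zero_mul]

theorem evS_cutS {I : κ → Finset ι} (P : (κ → Sym2 ι) → ℂ) {x : κ → ι → ℂ} (hx : SuppX I x) :
    evS (cutS I P) x = evS P x := by
  simp only [evS, cutS]
  refine Finset.sum_congr rfl fun s _ => ?_
  split_ifs with h
  · rfl
  · push Not at h
    obtain ⟨j, i, hi, hI⟩ := h
    rw [Finset.prod_eq_zero (mem_univ j) (mon_eq_zero hi (hx j i hI))]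
    simp

/-- Vectors and coefficients that extract the coefficient of a monomial of degree two. -/
theorem exists_extract (s : Sym2 ι) : ∃ (w : Fin 3 → ι → ℂ) (c : Fin 3 → ℂ),
    (∀ k i, i ∉ s → w k i = 0) ∧
    ∀ s' : Sym2 ι, ∑ k, c k * mon s' (w k) = if s' = s then 1 else 0 := by
  induction s using Sym2.ind with
  | _ a b =>
  by_cases hab : a = b
  · subst hab
    refine ⟨fun _ => Pi.single a 1, ![1, 0, 0], ?_, ?_⟩
    · intro k i hi
      refine Pi.single_eq_of_ne (fun h => hi ?_) _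
      rw [h]; exact Sym2.mem_mk_left _ _
    · intro s'
      induction s' using Sym2.ind with
      | _ x y =>
      simp only [Fin.sum_univ_three, mon_mk, Matrix.cons_val_zero, Matrix.cons_val_one,
        Matrix.cons_val_two, Matrix.tail_cons, Matrix.head_cons]
      by_cases hx : x = a <;> by_cases hy : y = a
      · subst hx; subst hy; simp
      · subst hx
        rw [if_neg]
        · simp [Pi.single_eq_of_ne hy]
        · intro h
          rw [Sym2.eq_iff] at h
          rcases h with ⟨_, h⟩ | ⟨_, h⟩ <;> exact hy h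
      · subst hy
        rw [if_neg]
        · simp [Pi.single_eq_of_ne hx]
        · intro h
          rw [Sym2.eq_iff] at h
          rcases h with ⟨h, _⟩ | ⟨h, _⟩ <;> exact hx h
      · rw [if_neg]
        · simp [Pi.single_eq_of_ne hx]
        · intro h
          rw [Sym2.eq_iff] at h
          rcases h with ⟨h, _⟩ | ⟨h, _⟩ <;> exact hx h
  · refine ⟨![Pi.single a 1 + Pi.single b 1, Pi.single a 1, Pi.single b 1], ![1, -1, -1], ?_, ?_⟩
    · intro k i hi
      have ha : i ≠ a := fun h => hi (by rw [h]; exact Sym2.mem_mk_left _ _)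
      have hb : i ≠ b := fun h => hi (by rw [h]; exact Sym2.mem_mk_right _ _)
      fin_cases k <;> simp [Pi.single_eq_of_ne ha, Pi.single_eq_of_ne hb]
    · intro s'
      induction s' using Sym2.ind with
      | _ x y =>
      simp only [Fin.sum_univ_three, mon_mk, Matrix.cons_val_zero, Matrix.cons_val_one,
        Matrix.cons_val_two, Matrix.tail_cons, Matrix.head_cons, Pi.add_apply]
      have key : (s(x, y) = s(a, b)) ↔ (x = a ∧ y = b) ∨ (x = b ∧ y = a) := Sym2.eq_iff
      rw [if_congr key rfl rfl]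
      simp only [Pi.single_apply]
      by_cases hxa : x = a <;> by_cases hxb : x = b <;> by_cases hya : y = a <;>
        by_cases hyb : y = b <;> simp_all

/-- The coefficients of a form vanishing on a format are zero. -/
theorem evS_eq_zero {I : κ → Finset ι} {P : (κ → Sym2 ι) → ℂ}
    (h : ∀ x, SuppX I x → evS P x = 0) (s : κ → Sym2 ι) (hs : ∀ j, ∀ i ∈ s j, i ∈ I j) :
    P s = 0 := by
  choose w c hw hc using fun j => exists_extract (s j)
  have h1 : ∀ k : κ → Fin 3, evS P (fun j => w j (k j)) = 0 := fun k =>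
    h _ fun j i hi => hw j (k j) i fun h' => hi (hs j i h')
  have h2 : ∑ k : κ → Fin 3, (∏ j, c j (k j)) * evS P (fun j => w j (k j)) = P s := by
    simp only [evS, Finset.mul_sum]
    rw [Finset.sum_comm]
    have h3 : ∀ s' : κ → Sym2 ι, ∑ k : κ → Fin 3, (∏ j, c j (k j)) *
        (P s' * ∏ j, mon (s' j) (w j (k j))) = P s' * ∏ j, (if s' j = s j then 1 else 0) := by
      intro s'
      have h4 : ∏ j, (if s' j = s j then (1 : ℂ) else 0) =
          ∏ j, ∑ k, c j k * mon (s' j) (w j k) :=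
        Finset.prod_congr rfl fun j _ => (hc j (s' j)).symm
      rw [h4, Finset.prod_univ_sum, Finset.mul_sum, Fintype.piFinset_univ]
      refine Finset.sum_congr rfl fun k _ => ?_
      rw [Finset.prod_mul_distrib]
      ring
    simp only [h3]
    rw [Finset.sum_eq_single s]
    · simp
    · intro s' _ hs'
      obtain ⟨j, hj⟩ := Function.ne_iff.1 hs'
      rw [Finset.prod_eq_zero (mem_univ j) (if_neg hj), mul_zero]
    · intro h; exact absurd (mem_univ _) h
  rw [← h2]
  exact Finset.sum_eq_zero fun k _ => by rw [h1 k, mul_zero]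

theorem evS_inj {I : κ → Finset ι} {P : (κ → Sym2 ι) → ℂ} (hP : SuppS I P)
    (h : ∀ x, SuppX I x → evS P x = 0) : P = 0 := by
  funext s
  by_cases hs : ∃ j, ∃ i ∈ s j, i ∉ I j
  · exact hP s hs
  · push Not at hs
    exact evS_eq_zero h s hs

/-- Splitting off the multiples of `M = ∏ x j (o j)`. -/
theorem evS_split (o : κ → ι) (P : (κ → Sym2 ι) → ℂ) (x : κ → ι → ℂ) :
    evS P x = evS (restS o P) x + (∏ j, x j (o j)) * ev (quoM o P) x := by
  have h1 : evS P x - evS (restS o P) x =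
      ∑ s : κ → Sym2 ι, (if (∀ j, o j ∈ s j) then P s * ∏ j, mon (s j) (x j) else 0) := by
    rw [← evS_sub]
    simp only [evS, restS, Pi.sub_apply]
    refine Finset.sum_congr rfl fun s _ => ?_
    split_ifs <;> ring
  have h2 : (∏ j, x j (o j)) * ev (quoM o P) x =
      ∑ s : κ → Sym2 ι, (if (∀ j, o j ∈ s j) then P s * ∏ j, mon (s j) (x j) else 0) := by
    rw [← Finset.sum_filter]
    simp only [ev, quoM, Finset.mul_sum]
    refine Finset.sum_bij (fun α _ => fun j => s(o j, α j)) ?_ ?_ ?_ ?_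
    · intro α _
      simp
    · intro α _ β _ hαβ
      funext j
      have := congrFun hαβ j
      rw [Sym2.eq_iff] at this
      rcases this with ⟨_, h⟩ | ⟨h, h'⟩
      · exact h
      · rw [h', h]
    · intro s hs
      simp only [mem_filter, mem_univ, true_and] at hs
      choose α hα using fun j => Sym2.mem_iff_exists.1 (hs j)
      exact ⟨α, mem_univ _, funext fun j => (hα j).symm⟩
    · intro α _
      simp only [mon_mk, Finset.prod_mul_distrib]
      ring
  rw [h2, ← h1]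
  ring

/-! ### Antisymmetric matrices -/

theorem sharp_anti (I : κ → Finset ι) (A : κ → ι → ι → ℂ) (j : κ) (a b : ι) :
    sharp I A j a b = - sharp I A j b a := by
  simp only [sharp]
  by_cases h : a ∈ I j ∧ b ∈ I j
  · rw [if_pos h, if_pos ⟨h.2, h.1⟩]; ring
  · rw [if_neg h, if_neg (fun h' => h ⟨h'.2, h'.1⟩)]; ring

theorem sharp_left {I : κ → Finset ι} (A : κ → ι → ι → ℂ) {j : κ} {a : ι} (ha : a ∉ I j) (b : ι) :
    sharp I A j a b = 0 := if_neg fun h => ha h.1

theorem sharp_right {I : κ → Finset ι} (A : κ → ι → ι → ℂ) {j : κ} {b : ι} (hb : b ∉ I j) (a : ι) :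
    sharp I A j a b = 0 := if_neg fun h => hb h.2

theorem anti_quad {A : ι → ι → ℂ} (hA : ∀ a b, A a b = - A b a) (v : ι → ℂ) :
    ∑ i, (∑ b, A i b * v b) * v i = 0 := by
  have h1 : ∑ i, (∑ b, A i b * v b) * v i = ∑ i, ∑ b, A i b * v b * v i :=
    Finset.sum_congr rfl fun i _ => Finset.sum_mul _ _ _
  have h2 : ∑ i, ∑ b, A i b * v b * v i = - ∑ i, ∑ b, A i b * v b * v i := by
    conv_lhs => rw [Finset.sum_comm]
    rw [← Finset.sum_neg_distrib]
    refine Finset.sum_congr rfl fun i _ => ?_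
    rw [← Finset.sum_neg_distrib]
    refine Finset.sum_congr rfl fun b _ => ?_
    rw [hA b i]; ring
  rw [h1]
  exact self_eq_neg.1 h2

/-- Rotations of `G` vanish at the critical points. -/
theorem soG_crit {I : κ → Finset ι} {r : ℕ} {T : Fin r → (κ → ι) → ℂ} {x : κ → ι → ℂ}
    {lam : κ → ℂ} (h : ∀ j, ∀ i ∈ I j, dG T x j i = lam j * x j i) (A : κ → ι → ι → ℂ) :
    soG (sharp I A) T x = 0 := by
  rw [soG_eq]
  refine Finset.sum_eq_zero fun j _ => ?_
  have h1 : ∀ i, (∑ b, sharp I A j i b * x j b) * dG T x j i =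
      lam j * ((∑ b, sharp I A j i b * x j b) * x j i) := by
    intro i
    by_cases hi : i ∈ I j
    · rw [h j i hi]; ring
    · have : ∑ b, sharp I A j i b * x j b = 0 :=
        Finset.sum_eq_zero fun b _ => by rw [sharp_left A hi, zero_mul]
      rw [this]; ring
  simp only [h1]
  rw [← Finset.mul_sum, anti_quad (sharp_anti I A j), mul_zero]

/-! ### The critical system -/

theorem crit_supp {I : κ → Finset ι} {r : ℕ} {T : Fin r → (κ → ι) → ℂ} {u : Un κ ι → ℂ}
    (h : ∀ w, crit I T u w = 0) : SuppX I (xo u) := by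
  intro j i hi
  have := h (Sum.inl (j, i))
  simpa [crit, hi] using this

theorem crit_eq {I : κ → Finset ι} {r : ℕ} {T : Fin r → (κ → ι) → ℂ} {u : Un κ ι → ℂ}
    (h : ∀ w, crit I T u w = 0) (j : κ) (i : ι) (hi : i ∈ I j) :
    dG T (xo u) j i = lo u j * xo u j i := by
  have := h (Sum.inl (j, i))
  simp only [crit, hi, if_true] at this
  exact sub_eq_zero.1 this

theorem crit_norm {I : κ → Finset ι} {r : ℕ} {T : Fin r → (κ → ι) → ℂ} {u : Un κ ι → ℂ}
    (h : ∀ w, crit I T u w = 0) (j : κ) : ∑ i, xo u j i ^ 2 = 1 := by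
  have := h (Sum.inr j)
  simp only [crit] at this
  exact sub_eq_zero.1 this

/-- `2 G = lam j` at a critical point. -/
theorem crit_lam {I : κ → Finset ι} {r : ℕ} {T : Fin r → (κ → ι) → ℂ} {u : Un κ ι → ℂ}
    (h : ∀ w, crit I T u w = 0) (j : κ) : 2 * ∑ a, ev (T a) (xo u) ^ 2 = lo u j := by
  have h1 : ∑ i, xo u j i * dG T (xo u) j i = 2 * ∑ a, ev (T a) (xo u) ^ 2 := by
    simp only [dG, Finset.mul_sum]
    rw [Finset.sum_comm]
    refine Finset.sum_congr rfl fun a _ => ?_
    have h2 := ev_eq_sum (T a) (xo u) j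
    calc ∑ i, xo u j i * (2 * (ev (T a) (xo u) * ev (T a) (update (xo u) j (Pi.single i 1))))
        = 2 * (ev (T a) (xo u) *
          ∑ i, xo u j i * ev (T a) (update (xo u) j (Pi.single i 1))) := by
          simp only [Finset.mul_sum]
          exact Finset.sum_congr rfl fun i _ => by ring
      _ = 2 * ev (T a) (xo u) ^ 2 := by rw [← h2]; ring
  have h3 : ∑ i, xo u j i * dG T (xo u) j i = lo u j * ∑ i, xo u j i ^ 2 := by
    rw [Finset.mul_sum]
    refine Finset.sum_congr rfl fun i _ => ?_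
    by_cases hi : i ∈ I j
    · rw [crit_eq h j i hi]; ring
    · rw [crit_supp h j i hi]; ring
  rw [← h1, h3, crit_norm h j, mul_one]

/-! ### Polynomiality -/

section poly

variable {σ : Type}

theorem isPoly_ev {t : (σ → ℂ) → (κ → ι) → ℂ} {x : (σ → ℂ) → κ → ι → ℂ}
    (ht : ∀ α, IsPoly (fun z => t z α)) (hx : ∀ j i, IsPoly (fun z => x z j i)) :
    IsPoly (fun z => ev (t z) (x z)) :=
  IsPoly.sum _ fun α _ => (ht α).mul (IsPoly.prod _ fun j _ => hx j (α j))

theorem isPoly_update {x : (σ → ℂ) → κ → ι → ℂ} (hx : ∀ j i, IsPoly (fun z => x z j i))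
    (j : κ) {v : (σ → ℂ) → ι → ℂ} (hv : ∀ i, IsPoly (fun z => v z i)) (m : κ) (i : ι) :
    IsPoly (fun z => update (x z) j (v z) m i) := by
  by_cases h : m = j
  · subst h; simpa using hv i
  · simpa [update_of_ne h] using hx m i

theorem isPoly_dG {r : ℕ} {T : (σ → ℂ) → Fin r → (κ → ι) → ℂ} {x : (σ → ℂ) → κ → ι → ℂ}
    (hT : ∀ a α, IsPoly (fun z => T z a α)) (hx : ∀ j i, IsPoly (fun z => x z j i))
    (j : κ) (i : ι) : IsPoly (fun z => dG (T z) (x z) j i) :=
  (IsPoly.const 2).mul (IsPoly.sum _ fun a _ => (isPoly_ev (hT a) hx).mul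
    (isPoly_ev (hT a) fun m i' =>
      isPoly_update (v := fun _ => Pi.single i 1) hx j (fun _ => IsPoly.const _) m i'))

theorem isPoly_crit {I : κ → Finset ι} {r : ℕ} {T : (σ → ℂ) → Fin r → (κ → ι) → ℂ}
    {u : (σ → ℂ) → Un κ ι → ℂ} (hT : ∀ a α, IsPoly (fun z => T z a α))
    (hu : ∀ w, IsPoly (fun z => u z w)) (w : Un κ ι) :
    IsPoly (fun z => crit I (T z) (u z) w) := by
  rcases w with ⟨j, i⟩ | j
  · simp only [crit]
    exact IsPoly.ite ((isPoly_dG hT (fun j i => hu _) j i).sub ((hu _).mul (hu _))) (hu _)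
  · simp only [crit]
    exact (IsPoly.sum _ fun i _ => (hu _).pow 2).sub (IsPoly.const 1)

theorem isPoly_mon {v : (σ → ℂ) → ι → ℂ} (hv : ∀ i, IsPoly (fun z => v z i)) (s : Sym2 ι) :
    IsPoly (fun z => mon s (v z)) := by
  induction s using Sym2.ind with
  | _ a b => exact (hv a).mul (hv b)

theorem isPoly_evS {P : (σ → ℂ) → (κ → Sym2 ι) → ℂ} {x : (σ → ℂ) → κ → ι → ℂ}
    (hP : ∀ s, IsPoly (fun z => P z s)) (hx : ∀ j i, IsPoly (fun z => x z j i)) :
    IsPoly (fun z => evS (P z) (x z)) :=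
  IsPoly.sum _ fun s _ => (hP s).mul (IsPoly.prod _ fun j _ => isPoly_mon (hx j) (s j))

theorem isPoly_mulS {t t' : (σ → ℂ) → (κ → ι) → ℂ} (ht : ∀ α, IsPoly (fun z => t z α))
    (ht' : ∀ α, IsPoly (fun z => t' z α)) (s : κ → Sym2 ι) :
    IsPoly (fun z => mulS (t z) (t' z) s) :=
  IsPoly.sum _ fun α _ => IsPoly.sum _ fun β _ =>
    IsPoly.ite ((ht α).mul (ht' β)) (IsPoly.const 0)

theorem isPoly_actU (A : κ → ι → ι → ℂ) {t : (σ → ℂ) → (κ → ι) → ℂ}
    (ht : ∀ α, IsPoly (fun z => t z α)) (β : κ → ι) :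
    IsPoly (fun z => actU A (t z) β) :=
  IsPoly.sum _ fun _ _ => IsPoly.sum _ fun _ _ => (ht _).mul (IsPoly.const _)

theorem isPoly_soS (A : κ → ι → ι → ℂ) {r : ℕ} {T : (σ → ℂ) → Fin r → (κ → ι) → ℂ}
    (hT : ∀ a α, IsPoly (fun z => T z a α)) (s : κ → Sym2 ι) :
    IsPoly (fun z => soS A (T z) s) :=
  (IsPoly.const 2).mul (IsPoly.sum _ fun a _ => isPoly_mulS (hT a) (isPoly_actU A (hT a)) s)

end poly

end Pool.Agent.Helper41.SV
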