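import Pool.Agent.Helper41.SV.StDefs

/-!
Definitions for the proof of the result on spans of singular vector tuples (MP_f2a874_ag): the
definitions used in the statement are in the file StDefs.

Part 1: polynomial functions. Part 2: multilinear forms, forms of degree (2,...,2) and the
critical system. Part 3: rigidity.
-/

open Finset Function

noncomputable section

namespace Pool.Agent.Helper41.SV

/-! ### Polynomial functions and generic properties -/

/-- `f` is a polynomial function. -/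
def IsPoly {σ : Type} (f : (σ → ℂ) → ℂ) : Prop :=
  ∃ P : MvPolynomial σ ℂ, ∀ t, f t = MvPolynomial.eval t P

/-- Nondegeneracy of a (square) system `Φ` at `u`: a direction along which all derivatives vanish
is zero. -/
def NonDeg {ω : Type} (Φ : (ω → ℂ) → ω → ℂ) (u : ω → ℂ) : Prop :=
  ∀ ξ : ω → ℂ, (∀ w, HasDerivAt (fun s : ℂ => Φ (u + s • ξ) w) 0 0) → ξ = 0

/-! ### Multilinear forms and the critical system -/

section forms

variable {κ ι : Type} [Fintype κ] [DecidableEq κ] [Fintype ι] [DecidableEq ι]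

/-- Evaluation of a multilinear form with coefficients `t`. -/
def ev (t : (κ → ι) → ℂ) (x : κ → ι → ℂ) : ℂ := ∑ α : κ → ι, t α * ∏ j, x j (α j)

/-- The partial derivative of `G = ∑ a, (T a) ^ 2` with respect to `x j i`. -/
def dG {r : ℕ} (T : Fin r → (κ → ι) → ℂ) (x : κ → ι → ℂ) (j : κ) (i : ι) : ℂ :=
  2 * ∑ a, ev (T a) x * ev (T a) (update x j (Pi.single i 1))

/-- `x` has its coordinates in the format `I`. -/
def SuppX (I : κ → Finset ι) (x : κ → ι → ℂ) : Prop := ∀ j i, i ∉ I j → x j i = 0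

/-- `t` has its coefficients in the format `I`. -/
def SuppU (I : κ → Finset ι) (t : (κ → ι) → ℂ) : Prop := ∀ α, (∃ j, α j ∉ I j) → t α = 0

/-- Unknowns: the coordinates and one multiplier for each factor. -/
abbrev Un (κ ι : Type) := (κ × ι) ⊕ κ

/-- The point of an unknown. -/
def xo (u : Un κ ι → ℂ) : κ → ι → ℂ := fun j i => u (Sum.inl (j, i))

/-- The multipliers of an unknown. -/
def lo (u : Un κ ι → ℂ) : κ → ℂ := fun j => u (Sum.inr j)

/-- The system for the normalised critical points of `G` in the format `I`. -/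
def crit (I : κ → Finset ι) {r : ℕ} (T : Fin r → (κ → ι) → ℂ) (u : Un κ ι → ℂ) : Un κ ι → ℂ
  | Sum.inl (j, i) => if i ∈ I j then dG T (xo u) j i - lo u j * xo u j i else xo u j i
  | Sum.inr j => ∑ i, xo u j i ^ 2 - 1

/-- The monomial of degree two of an unordered pair. -/
def mon (s : Sym2 ι) (v : ι → ℂ) : ℂ :=
  Sym2.lift ⟨fun a b => v a * v b, fun a b => mul_comm (v a) (v b)⟩ s

/-- Evaluation of a form of degree `(2,...,2)` with coefficients `P`. -/
def evS (P : (κ → Sym2 ι) → ℂ) (x : κ → ι → ℂ) : ℂ :=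
  ∑ s : κ → Sym2 ι, P s * ∏ j, mon (s j) (x j)

/-- `P` has its coefficients in the format `I`. -/
def SuppS (I : κ → Finset ι) (P : (κ → Sym2 ι) → ℂ) : Prop :=
  ∀ s, (∃ j, ∃ i ∈ s j, i ∉ I j) → P s = 0

/-- The antisymmetrisation of `A` cut to the format `I`. -/
def sharp (I : κ → Finset ι) (A : κ → ι → ι → ℂ) : κ → ι → ι → ℂ :=
  fun j a b => if a ∈ I j ∧ b ∈ I j then A j a b - A j b a else 0

/-- The derivative of `ev t` at `x` in the direction `(A j (x j))`. -/
def act (A : κ → ι → ι → ℂ) (t : (κ → ι) → ℂ) (x : κ → ι → ℂ) : ℂ :=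
  ∑ j, ev t (update x j (fun a => ∑ b, A j a b * x j b))

/-- The derivative of `G = ∑ a, (T a) ^ 2` at `x` in the direction `(A j (x j))`. -/
def soG (A : κ → ι → ι → ℂ) {r : ℕ} (T : Fin r → (κ → ι) → ℂ) (x : κ → ι → ℂ) : ℂ :=
  2 * ∑ a, ev (T a) x * act A (T a) x

/-- The rotations act freely on `G` in the format `I`. -/
def Free (I : κ → Finset ι) {r : ℕ} (T : Fin r → (κ → ι) → ℂ) : Prop :=
  ∀ A : κ → ι → ι → ℂ, (∀ x, SuppX I x → soG (sharp I A) T x = 0) → sharp I A = 0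

/-- The format `I` without the elements `o j`, `j ∈ S`. -/
def del (I : κ → Finset ι) (o : κ → ι) (S : Finset κ) : κ → Finset ι :=
  fun j => if j ∈ S then (I j).erase (o j) else I j

/-- `G` has enough nondegenerate critical points in the format `I`. -/
def GoodX (I : κ → Finset ι) (o : κ → ι) (X : Finset (κ × ι)) {r : ℕ}
    (T : Fin r → (κ → ι) → ℂ) : Prop :=
  ∃ (m : ℕ) (u : Fin m → Un κ ι → ℂ),
    (∀ q w, crit I T (u q) w = 0) ∧
    (∀ q, NonDeg (crit I T) (u q)) ∧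
    (∀ q j, xo (u q) j (o j) ≠ 0) ∧
    (∀ q j, lo (u q) j ≠ 0) ∧
    (∀ q, ∀ e ∈ X, dG T (xo (u q)) e.1 e.2 ≠ 0) ∧
    (∀ t, SuppU I t → (∀ q, ev t (xo (u q)) = 0) → t = 0) ∧
    (∀ P, SuppS I P → (∀ q, evS P (xo (u q)) = 0) →
      ∃ A : κ → ι → ι → ℂ, ∀ x, SuppX I x → evS P x = soG (sharp I A) T x)

/-- Product of two multilinear forms. -/
def mulS (t t' : (κ → ι) → ℂ) : (κ → Sym2 ι) → ℂ :=
  fun s => ∑ α : κ → ι, ∑ β : κ → ι, if (∀ j, s(α j, β j) = s j) then t α * t' β else 0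

/-- Coefficients of `act A t`. -/
def actU (A : κ → ι → ι → ℂ) (t : (κ → ι) → ℂ) : (κ → ι) → ℂ :=
  fun β => ∑ j, ∑ a, t (update β j a) * A j a (β j)

/-- Coefficients of `soG A T`. -/
def soS (A : κ → ι → ι → ℂ) {r : ℕ} (T : Fin r → (κ → ι) → ℂ) : (κ → Sym2 ι) → ℂ :=
  fun s => 2 * ∑ a, mulS (T a) (actU A (T a)) s

/-- Cut to the format `I`. -/
def cutS (I : κ → Finset ι) (P : (κ → Sym2 ι) → ℂ) : (κ → Sym2 ι) → ℂ :=
  fun s => if (∀ j, ∀ i ∈ s j, i ∈ I j) then P s else 0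

/-- Cut to the format `I`. -/
def cutU (I : κ → Finset ι) (t : (κ → ι) → ℂ) : (κ → ι) → ℂ :=
  fun α => if (∀ j, α j ∈ I j) then t α else 0

/-- The part of `P` without the monomials divisible by `M = ∏ x j (o j)`. -/
def restS (o : κ → ι) (P : (κ → Sym2 ι) → ℂ) : (κ → Sym2 ι) → ℂ :=
  fun s => if (∀ j, o j ∈ s j) then 0 else P s

/-- The quotient by `M = ∏ x j (o j)` of the part of `P` divisible by `M`. -/
def quoM (o : κ → ι) (P : (κ → Sym2 ι) → ℂ) : (κ → ι) → ℂ :=
  fun α => P (fun j => s(o j, α j))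

end forms

/-! ### Infinitesimal rigidity -/

/-- Infinitesimal rigidity (in the sphere of `ℂ ^ d`) of the relation `adj` on `W`. -/
def RigOn {V : Type} (adj : V → V → Prop) (W : Finset V) {d : ℕ} (p : V → Fin d → ℂ) : Prop :=
  ∀ P : V → Fin d → ℂ,
    (∀ u ∈ W, ∀ v ∈ W, adj u v → ∑ i, (P u i * p v i + P v i * p u i) = 0) →
    ∃ A : Fin d → Fin d → ℂ, (∀ i j, A i j = - A j i) ∧
      ∀ v ∈ W, ∀ i, P v i = ∑ j, A i j * p v j

/-- Absence of self-stresses: the pair equations can be solved with arbitrary right hand sides. -/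
def IndOn {V : Type} (adj : V → V → Prop) (W : Finset V) {d : ℕ} (p : V → Fin d → ℂ) : Prop :=
  ∀ y : V → V → ℂ, ∃ P : V → Fin d → ℂ,
    ∀ u ∈ W, ∀ v ∈ W, adj u v → ∑ i, (P u i * p v i + P v i * p u i) = y u v

/-- The box `c ≤ α ≤ n` in a product of chains. -/
def box {κ : Type} [Fintype κ] [DecidableEq κ] {K : ℕ} (c n : κ → ℕ) : Finset (κ → Fin K) :=
  Finset.univ.filter (fun α => ∀ j, c j ≤ (α j : ℕ) ∧ (α j : ℕ) ≤ n j)

end Pool.Agent.Helper41.SV
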