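import Pool.Agent.Helper41.SV.Defs

/-!
Statements of the modules (each module proves one of them, with the others as hypotheses).
-/

open Finset Function

noncomputable section

namespace Pool.Agent.Helper41.SV

/-- Spreading out nondegenerate solutions of a polynomial system with parameters. -/
def StZ : Prop :=
  ∀ (σ ω Q : Type) [Fintype σ] [DecidableEq σ] [Fintype ω] [DecidableEq ω] [Fintype Q]
    [DecidableEq Q]
    (F : Q → (σ → ℂ) → (ω → ℂ) → ω → ℂ) (g : (σ → ℂ) → (Q → ω → ℂ) → ℂ),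
    (∀ q w, IsPoly (fun z : σ ⊕ ω → ℂ => F q (fun i => z (Sum.inl i)) (fun i => z (Sum.inr i)) w)) →
    IsPoly (fun z : σ ⊕ Q × ω → ℂ => g (fun i => z (Sum.inl i)) (fun q w => z (Sum.inr (q, w)))) →
    ∀ (t₀ : σ → ℂ) (u₀ : Q → ω → ℂ), (∀ q w, F q t₀ (u₀ q) w = 0) →
      (∀ q, NonDeg (F q t₀) (u₀ q)) → g t₀ u₀ ≠ 0 →
      Gen (fun t : σ → ℂ => ∃ u : Q → ω → ℂ, (∀ q w, F q t (u q) w = 0) ∧
        (∀ q, NonDeg (F q t) (u q)) ∧ g t u ≠ 0)

/-- Genericity of `GoodX`. -/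
def StGoodGen : Prop :=
  ∀ (κ ι : Type) [Fintype κ] [DecidableEq κ] [Fintype ι] [DecidableEq ι]
    (I : κ → Finset ι) (o : κ → ι) (X : Finset (κ × ι)) (r : ℕ) (T₀ : Fin r → (κ → ι) → ℂ),
    GoodX I o X T₀ → Gen (fun t : Fin r × (κ → ι) → ℂ => GoodX I o X (curry t))

/-- Adding the conditions `X`. -/
def StExtX : Prop :=
  ∀ (κ ι : Type) [Fintype κ] [DecidableEq κ] [Fintype ι] [DecidableEq ι]
    (I : κ → Finset ι) (o : κ → ι) (X : Finset (κ × ι)) (r : ℕ) (T₀ : Fin r → (κ → ι) → ℂ),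
    (∀ e ∈ X, e.2 ∉ I e.1) → GoodX I o ∅ T₀ → ∃ T : Fin r → (κ → ι) → ℂ, GoodX I o X T

/-- Generic freeness. -/
def StFree : Prop :=
  ∀ (κ ι : Type) [Fintype κ] [DecidableEq κ] [Fintype ι] [DecidableEq ι]
    (I : κ → Finset ι) (r : ℕ), (∀ j, (I j).Nonempty) → ∑ j, ((I j).card - 1) + 1 ≤ r →
    Gen (fun t : Fin r × (κ → ι) → ℂ => Free I (curry t))

/-- The kernel lemma. -/
def StKL : Prop :=
  ∀ (κ ι : Type) [Fintype κ] [DecidableEq κ] [Fintype ι] [DecidableEq ι]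
    (I : κ → Finset ι) (o : κ → ι) (r : ℕ) (H : Fin r → (κ → ι) → ℂ)
    (P1 : κ → Set (κ → ι → ℂ)) (P2 : κ → κ → Set (κ → ι → ℂ)), (∀ j, o j ∈ I j) →
    (∀ j, 2 ≤ (I j).card → (∀ x ∈ P1 j, SuppX (del I o {j}) x) ∧
      ∀ P, SuppS (del I o {j}) P → (∀ x ∈ P1 j, evS P x = 0) →
        ∃ A : κ → ι → ι → ℂ, ∀ x, SuppX (del I o {j}) x →
          evS P x = soG (sharp (del I o {j}) A) H x) →
    (∀ j l, j ≠ l → 2 ≤ (I j).card → 2 ≤ (I l).card →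
      (∀ x ∈ P2 j l, SuppX (del I o {j, l}) x ∧
        (∃ lam : κ → ℂ, ∀ m, ∀ i ∈ del I o {j, l} m, dG H x m i = lam m * x m i) ∧
        dG H x j (o j) ≠ 0 ∧ dG H x l (o l) ≠ 0) ∧
      (∀ t, SuppU (del I o {j, l}) t → (∀ x ∈ P2 j l, ev t x = 0) → t = 0) ∧
      Free (del I o {j, l}) H) →
    ∀ (R : (κ → Sym2 ι) → ℂ) (Q : (κ → ι) → ℂ), SuppS I R → (∀ s, (∀ j, o j ∈ s j) → R s = 0) →
      SuppU I Q → Q o = 0 →
      (∀ j, 2 ≤ (I j).card → ∀ x ∈ P1 j, evS R x = 0) →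
      (∀ j l, j ≠ l → 2 ≤ (I j).card → 2 ≤ (I l).card → ∀ x ∈ P2 j l, evS R x = 0 ∧ ev Q x = 0) →
      ∃ A : κ → ι → ι → ℂ,
        R = cutS I (restS o (soS (sharp (del I o univ) A) H)) ∧
        Q = fun α => 2 * actU (sharp I A) (Pi.single o 1) α

/-- The degeneration step. -/
def StStep : Prop :=
  ∀ (κ ι : Type) [Fintype κ] [DecidableEq κ] [Fintype ι] [DecidableEq ι]
    (I : κ → Finset ι) (o : κ → ι) (r : ℕ) (H : Fin r → (κ → ι) → ℂ), (∀ j, o j ∈ I j) →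
    (∀ j, 2 ≤ (I j).card →
      ∃ b ∈ (I j).erase (o j), GoodX (del I o {j}) (update o j b) {(j, o j)} H) →
    (∀ j l, j ≠ l → 2 ≤ (I j).card → 2 ≤ (I l).card →
      (∃ b ∈ (I j).erase (o j), ∃ c ∈ (I l).erase (o l),
        GoodX (del I o {j, l}) (update (update o j b) l c) {(j, o j), (l, o l)} H) ∧
      Free (del I o {j, l}) H) →
    ∃ T : Fin (r + 1) → (κ → ι) → ℂ, GoodX I o ∅ T

/-- Enough critical points, generically. -/
def StMany : Prop :=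
  ∀ (κ ι : Type) [Fintype κ] [DecidableEq κ] [Fintype ι] [DecidableEq ι]
    (I : κ → Finset ι) (o : κ → ι) (X : Finset (κ × ι)) (r : ℕ),
    (∀ j, o j ∈ I j) → (∀ e ∈ X, e.2 ∉ I e.1) → ∑ j, ((I j).card - 1) ≤ r →
    Gen (fun t : Fin (r + 1) × (κ → ι) → ℂ => GoodX I o X (curry t))

/-! ### Rigidity -/

/-- Rigidity is a generic property. -/
def StRigGen : Prop :=
  ∀ (V : Type) [Fintype V] [DecidableEq V] (adj : V → V → Prop) (W : Finset V) (d : ℕ)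
    (p₀ : V → Fin d → ℂ), RigOn adj W p₀ →
    Gen (fun t : V × Fin d → ℂ => RigOn adj W (curry t))

/-- Cones. -/
def StRigCone : Prop :=
  ∀ (V : Type) [DecidableEq V] (adj : V → V → Prop) (W : Finset V) (d : ℕ)
    (p : V → Fin d → ℂ) (v₀ : V), RigOn adj W p → v₀ ∉ W → adj v₀ v₀ →
    (∀ w ∈ W, adj v₀ w ∨ adj w v₀) →
    ∃ p' : V → Fin (d + 1) → ℂ, RigOn adj (insert v₀ W) p'

/-- Adding a vertex with at least `d - 1` neighbours. -/
def StRigExt : Prop :=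
  ∀ (V : Type) [Fintype V] [DecidableEq V] (adj : V → V → Prop) (W N : Finset V) (d : ℕ) (v : V),
    N ⊆ W → d ≤ N.card + 1 → v ∉ W → adj v v → (∀ w ∈ N, adj v w ∨ adj w v) →
    Gen (fun t : V × Fin d → ℂ => RigOn adj W (curry t)) →
    Gen (fun t : V × Fin d → ℂ => RigOn adj (insert v W) (curry t))

/-- Lowering one side of a box. -/
def StBoxStep : Prop :=
  ∀ (κ : Type) [Fintype κ] [DecidableEq κ] (K d : ℕ) (c n : κ → ℕ) (j : κ),
    (∀ m, c m ≤ n m) → (∀ m, n m < K) → c j < n j → d = ∑ m, (n m - c m) + 1 →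
    ((2 ≤ n j - c j ∧ 2 ≤ ((univ.erase j).filter (fun m => c m < n m)).card) ∨
      ((∀ m, n m - c m ≤ 1) ∧ 3 ≤ ((univ.erase j).filter (fun m => c m < n m)).card)) →
    (∃ p : (κ → Fin K) → Fin d → ℂ,
      RigOn (fun α β => α ≤ β) (box (update c j (c j + 1)) n) p) →
    ∃ p : (κ → Fin K) → Fin (d + 1) → ℂ, RigOn (fun α β => α ≤ β) (box c n) p

/-- Rigidity of the small posets (explicit coordinates). -/
def StBase1111 : Prop :=
  ∃ p : (Fin 4 → Fin 2) → Fin 6 → ℂ, RigOn (fun α β => α ≤ β) univ p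

def StBase122 : Prop :=
  ∃ p : (Fin 2 × Fin 3 × Fin 3) → Fin 7 → ℂ, RigOn (fun α β => α ≤ β) univ p

def StBase114 : Prop :=
  ∃ p : (Fin 2 × Fin 2 × Fin 5) → Fin 8 → ℂ, RigOn (fun α β => α ≤ β) univ p

/-- Independence for the exceptional posets. -/
def StInd11 : Prop :=
  ∀ m : ℕ, 1 ≤ m → m ≤ 3 →
    ∃ p : (Fin 2 × Fin 2 × Fin (m + 1)) → Fin (m + 4) → ℂ, IndOn (fun α β => α ≤ β) univ p

/-- Rigidity of all nonexceptional boxes. -/
def StBox : Prop :=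
  ∀ (κ : Type) [Fintype κ] [DecidableEq κ] (K : ℕ) (c n : κ → ℕ),
    (∀ m, c m ≤ n m) → (∀ m, n m < K) →
    3 ≤ (univ.filter (fun m => c m < n m)).card →
    ¬ ((univ.filter (fun m => c m < n m)).card = 3 ∧
      ∃ i, (∀ m, m ≠ i → n m - c m ≤ 1) ∧ n i - c i ≤ 3) →
    ∃ p : (κ → Fin K) → Fin (∑ m, (n m - c m) + 2) → ℂ,
      RigOn (fun α β => α ≤ β) (box c n) p

/-- The format `i ≤ n j`. -/
def low {κ : Type} {K : ℕ} (n : κ → ℕ) : κ → Finset (Fin K) :=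
  fun j => univ.filter (fun i => (i : ℕ) ≤ n j)

/-- Generic multilinear forms have only the Koszul syzygies in degree one. -/
def StKos : Prop :=
  ∀ (κ : Type) [Fintype κ] [DecidableEq κ] (K d : ℕ) (n : κ → ℕ),
    (∃ p : (κ → Fin K) → Fin d → ℂ, RigOn (fun α β => α ≤ β) (box 0 n) p) →
    Gen (fun t : Fin d × (κ → Fin K) → ℂ =>
      ∀ P : Fin d → (κ → Fin K) → ℂ, (∀ a, SuppU (low n) (P a)) →
        (∀ x, SuppX (low n) x → ∑ a, ev (P a) x * ev (curry t a) x = 0) →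
        ∃ B : Fin d → Fin d → ℂ, (∀ a b, B a b = - B b a) ∧
          ∀ a α, (∀ j, α j ∈ low n j) → P a α = ∑ b, B a b * t (b, α))

/-- Surjectivity from independence. -/
def StSur : Prop :=
  ∀ (κ : Type) [Fintype κ] [DecidableEq κ] (K d : ℕ) (n : κ → ℕ),
    (∃ p : (κ → Fin K) → Fin d → ℂ, IndOn (fun α β => α ≤ β) (box 0 n) p) →
    Gen (fun t : Fin d × (κ → Fin K) → ℂ =>
      ∀ S : (κ → Sym2 (Fin K)) → ℂ, SuppS (low n) S →
        ∃ P : Fin d → (κ → Fin K) → ℂ, (∀ a, SuppU (low n) (P a)) ∧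
          ∀ x, SuppX (low n) x → ∑ a, ev (P a) x * ev (curry t a) x = evS S x)

end Pool.Agent.Helper41.SV
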