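import Pool.Agent.Helper41.SV.Basic
import Pool.Agent.Helper41.SV.Stmts

/-!
Generic freeness of the rotations, and adding the conditions `X`.
-/

open Finset Function

noncomputable section

set_option linter.unusedSectionVars false

namespace Pool.Agent.Helper41.SV

variable {κ ι : Type} [Fintype κ] [DecidableEq κ] [Fintype ι] [DecidableEq ι]

/-! ### Dependence on the coefficients in the format -/

theorem f_ev_congr {I : κ → Finset ι} {t t' : (κ → ι) → ℂ}
    (h : ∀ α, (∀ j, α j ∈ I j) → t α = t' α) {x : κ → ι → ℂ} (hx : SuppX I x) :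
    ev t x = ev t' x := by
  rw [← ev_cutU t hx, ← ev_cutU t' hx]
  congr 1
  funext α
  simp only [cutU]
  split_ifs with h1
  · exact h α h1
  · rfl

theorem f_dG_congr {I : κ → Finset ι} {r : ℕ} {T T' : Fin r → (κ → ι) → ℂ}
    (h : ∀ a α, (∀ j, α j ∈ I j) → T a α = T' a α) {x : κ → ι → ℂ} (hx : SuppX I x)
    (j : κ) (i : ι) (hi : i ∈ I j) : dG T x j i = dG T' x j i := by
  simp only [dG]
  congr 1
  refine Finset.sum_congr rfl fun a _ => ?_
  rw [f_ev_congr (h a) hx, f_ev_congr (h a) (suppX_update_single hx hi)]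

theorem f_crit_congr {I : κ → Finset ι} {r : ℕ} {T T' : Fin r → (κ → ι) → ℂ}
    (h : ∀ a α, (∀ j, α j ∈ I j) → T a α = T' a α) {u : Un κ ι → ℂ} (hx : SuppX I (xo u))
    (w : Un κ ι) : crit I T u w = crit I T' u w := by
  rcases w with ⟨j, i⟩ | j
  · simp only [crit]
    split_ifs with hi
    · rw [f_dG_congr h hx j i hi]
    · rfl
  · rfl

theorem f_soG_congr {I : κ → Finset ι} {r : ℕ} {T T' : Fin r → (κ → ι) → ℂ}
    (h : ∀ a α, (∀ j, α j ∈ I j) → T a α = T' a α) (A : κ → ι → ι → ℂ) {x : κ → ι → ℂ}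
    (hx : SuppX I x) : soG (sharp I A) T x = soG (sharp I A) T' x := by
  rw [soG_eq, soG_eq]
  refine Finset.sum_congr rfl fun j _ => Finset.sum_congr rfl fun i _ => ?_
  by_cases hi : i ∈ I j
  · rw [f_dG_congr h hx j i hi]
  · have h0 : ∑ b, sharp I A j i b * x j b = 0 :=
      Finset.sum_eq_zero fun b _ => by rw [sharp_left A hi, zero_mul]
    rw [h0, zero_mul, zero_mul]

/-- Adding the conditions `X`. -/
theorem extX : StExtX := by
  intro κ ι _ _ _ _ I o X r T₀ hX hG
  obtain ⟨m, u, h1, h2, h3, h4, -, h6, h7⟩ := hG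
  classical
  let TT : (Fin r × (κ → ι) → ℂ) → Fin r → (κ → ι) → ℂ := fun y a α =>
    if (∀ j, α j ∈ I j) then T₀ a α else y (a, α)
  have hTT : ∀ y a α, (∀ j, α j ∈ I j) → TT y a α = T₀ a α := fun y a α h => if_pos h
  have hsupp : ∀ q, SuppX I (xo (u q)) := fun q => crit_supp (h1 q)
  have hpoly : ∀ a α, IsPoly (fun y => TT y a α) := fun a α =>
    IsPoly.ite (IsPoly.const _) (IsPoly.coord _)
  have hgen : Gen (fun y => ∀ q : Fin m, ∀ e ∈ X, dG (TT y) (xo (u q)) e.1 e.2 ≠ 0) := by
    refine Gen.forall fun q => Gen.forall_finset X fun e he => ?_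
    obtain ⟨l, i⟩ := e
    have hi : i ∉ I l := hX _ he
    have hlam := crit_lam (h1 q) l
    obtain ⟨a0, ha0⟩ : ∃ a, ev (T₀ a) (xo (u q)) ≠ 0 := by
      by_contra hcon
      push Not at hcon
      apply h4 q l
      rw [← hlam]
      simp [hcon]
    have hP : IsPoly (fun y => dG (TT y) (xo (u q)) l i) :=
      isPoly_dG (T := TT) (x := fun _ => xo (u q)) hpoly (fun j i => IsPoly.const _) l i
    have e1 : ∀ a, ev (TT (Pi.single (a0, update o l i) 1) a) (xo (u q)) =
        ev (T₀ a) (xo (u q)) := fun a => f_ev_congr (hTT _ a) (hsupp q)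
    have e2 : ∀ a, ev (TT (Pi.single (a0, update o l i) 1) a)
        (update (xo (u q)) l (Pi.single i 1)) =
        if a = a0 then ∏ m ∈ univ.erase l, xo (u q) m (o m) else 0 := by
      intro a
      rw [ev_update]
      rw [Finset.sum_eq_single (update o l i)]
      · have hn : ¬ ∀ j, update o l i j ∈ I j := by
          intro hh
          have := hh l
          rw [update_self] at this
          exact hi this
        have hp : ∏ m ∈ univ.erase l, xo (u q) m (update o l i m) =
            ∏ m ∈ univ.erase l, xo (u q) m (o m) := by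
          refine Finset.prod_congr rfl fun m hm => ?_
          rw [update_of_ne (Finset.ne_of_mem_erase hm)]
        simp only [TT]
        rw [if_neg hn, hp, update_self, Pi.single_eq_same, one_mul]
        by_cases ha : a = a0
        · subst ha
          rw [Pi.single_eq_same, if_pos rfl, one_mul]
        · rw [if_neg ha, Pi.single_eq_of_ne, zero_mul]
          intro e
          exact ha (congrArg Prod.fst e)
      · intro β _ hβ
        by_cases hβl : β l = i
        · have hn : ¬ ∀ j, β j ∈ I j := by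
            intro hh
            have := hh l
            rw [hβl] at this
            exact hi this
          simp only [TT]
          rw [if_neg hn, Pi.single_eq_of_ne, zero_mul]
          intro e
          exact hβ (congrArg Prod.snd e)
        · rw [Pi.single_eq_of_ne hβl, zero_mul, mul_zero]
      · intro hh
        exact absurd (mem_univ _) hh
    have e3 : dG (TT (Pi.single (a0, update o l i) 1)) (xo (u q)) l i =
        2 * (ev (T₀ a0) (xo (u q)) * ∏ m ∈ univ.erase l, xo (u q) m (o m)) := by
      simp only [dG, e1, e2]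
      congr 1
      rw [Finset.sum_eq_single a0]
      · rw [if_pos rfl]
      · intro b _ hb
        rw [if_neg hb, mul_zero]
      · intro hh
        exact absurd (mem_univ _) hh
    have e4 : dG (TT (Pi.single (a0, update o l i) 1)) (xo (u q)) l i ≠ 0 := by
      rw [e3]
      refine mul_ne_zero two_ne_zero (mul_ne_zero ha0 (Finset.prod_ne_zero_iff.2 fun m _ => ?_))
      exact h3 q m
    exact Gen.of_poly hP e4
  obtain ⟨y, hy⟩ := hgen.exists
  refine ⟨TT y, m, u, ?_, ?_, h3, h4, hy, h6, ?_⟩
  · intro q w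
    rw [f_crit_congr (hTT y) (hsupp q) w]
    exact h1 q w
  · intro q ξ hξ
    refine h2 q ξ fun w => ?_
    have hz : ∀ j i, i ∉ I j → ξ (Sum.inl (j, i)) = 0 := by
      intro j i hi
      have hd := hξ (Sum.inl (j, i))
      have he : (fun s : ℂ => crit I (TT y) (u q + s • ξ) (Sum.inl (j, i))) =
          fun s : ℂ => u q (Sum.inl (j, i)) + s * ξ (Sum.inl (j, i)) := by
        funext s
        simp [crit, hi, xo]
      rw [he] at hd
      have hd' : HasDerivAt (fun s : ℂ => u q (Sum.inl (j, i)) + s * ξ (Sum.inl (j, i)))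
          (ξ (Sum.inl (j, i))) 0 := by
        have := ((hasDerivAt_id (0 : ℂ)).mul_const (ξ (Sum.inl (j, i)))).const_add
          (u q (Sum.inl (j, i)))
        simpa using this
      exact hd'.unique hd
    have hs : ∀ s : ℂ, SuppX I (xo (u q + s • ξ)) := by
      intro s j i hi
      have h8 := hsupp q j i hi
      simp only [xo] at h8
      simp [xo, h8, hz j i hi]
    have he : (fun s : ℂ => crit I T₀ (u q + s • ξ) w) =
        fun s : ℂ => crit I (TT y) (u q + s • ξ) w := by
      funext s
      exact (f_crit_congr (hTT y) (hs s) w).symm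
    rw [he]
    exact hξ w
  · intro P hP hP0
    obtain ⟨A, hA⟩ := h7 P hP hP0
    refine ⟨A, fun x hx => ?_⟩
    rw [hA x hx]
    exact (f_soG_congr (hTT y) A hx).symm

/-! ### Linearity in the rotation -/

theorem f_soS_add (A A' : κ → ι → ι → ℂ) {r : ℕ} (T : Fin r → (κ → ι) → ℂ) (s : κ → Sym2 ι) :
    soS (A + A') T s = soS A T s + soS A' T s := by
  have h1 : ∀ t : (κ → ι) → ℂ, ∀ β, actU (A + A') t β = actU A t β + actU A' t β := by
    intro t β
    simp only [actU, Pi.add_apply, mul_add, Finset.sum_add_distrib]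
  have h2 : ∀ t : (κ → ι) → ℂ, mulS t (actU (A + A') t) s =
      mulS t (actU A t) s + mulS t (actU A' t) s := by
    intro t
    simp only [mulS, h1, ← Finset.sum_add_distrib]
    refine Finset.sum_congr rfl fun α _ => Finset.sum_congr rfl fun β _ => ?_
    split_ifs <;> ring
  simp only [soS, h2, Finset.sum_add_distrib, mul_add]

theorem f_soS_smul (c : ℂ) (A : κ → ι → ι → ℂ) {r : ℕ} (T : Fin r → (κ → ι) → ℂ)
    (s : κ → Sym2 ι) : soS (c • A) T s = c * soS A T s := by
  have h1 : ∀ t : (κ → ι) → ℂ, ∀ β, actU (c • A) t β = c * actU A t β := by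
    intro t β
    simp only [actU, Pi.smul_apply, smul_eq_mul, Finset.mul_sum]
    refine Finset.sum_congr rfl fun j _ => Finset.sum_congr rfl fun a _ => ?_
    ring
  have h2 : ∀ t : (κ → ι) → ℂ, mulS t (actU (c • A) t) s = c * mulS t (actU A t) s := by
    intro t
    simp only [mulS, h1, Finset.mul_sum]
    refine Finset.sum_congr rfl fun α _ => Finset.sum_congr rfl fun β _ => ?_
    split_ifs <;> ring
  simp only [soS, h2]
  rw [← Finset.mul_sum]
  ring

theorem f_sharp_add (I : κ → Finset ι) (A A' : κ → ι → ι → ℂ) :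
    sharp I (A + A') = sharp I A + sharp I A' := by
  funext j a b
  simp only [sharp, Pi.add_apply]
  split_ifs <;> ring

theorem f_sharp_smul (I : κ → Finset ι) (c : ℂ) (A : κ → ι → ι → ℂ) :
    sharp I (c • A) = c • sharp I A := by
  funext j a b
  simp only [sharp, Pi.smul_apply, smul_eq_mul]
  split_ifs <;> ring

/-- The linear system for `sharp I A = 0`. -/
def fE (I : κ → Finset ι) {r : ℕ} (T : Fin r → (κ → ι) → ℂ) :
    (κ × ι × ι → ℂ) →ₗ[ℂ] ((κ → Sym2 ι) ⊕ (κ × ι × ι) → ℂ) where
  toFun A := Sum.elim (cutS I (soS (sharp I (fun j a b => A (j, a, b))) T))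
    (fun q => if q.2.1 ∈ I q.1 ∧ q.2.2 ∈ I q.1 then A q + A (q.1, q.2.2, q.2.1) else A q)
  map_add' A A' := by
    have h1 : (fun j a b => (A + A') (j, a, b)) =
        (fun j a b => A (j, a, b)) + fun j a b => A' (j, a, b) := rfl
    funext z
    rcases z with s | q
    · simp only [Sum.elim_inl, Pi.add_apply]
      rw [show (fun j a b => A (j, a, b) + A' (j, a, b)) =
        (fun j a b => A (j, a, b)) + fun j a b => A' (j, a, b) from rfl, f_sharp_add]
      simp only [cutS, f_soS_add]
      split_ifs <;> ring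
    · simp only [Sum.elim_inr, Pi.add_apply]
      split_ifs <;> ring
  map_smul' c A := by
    funext z
    rcases z with s | q
    · simp only [Sum.elim_inl, Pi.smul_apply, RingHom.id_apply, smul_eq_mul]
      rw [show (fun j a b => c * A (j, a, b)) = c • fun j a b => A (j, a, b) from rfl,
        f_sharp_smul]
      simp only [cutS, f_soS_smul]
      split_ifs <;> ring
    · simp only [Sum.elim_inr, Pi.smul_apply, RingHom.id_apply, smul_eq_mul]
      split_ifs <;> ring

theorem fE_inl (I : κ → Finset ι) {r : ℕ} (T : Fin r → (κ → ι) → ℂ) (A : κ × ι × ι → ℂ)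
    (s : κ → Sym2 ι) :
    fE I T A (Sum.inl s) = cutS I (soS (sharp I (fun j a b => A (j, a, b))) T) s := rfl

theorem fE_inr (I : κ → Finset ι) {r : ℕ} (T : Fin r → (κ → ι) → ℂ) (A : κ × ι × ι → ℂ)
    (q : κ × ι × ι) :
    fE I T A (Sum.inr q) =
      if q.2.1 ∈ I q.1 ∧ q.2.2 ∈ I q.1 then A q + A (q.1, q.2.2, q.2.1) else A q := rfl

theorem fE_inj {I : κ → Finset ι} {r : ℕ} {T : Fin r → (κ → ι) → ℂ} (h : Free I T)
    (A : κ × ι × ι → ℂ) (hA : fE I T A = 0) : A = 0 := by
  have h1 : sharp I (fun j a b => A (j, a, b)) = 0 := by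
    refine h _ fun x hx => ?_
    rw [← evS_soS, ← evS_cutS _ hx]
    have h2 : cutS I (soS (sharp I (fun j a b => A (j, a, b))) T) = 0 := by
      funext s
      rw [← fE_inl, hA]
      rfl
    rw [h2]
    simp [evS]
  funext q
  obtain ⟨j, a, b⟩ := q
  have h3 := congrFun hA (Sum.inr (j, a, b))
  rw [fE_inr] at h3
  by_cases hab : a ∈ I j ∧ b ∈ I j
  · rw [if_pos hab] at h3
    have h4 : sharp I (fun j a b => A (j, a, b)) j a b = 0 := by rw [h1]; rfl
    simp only [sharp] at h4
    rw [if_pos hab] at h4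
    simp only [Pi.zero_apply] at h3 ⊢
    have h5 : A (j, a, b) = A (j, b, a) := sub_eq_zero.1 h4
    rw [← h5] at h3
    have h6 : 2 * A (j, a, b) = 0 := by rw [two_mul]; exact h3
    exact (mul_eq_zero.1 h6).resolve_left two_ne_zero
  · rw [if_neg hab] at h3
    exact h3

/-- Freeness for one form. -/
theorem f_free0 (I : κ → Finset ι) (r : ℕ) (hI : ∀ j, (I j).Nonempty)
    (hr : ∑ j, ((I j).card - 1) + 1 ≤ r) : ∃ T : Fin r → (κ → ι) → ℂ, Free I T := by
  classical
  choose o ho using hI
  let E : Finset (κ → ι) :=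
    insert o (univ.biUnion fun j => ((I j).erase (o j)).image fun b => update o j b)
  have hE1 : ∀ j, ∀ b ∈ I j, update o j b ∈ E := by
    intro j b hb
    by_cases hbo : b = o j
    · rw [hbo, update_eq_self]
      exact mem_insert_self _ _
    · refine mem_insert_of_mem (mem_biUnion.2 ⟨j, mem_univ _, mem_image.2 ⟨b, ?_, rfl⟩⟩)
      exact mem_erase.2 ⟨hbo, hb⟩
  have hE2 : ∀ β ∈ E, β = o ∨ ∃ j, ∃ b ∈ I j, b ≠ o j ∧ β = update o j b := by
    intro β hβ
    rcases mem_insert.1 hβ with h | h
    · exact Or.inl h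
    · obtain ⟨j, -, h⟩ := mem_biUnion.1 h
      obtain ⟨b, hb, rfl⟩ := mem_image.1 h
      exact Or.inr ⟨j, b, (mem_erase.1 hb).2, (mem_erase.1 hb).1, rfl⟩
  have hEc : E.card ≤ r := by
    refine le_trans ?_ hr
    refine (card_insert_le _ _).trans (Nat.add_le_add_right ?_ 1)
    refine card_biUnion_le.trans (Finset.sum_le_sum fun j _ => ?_)
    refine card_image_le.trans ?_
    rw [card_erase_of_mem (ho j)]
  have hr0 : 0 < r := by omega
  obtain ⟨g⟩ : Nonempty ({β // β ∈ E} ↪ Fin r) := by
    refine Function.Embedding.nonempty_of_card_le ?_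
    rw [Fintype.card_coe, Fintype.card_fin]
    exact hEc
  let f : (κ → ι) → Fin r := fun β => if h : β ∈ E then g ⟨β, h⟩ else ⟨0, hr0⟩
  have hf : ∀ β ∈ E, ∀ β' ∈ E, f β = f β' → β = β' := by
    intro β hβ β' hβ' e
    simp only [f] at e
    rw [dif_pos hβ, dif_pos hβ'] at e
    exact congrArg Subtype.val (g.injective e)
  let c : (κ → ι) → ℂ := fun β => ((f β : ℕ) : ℂ) + 1
  have hc : ∀ β ∈ E, ∀ β' ∈ E, β ≠ β' → c β ^ 2 - c β' ^ 2 ≠ 0 := by
    intro β hβ β' hβ' hne e
    have h1 : ((((f β : ℕ) + 1) ^ 2 : ℕ) : ℂ) = (((f β' : ℕ) + 1) ^ 2 : ℕ) := by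
      push_cast
      exact sub_eq_zero.1 e
    have h2 : ((f β : ℕ) + 1) ^ 2 = ((f β' : ℕ) + 1) ^ 2 := by exact_mod_cast h1
    have h3 : (f β : ℕ) + 1 = (f β' : ℕ) + 1 := Nat.pow_left_injective (n := 2) (by norm_num) h2
    exact hne (hf β hβ β' hβ' (Fin.ext (by omega)))
  let T0 : Fin r → (κ → ι) → ℂ := fun a α => if α ∈ E ∧ f α = a then c α else 0
  -- the evaluation
  have hev : ∀ β ∈ E, ∀ x : κ → ι → ℂ, ev (T0 (f β)) x = c β * ∏ j, x j (β j) := by
    intro β hβ x
    simp only [ev]
    rw [Finset.sum_eq_single β]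
    · have e : T0 (f β) β = c β := if_pos ⟨hβ, rfl⟩
      rw [e]
    · intro α _ hα
      simp only [T0]
      rw [if_neg, zero_mul]
      rintro ⟨h1, h2⟩
      exact hα (hf α h1 β hβ h2)
    · intro h
      exact absurd (mem_univ _) h
  have hev0 : ∀ a, a ∉ E.image f → ∀ x : κ → ι → ℂ, ev (T0 a) x = 0 := by
    intro a ha x
    simp only [ev]
    refine Finset.sum_eq_zero fun α _ => ?_
    simp only [T0]
    rw [if_neg, zero_mul]
    rintro ⟨h1, h2⟩
    exact ha (mem_image.2 ⟨α, h1, h2⟩)
  have hsum : ∀ x y : κ → ι → ℂ, ∑ a, ev (T0 a) x * ev (T0 a) y =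
      ∑ β ∈ E, (c β ^ 2 * ∏ j, x j (β j)) * ∏ j, y j (β j) := by
    intro x y
    have h1 : ∑ a, ev (T0 a) x * ev (T0 a) y =
        ∑ a ∈ E.image f, ev (T0 a) x * ev (T0 a) y := by
      refine (Finset.sum_subset (Finset.subset_univ _) fun a _ ha => ?_).symm
      rw [hev0 a ha, zero_mul]
    rw [h1, Finset.sum_image (fun β hβ β' hβ' e => hf β hβ β' hβ' e)]
    refine Finset.sum_congr rfl fun β hβ => ?_
    rw [hev β hβ, hev β hβ]
    ring
  refine ⟨T0, ?_⟩
  intro A hA
  funext j a b
  change sharp I A j a b = 0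
  by_cases haI : a ∈ I j
  swap
  · exact sharp_left A haI b
  by_cases hbI : b ∈ I j
  swap
  · exact sharp_right A hbI a
  by_cases hab : a = b
  · subst hab
    exact self_eq_neg.1 (sharp_anti I A j a a)
  -- the point
  let v : ι → ℂ := Pi.single a 1 + Pi.single b 1
  have hv : ∀ i, i ∉ I j → v i = 0 := by
    intro i hi
    have h1 : i ≠ a := fun e => hi (e ▸ haI)
    have h2 : i ≠ b := fun e => hi (e ▸ hbI)
    simp [v, Pi.single_eq_of_ne h1, Pi.single_eq_of_ne h2]
  let x0 : κ → ι → ℂ := fun m => Pi.single (o m) 1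
  let x : κ → ι → ℂ := update x0 j v
  have hx : SuppX I x := by
    refine suppX_update (fun m i hi => ?_) hv
    refine Pi.single_eq_of_ne (fun e => hi ?_) _
    rw [e]
    exact ho m
  have hp1 : ∀ i, ∏ m ∈ univ.erase j, x0 m (update o j i m) = 1 := by
    intro i
    refine Finset.prod_eq_one fun m hm => ?_
    rw [update_of_ne (Finset.ne_of_mem_erase hm)]
    exact Pi.single_eq_same _ _
  have hxβ : ∀ i, ∏ m, x m (update o j i m) = v i := by
    intro i
    rw [prod_update, hp1, mul_one, update_self]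
  have hxβ0 : ∀ β ∈ E, (¬ ∃ i ∈ I j, β = update o j i) → ∏ m, x m (β m) = 0 := by
    intro β hβ hn
    rcases hE2 β hβ with h1 | ⟨l, i, hi, hio, h1⟩
    · exact absurd ⟨o j, ho j, by rw [h1, update_eq_self]⟩ hn
    · by_cases hlj : l = j
      · subst hlj
        exact absurd ⟨i, hi, h1⟩ hn
      · refine Finset.prod_eq_zero (mem_univ l) ?_
        rw [h1, update_self]
        change update x0 j v l i = 0
        rw [update_of_ne hlj]
        exact Pi.single_eq_of_ne hio _
  -- sums over `E`
  have hsumE : ∀ F : (κ → ι) → ℂ, ∑ β ∈ E, (c β ^ 2 * ∏ m, x m (β m)) * F β =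
      ∑ i ∈ I j, (c (update o j i) ^ 2 * v i) * F (update o j i) := by
    intro F
    have hinj : ∀ i ∈ I j, ∀ i' ∈ I j, update o j i = update o j i' → i = i' := by
      intro i _ i' _ e
      have := congrFun e j
      simpa using this
    have h1 : ∑ β ∈ E, (c β ^ 2 * ∏ m, x m (β m)) * F β =
        ∑ β ∈ (I j).image (fun i => update o j i), (c β ^ 2 * ∏ m, x m (β m)) * F β := by
      symm
      refine Finset.sum_subset ?_ ?_
      · intro β hβ
        obtain ⟨i, hi, rfl⟩ := mem_image.1 hβ
        exact hE1 j i hi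
      · intro β hβ hβ2
        rw [hxβ0 β hβ, mul_zero, zero_mul]
        rintro ⟨i, hi, e⟩
        exact hβ2 (mem_image.2 ⟨i, hi, e.symm⟩)
    rw [h1, Finset.sum_image hinj]
    refine Finset.sum_congr rfl fun i _ => ?_
    rw [hxβ]
  have hdG : ∀ l i, dG T0 x l i =
      2 * ∑ i' ∈ I j, (c (update o j i') ^ 2 * v i') *
        ∏ m, update x l (Pi.single i 1) m (update o j i' m) := by
    intro l i
    simp only [dG]
    rw [hsum, hsumE]
  have hdj : ∀ i ∈ I j, dG T0 x j i = 2 * (c (update o j i) ^ 2 * v i) := by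
    intro i hi
    rw [hdG]
    congr 1
    have h1 : ∀ i', ∏ m, update x j (Pi.single i (1 : ℂ)) m (update o j i' m) =
        if i' = i then 1 else 0 := by
      intro i'
      rw [prod_update, update_self]
      have h2 : ∏ m ∈ univ.erase j, x m (update o j i' m) = 1 := by
        rw [← hp1 i']
        refine Finset.prod_congr rfl fun m hm => ?_
        change update x0 j v m _ = _
        rw [update_of_ne (Finset.ne_of_mem_erase hm)]
      rw [h2, mul_one, Pi.single_apply]
    simp only [h1]
    rw [Finset.sum_eq_single i]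
    · rw [if_pos rfl, mul_one]
    · intro i' _ hi'
      rw [if_neg hi', mul_zero]
    · intro h
      exact absurd hi h
  have hdl : ∀ l, l ≠ j → ∀ i, i ≠ o l → dG T0 x l i = 0 := by
    intro l hl i hi
    rw [hdG]
    have h1 : ∀ i', ∏ m, update x l (Pi.single i (1 : ℂ)) m (update o j i' m) = 0 := by
      intro i'
      rw [prod_update, update_of_ne hl, Pi.single_eq_of_ne (Ne.symm hi), zero_mul]
    simp only [h1, mul_zero, Finset.sum_const_zero]
  have h0 := hA x hx
  rw [soG_eq, Finset.sum_eq_single j] at h0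
  · have h1 : ∀ i, (∑ b', sharp I A j i b' * x j b') * dG T0 x j i =
        (sharp I A j i a + sharp I A j i b) *
          (2 * (c (update o j i) ^ 2 * ((if i = a then 1 else 0) + (if i = b then 1 else 0)))) := by
      intro i
      have h2 : ∑ b', sharp I A j i b' * x j b' = sharp I A j i a + sharp I A j i b := by
        have h3 : x j = v := update_self _ _ _
        rw [h3]
        simp only [v, Pi.add_apply, mul_add, Finset.sum_add_distrib, Pi.single_apply, mul_ite,
          mul_one, mul_zero, Finset.sum_ite_eq', mem_univ, if_true]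
      rw [h2]
      by_cases hi : i ∈ I j
      · rw [hdj i hi]
        simp only [v, Pi.add_apply, Pi.single_apply]
      · rw [sharp_left A hi, sharp_left A hi, add_zero, zero_mul, zero_mul]
    simp only [h1] at h0
    have h4 : ∑ i, (sharp I A j i a + sharp I A j i b) *
          (2 * (c (update o j i) ^ 2 * ((if i = a then 1 else 0) + (if i = b then 1 else 0)))) =
        (sharp I A j a a + sharp I A j a b) * (2 * c (update o j a) ^ 2) +
          (sharp I A j b a + sharp I A j b b) * (2 * c (update o j b) ^ 2) := by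
      have h5 : ∀ i, (sharp I A j i a + sharp I A j i b) *
          (2 * (c (update o j i) ^ 2 * ((if i = a then 1 else 0) + (if i = b then 1 else 0)))) =
          (if i = a then (sharp I A j i a + sharp I A j i b) * (2 * c (update o j i) ^ 2) else 0) +
          (if i = b then (sharp I A j i a + sharp I A j i b) * (2 * c (update o j i) ^ 2)
            else 0) := by
        intro i
        split_ifs <;> ring
      simp only [h5, Finset.sum_add_distrib, Finset.sum_ite_eq', mem_univ, if_true]
    rw [h4] at h0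
    have haa : sharp I A j a a = 0 := self_eq_neg.1 (sharp_anti I A j a a)
    have hbb : sharp I A j b b = 0 := self_eq_neg.1 (sharp_anti I A j b b)
    have hba : sharp I A j b a = - sharp I A j a b := sharp_anti I A j b a
    rw [haa, hbb, hba] at h0
    have h6 : sharp I A j a b * (2 * (c (update o j a) ^ 2 - c (update o j b) ^ 2)) = 0 := by
      rw [← h0]
      ring
    rcases mul_eq_zero.1 h6 with h7 | h7
    · exact h7
    · exfalso
      refine hc _ (hE1 j a haI) _ (hE1 j b hbI) ?_ ((mul_eq_zero.1 h7).resolve_left two_ne_zero)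
      intro e
      have := congrFun e j
      rw [update_self, update_self] at this
      exact hab this
  · intro l _ hl
    refine Finset.sum_eq_zero fun i _ => ?_
    by_cases hi : i = o l
    · have h2 : ∑ b', sharp I A l i b' * x l b' = 0 := by
        have h3 : x l = Pi.single (o l) 1 := update_of_ne hl _ _
        rw [h3, hi]
        have h4 : sharp I A l (o l) (o l) = 0 := self_eq_neg.1 (sharp_anti I A l (o l) (o l))
        refine Finset.sum_eq_zero fun b' _ => ?_
        by_cases hb' : b' = o l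
        · rw [hb', h4, zero_mul]
        · rw [Pi.single_eq_of_ne hb', mul_zero]
      rw [h2, zero_mul]
    · rw [hdl l hl i hi, mul_zero]
  · intro h
    exact absurd (mem_univ _) h

/-- Generic freeness. -/
theorem free : StFree := by
  intro κ ι _ _ _ _ I r hI hr
  classical
  obtain ⟨T0, hT0⟩ := f_free0 I r hI hr
  let EE : (Fin r → (κ → ι) → ℂ) → Matrix ((κ → Sym2 ι) ⊕ (κ × ι × ι)) (κ × ι × ι) ℂ :=
    fun T => LinearMap.toMatrix' (fE I T)
  have hmul : ∀ T A, (EE T).mulVec A = fE I T A := fun T A => LinearMap.toMatrix'_mulVec _ _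
  obtain ⟨B, hB⟩ := exists_left_inv (EE T0) (fun P hP => by
    rw [hmul] at hP
    exact fE_inj hT0 P hP)
  have hpoly : IsPoly (fun t : Fin r × (κ → ι) → ℂ => (B * EE (curry t)).det) := by
    refine IsPoly.det fun i j => ?_
    simp only [Matrix.mul_apply]
    refine IsPoly.sum _ fun k _ => (IsPoly.const _).mul ?_
    simp only [EE, LinearMap.toMatrix'_apply]
    rcases k with s | q
    · simp only [fE_inl, cutS]
      exact IsPoly.ite (isPoly_soS _ (fun a α => IsPoly.coord _) s) (IsPoly.const 0)
    · simp only [fE_inr]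
      exact IsPoly.const _
  have hne : (fun t : Fin r × (κ → ι) → ℂ => (B * EE (curry t)).det) (uncurry T0) ≠ 0 := by
    simp only [curry_uncurry, hB, Matrix.det_one]
    exact one_ne_zero
  refine (Gen.of_poly hpoly hne).mono fun t ht => ?_
  intro A hA
  have hA' : sharp I ((2 : ℂ)⁻¹ • sharp I A) = sharp I A := by
    funext j a b
    by_cases hab : a ∈ I j ∧ b ∈ I j
    · have h1 : sharp I ((2 : ℂ)⁻¹ • sharp I A) j a b =
          (2 : ℂ)⁻¹ * sharp I A j a b - (2 : ℂ)⁻¹ * sharp I A j b a := if_pos hab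
      rw [h1, sharp_anti I A j b a]
      ring
    · have h1 : sharp I ((2 : ℂ)⁻¹ • sharp I A) j a b = 0 := if_neg hab
      have h2 : sharp I A j a b = 0 := if_neg hab
      rw [h1, h2]
  let P : κ × ι × ι → ℂ := fun q => ((2 : ℂ)⁻¹ • sharp I A) q.1 q.2.1 q.2.2
  have hP : (EE (curry t)).mulVec P = 0 := by
    rw [hmul]
    funext z
    rcases z with s | ⟨j, a, b⟩
    · rw [fE_inl]
      change cutS I (soS (sharp I ((2 : ℂ)⁻¹ • sharp I A)) (curry t)) s = 0
      rw [hA']
      have h1 : cutS I (soS (sharp I A) (curry t)) = 0 := by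
        refine evS_inj (suppS_cutS _ _) fun x hx => ?_
        rw [evS_cutS _ hx, evS_soS]
        exact hA x hx
      rw [h1]
      rfl
    · rw [fE_inr]
      change (if a ∈ I j ∧ b ∈ I j then (2 : ℂ)⁻¹ * sharp I A j a b + (2 : ℂ)⁻¹ * sharp I A j b a
        else (2 : ℂ)⁻¹ * sharp I A j a b) = 0
      split_ifs with hab
      · rw [sharp_anti I A j b a]
        ring
      · have h2 : sharp I A j a b = 0 := if_neg hab
        rw [h2, mul_zero]
  have hP0 := inj_of_det (EE (curry t)) B ht P hP
  funext j a b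
  have h3 := congrFun hP0 (j, a, b)
  change (2 : ℂ)⁻¹ * sharp I A j a b = 0 at h3
  exact (mul_eq_zero.1 h3).resolve_left (inv_ne_zero two_ne_zero)

end Pool.Agent.Helper41.SV
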