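import Pool.Agent.Helper41.SV.Basic
import Pool.Agent.Helper41.SV.Stmts

/-!
Slices: from tensors of format `fmt n` to tuples of multilinear forms.
-/

open Finset Function

noncomputable section

set_option linter.unusedSectionVars false

namespace Pool.Agent.Helper41.SV

namespace FA

variable {k : ℕ} (n : Fin k → ℕ)

theorem fmt_last : fmt n (Fin.last k) = ∑ j, n j + 1 := by
  simp only [fmt, Fin.snoc_last]

theorem fmt_castSucc (j : Fin k) : fmt n j.castSucc = n j := by
  simp only [fmt, Fin.snoc_castSucc]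

theorem le_sum (j : Fin k) : n j ≤ ∑ j, n j :=
  Finset.single_le_sum (f := n) (fun _ _ => Nat.zero_le _) (mem_univ j)

/-- The index of the last slot. -/
def ea (α : Idx (fmt n)) : Fin (∑ j, n j + 2) :=
  Fin.cast (by rw [fmt_last]) (α (Fin.last k))

/-- The indices of the other slots. -/
def eb (α : Idx (fmt n)) : Fin k → Fin (∑ j, n j + 1) := fun j =>
  Fin.castLE (by rw [fmt_castSucc]; exact Nat.succ_le_succ (le_sum n j)) (α j.castSucc)

/-- The embedding of the indices. -/
def ee (α : Idx (fmt n)) : Fin (∑ j, n j + 2) × (Fin k → Fin (∑ j, n j + 1)) := (ea n α, eb n α)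

theorem ea_val (α : Idx (fmt n)) : (ea n α : ℕ) = α (Fin.last k) := rfl

theorem eb_val (α : Idx (fmt n)) (j : Fin k) : (eb n α j : ℕ) = α j.castSucc := rfl

theorem ee_inj : Injective (ee n) := by
  intro α β h
  have h1 : ea n α = ea n β := congrArg Prod.fst h
  have h2 : eb n α = eb n β := congrArg Prod.snd h
  funext i
  refine Fin.lastCases ?_ (fun j => ?_) i
  · have h3 := congrArg Fin.val h1
    exact Fin.ext h3
  · have h3 := congrArg Fin.val (congrFun h2 j)
    exact Fin.ext h3

theorem range_ee (p : Fin (∑ j, n j + 2) × (Fin k → Fin (∑ j, n j + 1))) :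
    p ∈ Set.range (ee n) ↔ ∀ j, (p.2 j : ℕ) ≤ n j := by
  constructor
  · rintro ⟨α, rfl⟩ j
    have h1 := (α j.castSucc).isLt
    have h2 := fmt_castSucc n j
    change ((α j.castSucc : Fin _) : ℕ) ≤ n j
    omega
  · intro h
    refine ⟨fun i => Fin.lastCases (motive := fun i => Fin (fmt n i + 1))
      (Fin.cast (by rw [fmt_last]) p.1)
      (fun j => ⟨p.2 j, by rw [fmt_castSucc]; exact Nat.lt_succ_iff.2 (h j)⟩) i, ?_⟩
    refine Prod.ext ?_ ?_
    · refine Fin.ext ?_
      change ((Fin.lastCases (motive := fun i => Fin (fmt n i + 1)) _ _ (Fin.last k) : Fin _) : ℕ)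
        = _
      rw [Fin.lastCases_last]
      rfl
    · funext j
      refine Fin.ext ?_
      change ((Fin.lastCases (motive := fun i => Fin (fmt n i + 1)) _ _ (j.castSucc) : Fin _) : ℕ)
        = _
      rw [Fin.lastCases_castSucc]

theorem mem_low {K : ℕ} (n : Fin k → ℕ) (j : Fin k) (i : Fin K) : i ∈ low n j ↔ (i : ℕ) ≤ n j := by
  simp [low]

/-- Sums over the indices as padded sums. -/
theorem sum_ee (F : Fin (∑ j, n j + 2) × (Fin k → Fin (∑ j, n j + 1)) → ℂ)
    (h : ∀ p, (∃ j, n j < (p.2 j : ℕ)) → F p = 0) : ∑ p, F p = ∑ α, F (ee n α) := by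
  symm
  refine Finset.sum_of_injOn (ee n) (ee_inj n).injOn (by simp) ?_ (fun _ _ => rfl)
  intro p _ hp
  refine h p ?_
  by_contra hc
  push Not at hc
  obtain ⟨α, hα⟩ := (range_ee n p).2 hc
  exact hp ⟨α, by simp, hα⟩

/-- The last vector of a tuple. -/
def yo (x : (i : Fin (k + 1)) → Fin (fmt n i + 1) → ℂ) : Fin (∑ j, n j + 2) → ℂ :=
  fun a => x (Fin.last k) (Fin.cast (by rw [fmt_last]) a)

/-- The other vectors of a tuple. -/
def zo (x : (i : Fin (k + 1)) → Fin (fmt n i + 1) → ℂ) : Fin k → Fin (∑ j, n j + 1) → ℂ :=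
  fun j i => if h : (i : ℕ) < fmt n j.castSucc + 1 then x j.castSucc ⟨i, h⟩ else 0

theorem yo_ea (x : (i : Fin (k + 1)) → Fin (fmt n i + 1) → ℂ) (α : Idx (fmt n)) :
    yo n x (ea n α) = x (Fin.last k) (α (Fin.last k)) := rfl

theorem zo_eb (x : (i : Fin (k + 1)) → Fin (fmt n i + 1) → ℂ) (α : Idx (fmt n)) (j : Fin k) :
    zo n x j (eb n α j) = x j.castSucc (α j.castSucc) := by
  have h : ((eb n α j : Fin (∑ j, n j + 1)) : ℕ) < fmt n j.castSucc + 1 := (α j.castSucc).isLt
  simp only [zo, dif_pos h]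
  rfl

theorem suppX_zo (x : (i : Fin (k + 1)) → Fin (fmt n i + 1) → ℂ) : SuppX (low n) (zo n x) := by
  intro j i hi
  rw [mem_low] at hi
  have h : ¬ (i : ℕ) < fmt n j.castSucc + 1 := by rw [fmt_castSucc]; omega
  simp only [zo, dif_neg h]

/-- The slices of a padded tensor. -/
def sl (ts : Fin (∑ j, n j + 2) × (Fin k → Fin (∑ j, n j + 1)) → ℂ) :
    Fin (∑ j, n j + 2) → (Fin k → Fin (∑ j, n j + 1)) → ℂ := curry ts

/-- The full evaluation. -/
def full (P : Idx (fmt n) → ℂ) (x : (i : Fin (k + 1)) → Fin (fmt n i + 1) → ℂ) : ℂ :=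
  ∑ α, P α * ∏ i, x i (α i)

theorem full_eq (P : Idx (fmt n) → ℂ)
    (ts : Fin (∑ j, n j + 2) × (Fin k → Fin (∑ j, n j + 1)) → ℂ) (hts : ∀ α, ts (ee n α) = P α)
    (x : (i : Fin (k + 1)) → Fin (fmt n i + 1) → ℂ) :
    full n P x = ∑ a, yo n x a * ev (curry ts a) (zo n x) := by
  have h1 : ∑ a, yo n x a * ev (curry ts a) (zo n x) =
      ∑ p : Fin (∑ j, n j + 2) × (Fin k → Fin (∑ j, n j + 1)),
        ts p * (yo n x p.1 * ∏ j, zo n x j (p.2 j)) := by
    rw [Fintype.sum_prod_type]
    refine Finset.sum_congr rfl fun a _ => ?_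
    simp only [ev, Finset.mul_sum, curry]
    exact Finset.sum_congr rfl fun β _ => by ring
  rw [h1, sum_ee]
  · simp only [full]
    refine Finset.sum_congr rfl fun α _ => ?_
    rw [hts, Fin.prod_univ_castSucc]
    change _ = _ * (yo n x (ea n α) * ∏ j, zo n x j (eb n α j))
    simp only [yo_ea, zo_eb]
    ring
  · rintro p ⟨j, hj⟩
    rw [Finset.prod_eq_zero (mem_univ j), mul_zero, mul_zero]
    exact suppX_zo n x j _ (by rw [mem_low]; omega)

theorem contract_eq {m : ℕ} {d : Fin m → ℕ} (T : Idx d → ℂ)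
    (x : (i : Fin m) → Fin (d i + 1) → ℂ) (i : Fin m) (a : Fin (d i + 1)) :
    contract T x i a = ∑ α : Idx d, T α * ∏ j, (update x i (Pi.single a 1)) j (α j) := by
  simp only [contract]
  refine Finset.sum_congr rfl fun α _ => ?_
  rw [← Finset.mul_prod_erase univ _ (mem_univ i), update_self]
  have h : ∏ j ∈ univ.erase i, (update x i (Pi.single a 1)) j (α j) =
      ∏ j ∈ univ.erase i, x j (α j) :=
    Finset.prod_congr rfl fun j hj => by rw [update_of_ne (Finset.ne_of_mem_erase hj)]
  rw [h]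
  by_cases h1 : α i = a
  · rw [if_pos h1, h1, Pi.single_eq_same, one_mul]
  · rw [if_neg h1, Pi.single_eq_of_ne h1, zero_mul, mul_zero]

theorem yo_update_last (x : (i : Fin (k + 1)) → Fin (fmt n i + 1) → ℂ)
    (a : Fin (∑ j, n j + 2)) :
    yo n (update x (Fin.last k) (Pi.single (Fin.cast (by rw [fmt_last]) a) 1)) =
      Pi.single a 1 := by
  funext b
  simp only [yo, update_self]
  by_cases h : b = a
  · subst h; simp
  · rw [Pi.single_eq_of_ne h, Pi.single_eq_of_ne]
    intro h'
    have h3 := congrArg Fin.val h'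
    exact h (Fin.ext h3)

theorem zo_update_last (x : (i : Fin (k + 1)) → Fin (fmt n i + 1) → ℂ)
    (v : Fin (fmt n (Fin.last k) + 1) → ℂ) : zo n (update x (Fin.last k) v) = zo n x := by
  funext j i
  simp only [zo]
  rw [update_of_ne (Fin.castSucc_lt_last j).ne]

theorem yo_update_castSucc (x : (i : Fin (k + 1)) → Fin (fmt n i + 1) → ℂ) (j : Fin k)
    (v : Fin (fmt n j.castSucc + 1) → ℂ) : yo n (update x j.castSucc v) = yo n x := by
  funext a
  simp only [yo]
  rw [update_of_ne (Fin.castSucc_lt_last j).ne']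

theorem zo_update_castSucc (x : (i : Fin (k + 1)) → Fin (fmt n i + 1) → ℂ) (j : Fin k)
    (i : Fin (∑ j, n j + 1)) (hi : (i : ℕ) < fmt n j.castSucc + 1) :
    zo n (update x j.castSucc (Pi.single ⟨i, hi⟩ 1)) = update (zo n x) j (Pi.single i 1) := by
  funext m i'
  by_cases hm : m = j
  · subst hm
    rw [update_self]
    by_cases h : i' = i
    · subst h
      simp only [zo, dif_pos hi, update_self, Pi.single_eq_same]
    · rw [Pi.single_eq_of_ne h]
      simp only [zo, update_self]
      split_ifs with h1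
      · refine Pi.single_eq_of_ne (fun h' => h ?_) _
        have h3 := congrArg Fin.val h'
        exact Fin.ext h3
      · rfl
  · rw [update_of_ne hm]
    simp only [zo]
    rw [update_of_ne (fun h => hm (Fin.castSucc_injective _ h))]

theorem contract_last (T : Idx (fmt n) → ℂ)
    (ts : Fin (∑ j, n j + 2) × (Fin k → Fin (∑ j, n j + 1)) → ℂ) (hts : ∀ α, ts (ee n α) = T α)
    (x : (i : Fin (k + 1)) → Fin (fmt n i + 1) → ℂ) (a : Fin (∑ j, n j + 2)) :
    contract T x (Fin.last k) (Fin.cast (by rw [fmt_last]) a) = ev (curry ts a) (zo n x) := by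
  rw [contract_eq]
  have h := full_eq n T ts hts (update x (Fin.last k) (Pi.single (Fin.cast (by rw [fmt_last]) a) 1))
  rw [yo_update_last, zo_update_last] at h
  rw [full] at h
  rw [h, Finset.sum_eq_single a]
  · rw [Pi.single_eq_same, one_mul]
  · intro b _ hb
    rw [Pi.single_eq_of_ne hb, zero_mul]
  · intro h; exact absurd (mem_univ _) h

theorem contract_castSucc (T : Idx (fmt n) → ℂ)
    (ts : Fin (∑ j, n j + 2) × (Fin k → Fin (∑ j, n j + 1)) → ℂ) (hts : ∀ α, ts (ee n α) = T α)
    (x : (i : Fin (k + 1)) → Fin (fmt n i + 1) → ℂ) (j : Fin k) (i : Fin (∑ j, n j + 1))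
    (hi : (i : ℕ) < fmt n j.castSucc + 1) :
    contract T x j.castSucc ⟨i, hi⟩ =
      ∑ a, yo n x a * ev (curry ts a) (update (zo n x) j (Pi.single i 1)) := by
  rw [contract_eq]
  have h := full_eq n T ts hts (update x j.castSucc (Pi.single ⟨i, hi⟩ 1))
  rw [yo_update_castSucc, zo_update_castSucc] at h
  rw [full] at h
  exact h

/-! ### The matrices `C_l(T, Z)` -/

theorem CMat_last (T Z : Idx (fmt n) → ℂ)
    (ts zs : Fin (∑ j, n j + 2) × (Fin k → Fin (∑ j, n j + 1)) → ℂ)
    (hts : ∀ α, ts (ee n α) = T α) (hzs : ∀ α, zs (ee n α) = Z α)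
    (hz0 : ∀ p, (∃ j, n j < (p.2 j : ℕ)) → zs p = 0) (a b : Fin (∑ j, n j + 2)) :
    CMat T Z (Fin.last k) (Fin.cast (by rw [fmt_last]) a) (Fin.cast (by rw [fmt_last]) b) =
      ∑ β, ts (a, β) * zs (b, β) := by
  have h1 : ∑ β, ts (a, β) * zs (b, β) =
      ∑ p : Fin (∑ j, n j + 2) × (Fin k → Fin (∑ j, n j + 1)),
        if p.1 = a then ts p * zs (b, p.2) else 0 := by
    rw [Fintype.sum_prod_type, Finset.sum_eq_single a]
    · simp
    · intro a' _ ha'
      simp [ha']
    · intro h; exact absurd (mem_univ _) h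
  rw [h1, sum_ee]
  · simp only [CMat]
    refine Finset.sum_congr rfl fun α _ => ?_
    have h2 : (α (Fin.last k) = Fin.cast (by rw [fmt_last]) a) ↔ (ee n α).1 = a := by
      constructor
      · intro h
        have h3 := congrArg Fin.val h
        exact Fin.ext h3
      · intro h
        have h3 := congrArg Fin.val h
        exact Fin.ext h3
    rw [if_congr h2 rfl rfl, hts]
    congr 2
    rw [← hzs]
    congr 1
    refine Prod.ext ?_ ?_
    · refine Fin.ext ?_
      change ((update α (Fin.last k) _ (Fin.last k) : Fin _) : ℕ) = _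
      rw [update_self]; rfl
    · funext j
      refine Fin.ext ?_
      change ((update α (Fin.last k) _ j.castSucc : Fin _) : ℕ) = _
      rw [update_of_ne (Fin.castSucc_lt_last j).ne]; rfl
  · rintro p hp
    rw [hz0 (b, p.2) hp, mul_zero, ite_self]

theorem CMat_castSucc (T Z : Idx (fmt n) → ℂ)
    (ts zs : Fin (∑ j, n j + 2) × (Fin k → Fin (∑ j, n j + 1)) → ℂ)
    (hts : ∀ α, ts (ee n α) = T α) (hzs : ∀ α, zs (ee n α) = Z α)
    (hz0 : ∀ p, (∃ j, n j < (p.2 j : ℕ)) → zs p = 0) (j : Fin k)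
    (i i' : Fin (∑ j, n j + 1)) (hi : (i : ℕ) < fmt n j.castSucc + 1)
    (hi' : (i' : ℕ) < fmt n j.castSucc + 1) :
    CMat T Z j.castSucc ⟨i, hi⟩ ⟨i', hi'⟩ =
      ∑ a, ∑ β, if β j = i then ts (a, β) * zs (a, update β j i') else 0 := by
  rw [← Fintype.sum_prod_type (f := fun p : Fin (∑ j, n j + 2) × (Fin k → Fin (∑ j, n j + 1)) =>
    if p.2 j = i then ts (p.1, p.2) * zs (p.1, update p.2 j i') else 0), sum_ee]
  · simp only [CMat]
    refine Finset.sum_congr rfl fun α _ => ?_
    have h2 : (α j.castSucc = ⟨i, hi⟩) ↔ (ee n α).2 j = i := by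
      constructor
      · intro h
        have h3 := congrArg Fin.val h
        exact Fin.ext h3
      · intro h
        have h3 := congrArg Fin.val h
        exact Fin.ext h3
    have h3 : ((ee n α).1, update (ee n α).2 j i') = ee n (update α j.castSucc ⟨i', hi'⟩) := by
      refine Prod.ext ?_ ?_
      · refine Fin.ext ?_
        change _ = ((update α j.castSucc _ (Fin.last k) : Fin _) : ℕ)
        rw [update_of_ne (Fin.castSucc_lt_last j).ne']; rfl
      · funext m
        refine Fin.ext ?_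
        change _ = ((update α j.castSucc _ m.castSucc : Fin _) : ℕ)
        by_cases hm : m = j
        · subst hm
          rw [update_self]
          change ((update (ee n α).2 m i' m : Fin _) : ℕ) = _
          rw [update_self]
        · rw [update_of_ne (fun h => hm (Fin.castSucc_injective _ h))]
          change ((update (ee n α).2 j i' m : Fin _) : ℕ) = _
          rw [update_of_ne hm]; rfl
    rw [if_congr h2 rfl rfl, h3, hzs, ← hts]
  · rintro p ⟨m, hm⟩
    by_cases hmj : m = j
    · subst hmj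
      rw [if_neg]
      intro h
      rw [h] at hm
      rw [fmt_castSucc] at hi
      omega
    · have : zs (p.1, update p.2 j i') = 0 := by
        refine hz0 _ ⟨m, ?_⟩
        change n m < ((update p.2 j i' m : Fin _) : ℕ)
        rw [update_of_ne hmj]
        exact hm
      rw [this, mul_zero, ite_self]

end FA

end Pool.Agent.Helper41.SV
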