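import Mathlib

/-!
Orthogonal complements for the dot product, and a dimension count.
-/

open Finset Function Module

noncomputable section

set_option linter.unusedSectionVars false

namespace Pool.Agent.Helper41.SV

variable {m : Type} [Fintype m] [DecidableEq m]

/-- The orthogonal complement for the dot product. -/
def perp (W : Submodule ℂ (m → ℂ)) : Submodule ℂ (m → ℂ) where
  carrier := {P | ∀ Z ∈ W, P ⬝ᵥ Z = 0}
  add_mem' := by
    intro a b ha hb Z hZ
    rw [add_dotProduct, ha Z hZ, hb Z hZ, add_zero]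
  zero_mem' := by
    intro Z _
    exact zero_dotProduct Z
  smul_mem' := by
    intro c a ha Z hZ
    rw [smul_dotProduct, ha Z hZ, smul_zero]

theorem mem_perp (W : Submodule ℂ (m → ℂ)) (P : m → ℂ) : P ∈ perp W ↔ ∀ Z ∈ W, P ⬝ᵥ Z = 0 :=
  Iff.rfl

theorem finrank_perp (W : Submodule ℂ (m → ℂ)) :
    finrank ℂ (perp W) + finrank ℂ W = Fintype.card m := by
  let B : LinearMap.BilinForm ℂ (m → ℂ) := dotProductBilin ℂ ℂ
  have hB : ∀ x y, B x y = x ⬝ᵥ y := fun _ _ => rfl
  have h1 : B.ker = ⊥ := by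
    rw [LinearMap.ker_eq_bot']
    intro x hx
    funext i
    have := LinearMap.congr_fun hx (Pi.single i 1)
    rw [hB] at this
    simpa using this
  have h2 := LinearMap.BilinForm.finrank_add_finrank_orthogonal' (B := B) W
  have h3 : B.orthogonal W = perp W := by
    ext x
    rw [LinearMap.BilinForm.mem_orthogonal_iff, mem_perp]
    constructor
    · intro h Z hZ
      have h5 : B Z x = 0 := h Z hZ
      rw [hB] at h5
      rwa [dotProduct_comm]
    · intro h Z hZ
      change B Z x = 0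
      rw [hB, dotProduct_comm]
      exact h Z hZ
  rw [h1, inf_bot_eq, finrank_bot, add_zero, h3, finrank_pi] at h2
  omega

theorem perp_perp (W : Submodule ℂ (m → ℂ)) : perp (perp W) = W := by
  symm
  refine Submodule.eq_of_le_of_finrank_le ?_ ?_
  · intro Z hZ P hP
    rw [dotProduct_comm]
    exact hP Z hZ
  · have h1 := finrank_perp W
    have h2 := finrank_perp (perp W)
    omega

theorem perp_anti {W W' : Submodule ℂ (m → ℂ)} (h : W ≤ W') : perp W' ≤ perp W :=
  fun _ hP Z hZ => hP Z (h hZ)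

theorem le_of_perp_le {W W' : Submodule ℂ (m → ℂ)} (h : perp W' ≤ perp W) : W ≤ W' := by
  rw [← perp_perp W, ← perp_perp W']
  exact perp_anti h

/-- The dimension count. -/
theorem count {V S : Type} [AddCommGroup V] [Module ℂ V] [FiniteDimensional ℂ V]
    [AddCommGroup S] [Module ℂ S] (μ : V →ₗ[ℂ] S) (RA RB : Submodule ℂ V)
    (hA : ∀ x ∈ RA, μ x = 0 → x = 0) (hB : ∀ x ∈ RB, μ x = 0) :
    (finrank ℂ ((RA.map μ).comap μ : Submodule ℂ V) : ℤ) - finrank ℂ (RA ⊔ RB : Submodule ℂ V) =
      finrank ℂ (LinearMap.ker μ) - finrank ℂ RB := by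
  have h1 : (RA.map μ).comap μ = RA ⊔ LinearMap.ker μ := Submodule.comap_map_eq μ RA
  have h2 : RA ⊓ LinearMap.ker μ = ⊥ := by
    rw [eq_bot_iff]
    intro x hx
    exact (Submodule.mem_bot ℂ).2 (hA x hx.1 (LinearMap.mem_ker.1 hx.2))
  have h3 : RA ⊓ RB = ⊥ := by
    rw [eq_bot_iff]
    intro x hx
    exact (Submodule.mem_bot ℂ).2 (hA x hx.1 (hB x hx.2))
  have h4 := Submodule.finrank_sup_add_finrank_inf_eq RA (LinearMap.ker μ)
  have h5 := Submodule.finrank_sup_add_finrank_inf_eq RA RB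
  rw [h2, finrank_bot, add_zero] at h4
  rw [h3, finrank_bot, add_zero] at h5
  rw [h1, h4, h5]
  push_cast
  ring

/-- The number of pairs `a < b`. -/
theorem card_pairs (m : ℕ) : Fintype.card {p : Fin m × Fin m // p.1 < p.2} = m.choose 2 := by
  have e : {p : Fin m × Fin m // p.1 < p.2} ≃ (Σ b : Fin m, Fin b) :=
    { toFun := fun p => ⟨p.1.2, ⟨p.1.1, p.2⟩⟩
      invFun := fun q => ⟨(⟨q.2, q.2.isLt.trans q.1.isLt⟩, q.1), q.2.isLt⟩
      left_inv := fun p => rfl
      right_inv := fun q => rfl }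
  rw [Fintype.card_congr e, Fintype.card_sigma]
  simp only [Fintype.card_fin]
  rw [Fin.sum_univ_eq_sum_range (fun i => i), Finset.sum_range_id, Nat.choose_two_right]

end Pool.Agent.Helper41.SV
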