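import Pool.Agent.Helper41.SV.FA
import Pool.Agent.Helper41.SV.FP

/-!
Singular vector tuples and the critical space in terms of slices.
-/

open Finset Function

noncomputable section

set_option linter.unusedSectionVars false

namespace Pool.Agent.Helper41.SV

theorem CMat_rankOne {m : ℕ} {d : Fin m → ℕ} (T : Idx d → ℂ)
    (x : (i : Fin m) → Fin (d i + 1) → ℂ) (l : Fin m) (a b : Fin (d l + 1)) :
    CMat T (rankOne x) l a b = contract T x l a * x l b := by
  simp only [CMat, contract, Finset.sum_mul]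
  refine Finset.sum_congr rfl fun α _ => ?_
  split_ifs with h
  · rw [rankOne, ← Finset.mul_prod_erase univ _ (mem_univ l), update_self]
    have h1 : ∏ j ∈ univ.erase l, x j (update α l b j) = ∏ j ∈ univ.erase l, x j (α j) :=
      Finset.prod_congr rfl fun j hj => by rw [update_of_ne (Finset.ne_of_mem_erase hj)]
    rw [h1]
    ring
  · rw [zero_mul]

/-- The inclusion which always holds. -/
theorem sing_le_crit {m : ℕ} {d : Fin m → ℕ} (T : Idx d → ℂ) : singSpan T ≤ critSpace T := by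
  refine Submodule.span_le.2 ?_
  rintro Z ⟨x, hx, rfl⟩
  intro l a b
  rw [CMat_rankOne, CMat_rankOne]
  exact hx.2 l a b

namespace FA

variable {k : ℕ} (n : Fin k → ℕ)

/-- Tuples with given vectors. -/
theorem exists_tuple (y : Fin (∑ j, n j + 2) → ℂ) (z : Fin k → Fin (∑ j, n j + 1) → ℂ)
    (hz : SuppX (low n) z) :
    ∃ x : (i : Fin (k + 1)) → Fin (fmt n i + 1) → ℂ, yo n x = y ∧ zo n x = z := by
  refine ⟨fun i => Fin.lastCases (motive := fun i => Fin (fmt n i + 1) → ℂ)
    (fun a => y (Fin.cast (by rw [fmt_last]) a))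
    (fun j i => z j (Fin.castLE (by
      rw [fmt_castSucc]; exact Nat.succ_le_succ (le_sum n j)) i)) i, ?_, ?_⟩
  · funext a
    simp only [yo, Fin.lastCases_last]
    rfl
  · funext j i
    simp only [zo]
    split_ifs with h
    · rw [Fin.lastCases_castSucc]
      rfl
    · symm
      refine hz j i ?_
      rw [mem_low]
      rw [fmt_castSucc] at h
      omega

theorem x_last (x : (i : Fin (k + 1)) → Fin (fmt n i + 1) → ℂ) (a : Fin (fmt n (Fin.last k) + 1)) :
    x (Fin.last k) a = yo n x (Fin.cast (by rw [fmt_last]) a) := rfl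

theorem lt_of (j : Fin k) (i : Fin (fmt n j.castSucc + 1)) : (i : ℕ) < ∑ j, n j + 1 := by
  have h1 := i.isLt
  have h2 := fmt_castSucc n j
  have h3 := le_sum n j
  omega

theorem x_castSucc (x : (i : Fin (k + 1)) → Fin (fmt n i + 1) → ℂ) (j : Fin k)
    (i : Fin (fmt n j.castSucc + 1)) :
    x j.castSucc i = zo n x j ⟨i, lt_of n j i⟩ := by
  have h : ((⟨i, lt_of n j i⟩ : Fin (∑ j, n j + 1)) : ℕ) < fmt n j.castSucc + 1 := i.isLt
  simp only [zo, dif_pos h]

theorem contract_last' (T : Idx (fmt n) → ℂ)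
    (ts : Fin (∑ j, n j + 2) × (Fin k → Fin (∑ j, n j + 1)) → ℂ) (hts : ∀ α, ts (ee n α) = T α)
    (x : (i : Fin (k + 1)) → Fin (fmt n i + 1) → ℂ) (a : Fin (fmt n (Fin.last k) + 1)) :
    contract T x (Fin.last k) a =
      ev (curry ts (Fin.cast (by rw [fmt_last]) a)) (zo n x) := by
  rw [← contract_last n T ts hts x]
  rfl

theorem contract_castSucc' (T : Idx (fmt n) → ℂ)
    (ts : Fin (∑ j, n j + 2) × (Fin k → Fin (∑ j, n j + 1)) → ℂ) (hts : ∀ α, ts (ee n α) = T α)
    (x : (i : Fin (k + 1)) → Fin (fmt n i + 1) → ℂ) (j : Fin k)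
    (i : Fin (fmt n j.castSucc + 1)) :
    contract T x j.castSucc i =
      ∑ a, yo n x a * ev (curry ts a)
        (update (zo n x) j (Pi.single (⟨i, lt_of n j i⟩ : Fin (∑ j, n j + 1)) 1)) := by
  rw [← contract_castSucc n T ts hts x j ⟨i, lt_of n j i⟩ i.isLt]

/-- The conditions on a singular tuple in terms of the slices. -/
def SingC (ts : Fin (∑ j, n j + 2) × (Fin k → Fin (∑ j, n j + 1)) → ℂ)
    (y : Fin (∑ j, n j + 2) → ℂ) (z : Fin k → Fin (∑ j, n j + 1) → ℂ) : Prop :=
  y ≠ 0 ∧ (∀ j, z j ≠ 0) ∧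
  (∀ a b, ev (curry ts a) z * y b = ev (curry ts b) z * y a) ∧
  (∀ j, ∀ i ∈ low n j, ∀ i' ∈ low n j,
    (∑ a, y a * ev (curry ts a) (update z j (Pi.single i 1))) * z j i' =
      (∑ a, y a * ev (curry ts a) (update z j (Pi.single i' 1))) * z j i)

theorem sing_iff (T : Idx (fmt n) → ℂ)
    (ts : Fin (∑ j, n j + 2) × (Fin k → Fin (∑ j, n j + 1)) → ℂ) (hts : ∀ α, ts (ee n α) = T α)
    (x : (i : Fin (k + 1)) → Fin (fmt n i + 1) → ℂ) :
    IsSingularTuple T x ↔ SingC n ts (yo n x) (zo n x) := by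
  constructor
  · rintro ⟨h1, h2⟩
    refine ⟨fun h => h1 (Fin.last k) ?_, fun j h => h1 j.castSucc ?_, fun a b => ?_,
      fun j i hi i' hi' => ?_⟩
    · funext a
      rw [x_last n x, h]; rfl
    · funext i
      rw [x_castSucc n x, h]; rfl
    · have := h2 (Fin.last k) (Fin.cast (by rw [fmt_last]) a) (Fin.cast (by rw [fmt_last]) b)
      rw [contract_last', contract_last'] at this
      · exact this
      · exact hts
      · exact hts
    · rw [mem_low] at hi hi'
      have e1 : (i : ℕ) < fmt n j.castSucc + 1 := by rw [fmt_castSucc]; omega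
      have e2 : (i' : ℕ) < fmt n j.castSucc + 1 := by rw [fmt_castSucc]; omega
      have := h2 j.castSucc ⟨i, e1⟩ ⟨i', e2⟩
      rw [contract_castSucc n T ts hts, contract_castSucc n T ts hts, x_castSucc n x,
        x_castSucc n x] at this
      exact this
  · rintro ⟨h1, h2, h3, h4⟩
    refine ⟨fun i => ?_, fun i => ?_⟩
    · refine Fin.lastCases ?_ (fun j => ?_) i
      · intro h
        refine h1 ?_
        funext a
        simp only [yo, h]
        rfl
      · intro h
        refine h2 j ?_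
        funext a
        simp only [zo, h]
        split_ifs <;> rfl
    · refine Fin.lastCases ?_ (fun j => ?_) i
      · intro a b
        rw [contract_last' n T ts hts, contract_last' n T ts hts, x_last n x, x_last n x]
        exact h3 _ _
      · intro a b
        rw [contract_castSucc' n T ts hts, contract_castSucc' n T ts hts, x_castSucc n x,
          x_castSucc n x]
        have e1 := a.isLt
        have e2 := b.isLt
        have e3 := fmt_castSucc n j
        refine h4 j _ ?_ _ ?_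
        · rw [mem_low]; change (a : ℕ) ≤ n j; omega
        · rw [mem_low]; change (b : ℕ) ≤ n j; omega

/-- `C` at the last slot. -/
def DL (ts zs : Fin (∑ j, n j + 2) × (Fin k → Fin (∑ j, n j + 1)) → ℂ)
    (a b : Fin (∑ j, n j + 2)) : ℂ := ∑ β, ts (a, β) * zs (b, β)

/-- `C` at the other slots. -/
def DJ (ts zs : Fin (∑ j, n j + 2) × (Fin k → Fin (∑ j, n j + 1)) → ℂ) (j : Fin k)
    (i i' : Fin (∑ j, n j + 1)) : ℂ :=
  ∑ a, ∑ β, if β j = i then ts (a, β) * zs (a, update β j i') else 0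

/-- The padding of a tensor. -/
def pad (Z : Idx (fmt n) → ℂ) : Fin (∑ j, n j + 2) × (Fin k → Fin (∑ j, n j + 1)) → ℂ :=
  extend (ee n) Z 0

theorem pad_ee (Z : Idx (fmt n) → ℂ) (α : Idx (fmt n)) : pad n Z (ee n α) = Z α :=
  (ee_inj n).extend_apply _ _ _

theorem pad_out (Z : Idx (fmt n) → ℂ)
    (p : Fin (∑ j, n j + 2) × (Fin k → Fin (∑ j, n j + 1))) (hp : ∃ j, n j < (p.2 j : ℕ)) :
    pad n Z p = 0 := by
  refine extend_apply' _ _ _ ?_
  intro h
  obtain ⟨j, hj⟩ := hp
  have := (range_ee n p).1 h j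
  omega

theorem crit_iff (T : Idx (fmt n) → ℂ)
    (ts : Fin (∑ j, n j + 2) × (Fin k → Fin (∑ j, n j + 1)) → ℂ) (hts : ∀ α, ts (ee n α) = T α)
    (Z : Idx (fmt n) → ℂ) :
    Z ∈ critSpace T ↔ (∀ a b, DL n ts (pad n Z) a b = DL n ts (pad n Z) b a) ∧
      ∀ j, ∀ i ∈ low n j, ∀ i' ∈ low n j, DJ n ts (pad n Z) j i i' = DJ n ts (pad n Z) j i' i := by
  have hL : ∀ a b, CMat T Z (Fin.last k) (Fin.cast (by rw [fmt_last]) a)
      (Fin.cast (by rw [fmt_last]) b) = DL n ts (pad n Z) a b := fun a b =>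
    CMat_last n T Z ts (pad n Z) hts (pad_ee n Z) (pad_out n Z) a b
  have hJ : ∀ (j : Fin k) (i i' : Fin (∑ j, n j + 1)) (hi : (i : ℕ) < fmt n j.castSucc + 1)
      (hi' : (i' : ℕ) < fmt n j.castSucc + 1),
      CMat T Z j.castSucc ⟨i, hi⟩ ⟨i', hi'⟩ = DJ n ts (pad n Z) j i i' := fun j i i' hi hi' =>
    CMat_castSucc n T Z ts (pad n Z) hts (pad_ee n Z) (pad_out n Z) j i i' hi hi'
  constructor
  · intro h
    refine ⟨fun a b => ?_, fun j i hi i' hi' => ?_⟩
    · rw [← hL, ← hL]
      exact h _ _ _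
    · rw [mem_low] at hi hi'
      have e1 : (i : ℕ) < fmt n j.castSucc + 1 := by rw [fmt_castSucc]; omega
      have e2 : (i' : ℕ) < fmt n j.castSucc + 1 := by rw [fmt_castSucc]; omega
      rw [← hJ j i i' e1 e2, ← hJ j i' i e2 e1]
      exact h _ _ _
  · rintro ⟨h1, h2⟩
    intro l
    refine Fin.lastCases ?_ (fun j => ?_) l
    · intro a b
      have e1 := hL (Fin.cast (by rw [fmt_last]) a) (Fin.cast (by rw [fmt_last]) b)
      have e2 := hL (Fin.cast (by rw [fmt_last]) b) (Fin.cast (by rw [fmt_last]) a)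
      have e3 := h1 (Fin.cast (by rw [fmt_last]) a) (Fin.cast (by rw [fmt_last]) b)
      rw [← e1, ← e2] at e3
      exact e3
    · intro a b
      have e3 := fmt_castSucc n j
      have e1 := hJ j ⟨a, lt_of n j a⟩ ⟨b, lt_of n j b⟩ a.isLt b.isLt
      have e2 := hJ j ⟨b, lt_of n j b⟩ ⟨a, lt_of n j a⟩ b.isLt a.isLt
      have e4 := a.isLt
      have e5 := b.isLt
      have e6 := h2 j ⟨a, lt_of n j a⟩ (by rw [mem_low]; change (a : ℕ) ≤ n j; omega)
        ⟨b, lt_of n j b⟩ (by rw [mem_low]; change (b : ℕ) ≤ n j; omega)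
      rw [← e1, ← e2] at e6
      exact e6

/-- Restriction to the box. -/
def res (F : Fin (∑ j, n j + 2) × (Fin k → Fin (∑ j, n j + 1)) → ℂ) : Idx (fmt n) → ℂ :=
  fun α => F (ee n α)

theorem dot_eq (F : Fin (∑ j, n j + 2) × (Fin k → Fin (∑ j, n j + 1)) → ℂ)
    (Z : Idx (fmt n) → ℂ) :
    res n F ⬝ᵥ Z = ∑ a, ∑ β, F (a, β) * pad n Z (a, β) := by
  rw [← Fintype.sum_prod_type (f := fun p : Fin (∑ j, n j + 2) × (Fin k → Fin (∑ j, n j + 1)) =>
    F (p.1, p.2) * pad n Z (p.1, p.2)), sum_ee]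
  · simp only [dotProduct, res]
    exact Finset.sum_congr rfl fun α _ => by rw [Prod.mk.eta, pad_ee]
  · intro p hp
    rw [Prod.mk.eta, pad_out n Z p hp, mul_zero]

/-- The pad of a restriction evaluates like the form itself. -/
theorem ev_pad_res (F : Fin (∑ j, n j + 2) × (Fin k → Fin (∑ j, n j + 1)) → ℂ)
    (a : Fin (∑ j, n j + 2)) {x : Fin k → Fin (∑ j, n j + 1) → ℂ} (hx : SuppX (low n) x) :
    ev (curry (pad n (res n F)) a) x = ev (curry F a) x := by
  have h : curry (pad n (res n F)) a = cutU (low n) (curry F a) := by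
    funext β
    simp only [curry, cutU]
    by_cases hβ : ∀ j, β j ∈ low n j
    · rw [if_pos hβ]
      obtain ⟨α, hα⟩ := (range_ee n (a, β)).2 fun j => (mem_low n j _).1 (hβ j)
      rw [← hα, pad_ee]
      rfl
    · rw [if_neg hβ]
      refine pad_out n _ _ ?_
      push Not at hβ
      obtain ⟨j, hj⟩ := hβ
      rw [mem_low] at hj
      exact ⟨j, not_le.1 hj⟩
  rw [h, ev_cutU _ hx]

theorem res_pad (Z : Idx (fmt n) → ℂ) : res n (pad n Z) = Z := by
  funext α
  exact pad_ee n Z α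

theorem full_eq_dot (P : Idx (fmt n) → ℂ) (x : (i : Fin (k + 1)) → Fin (fmt n i + 1) → ℂ) :
    P ⬝ᵥ rankOne x = ∑ a, yo n x a * ev (curry (pad n P) a) (zo n x) := by
  rw [← full_eq n P (pad n P) (pad_ee n P) x]
  rfl

/-- The pairing with a rotation of the last slot. -/
theorem pair_B (ts zs : Fin (∑ j, n j + 2) × (Fin k → Fin (∑ j, n j + 1)) → ℂ)
    (B : Fin (∑ j, n j + 2) → Fin (∑ j, n j + 2) → ℂ) :
    ∑ a, ∑ β, (∑ b, B a b * ts (b, β)) * zs (a, β) = ∑ a, ∑ b, B a b * DL n ts zs b a := by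
  refine Finset.sum_congr rfl fun a _ => ?_
  simp only [DL, Finset.mul_sum, Finset.sum_mul]
  rw [Finset.sum_comm]
  exact Finset.sum_congr rfl fun b _ => Finset.sum_congr rfl fun β _ => by ring

/-- The pairing with a rotation of the other slots. -/
theorem pair_A (ts zs : Fin (∑ j, n j + 2) × (Fin k → Fin (∑ j, n j + 1)) → ℂ)
    (A : Fin k → Fin (∑ j, n j + 1) → Fin (∑ j, n j + 1) → ℂ) :
    ∑ a, ∑ β, actU A (curry ts a) β * zs (a, β) = ∑ j, ∑ i, ∑ i', A j i i' * DJ n ts zs j i i' := by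
  have h1 : ∀ a, ∑ β, actU A (curry ts a) β * zs (a, β) =
      ∑ j, ∑ β, ∑ i', A j (β j) i' * (ts (a, β) * zs (a, update β j i')) := by
    intro a
    simp only [actU, Finset.sum_mul]
    rw [Finset.sum_comm]
    refine Finset.sum_congr rfl fun j _ => ?_
    rw [sum_swap j (fun β i' => A j (β j) i' * (ts (a, β) * zs (a, update β j i')))]
    refine Finset.sum_congr rfl fun β _ => Finset.sum_congr rfl fun i _ => ?_
    rw [update_self, update_idem, update_eq_self]
    simp only [curry]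
    ring
  simp only [h1]
  rw [Finset.sum_comm]
  refine Finset.sum_congr rfl fun j _ => ?_
  simp only [DJ, Finset.mul_sum]
  have h2 : ∀ a, ∑ β : Fin k → Fin (∑ j, n j + 1), ∑ i', A j (β j) i' *
      (ts (a, β) * zs (a, update β j i')) = ∑ i, ∑ i', ∑ β : Fin k → Fin (∑ j, n j + 1),
        A j i i' * (if β j = i then ts (a, β) * zs (a, update β j i') else 0) := by
    intro a
    have h3 : ∀ i', ∑ i, ∑ β : Fin k → Fin (∑ j, n j + 1),
        A j i i' * (if β j = i then ts (a, β) * zs (a, update β j i') else 0) =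
        ∑ β : Fin k → Fin (∑ j, n j + 1), A j (β j) i' *
          (ts (a, β) * zs (a, update β j i')) := by
      intro i'
      rw [Finset.sum_comm]
      refine Finset.sum_congr rfl fun β _ => ?_
      rw [Finset.sum_eq_single (β j)]
      · rw [if_pos rfl]
      · intro i _ hi
        rw [if_neg (Ne.symm hi), mul_zero]
      · intro h; exact absurd (mem_univ _) h
    rw [Finset.sum_comm]
    conv_rhs => rw [Finset.sum_comm]
    exact Finset.sum_congr rfl fun i' _ => (h3 i').symm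
  simp only [h2]
  rw [Finset.sum_comm]
  refine Finset.sum_congr rfl fun i _ => ?_
  rw [Finset.sum_comm]

end FA

end Pool.Agent.Helper41.SV
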