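import Pool.Agent.Helper41.SV.Stmts
import Pool.Agent.Helper41.SV.Basic

/-!
Genericity of `GoodX`.
-/

open Finset Function

noncomputable section

set_option linter.unusedSectionVars false

namespace Pool.Agent.Helper41.SV

namespace GG

variable {κ ι : Type} [Fintype κ] [DecidableEq κ] [Fintype ι] [DecidableEq ι]

/-- The evaluation matrix for multilinear forms. -/
def EU (I : κ → Finset ι) {m : ℕ} (u : Fin m → Un κ ι → ℂ) :
    Matrix (Fin m ⊕ (κ → ι)) (κ → ι) ℂ :=
  fun w α => Sum.elim (fun q => ∏ j, xo (u q) j (α j))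
    (fun β => if (∃ j, β j ∉ I j) ∧ α = β then 1 else 0) w

/-- The evaluation matrix for forms of degree `(2,...,2)`. -/
def ES (I : κ → Finset ι) {m : ℕ} (u : Fin m → Un κ ι → ℂ) :
    Matrix (Fin m ⊕ (κ → Sym2 ι)) (κ → Sym2 ι) ℂ :=
  fun w s => Sum.elim (fun q => ∏ j, mon (s j) (xo (u q) j))
    (fun s' => if (∃ j, ∃ i ∈ s' j, i ∉ I j) ∧ s = s' then 1 else 0) w

open Matrix in
theorem EU_inl (I : κ → Finset ι) {m : ℕ} (u : Fin m → Un κ ι → ℂ) (t : (κ → ι) → ℂ) (q : Fin m) :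
    (EU I u *ᵥ t) (Sum.inl q) = ev t (xo (u q)) := by
  simp only [Matrix.mulVec, dotProduct, EU, Sum.elim_inl, ev]
  exact Finset.sum_congr rfl fun α _ => mul_comm _ _

open Matrix in
theorem EU_inr (I : κ → Finset ι) {m : ℕ} (u : Fin m → Un κ ι → ℂ) (t : (κ → ι) → ℂ) (β : κ → ι) :
    (EU I u *ᵥ t) (Sum.inr β) = if (∃ j, β j ∉ I j) then t β else 0 := by
  simp only [Matrix.mulVec, dotProduct, EU, Sum.elim_inr]
  by_cases h : ∃ j, β j ∉ I j
  · simp [h]
  · simp [h]

open Matrix in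
theorem ES_inl (I : κ → Finset ι) {m : ℕ} (u : Fin m → Un κ ι → ℂ) (P : (κ → Sym2 ι) → ℂ)
    (q : Fin m) : (ES I u *ᵥ P) (Sum.inl q) = evS P (xo (u q)) := by
  simp only [Matrix.mulVec, dotProduct, ES, Sum.elim_inl, evS]
  exact Finset.sum_congr rfl fun α _ => mul_comm _ _

open Matrix in
theorem ES_inr (I : κ → Finset ι) {m : ℕ} (u : Fin m → Un κ ι → ℂ) (P : (κ → Sym2 ι) → ℂ)
    (s : κ → Sym2 ι) :
    (ES I u *ᵥ P) (Sum.inr s) = if (∃ j, ∃ i ∈ s j, i ∉ I j) then P s else 0 := by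
  simp only [Matrix.mulVec, dotProduct, ES, Sum.elim_inr]
  by_cases h : ∃ j, ∃ i ∈ s j, i ∉ I j
  · simp [h]
  · simp [h]

open Matrix in
theorem EU_zero_iff (I : κ → Finset ι) {m : ℕ} (u : Fin m → Un κ ι → ℂ) (t : (κ → ι) → ℂ) :
    EU I u *ᵥ t = 0 ↔ SuppU I t ∧ ∀ q, ev t (xo (u q)) = 0 := by
  constructor
  · intro h
    constructor
    · intro β hβ
      have := congrFun h (Sum.inr β)
      rw [EU_inr, if_pos hβ] at this
      exact this
    · intro q
      have := congrFun h (Sum.inl q)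
      rw [EU_inl] at this
      exact this
  · rintro ⟨h1, h2⟩
    funext w
    rcases w with q | β
    · rw [EU_inl, h2]; rfl
    · rw [EU_inr]
      split_ifs with h
      · rw [h1 β h]; rfl
      · rfl

open Matrix in
theorem ES_zero_iff (I : κ → Finset ι) {m : ℕ} (u : Fin m → Un κ ι → ℂ) (P : (κ → Sym2 ι) → ℂ) :
    ES I u *ᵥ P = 0 ↔ SuppS I P ∧ ∀ q, evS P (xo (u q)) = 0 := by
  constructor
  · intro h
    constructor
    · intro s hs
      have := congrFun h (Sum.inr s)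
      rw [ES_inr, if_pos hs] at this
      exact this
    · intro q
      have := congrFun h (Sum.inl q)
      rw [ES_inl] at this
      exact this
  · rintro ⟨h1, h2⟩
    funext w
    rcases w with q | s
    · rw [ES_inl, h2]; rfl
    · rw [ES_inr]
      split_ifs with h
      · rw [h1 s h]; rfl
      · rfl

/-! ### Linearity -/

theorem sharp_add (I : κ → Finset ι) (A B : κ → ι → ι → ℂ) :
    sharp I (A + B) = sharp I A + sharp I B := by
  funext j a b
  simp only [sharp, Pi.add_apply]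
  split_ifs <;> ring

theorem sharp_smul (I : κ → Finset ι) (c : ℂ) (A : κ → ι → ι → ℂ) :
    sharp I (c • A) = c • sharp I A := by
  funext j a b
  simp only [sharp, Pi.smul_apply, smul_eq_mul]
  split_ifs <;> ring

theorem actU_add (A B : κ → ι → ι → ℂ) (t : (κ → ι) → ℂ) :
    actU (A + B) t = actU A t + actU B t := by
  funext β
  simp only [actU, Pi.add_apply, mul_add, Finset.sum_add_distrib]

theorem actU_smul (c : ℂ) (A : κ → ι → ι → ℂ) (t : (κ → ι) → ℂ) :
    actU (c • A) t = c • actU A t := by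
  funext β
  simp only [actU, Pi.smul_apply, smul_eq_mul, Finset.mul_sum]
  exact Finset.sum_congr rfl fun j _ => Finset.sum_congr rfl fun a _ => by ring

theorem mulS_add (t t' t'' : (κ → ι) → ℂ) : mulS t (t' + t'') = mulS t t' + mulS t t'' := by
  funext s
  simp only [mulS, Pi.add_apply, ← Finset.sum_add_distrib]
  refine Finset.sum_congr rfl fun j _ => Finset.sum_congr rfl fun a _ => ?_
  split_ifs <;> ring

theorem mulS_smul (c : ℂ) (t t' : (κ → ι) → ℂ) : mulS t (c • t') = c • mulS t t' := by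
  funext s
  simp only [mulS, Pi.smul_apply, smul_eq_mul, Finset.mul_sum]
  refine Finset.sum_congr rfl fun j _ => Finset.sum_congr rfl fun a _ => ?_
  split_ifs <;> ring

theorem soS_add (A B : κ → ι → ι → ℂ) {r : ℕ} (T : Fin r → (κ → ι) → ℂ) :
    soS (A + B) T = soS A T + soS B T := by
  funext s
  simp only [soS, actU_add, mulS_add, Pi.add_apply, Finset.sum_add_distrib, mul_add]

theorem soS_smul (c : ℂ) (A : κ → ι → ι → ℂ) {r : ℕ} (T : Fin r → (κ → ι) → ℂ) :
    soS (c • A) T = c • soS A T := by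
  funext s
  simp only [soS, actU_smul, mulS_smul, Pi.smul_apply, smul_eq_mul, ← Finset.mul_sum]
  ring

theorem cutS_add (I : κ → Finset ι) (P Q : (κ → Sym2 ι) → ℂ) :
    cutS I (P + Q) = cutS I P + cutS I Q := by
  funext s
  simp only [cutS, Pi.add_apply]
  split_ifs <;> ring

theorem cutS_smul (I : κ → Finset ι) (c : ℂ) (P : (κ → Sym2 ι) → ℂ) :
    cutS I (c • P) = c • cutS I P := by
  funext s
  simp only [cutS, Pi.smul_apply, smul_eq_mul]
  split_ifs <;> ring

/-- The map from matrices to forms of degree `(2,...,2)`. -/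
def LO (I : κ → Finset ι) {r : ℕ} (T : Fin r → (κ → ι) → ℂ) :
    (κ × ι × ι → ℂ) →ₗ[ℂ] ((κ → Sym2 ι) → ℂ) where
  toFun A := cutS I (soS (sharp I (fun j a b => A (j, a, b))) T)
  map_add' A B := by
    rw [← cutS_add, ← soS_add, ← sharp_add]
    rfl
  map_smul' c A := by
    rw [RingHom.id_apply, ← cutS_smul, ← soS_smul, ← sharp_smul]
    rfl

/-- Its matrix. -/
def Om (I : κ → Finset ι) {r : ℕ} (T : Fin r → (κ → ι) → ℂ) :
    Matrix (κ → Sym2 ι) (κ × ι × ι) ℂ := LinearMap.toMatrix' (LO I T)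

open Matrix in
theorem Om_mulVec (I : κ → Finset ι) {r : ℕ} (T : Fin r → (κ → ι) → ℂ) (A : κ × ι × ι → ℂ) :
    Om I T *ᵥ A = cutS I (soS (sharp I (fun j a b => A (j, a, b))) T) := by
  rw [Om, LinearMap.toMatrix'_mulVec]
  rfl

theorem Om_apply (I : κ → Finset ι) {r : ℕ} (T : Fin r → (κ → ι) → ℂ) (s : κ → Sym2 ι)
    (e : κ × ι × ι) : Om I T s e =
      cutS I (soS (sharp I (fun j a b => (Pi.single e (1 : ℂ) : κ × ι × ι → ℂ) (j, a, b))) T) s := by
  rw [Om, LinearMap.toMatrix'_apply]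
  rfl

open Matrix in
theorem ES_Om {I : κ → Finset ι} {r : ℕ} {T : Fin r → (κ → ι) → ℂ} {m : ℕ}
    {u : Fin m → Un κ ι → ℂ} (h : ∀ q w, crit I T (u q) w = 0) : ES I u * Om I T = 0 := by
  refine Matrix.ext_of_mulVec_single fun e => ?_
  rw [← Matrix.mulVec_mulVec, Matrix.zero_mulVec, ES_zero_iff, Om_mulVec]
  refine ⟨suppS_cutS _ _, fun q => ?_⟩
  rw [evS_cutS _ (crit_supp (h q)), evS_soS]
  exact soG_crit (fun j i hi => crit_eq (h q) j i hi) _

/-! ### Polynomiality -/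

variable {σ : Type}

theorem isPoly_EU (I : κ → Finset ι) {m : ℕ} {u : (σ → ℂ) → Fin m → Un κ ι → ℂ}
    (hu : ∀ q w, IsPoly (fun z => u z q w)) (w : Fin m ⊕ (κ → ι)) (α : κ → ι) :
    IsPoly (fun z => EU I (u z) w α) := by
  rcases w with q | β
  · exact IsPoly.prod _ fun j _ => hu q _
  · exact IsPoly.const _

theorem isPoly_ES (I : κ → Finset ι) {m : ℕ} {u : (σ → ℂ) → Fin m → Un κ ι → ℂ}
    (hu : ∀ q w, IsPoly (fun z => u z q w)) (w : Fin m ⊕ (κ → Sym2 ι)) (s : κ → Sym2 ι) :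
    IsPoly (fun z => ES I (u z) w s) := by
  rcases w with q | s'
  · exact IsPoly.prod _ fun j _ => isPoly_mon (fun i => hu q _) _
  · exact IsPoly.const _

theorem isPoly_Om (I : κ → Finset ι) {r : ℕ} {T : (σ → ℂ) → Fin r → (κ → ι) → ℂ}
    (hT : ∀ a α, IsPoly (fun z => T z a α)) (s : κ → Sym2 ι) (e : κ × ι × ι) :
    IsPoly (fun z => Om I (T z) s e) := by
  simp only [Om_apply, cutS]
  exact IsPoly.ite (isPoly_soS _ hT s) (IsPoly.const 0)

end GG

open GG

open Matrix in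
theorem goodGen : StZ → StGoodGen := by
  intro hZ κ ι _ _ _ _ I o X r T₀ hgood
  obtain ⟨m, u₀, h1, h2, h3, h4, h5, h6, h7⟩ := hgood
  -- the two splittings
  obtain ⟨B, hB⟩ := exists_left_inv (EU I u₀) fun P hP => by
    rw [EU_zero_iff] at hP
    exact h6 P hP.1 hP.2
  obtain ⟨B2, C2, hBC⟩ := exists_split (ES I u₀) (Om I T₀) fun P hP => by
    rw [ES_zero_iff] at hP
    obtain ⟨A, hA⟩ := h7 P hP.1 hP.2
    refine ⟨fun e => A e.1 e.2.1 e.2.2, ?_⟩
    rw [Om_mulVec]
    have h8 : P - cutS I (soS (sharp I A) T₀) = 0 := by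
      refine evS_inj (I := I) ?_ fun x hx => ?_
      · intro s hs
        rw [Pi.sub_apply, hP.1 s hs, suppS_cutS I _ s hs, sub_zero]
      · rw [evS_sub, evS_cutS _ hx, evS_soS, hA x hx, sub_self]
    exact sub_eq_zero.1 h8
  let g : (Fin r × (κ → ι) → ℂ) → (Fin m → Un κ ι → ℂ) → ℂ := fun t u =>
    (B * EU I u).det * (B2 * ES I u + Om I (curry t) * C2).det *
      (∏ q, ∏ j, xo (u q) j (o j)) * (∏ q, ∏ j, lo (u q) j) *
      ∏ q, ∏ e ∈ X, dG (curry t) (xo (u q)) e.1 e.2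
  have hg : IsPoly (fun z : (Fin r × (κ → ι)) ⊕ Fin m × Un κ ι → ℂ =>
      g (fun i => z (Sum.inl i)) (fun q w => z (Sum.inr (q, w)))) := by
    have hT : ∀ a α, IsPoly (fun z : (Fin r × (κ → ι)) ⊕ Fin m × Un κ ι → ℂ =>
        curry (fun i => z (Sum.inl i)) a α) := fun a α => IsPoly.coord _
    have hu : ∀ q w, IsPoly (fun z : (Fin r × (κ → ι)) ⊕ Fin m × Un κ ι → ℂ =>
        z (Sum.inr (q, w))) := fun q w => IsPoly.coord _
    refine ((((?_ : IsPoly _).mul ?_).mul ?_).mul ?_).mul ?_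
    · refine IsPoly.det fun i j => ?_
      simp only [Matrix.mul_apply]
      exact IsPoly.sum _ fun w _ => (IsPoly.const _).mul
        (isPoly_EU I (u := fun z q w => z (Sum.inr (q, w))) hu w j)
    · refine IsPoly.det fun i j => ?_
      simp only [Matrix.add_apply, Matrix.mul_apply]
      exact (IsPoly.sum _ fun w _ => (IsPoly.const _).mul
        (isPoly_ES I (u := fun z q w => z (Sum.inr (q, w))) hu w j)).add
        (IsPoly.sum _ fun e _ => (isPoly_Om I hT i e).mul (IsPoly.const _))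
    · exact IsPoly.prod _ fun q _ => IsPoly.prod _ fun j _ => hu q _
    · exact IsPoly.prod _ fun q _ => IsPoly.prod _ fun j _ => hu q _
    · exact IsPoly.prod _ fun q _ => IsPoly.prod _ fun e _ =>
        isPoly_dG hT (fun j i => hu q _) e.1 e.2
  have hF : ∀ (q : Fin m) (w : Un κ ι), IsPoly (fun z : (Fin r × (κ → ι)) ⊕ Un κ ι → ℂ =>
      crit I (curry (fun i => z (Sum.inl i))) (fun i => z (Sum.inr i)) w) := fun q w =>
    isPoly_crit (T := fun z => curry (fun i => z (Sum.inl i))) (u := fun z i => z (Sum.inr i))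
      (fun a α => IsPoly.coord _) (fun w => IsPoly.coord _) w
  have key := hZ (Fin r × (κ → ι)) (Un κ ι) (Fin m)
    (fun _ t u w => crit I (curry t) u w) g hF hg (fun p => T₀ p.1 p.2) u₀ h1 h2 ?_
  · refine key.mono fun t ht => ?_
    obtain ⟨u, k1, k2, k3⟩ := ht
    simp only [g, mul_ne_zero_iff, Finset.prod_ne_zero_iff] at k3
    obtain ⟨⟨⟨⟨k3, k4⟩, k5⟩, k6⟩, k7⟩ := k3
    refine ⟨m, u, k1, k2, fun q j => k5 q (mem_univ _) j (mem_univ _),
      fun q j => k6 q (mem_univ _) j (mem_univ _), fun q e he => k7 q (mem_univ _) e he, ?_, ?_⟩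
    · intro t' ht' hev
      exact inj_of_det _ _ k3 t' ((EU_zero_iff I u t').2 ⟨ht', hev⟩)
    · intro P hP hev
      obtain ⟨A, hA⟩ := exact_of_det (ES I u) (Om I (curry t)) B2 C2 (ES_Om k1) k4 P
        ((ES_zero_iff I u P).2 ⟨hP, hev⟩)
      refine ⟨fun j a b => A (j, a, b), fun x hx => ?_⟩
      rw [hA, Om_mulVec, evS_cutS _ hx, evS_soS]
  · have hc : curry (fun p : Fin r × (κ → ι) => T₀ p.1 p.2) = T₀ := rfl
    simp only [g, hc, hB, hBC, Matrix.det_one, one_mul]
    refine mul_ne_zero (mul_ne_zero ?_ ?_) ?_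
    · exact Finset.prod_ne_zero_iff.2 fun q _ => Finset.prod_ne_zero_iff.2 fun j _ => h3 q j
    · exact Finset.prod_ne_zero_iff.2 fun q _ => Finset.prod_ne_zero_iff.2 fun j _ => h4 q j
    · exact Finset.prod_ne_zero_iff.2 fun q _ => Finset.prod_ne_zero_iff.2 fun e he => h5 q e he

end Pool.Agent.Helper41.SV
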