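import Pool.Agent.Helper41.SV.FB
import Pool.Agent.Helper41.SV.G

/-!
The span of the singular vector tuples against the critical space.
-/

open Finset Function Module

noncomputable section

set_option linter.unusedSectionVars false

namespace Pool.Agent.Helper41.SV

namespace FA

open GG

variable {k : ℕ} (n : Fin k → ℕ)

theorem evS_mu (ps ts : Fin (∑ j, n j + 2) × (Fin k → Fin (∑ j, n j + 1)) → ℂ)
    (x : Fin k → Fin (∑ j, n j + 1) → ℂ) :
    evS (fun s => ∑ a, mulS (curry ps a) (curry ts a) s) x =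
      ∑ a, ev (curry ps a) x * ev (curry ts a) x := by
  rw [evS_sum]
  exact Finset.sum_congr rfl fun a _ => evS_mulS _ _ _

/-- Forms orthogonal to the singular tuples are rotations. -/
theorem perp_sing (hk : 1 ≤ k) (T : Idx (fmt n) → ℂ)
    (ts : Fin (∑ j, n j + 2) × (Fin k → Fin (∑ j, n j + 1)) → ℂ) (hts : ∀ α, ts (ee n α) = T α)
    (o : Fin k → Fin (∑ j, n j + 1)) (hgood : GoodX (low n) o ∅ (curry ts))
    (P : Idx (fmt n) → ℂ) (hP : P ∈ perp (singSpan T)) :
    ∃ A : Fin k → Fin (∑ j, n j + 1) → Fin (∑ j, n j + 1) → ℂ, ∀ x, SuppX (low n) x →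
      ∑ a, ev (curry (pad n P) a) x * ev (curry ts a) x =
        soG (sharp (low n) A) (curry ts) x := by
  obtain ⟨m, u, h1, h2, h3, h4, h5, h6, h7⟩ := hgood
  obtain ⟨A, hA⟩ := h7 (cutS (low n) (fun s => ∑ a, mulS (curry (pad n P) a) (curry ts a) s))
    (suppS_cutS _ _) (by
      intro q
      have hx := crit_supp (h1 q)
      rw [evS_cutS _ hx, evS_mu]
      obtain ⟨x, hxy, hxz⟩ := exists_tuple n (fun a => ev (curry ts a) (xo (u q))) (xo (u q)) hx
      have hs : IsSingularTuple T x := by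
        rw [sing_iff n T ts hts, hxy, hxz]
        refine ⟨fun h => ?_, fun j h => ?_, fun a b => mul_comm _ _, fun j i hi i' hi' => ?_⟩
        · refine h4 q ⟨0, hk⟩ ?_
          rw [← crit_lam (h1 q) ⟨0, hk⟩]
          rw [Finset.sum_eq_zero, mul_zero]
          intro a _
          have : ev (curry ts a) (xo (u q)) = 0 := congrFun h a
          rw [this]; ring
        · have := crit_norm (h1 q) j
          rw [h] at this
          simp at this
        · have h8 : ∀ i ∈ low n j, ∑ a, ev (curry ts a) (xo (u q)) *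
              ev (curry ts a) (update (xo (u q)) j (Pi.single i 1)) =
              lo (u q) j * xo (u q) j i / 2 := by
            intro i hi
            have := crit_eq (h1 q) j i hi
            rw [dG] at this
            rw [← this]; ring
          rw [h8 i hi, h8 i' hi']
          ring
      have h9 := hP _ (Submodule.subset_span ⟨x, hs, rfl⟩)
      rw [full_eq_dot, hxy, hxz] at h9
      rw [← h9]
      exact Finset.sum_congr rfl fun a _ => mul_comm _ _)
  refine ⟨A, fun x hx => ?_⟩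
  rw [← hA x hx, evS_cutS _ hx, evS_mu]

theorem anti_sym {ι : Type} [Fintype ι] (S D : ι → ι → ℂ) (hS : ∀ a b, S a b = - S b a)
    (hD : ∀ a b, S a b ≠ 0 → D a b = D b a) : ∑ a, ∑ b, S a b * D a b = 0 := by
  have h1 : ∑ a, ∑ b, S a b * D a b = - ∑ a, ∑ b, S a b * D a b := by
    conv_lhs => rw [Finset.sum_comm]
    rw [← Finset.sum_neg_distrib]
    refine Finset.sum_congr rfl fun a _ => ?_
    rw [← Finset.sum_neg_distrib]
    refine Finset.sum_congr rfl fun b _ => ?_
    by_cases h : S a b = 0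
    · rw [hS b a, h]; ring
    · rw [hS b a, ← hD a b h]; ring
  exact self_eq_neg.1 h1

theorem actU_mul (A : Fin k → Fin (∑ j, n j + 1) → Fin (∑ j, n j + 1) → ℂ)
    (t : (Fin k → Fin (∑ j, n j + 1)) → ℂ) (x : Fin k → Fin (∑ j, n j + 1) → ℂ) :
    ev (fun β => 2 * actU A t β) x = 2 * act A t x := by
  rw [ev_mul_left, ev_actU]

/-- The rotation of the other slots, as a tensor. -/
def FAo (ts : Fin (∑ j, n j + 2) × (Fin k → Fin (∑ j, n j + 1)) → ℂ)
    (A : Fin k → Fin (∑ j, n j + 1) → Fin (∑ j, n j + 1) → ℂ) :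
    Fin (∑ j, n j + 2) × (Fin k → Fin (∑ j, n j + 1)) → ℂ :=
  fun p => 2 * actU (sharp (low n) A) (curry ts p.1) p.2

/-- The rotation of the last slot, as a tensor. -/
def FBo (ts : Fin (∑ j, n j + 2) × (Fin k → Fin (∑ j, n j + 1)) → ℂ)
    (B : Fin (∑ j, n j + 2) → Fin (∑ j, n j + 2) → ℂ) :
    Fin (∑ j, n j + 2) × (Fin k → Fin (∑ j, n j + 1)) → ℂ :=
  fun p => ∑ b, B p.1 b * ts (b, p.2)

theorem FAo_mu (ts : Fin (∑ j, n j + 2) × (Fin k → Fin (∑ j, n j + 1)) → ℂ)
    (A : Fin k → Fin (∑ j, n j + 1) → Fin (∑ j, n j + 1) → ℂ)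
    (x : Fin k → Fin (∑ j, n j + 1) → ℂ) :
    ∑ a, ev (curry (FAo n ts A) a) x * ev (curry ts a) x =
      soG (sharp (low n) A) (curry ts) x := by
  have h : ∀ a, ev (curry (FAo n ts A) a) x = 2 * act (sharp (low n) A) (curry ts a) x := by
    intro a
    have h1 : curry (FAo n ts A) a = fun β => 2 * actU (sharp (low n) A) (curry ts a) β := by
      funext β
      simp only [curry, FAo]
    rw [h1, actU_mul]
  simp only [h]
  rw [soG, Finset.mul_sum]
  exact Finset.sum_congr rfl fun a _ => by ring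

theorem FBo_ev (ts : Fin (∑ j, n j + 2) × (Fin k → Fin (∑ j, n j + 1)) → ℂ)
    (B : Fin (∑ j, n j + 2) → Fin (∑ j, n j + 2) → ℂ) (a : Fin (∑ j, n j + 2))
    (x : Fin k → Fin (∑ j, n j + 1) → ℂ) :
    ev (curry (FBo n ts B) a) x = ∑ b, B a b * ev (curry ts b) x := by
  have : curry (FBo n ts B) a = fun β => ∑ b, (fun b β => B a b * ts (b, β)) b β := rfl
  rw [this, ev_sum]
  exact Finset.sum_congr rfl fun b _ => ev_mul_left _ _ _

theorem FBo_mu (ts : Fin (∑ j, n j + 2) × (Fin k → Fin (∑ j, n j + 1)) → ℂ)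
    (B : Fin (∑ j, n j + 2) → Fin (∑ j, n j + 2) → ℂ) (hB : ∀ a b, B a b = - B b a)
    (x : Fin k → Fin (∑ j, n j + 1) → ℂ) :
    ∑ a, ev (curry (FBo n ts B) a) x * ev (curry ts a) x = 0 := by
  have h := anti_sym B (fun a b => ev (curry ts b) x * ev (curry ts a) x) hB
    (fun a b _ => mul_comm _ _)
  rw [← h]
  refine Finset.sum_congr rfl fun a _ => ?_
  rw [FBo_ev, Finset.sum_mul]
  exact Finset.sum_congr rfl fun b _ => by ring

theorem dot_A (ts : Fin (∑ j, n j + 2) × (Fin k → Fin (∑ j, n j + 1)) → ℂ)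
    (A : Fin k → Fin (∑ j, n j + 1) → Fin (∑ j, n j + 1) → ℂ) (Z : Idx (fmt n) → ℂ) :
    res n (FAo n ts A) ⬝ᵥ Z =
      2 * ∑ j, ∑ i, ∑ i', sharp (low n) A j i i' * DJ n ts (pad n Z) j i i' := by
  rw [dot_eq, ← pair_A n ts (pad n Z) (sharp (low n) A), Finset.mul_sum]
  refine Finset.sum_congr rfl fun a _ => ?_
  rw [Finset.mul_sum]
  refine Finset.sum_congr rfl fun β _ => ?_
  simp only [FAo]
  ring

theorem dot_B (ts : Fin (∑ j, n j + 2) × (Fin k → Fin (∑ j, n j + 1)) → ℂ)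
    (B : Fin (∑ j, n j + 2) → Fin (∑ j, n j + 2) → ℂ) (Z : Idx (fmt n) → ℂ) :
    res n (FBo n ts B) ⬝ᵥ Z = ∑ a, ∑ b, B a b * DL n ts (pad n Z) b a := by
  rw [dot_eq, ← pair_B n ts (pad n Z) B]
  rfl

/-- Rotations are orthogonal to the critical space. -/
theorem dot_A_crit (T : Idx (fmt n) → ℂ)
    (ts : Fin (∑ j, n j + 2) × (Fin k → Fin (∑ j, n j + 1)) → ℂ) (hts : ∀ α, ts (ee n α) = T α)
    (A : Fin k → Fin (∑ j, n j + 1) → Fin (∑ j, n j + 1) → ℂ) (Z : Idx (fmt n) → ℂ)
    (hZ : Z ∈ critSpace T) : res n (FAo n ts A) ⬝ᵥ Z = 0 := by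
  rw [crit_iff n T ts hts] at hZ
  rw [dot_A, Finset.sum_eq_zero, mul_zero]
  intro j _
  refine anti_sym _ _ (sharp_anti _ _ j) fun i i' h => ?_
  have hi : i ∈ low n j := by
    by_contra hi; exact h (sharp_left A hi i')
  have hi' : i' ∈ low n j := by
    by_contra hi'; exact h (sharp_right A hi' i)
  exact hZ.2 j i hi i' hi'

theorem dot_B_crit (T : Idx (fmt n) → ℂ)
    (ts : Fin (∑ j, n j + 2) × (Fin k → Fin (∑ j, n j + 1)) → ℂ) (hts : ∀ α, ts (ee n α) = T α)
    (B : Fin (∑ j, n j + 2) → Fin (∑ j, n j + 2) → ℂ) (hB : ∀ a b, B a b = - B b a)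
    (Z : Idx (fmt n) → ℂ) (hZ : Z ∈ critSpace T) : res n (FBo n ts B) ⬝ᵥ Z = 0 := by
  rw [crit_iff n T ts hts] at hZ
  rw [dot_B]
  exact anti_sym B (fun a b => DL n ts (pad n Z) b a) hB fun a b _ => hZ.1 b a

/-- The conclusion of `StKos` at a point. -/
def KosAt (ts : Fin (∑ j, n j + 2) × (Fin k → Fin (∑ j, n j + 1)) → ℂ) : Prop :=
  ∀ P : Fin (∑ j, n j + 2) → (Fin k → Fin (∑ j, n j + 1)) → ℂ, (∀ a, SuppU (low n) (P a)) →
    (∀ x, SuppX (low n) x → ∑ a, ev (P a) x * ev (curry ts a) x = 0) →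
    ∃ B : Fin (∑ j, n j + 2) → Fin (∑ j, n j + 2) → ℂ, (∀ a b, B a b = - B b a) ∧
      ∀ a α, (∀ j, α j ∈ low n j) → P a α = ∑ b, B a b * ts (b, α)

/-- The case without further syzygies. -/
theorem crit_le_sing (hk : 1 ≤ k) (T : Idx (fmt n) → ℂ)
    (ts : Fin (∑ j, n j + 2) × (Fin k → Fin (∑ j, n j + 1)) → ℂ) (hts : ∀ α, ts (ee n α) = T α)
    (o : Fin k → Fin (∑ j, n j + 1)) (hgood : GoodX (low n) o ∅ (curry ts))
    (hkos : KosAt n ts) : critSpace T ≤ singSpan T := by
  refine le_of_perp_le ?_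
  intro P hP
  obtain ⟨A, hA⟩ := perp_sing n hk T ts hts o hgood P hP
  obtain ⟨B, hB, hPB⟩ := hkos
    (fun a => cutU (low n) (curry (pad n P - FAo n ts A) a)) (fun a => suppU_cutU _ _) (by
      intro x hx
      have h1 : ∀ a, ev (cutU (low n) (curry (pad n P - FAo n ts A) a)) x =
          ev (curry (pad n P) a) x - ev (curry (FAo n ts A) a) x := by
        intro a
        rw [ev_cutU _ hx]
        have h2 : curry (pad n P - FAo n ts A) a =
            curry (pad n P) a + (-1 : ℂ) • curry (FAo n ts A) a := by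
          funext β
          simp only [curry, Pi.sub_apply, Pi.add_apply, Pi.smul_apply, smul_eq_mul]
          ring
        rw [h2, ev_add, ev_smul]
        ring
      simp only [h1, sub_mul, Finset.sum_sub_distrib]
      rw [hA x hx, FAo_mu, sub_self])
  have h3 : P = res n (FAo n ts A) + res n (FBo n ts B) := by
    funext α
    have h4 := hPB (ee n α).1 (ee n α).2 (fun j => (mem_low n j _).2
      ((range_ee n (ee n α)).1 ⟨α, rfl⟩ j))
    have h5 : cutU (low n) (curry (pad n P - FAo n ts A) (ee n α).1) (ee n α).2 =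
        pad n P (ee n α) - FAo n ts A (ee n α) := by
      simp only [cutU]
      rw [if_pos (fun j => (mem_low n j _).2 ((range_ee n (ee n α)).1 ⟨α, rfl⟩ j))]
      rfl
    rw [h5, pad_ee] at h4
    change P α = FAo n ts A (ee n α) + ∑ b, B (ee n α).1 b * ts (b, (ee n α).2)
    rw [← h4]; ring
  intro Z hZ
  rw [h3, add_dotProduct, dot_A_crit n T ts hts A Z hZ, dot_B_crit n T ts hts B hB Z hZ, add_zero]

/-- The conclusion of `StSur` at a point. -/
def SurAt (ts : Fin (∑ j, n j + 2) × (Fin k → Fin (∑ j, n j + 1)) → ℂ) : Prop :=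
  ∀ S : (Fin k → Sym2 (Fin (∑ j, n j + 1))) → ℂ, SuppS (low n) S →
    ∃ P : Fin (∑ j, n j + 2) → (Fin k → Fin (∑ j, n j + 1)) → ℂ, (∀ a, SuppU (low n) (P a)) ∧
      ∀ x, SuppX (low n) x → ∑ a, ev (P a) x * ev (curry ts a) x = evS S x

/-- Independence of the slices. -/
def IndAt (ts : Fin (∑ j, n j + 2) × (Fin k → Fin (∑ j, n j + 1)) → ℂ) : Prop :=
  ∀ v : Fin (∑ j, n j + 2) → ℂ, (∀ β, (∀ j, β j ∈ low n j) → ∑ b, v b * ts (b, β) = 0) → v = 0

/-- No common zeros. -/
theorem no_zero {ts : Fin (∑ j, n j + 2) × (Fin k → Fin (∑ j, n j + 1)) → ℂ} (h : SurAt n ts)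
    {z : Fin k → Fin (∑ j, n j + 1) → ℂ} (hz : SuppX (low n) z) (hz0 : ∀ j, z j ≠ 0) :
    ∃ a, ev (curry ts a) z ≠ 0 := by
  by_contra hc
  push Not at hc
  have h1 : ∀ j, ∃ i, z j i ≠ 0 := fun j => Function.ne_iff.1 (hz0 j)
  choose i hi using h1
  obtain ⟨P, _, hP⟩ := h (Pi.single (fun j => s(i j, i j)) 1) (by
    rintro s ⟨j, i', hi', hI⟩
    refine Pi.single_eq_of_ne (fun hs => ?_) _
    rw [hs] at hi'
    have : i' = i j := by simpa using hi'
    subst this
    exact hi j (hz j _ hI))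
  have h2 := hP z hz
  rw [Finset.sum_eq_zero (fun a _ => by rw [hc a, mul_zero])] at h2
  simp only [evS] at h2
  rw [Finset.sum_eq_single (fun j => s(i j, i j))] at h2
  · rw [Pi.single_eq_same, one_mul] at h2
    have h3 : ∏ j, mon s(i j, i j) (z j) ≠ 0 :=
      Finset.prod_ne_zero_iff.2 fun j _ => mul_ne_zero (hi j) (hi j)
    exact h3 h2.symm
  · intro s _ hs
    rw [Pi.single_eq_of_ne hs, zero_mul]
  · intro h; exact absurd (mem_univ _) h

/-- If a form is a rotation then it is orthogonal to the singular tuples. -/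
theorem sing_perp (T : Idx (fmt n) → ℂ)
    (ts : Fin (∑ j, n j + 2) × (Fin k → Fin (∑ j, n j + 1)) → ℂ) (hts : ∀ α, ts (ee n α) = T α)
    (hsur : SurAt n ts) (P : Idx (fmt n) → ℂ)
    (A : Fin k → Fin (∑ j, n j + 1) → Fin (∑ j, n j + 1) → ℂ)
    (hA : ∀ x, SuppX (low n) x → ∑ a, ev (curry (pad n P) a) x * ev (curry ts a) x =
      soG (sharp (low n) A) (curry ts) x) : P ∈ perp (singSpan T) := by
  have key : ∀ x : (i : Fin (k + 1)) → Fin (fmt n i + 1) → ℂ, IsSingularTuple T x →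
      P ⬝ᵥ rankOne x = 0 := by
    intro x hx
    rw [sing_iff n T ts hts] at hx
    rw [full_eq_dot]
    have hz := suppX_zo n x
    generalize yo n x = y at *
    generalize zo n x = z at *
    obtain ⟨h1, h2, h3, h4⟩ := hx
    obtain ⟨a₀, ha₀⟩ := no_zero n hsur hz h2
    have hy : ∀ b, y b = y a₀ / ev (curry ts a₀) z * ev (curry ts b) z := by
      intro b
      have := h3 a₀ b
      field_simp
      linear_combination this
    have hc : y a₀ / ev (curry ts a₀) z ≠ 0 := by
      intro hc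
      refine h1 ?_
      funext b
      rw [hy b, hc, zero_mul]; rfl
    generalize y a₀ / ev (curry ts a₀) z = c at *
    have h5 : ∀ j i, ∑ a, y a * ev (curry ts a) (update z j (Pi.single i 1)) =
        c / 2 * dG (curry ts) z j i := by
      intro j i
      simp only [dG, Finset.mul_sum]
      refine Finset.sum_congr rfl fun a _ => ?_
      rw [hy a]; ring
    have h6 : ∀ j, ∃ lam : ℂ, ∀ i ∈ low n j, dG (curry ts) z j i = lam * z j i := by
      intro j
      obtain ⟨i₀, hi₀⟩ := Function.ne_iff.1 (h2 j)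
      have hi₀' : z j i₀ ≠ 0 := hi₀
      have hi₀I : i₀ ∈ low n j := by
        by_contra h; exact hi₀' (hz j i₀ h)
      refine ⟨dG (curry ts) z j i₀ / z j i₀, fun i hi => ?_⟩
      have h7 := h4 j i hi i₀ hi₀I
      rw [h5, h5] at h7
      have h8 : dG (curry ts) z j i * z j i₀ = dG (curry ts) z j i₀ * z j i := by
        have h9 : c / 2 ≠ 0 := div_ne_zero hc two_ne_zero
        refine mul_left_cancel₀ h9 ?_
        linear_combination h7
      field_simp
      linear_combination h8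
    choose lam hlam using h6
    have h7 := soG_crit hlam A
    rw [← hA z hz] at h7
    have h8 : ∑ a, y a * ev (curry (pad n P) a) z =
        c * ∑ a, ev (curry (pad n P) a) z * ev (curry ts a) z := by
      rw [Finset.mul_sum]
      refine Finset.sum_congr rfl fun a _ => ?_
      rw [hy a]; ring
    rw [h8, h7, mul_zero]
  intro Z hZ
  have h1 : singSpan T ≤ perp (Submodule.span ℂ {P}) := by
    refine Submodule.span_le.2 ?_
    rintro Z ⟨x, hx, rfl⟩
    intro Q hQ
    obtain ⟨c, rfl⟩ := Submodule.mem_span_singleton.1 hQ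
    rw [dotProduct_smul, dotProduct_comm, key x hx, smul_zero]
  rw [dotProduct_comm]
  exact h1 hZ P (Submodule.mem_span_singleton_self P)

end FA

end Pool.Agent.Helper41.SV
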