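import Pool.Agent.Helper41.SV.FC

/-!
The dimension count in the exceptional formats.
-/

open Finset Function Module

noncomputable section

set_option linter.unusedSectionVars false

namespace Pool.Agent.Helper41.SV

namespace FA

open GG

variable {k : ℕ} (n : Fin k → ℕ)

/-- Monomials of degree `(2,...,2)` in the format. -/
abbrev MonB : Type :=
  {s : Fin k → Sym2 (Fin (∑ j, n j + 1)) // ∀ j, ∀ i ∈ s j, i ∈ low n j}

theorem card_low (j : Fin k) : (low (K := ∑ j, n j + 1) n j).card = n j + 1 := by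
  have h3 : low (K := ∑ j, n j + 1) n j =
      Finset.univ.filter (fun i : Fin (∑ j, n j + 1) => (i : ℕ) < n j + 1) := by
    ext i
    simp [low]
  rw [h3]
  have h4 : n j + 1 ≤ ∑ j, n j + 1 := Nat.succ_le_succ (le_sum n j)
  rw [← Fintype.card_subtype]
  rw [Fintype.card_congr (β := Fin (n j + 1))
    { toFun := fun i => ⟨i.1, i.2⟩
      invFun := fun i => ⟨⟨i, lt_of_lt_of_le i.isLt h4⟩, i.isLt⟩
      left_inv := fun i => rfl
      right_inv := fun i => rfl }]
  simp

theorem card_MonB : Fintype.card (MonB n) = ∏ j, (n j + 2).choose 2 := by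
  have h1 : Fintype.card (MonB n) =
      (Fintype.piFinset fun j => (low (K := ∑ j, n j + 1) n j).sym2).card := by
    rw [Fintype.card_subtype]
    congr 1
    ext s
    simp only [mem_filter, mem_univ, true_and, Fintype.mem_piFinset, Finset.mem_sym2_iff]
  rw [h1, Fintype.card_piFinset]
  refine Finset.prod_congr rfl fun j _ => ?_
  rw [Finset.card_sym2, card_low]

theorem card_Idx : Fintype.card (Idx (fmt n)) = (∑ j, n j + 2) * ∏ j, (n j + 1) := by
  rw [Fintype.card_pi, Fin.prod_univ_castSucc]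
  simp only [Fintype.card_fin, fmt_last, fmt_castSucc]
  ring

theorem pad_add (P Q : Idx (fmt n) → ℂ) : pad n (P + Q) = pad n P + pad n Q := by
  funext p
  by_cases hp : ∃ α, ee n α = p
  · obtain ⟨α, rfl⟩ := hp
    rw [Pi.add_apply, pad_ee, pad_ee, pad_ee]; rfl
  · simp only [pad, Pi.add_apply]
    rw [extend_apply' _ _ _ hp, extend_apply' _ _ _ hp, extend_apply' _ _ _ hp]
    simp

theorem pad_smul (c : ℂ) (P : Idx (fmt n) → ℂ) : pad n (c • P) = c • pad n P := by
  funext p
  by_cases hp : ∃ α, ee n α = p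
  · obtain ⟨α, rfl⟩ := hp
    rw [Pi.smul_apply, pad_ee, pad_ee]; rfl
  · simp only [pad, Pi.smul_apply]
    rw [extend_apply' _ _ _ hp, extend_apply' _ _ _ hp]
    simp

theorem mulS_add_left (t t' t'' : (Fin k → Fin (∑ j, n j + 1)) → ℂ) :
    mulS (t + t') t'' = mulS t t'' + mulS t' t'' := by
  funext s
  simp only [mulS, Pi.add_apply, ← Finset.sum_add_distrib]
  refine Finset.sum_congr rfl fun j _ => Finset.sum_congr rfl fun a _ => ?_
  split_ifs <;> ring

theorem mulS_smul_left (c : ℂ) (t t' : (Fin k → Fin (∑ j, n j + 1)) → ℂ) :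
    mulS (c • t) t' = c • mulS t t' := by
  funext s
  simp only [mulS, Pi.smul_apply, smul_eq_mul, Finset.mul_sum]
  refine Finset.sum_congr rfl fun j _ => Finset.sum_congr rfl fun a _ => ?_
  split_ifs <;> ring

/-- The form `∑ a, P a * T a`. -/
def muF (ts ps : Fin (∑ j, n j + 2) × (Fin k → Fin (∑ j, n j + 1)) → ℂ) :
    (Fin k → Sym2 (Fin (∑ j, n j + 1))) → ℂ :=
  fun s => ∑ a, mulS (curry ps a) (curry ts a) s

theorem muF_add (ts ps qs : Fin (∑ j, n j + 2) × (Fin k → Fin (∑ j, n j + 1)) → ℂ) :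
    muF n ts (ps + qs) = muF n ts ps + muF n ts qs := by
  funext s
  simp only [muF, Pi.add_apply, ← Finset.sum_add_distrib]
  refine Finset.sum_congr rfl fun a _ => ?_
  have h : curry (ps + qs) a = curry ps a + curry qs a := rfl
  rw [h, mulS_add_left]; rfl

theorem muF_smul (c : ℂ) (ts ps : Fin (∑ j, n j + 2) × (Fin k → Fin (∑ j, n j + 1)) → ℂ) :
    muF n ts (c • ps) = c • muF n ts ps := by
  funext s
  simp only [muF, Pi.smul_apply, smul_eq_mul, Finset.mul_sum]
  refine Finset.sum_congr rfl fun a _ => ?_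
  have h : curry (c • ps) a = c • curry ps a := rfl
  rw [h, mulS_smul_left]; rfl

/-- The map `P ↦ ∑ a, P a * T a`. -/
def mu (ts : Fin (∑ j, n j + 2) × (Fin k → Fin (∑ j, n j + 1)) → ℂ) :
    (Idx (fmt n) → ℂ) →ₗ[ℂ] (MonB n → ℂ) where
  toFun P := fun s => muF n ts (pad n P) s.1
  map_add' P Q := by
    funext s
    rw [pad_add, muF_add]; rfl
  map_smul' c P := by
    funext s
    rw [pad_smul, muF_smul]; rfl

theorem mu_eq_iff (ts : Fin (∑ j, n j + 2) × (Fin k → Fin (∑ j, n j + 1)) → ℂ)
    (P : Idx (fmt n) → ℂ) (S : (Fin k → Sym2 (Fin (∑ j, n j + 1))) → ℂ) :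
    (∀ s : MonB n, mu n ts P s = S s.1) ↔
      ∀ x, SuppX (low n) x → ∑ a, ev (curry (pad n P) a) x * ev (curry ts a) x = evS S x := by
  constructor
  · intro h x hx
    rw [← evS_mu, ← evS_cutS _ hx, ← evS_cutS S hx]
    congr 1
    funext s
    simp only [cutS]
    split_ifs with hs
    · exact h ⟨s, hs⟩
    · rfl
  · intro h s
    have h1 := evS_eq_zero (I := low n) (P := muF n ts (pad n P) - S) (by
      intro x hx
      have h2 : evS (muF n ts (pad n P)) x =
          ∑ a, ev (curry (pad n P) a) x * ev (curry ts a) x := evS_mu n _ _ x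
      rw [evS_sub, h2, h x hx, sub_self]) s.1 s.2
    exact sub_eq_zero.1 h1

theorem mu_eq_zero_iff (ts : Fin (∑ j, n j + 2) × (Fin k → Fin (∑ j, n j + 1)) → ℂ)
    (P : Idx (fmt n) → ℂ) : mu n ts P = 0 ↔
      ∀ x, SuppX (low n) x → ∑ a, ev (curry (pad n P) a) x * ev (curry ts a) x = 0 := by
  have h := mu_eq_iff n ts P 0
  have h0 : ∀ x, evS (0 : (Fin k → Sym2 (Fin (∑ j, n j + 1))) → ℂ) x = 0 := fun x => by
    simp [evS]
  simp only [h0] at h
  rw [← h]
  exact ⟨fun h s => congrFun h s, fun h => funext h⟩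

theorem mu_eq_iff' (ts : Fin (∑ j, n j + 2) × (Fin k → Fin (∑ j, n j + 1)) → ℂ)
    (P Q : Idx (fmt n) → ℂ) : mu n ts P = mu n ts Q ↔
      ∀ x, SuppX (low n) x → ∑ a, ev (curry (pad n P) a) x * ev (curry ts a) x =
        ∑ a, ev (curry (pad n Q) a) x * ev (curry ts a) x := by
  have h := mu_eq_iff n ts P (muF n ts (pad n Q))
  have h0 : ∀ x, evS (muF n ts (pad n Q)) x =
      ∑ a, ev (curry (pad n Q) a) x * ev (curry ts a) x := fun x => evS_mu n _ _ x
  simp only [h0] at h
  rw [← h]
  exact ⟨fun h s => congrFun h s, fun h => funext h⟩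

theorem mu_surj {ts : Fin (∑ j, n j + 2) × (Fin k → Fin (∑ j, n j + 1)) → ℂ}
    (hs : SurAt n ts) : LinearMap.range (mu n ts) = ⊤ := by
  rw [LinearMap.range_eq_top]
  intro S
  obtain ⟨P, hP, h⟩ := hs
    (fun s => if h : (∀ j, ∀ i ∈ s j, i ∈ low n j) then S ⟨s, h⟩ else 0) (by
    rintro s ⟨j, i, hi, hI⟩
    simp only
    rw [dif_neg]
    intro h; exact hI (h j i hi))
  refine ⟨res n (uncurry P), ?_⟩
  have h1 := (mu_eq_iff n ts (res n (uncurry P))
    (fun s => if h : (∀ j, ∀ i ∈ s j, i ∈ low n j) then S ⟨s, h⟩ else 0)).2 (by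
    intro x hx
    rw [← h x hx]
    refine Finset.sum_congr rfl fun a _ => ?_
    rw [ev_pad_res n _ _ hx]
    rfl)
  funext s
  rw [h1 s, dif_pos s.2]

/-- The rotations of the other slots. -/
def psiA (ts : Fin (∑ j, n j + 2) × (Fin k → Fin (∑ j, n j + 1)) → ℂ) :
    (Fin k × Fin (∑ j, n j + 1) × Fin (∑ j, n j + 1) → ℂ) →ₗ[ℂ] (Idx (fmt n) → ℂ) where
  toFun A := res n (FAo n ts (fun j a b => A (j, a, b)))
  map_add' A B := by
    funext α
    have h : sharp (low n) (fun j a b => A (j, a, b) + B (j, a, b)) =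
        sharp (low n) (fun j a b => A (j, a, b)) + sharp (low n) (fun j a b => B (j, a, b)) := by
      rw [← sharp_add]; rfl
    simp only [res, FAo, Pi.add_apply]
    rw [h, actU_add, Pi.add_apply]
    ring
  map_smul' c A := by
    funext α
    have h : sharp (low n) (fun j a b => c * A (j, a, b)) =
        c • sharp (low n) (fun j a b => A (j, a, b)) := by
      rw [← sharp_smul]; rfl
    simp only [res, FAo, Pi.smul_apply, RingHom.id_apply, smul_eq_mul]
    rw [h, actU_smul, Pi.smul_apply, smul_eq_mul]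
    ring

/-- The antisymmetric matrix with given entries above the diagonal. -/
def anti {m : ℕ} (B : {p : Fin m × Fin m // p.1 < p.2} → ℂ) (a b : Fin m) : ℂ :=
  (if h : a < b then B ⟨(a, b), h⟩ else 0) - (if h : b < a then B ⟨(b, a), h⟩ else 0)

theorem anti_anti {m : ℕ} (B : {p : Fin m × Fin m // p.1 < p.2} → ℂ) (a b : Fin m) :
    anti B a b = - anti B b a := by
  simp only [anti]; ring

/-- The rotations of the last slot. -/
def psiB (ts : Fin (∑ j, n j + 2) × (Fin k → Fin (∑ j, n j + 1)) → ℂ) :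
    ({p : Fin (∑ j, n j + 2) × Fin (∑ j, n j + 2) // p.1 < p.2} → ℂ) →ₗ[ℂ]
      (Idx (fmt n) → ℂ) where
  toFun B := res n (FBo n ts (anti B))
  map_add' A B := by
    funext α
    simp only [res, FBo, Pi.add_apply, ← Finset.sum_add_distrib]
    refine Finset.sum_congr rfl fun b _ => ?_
    simp only [anti, Pi.add_apply]
    split_ifs <;> ring
  map_smul' c A := by
    funext α
    simp only [res, FBo, Pi.smul_apply, RingHom.id_apply, smul_eq_mul, Finset.mul_sum]
    refine Finset.sum_congr rfl fun b _ => ?_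
    simp only [anti, Pi.smul_apply, smul_eq_mul]
    split_ifs <;> ring

theorem psiB_inj {ts : Fin (∑ j, n j + 2) × (Fin k → Fin (∑ j, n j + 1)) → ℂ}
    (hi : IndAt n ts) : Injective (psiB n ts) := by
  rw [← LinearMap.ker_eq_bot, LinearMap.ker_eq_bot']
  intro B hB
  have h1 : ∀ a, anti B a = 0 := by
    intro a
    refine hi _ fun β hβ => ?_
    obtain ⟨α, hα⟩ := (range_ee n (a, β)).2 fun j => (mem_low n j _).1 (hβ j)
    have h2 := congrFun hB α
    change FBo n ts (anti B) (ee n α) = 0 at h2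
    rw [hα] at h2
    exact h2
  funext p
  obtain ⟨⟨a, b⟩, hab⟩ := p
  have h2 : anti B a b = 0 := congrFun (h1 a) b
  have hab' : a < b := hab
  simp only [anti] at h2
  rw [dif_pos hab', dif_neg (not_lt.2 hab'.le), sub_zero] at h2
  exact h2

theorem finrank_psiB {ts : Fin (∑ j, n j + 2) × (Fin k → Fin (∑ j, n j + 1)) → ℂ}
    (hi : IndAt n ts) :
    finrank ℂ (LinearMap.range (psiB n ts)) = (∑ j, n j + 2).choose 2 := by
  rw [LinearMap.finrank_range_of_inj (psiB_inj n hi), finrank_pi, card_pairs]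

theorem sharp_single {ι κ : Type} [Fintype κ] [DecidableEq κ] [Fintype ι] [DecidableEq ι]
    {I : κ → Finset ι} (j : κ) (i i' : ι) (hi : i ∈ I j) (hi' : i' ∈ I j) (D : κ → ι → ι → ℂ) :
    ∑ m, ∑ a, ∑ b, sharp I (fun m a b => if m = j ∧ a = i ∧ b = i' then (1 : ℂ) else 0) m a b *
      D m a b = D j i i' - D j i' i := by
  have h1 : ∀ m a b, sharp I (fun m a b => if m = j ∧ a = i ∧ b = i' then (1 : ℂ) else 0) m a b *
      D m a b = (if m = j then if a = i then if b = i' then D m a b else 0 else 0 else 0) -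
        (if m = j then if a = i' then if b = i then D m a b else 0 else 0 else 0) := by
    intro m a b
    simp only [sharp]
    by_cases hm : m = j
    · subst hm
      by_cases ha : a = i <;> by_cases hb : b = i' <;> by_cases ha' : a = i' <;>
        by_cases hb' : b = i <;> simp_all
    · simp [hm]
  simp only [h1, Finset.sum_sub_distrib]
  simp

/-- The critical space is the orthogonal complement of the rotations. -/
theorem crit_eq_perp (T : Idx (fmt n) → ℂ)
    (ts : Fin (∑ j, n j + 2) × (Fin k → Fin (∑ j, n j + 1)) → ℂ) (hts : ∀ α, ts (ee n α) = T α) :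
    critSpace T = perp (LinearMap.range (psiA n ts) ⊔ LinearMap.range (psiB n ts)) := by
  ext Z
  constructor
  · intro hZ P hP
    obtain ⟨P₁, ⟨A, rfl⟩, P₂, ⟨B, rfl⟩, rfl⟩ := Submodule.mem_sup.1 hP
    rw [dotProduct_comm, add_dotProduct]
    have h1 : psiA n ts A ⬝ᵥ Z = 0 := dot_A_crit n T ts hts _ Z hZ
    have h2 : psiB n ts B ⬝ᵥ Z = 0 := dot_B_crit n T ts hts _ (anti_anti B) Z hZ
    rw [h1, h2, add_zero]
  · intro hZ
    rw [crit_iff n T ts hts]
    constructor
    · have key : ∀ a b, a < b → DL n ts (pad n Z) a b = DL n ts (pad n Z) b a := by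
        intro a b hab
        have h1 := hZ (psiB n ts (Pi.single ⟨(a, b), hab⟩ 1))
          (Submodule.mem_sup_right ⟨_, rfl⟩)
        rw [dotProduct_comm] at h1
        have h2 : psiB n ts (Pi.single ⟨(a, b), hab⟩ 1) ⬝ᵥ Z =
            ∑ c, ∑ d, anti (Pi.single ⟨(a, b), hab⟩ 1) c d * DL n ts (pad n Z) d c :=
          dot_B n ts _ Z
        rw [h2] at h1
        have h3 : ∀ c d, anti (Pi.single (⟨(a, b), hab⟩ :
            {p : Fin (∑ j, n j + 2) × Fin (∑ j, n j + 2) // p.1 < p.2}) (1 : ℂ)) c d *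
            DL n ts (pad n Z) d c = (if c = a then if d = b then DL n ts (pad n Z) d c else 0
              else 0) - (if c = b then if d = a then DL n ts (pad n Z) d c else 0 else 0) := by
          intro c d
          have e1 : (if h : c < d then (Pi.single (⟨(a, b), hab⟩ :
              {p : Fin (∑ j, n j + 2) × Fin (∑ j, n j + 2) // p.1 < p.2}) (1 : ℂ) :
                {p : Fin (∑ j, n j + 2) × Fin (∑ j, n j + 2) // p.1 < p.2} → ℂ)
                ⟨(c, d), h⟩ else 0) = if c = a ∧ d = b then 1 else 0 := by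
            by_cases hcd : c = a ∧ d = b
            · obtain ⟨rfl, rfl⟩ := hcd
              rw [dif_pos hab, if_pos ⟨rfl, rfl⟩, Pi.single_eq_same]
            · rw [if_neg hcd]
              split_ifs with h
              · refine Pi.single_eq_of_ne (fun h' => hcd ?_) _
                have h5 := congrArg Subtype.val h'
                exact ⟨congrArg Prod.fst h5, congrArg Prod.snd h5⟩
              · rfl
          have e2 : (if h : d < c then (Pi.single (⟨(a, b), hab⟩ :
              {p : Fin (∑ j, n j + 2) × Fin (∑ j, n j + 2) // p.1 < p.2}) (1 : ℂ) :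
                {p : Fin (∑ j, n j + 2) × Fin (∑ j, n j + 2) // p.1 < p.2} → ℂ)
                ⟨(d, c), h⟩ else 0) = if c = b ∧ d = a then 1 else 0 := by
            by_cases hcd : c = b ∧ d = a
            · obtain ⟨rfl, rfl⟩ := hcd
              rw [dif_pos hab, if_pos ⟨rfl, rfl⟩, Pi.single_eq_same]
            · rw [if_neg hcd]
              split_ifs with h
              · refine Pi.single_eq_of_ne (fun h' => hcd ?_) _
                have h5 := congrArg Subtype.val h'
                exact ⟨congrArg Prod.snd h5, congrArg Prod.fst h5⟩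
              · rfl
          rw [anti, e1, e2, sub_mul, ite_and, ite_and]
          simp only [ite_mul, one_mul, zero_mul]
        simp only [h3, Finset.sum_sub_distrib] at h1
        simp only [Finset.sum_ite_eq', mem_univ, if_true, Finset.sum_ite_irrel,
          Finset.sum_const_zero] at h1
        exact (sub_eq_zero.1 h1).symm
      intro a b
      rcases lt_trichotomy a b with h | h | h
      · exact key a b h
      · rw [h]
      · exact (key b a h).symm
    · intro j i hi i' hi'
      have h1 := hZ (psiA n ts (fun e => if e.1 = j ∧ e.2.1 = i ∧ e.2.2 = i' then 1 else 0))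
        (Submodule.mem_sup_left ⟨_, rfl⟩)
      rw [dotProduct_comm] at h1
      have h2 : psiA n ts (fun e => if e.1 = j ∧ e.2.1 = i ∧ e.2.2 = i' then 1 else 0) ⬝ᵥ Z =
          2 * ∑ m, ∑ a, ∑ b, sharp (low n)
            (fun m a b => if m = j ∧ a = i ∧ b = i' then (1 : ℂ) else 0) m a b *
              DJ n ts (pad n Z) m a b := dot_A n ts _ Z
      rw [h2, sharp_single j i i' hi hi'] at h1
      have h3 := (mul_eq_zero.1 h1).resolve_left two_ne_zero
      exact sub_eq_zero.1 h3

/-- The dimension count. -/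
theorem exc_count (hk : 1 ≤ k) (T : Idx (fmt n) → ℂ)
    (ts : Fin (∑ j, n j + 2) × (Fin k → Fin (∑ j, n j + 1)) → ℂ) (hts : ∀ α, ts (ee n α) = T α)
    (o : Fin k → Fin (∑ j, n j + 1)) (hgood : GoodX (low n) o ∅ (curry ts))
    (hfree : Free (low n) (curry ts)) (hsur : SurAt n ts) (hind : IndAt n ts) :
    (finrank ℂ (critSpace T) : ℤ) - finrank ℂ (singSpan T) =
      (((∑ j, n j + 2) * ∏ j, (n j + 1) : ℕ) : ℤ) - ((∏ j, (n j + 2).choose 2 : ℕ) : ℤ)
      - (((∑ j, n j + 2).choose 2 : ℕ) : ℤ) := by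
  have hpsiA : ∀ A x, SuppX (low n) x → ∑ a, ev (curry (pad n (psiA n ts A)) a) x *
      ev (curry ts a) x = soG (sharp (low n) (fun j a b => A (j, a, b))) (curry ts) x := by
    intro A x hx
    rw [← FAo_mu]
    refine Finset.sum_congr rfl fun a _ => ?_
    have : psiA n ts A = res n (FAo n ts (fun j a b => A (j, a, b))) := rfl
    rw [this, ev_pad_res n _ _ hx]
  -- the orthogonal complement of the span
  have hperp : perp (singSpan T) = ((LinearMap.range (psiA n ts)).map (mu n ts)).comap (mu n ts) := by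
    ext P
    constructor
    · intro hP
      obtain ⟨A, hA⟩ := perp_sing n hk T ts hts o hgood P hP
      refine ⟨psiA n ts (fun e => A e.1 e.2.1 e.2.2), ⟨_, rfl⟩, ?_⟩
      rw [mu_eq_iff']
      intro x hx
      rw [hA x hx, hpsiA _ x hx]
    · rintro ⟨_, ⟨A, rfl⟩, hA⟩
      rw [mu_eq_iff'] at hA
      exact sing_perp n T ts hts hsur P (fun j a b => A (j, a, b)) fun x hx => by
        rw [← hA x hx, hpsiA _ x hx]
  have h1 := count (mu n ts) (LinearMap.range (psiA n ts)) (LinearMap.range (psiB n ts))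
    (by
      rintro _ ⟨A, rfl⟩ h0
      rw [mu_eq_zero_iff] at h0
      have h2 := hfree (fun j a b => A (j, a, b)) fun x hx => by
        rw [← hpsiA _ x hx]; exact h0 x hx
      funext α
      change 2 * actU (sharp (low n) (fun j a b => A (j, a, b))) _ _ = 0
      rw [h2]
      simp [actU])
    (by
      rintro _ ⟨B, rfl⟩
      rw [mu_eq_zero_iff]
      intro x hx
      rw [← FBo_mu n ts (anti B) (anti_anti B) x]
      refine Finset.sum_congr rfl fun a _ => ?_
      have : psiB n ts B = res n (FBo n ts (anti B)) := rfl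
      rw [this, ev_pad_res n _ _ hx])
  rw [← hperp] at h1
  have h2 := finrank_perp (singSpan T)
  have h3 := finrank_perp (LinearMap.range (psiA n ts) ⊔ LinearMap.range (psiB n ts))
  rw [← crit_eq_perp n T ts hts] at h3
  have h4 := LinearMap.finrank_range_add_finrank_ker (mu n ts)
  rw [mu_surj n hsur, finrank_top, finrank_pi, finrank_pi, card_MonB, card_Idx] at h4
  rw [card_Idx] at h2 h3
  rw [finrank_psiB n hind] at h1
  omega

end FA

end Pool.Agent.Helper41.SV
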