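import Pool.Agent.Helper41.SV.Stmts

/-!
Statements on the exceptional formats used in the final assembly.
-/

open Finset Function

noncomputable section

namespace Pool.Agent.Helper41.SV

/-- Independence in the exceptional formats. -/
def StExcInd : Prop :=
  ∀ (k : ℕ) (n : Fin k → ℕ), (∀ j, 1 ≤ n j) → Exceptional n →
    ∃ p : (Fin k → Fin (∑ j, n j + 1)) → Fin (∑ j, n j + 2) → ℂ,
      IndOn (fun α β => α ≤ β) (box 0 n) p

/-- Numerology of the exceptional formats. -/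
def StExcNum : Prop :=
  ∀ (k : ℕ) (n : Fin k → ℕ), (∀ j, 1 ≤ n j) → Exceptional n →
    (((∑ j, n j + 2) * ∏ j, (n j + 1) : ℕ) : ℤ) - ((∏ j, (n j + 2).choose 2 : ℕ) : ℤ)
      - (((∑ j, n j + 2).choose 2 : ℕ) : ℤ) = excess n ∧ 0 < excess n ∧
      ∑ j, n j + 2 ≤ ∏ j, (n j + 1)

/-- Rigidity in the nonexceptional formats. -/
def StNonExc : Prop :=
  ∀ (k : ℕ) (n : Fin k → ℕ), 3 ≤ k → (∀ j, 1 ≤ n j) → ¬ Exceptional n →
    ∃ p : (Fin k → Fin (∑ j, n j + 1)) → Fin (∑ j, n j + 2) → ℂ,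
      RigOn (fun α β => α ≤ β) (box 0 n) p

end Pool.Agent.Helper41.SV
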