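import Pool.Agent.Helper41.SV.FD
import Pool.Agent.Helper41.SV.FStmts

/-!
The final assembly.
-/

open Finset Function Module

noncomputable section

set_option linter.unusedSectionVars false

namespace Pool.Agent.Helper41.SV

open FA

/-- Generic independence of the slices. -/
theorem gen_ind {k : ℕ} (n : Fin k → ℕ) (h : ∑ j, n j + 2 ≤ ∏ j, (n j + 1)) :
    Gen (fun t : Fin (∑ j, n j + 2) × (Fin k → Fin (∑ j, n j + 1)) → ℂ => IndAt n t) := by
  have hcard : Fintype.card (Fin (∑ j, n j + 2)) ≤
      Fintype.card {β : Fin k → Fin (∑ j, n j + 1) // ∀ j, β j ∈ low n j} := by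
    have h1 : Fintype.card {β : Fin k → Fin (∑ j, n j + 1) // ∀ j, β j ∈ low n j} =
        (Fintype.piFinset fun j => low (K := ∑ j, n j + 1) n j).card := by
      rw [Fintype.card_subtype]
      congr 1
      ext s
      simp
    rw [h1, Fintype.card_piFinset, Fintype.card_fin]
    simp only [card_low]
    exact h
  obtain ⟨b⟩ := Function.Embedding.nonempty_of_card_le hcard
  have hb : Injective (fun a => (b a).1) := fun x y hxy => b.injective (Subtype.ext hxy)
  have hp : IsPoly (fun t : Fin (∑ j, n j + 2) × (Fin k → Fin (∑ j, n j + 1)) → ℂ =>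
      (Matrix.of fun a c => t (c, (b a).1)).det) :=
    IsPoly.det fun i j => IsPoly.coord _
  refine (Gen.of_poly hp (t₀ := fun p => if p.2 = (b p.1).1 then 1 else 0) ?_).mono ?_
  · have : (Matrix.of fun a c => if (b a).1 = (b c).1 then (1 : ℂ) else 0) =
        (1 : Matrix (Fin (∑ j, n j + 2)) (Fin (∑ j, n j + 2)) ℂ) := by
      ext a c
      simp only [Matrix.of_apply, Matrix.one_apply]
      by_cases hac : a = c
      · subst hac; simp
      · rw [if_neg hac, if_neg (fun h => hac (hb h))]
    simp only [this, Matrix.det_one]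
    exact one_ne_zero
  · intro t ht v hv
    refine Matrix.eq_zero_of_mulVec_eq_zero ht ?_
    funext a
    simp only [Matrix.mulVec, dotProduct, Matrix.of_apply, Pi.zero_apply]
    rw [← hv (b a).1 (b a).2]
    exact Finset.sum_congr rfl fun c _ => mul_comm _ _

theorem sum_card_low {k : ℕ} (n : Fin k → ℕ) :
    ∑ j, ((low (K := ∑ j, n j + 1) n j).card - 1) = ∑ j, n j :=
  Finset.sum_congr rfl fun j _ => by rw [card_low]; rfl

/-- The full answer, from the modules. -/
theorem final (hMany : StMany) (hKos : StKos) (hSur : StSur) (hFree : StFree) (hInd : StExcInd)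
    (hNum : StExcNum) (hNon : StNonExc) (k : ℕ) (hk : 3 ≤ k) (n : Fin k → ℕ)
    (hn : ∀ j, 1 ≤ n j) :
    Gen (fun T : Idx (fmt n) → ℂ =>
      singSpan T ≤ critSpace T ∧
      (¬ Exceptional n → singSpan T = critSpace T) ∧
      (Exceptional n → singSpan T < critSpace T) ∧
      (finrank ℂ (critSpace T) : ℤ) - finrank ℂ (singSpan T) = excess n) := by
  have ho : ∀ j, (0 : Fin (∑ j, n j + 1)) ∈ low n j := fun j => (mem_low n j _).2 (Nat.zero_le _)
  have h1 := hMany (Fin k) (Fin (∑ j, n j + 1)) (low n) (fun _ => 0) ∅ (∑ j, n j + 1) ho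
    (fun e he => absurd he (Finset.notMem_empty e))
    (by rw [sum_card_low]; exact Nat.le_succ _)
  by_cases hE : Exceptional n
  · obtain ⟨hnum, hpos, hcard⟩ := hNum k n hn hE
    have h2 := hSur (Fin k) (∑ j, n j + 1) (∑ j, n j + 2) n (hInd k n hn hE)
    have h3 := hFree (Fin k) (Fin (∑ j, n j + 1)) (low n) (∑ j, n j + 2)
      (fun j => ⟨0, ho j⟩) (by rw [sum_card_low]; exact Nat.le_succ _)
    obtain ⟨c, hc⟩ := ((h1.and h2).and (h3.and (gen_ind n hcard))).extend (ee_inj n)
    refine hc.mono fun T hT => ?_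
    obtain ⟨⟨hg, hs⟩, hf, hi⟩ := hT
    have hcount := exc_count n (by omega) T (extend (ee n) T c)
      (fun α => (ee_inj n).extend_apply T c α) (fun _ => 0) hg hf hs hi
    rw [hnum] at hcount
    refine ⟨sing_le_crit T, fun h => absurd hE h, fun _ => ?_, hcount⟩
    refine lt_of_le_of_ne (sing_le_crit T) fun h => ?_
    rw [h, sub_self] at hcount
    omega
  · have h2 := hKos (Fin k) (∑ j, n j + 1) (∑ j, n j + 2) n (hNon k n hk hn hE)
    obtain ⟨c, hc⟩ := (h1.and h2).extend (ee_inj n)
    refine hc.mono fun T hT => ?_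
    obtain ⟨hg, hs⟩ := hT
    have heq : singSpan T = critSpace T :=
      le_antisymm (sing_le_crit T) (crit_le_sing n (by omega) T (extend (ee n) T c)
        (fun α => (ee_inj n).extend_apply T c α) (fun _ => 0) hg hs)
    refine ⟨sing_le_crit T, fun _ => heq, fun h => absurd h hE, ?_⟩
    rw [heq, sub_self, excess, if_neg hE]

end Pool.Agent.Helper41.SV
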