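import Pool.Agent.Helper41.SV.BC

/-!
Independence for the exceptional posets `2 × 2 × (m + 1)`, `m = 1, 2, 3`.
-/

open Finset Function

noncomputable section

namespace Pool.Agent.Helper41.SV

/-- The equation of `(z, i)` for a stress. -/
def stressEq {V : Type} {d : ℕ} (vs : List V) (p : V → Fin d → ℤ) (z : V) (i : Fin d) :
    List ((V × V) × ℤ) :=
  (vs.map fun v => ((z, v), p v i)) ++ (vs.map fun u => ((u, z), p u i))

/-- The steps: first the pairs which are not comparable, then the steps of the certificate. -/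
def stressSteps {V : Type} {d : ℕ} (vs : List V) (le : V → V → Bool) (p : V → Fin d → ℤ)
    (st : List ((V × Fin d) × (V × V))) : List (List ((V × V) × ℤ) × (V × V)) :=
  (vs.flatMap fun u => (vs.filter fun v => !le u v).map fun v => ([((u, v), 1)], (u, v))) ++
    (st.map fun s => (stressEq vs p s.1.1 s.1.2, s.2))

/-- The bit of a pair. -/
def bitP {V : Type} (N : ℕ) (e : V → ℕ) (a : V × V) : ℕ := e a.1 * N + e a.2

theorem bitP_injective {V : Type} (N : ℕ) (e : V → ℕ) (he : Injective e) (hN : ∀ v, e v < N) :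
    Injective (bitP N e) := by
  rintro ⟨u, i⟩ ⟨v, j⟩ h
  simp only [bitP] at h
  have hi := hN i
  have hj := hN j
  have hd : 0 < N := lt_of_le_of_lt (Nat.zero_le _) hi
  have h1 : e u = e v := by
    have h2 : (e u * N + e i) / N = (e v * N + e j) / N := by rw [h]
    rw [Nat.add_comm, Nat.add_mul_div_right _ _ hd, Nat.div_eq_of_lt hi,
      Nat.add_comm (e v * N), Nat.add_mul_div_right _ _ hd, Nat.div_eq_of_lt hj] at h2
    simpa using h2
  have h3 : e i = e j := by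
    rw [h1] at h
    exact Nat.add_left_cancel h
  rw [he h1, he h3]

theorem bitP_lt {V : Type} (N : ℕ) (e : V → ℕ) (he : ∀ v, e v < N) (a : V × V) :
    bitP N e a < N * N := by
  have h1 := he a.1
  have h2 := he a.2
  calc e a.1 * N + e a.2 < e a.1 * N + N := Nat.add_lt_add_left h2 _
    _ = (e a.1 + 1) * N := by ring
    _ ≤ N * N := Nat.mul_le_mul_right _ h1

theorem list_sum_univ {V : Type} [Fintype V] [DecidableEq V] (vs : List V) (hnd : vs.Nodup)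
    (hvs : ∀ v, v ∈ vs) (f : V → ℂ) : (vs.map f).sum = ∑ v, f v := by
  have h : vs.toFinset = univ := by
    ext v
    simp [hvs v]
  rw [← h, List.sum_toFinset f hnd]

open Matrix in
/-- Independence from a certificate. -/
theorem indOn_of_cert {V : Type} [Fintype V] [DecidableEq V] (adj : V → V → Prop) {d : ℕ}
    (vs : List V) (hnd : vs.Nodup) (hvs : ∀ v, v ∈ vs) (le : V → V → Bool)
    (hle : ∀ u v, adj u v ↔ le u v = true) (p : V → Fin d → ℤ) (e : V → ℕ) (he : Injective e)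
    (N : ℕ) (hN : ∀ v, e v < N) (st : List ((V × Fin d) × (V × V)))
    (hrun : Elim.run (bitP N e) (2 ^ (N * N) - 1) (stressSteps vs le p st) 0 = true) :
    IndOn adj univ (fun v i => ((p v i : ℤ) : ℂ)) := by
  classical
  -- the matrix of the pair equations
  let E : Matrix {a : V × V // le a.1 a.2 = true} (V × Fin d) ℂ := fun a z =>
    (if z.1 = a.1.1 then ((p a.1.2 z.2 : ℤ) : ℂ) else 0) +
      (if z.1 = a.1.2 then ((p a.1.1 z.2 : ℤ) : ℂ) else 0)
  have hE : ∀ P : V × Fin d → ℂ, ∀ a, (E *ᵥ P) a =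
      ∑ i, (P (a.1.1, i) * ((p a.1.2 i : ℤ) : ℂ) + P (a.1.2, i) * ((p a.1.1 i : ℤ) : ℂ)) := by
    intro P a
    simp only [Matrix.mulVec, dotProduct, E, Fintype.sum_prod_type, add_mul, ite_mul, zero_mul]
    rw [sum_comm]
    refine sum_congr rfl fun i _ => ?_
    rw [sum_add_distrib, sum_ite_eq' univ a.1.1, sum_ite_eq' univ a.1.2]
    simp [mul_comm]
  have hinj : ∀ W : {a : V × V // le a.1 a.2 = true} → ℂ, Eᵀ *ᵥ W = 0 → W = 0 := by
    intro W hW
    let X : V × V → ℂ := fun a => if h : le a.1 a.2 = true then W ⟨a, h⟩ else 0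
    have hX0 : ∀ u v, le u v = false → X (u, v) = 0 := by
      intro u v h
      simp [X, h]
    have hsum : ∀ f : V × V → ℂ,
        ∑ a : {a : V × V // le a.1 a.2 = true}, f a.1 * W a = ∑ a : V × V, f a * X a := by
      intro f
      rw [← Fintype.sum_subtype_add_sum_subtype (p := fun a : V × V => le a.1 a.2 = true)]
      have h2 : ∑ a : {a : V × V // ¬ le a.1 a.2 = true}, f a.1 * X a.1 = 0 := by
        refine sum_eq_zero fun a _ => ?_
        have := hX0 a.1.1 a.1.2 (by simpa using a.2)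
        rw [this, mul_zero]
      rw [h2, add_zero]
      refine sum_congr rfl fun a _ => ?_
      have : X a.1 = W a := by simp [X, a.2]
      rw [this]
    have heq : ∀ z i, ∑ v, ((p v i : ℤ) : ℂ) * X (z, v) + ∑ u, ((p u i : ℤ) : ℂ) * X (u, z) = 0 := by
      intro z i
      have h1 := congrFun hW (z, i)
      have h2 : (Eᵀ *ᵥ W) (z, i) = ∑ a : {a : V × V // le a.1 a.2 = true},
          ((if z = a.1.1 then ((p a.1.2 i : ℤ) : ℂ) else 0) +
            (if z = a.1.2 then ((p a.1.1 i : ℤ) : ℂ) else 0)) * W a := rfl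
      rw [h2, hsum (fun a => (if z = a.1 then ((p a.2 i : ℤ) : ℂ) else 0) +
        (if z = a.2 then ((p a.1 i : ℤ) : ℂ) else 0))] at h1
      simp only [Fintype.sum_prod_type, add_mul, ite_mul, zero_mul, sum_add_distrib,
        Pi.zero_apply] at h1
      rw [← h1]
      congr 1
      · rw [sum_comm]
        refine sum_congr rfl fun v _ => ?_
        rw [sum_ite_eq univ z]
        simp
      · refine sum_congr rfl fun u _ => ?_
        rw [sum_ite_eq univ z]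
        simp
    have hz := Elim.run_sound (bitP N e) (bitP_injective N e he hN) X (N * N)
      (bitP_lt N e hN) (stressSteps vs le p st) ?_ 0 (by intro a ha; simp at ha) hrun
    · funext a
      have := hz a.1
      simpa [X, a.2] using this
    · intro s hs
      rw [stressSteps, List.mem_append] at hs
      rcases hs with hs | hs
      · simp only [List.mem_flatMap, List.mem_map, List.mem_filter] at hs
        obtain ⟨u, _, v, ⟨_, huv⟩, rfl⟩ := hs
        have := hX0 u v (by simpa using huv)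
        simp [this]
      · simp only [List.mem_map] at hs
        obtain ⟨s, _, rfl⟩ := hs
        have h3 := heq s.1.1 s.1.2
        rw [← list_sum_univ vs hnd hvs, ← list_sum_univ vs hnd hvs] at h3
        simp only [stressEq, List.map_append, List.map_map, List.sum_append]
        exact h3
  obtain ⟨B, hB⟩ := exists_left_inv Eᵀ hinj
  intro y
  have hEB : E * Bᵀ = 1 := by
    have := congrArg Matrix.transpose hB
    rwa [Matrix.transpose_mul, Matrix.transpose_transpose, Matrix.transpose_one] at this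
  refine ⟨fun v i => (Bᵀ *ᵥ fun a : {a : V × V // le a.1 a.2 = true} => y a.1.1 a.1.2) (v, i), ?_⟩
  intro u _ v _ huv
  have h1 := hE (Bᵀ *ᵥ fun a : {a : V × V // le a.1 a.2 = true} => y a.1.1 a.1.2)
    ⟨(u, v), (hle u v).1 huv⟩
  rw [Matrix.mulVec_mulVec, hEB, Matrix.one_mulVec] at h1
  exact h1.symm

namespace I1

/-- The vertices. -/
abbrev V : Type := Fin 2 × Fin 2 × Fin 2

/-- The number of a vertex. -/
def enc (v : V) : ℕ := (v.1 : ℕ) * 4 + (v.2.1 : ℕ) * 2 + (v.2.2 : ℕ)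

/-- The vertex of a number. -/
def dec (n : ℕ) : V := (Fin.ofNat 2 (n / 4), Fin.ofNat 2 (n / 2), Fin.ofNat 2 n)

/-- The coordinates. -/
def tab : List (List ℤ) :=
  [[1, 0, 0, 0, 0], [1, 1, 0, 0, 0], [1, 1, 0, 0, 0], [1, 0, 1, 0, 0], [0, 1, 0, 0, 0],
   [0, 0, 1, 0, 0], [0, 0, 0, 0, 1], [0, 0, 0, 1, 0]]

/-- The configuration. -/
def p (v : V) (i : Fin 5) : ℤ := (tab.getD (enc v) []).getD i 0

/-- The steps. -/
def st : List (ℕ × ℕ × ℕ × ℕ) :=
  [(0, 3, 0, 7), (0, 4, 0, 6), (1, 1, 1, 1), (1, 3, 1, 7), (2, 1, 2, 2), (2, 2, 2, 3),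
   (2, 3, 2, 7), (2, 4, 2, 6), (3, 1, 1, 3), (3, 2, 3, 3), (3, 3, 3, 7), (4, 0, 0, 4),
   (4, 1, 4, 4), (4, 2, 4, 5), (4, 3, 4, 7), (4, 4, 4, 6), (5, 1, 1, 5), (5, 2, 5, 5),
   (5, 3, 5, 7), (6, 3, 6, 7), (6, 4, 6, 6), (7, 3, 7, 7), (1, 0, 0, 1), (2, 0, 0, 2),
   (3, 0, 0, 3), (5, 0, 0, 5), (0, 0, 0, 0)]

/-- The steps in terms of the vertices. -/
def stV : List ((V × Fin 5) × (V × V)) :=
  st.map fun s => ((dec s.1, Fin.ofNat 5 s.2.1), (dec s.2.2.1, dec s.2.2.2))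

/-- The list of the vertices. -/
def vs : List V := (List.range 8).map dec

theorem dec_enc : ∀ v : V, dec (enc v) = v := by decide +kernel

theorem enc_lt : ∀ v : V, enc v < 8 := by decide +kernel

theorem vs_nodup : vs.Nodup := by decide +kernel

theorem mem_vs : ∀ v : V, v ∈ vs := by decide +kernel

theorem run_ok : Elim.run (bitP 8 enc) (2 ^ (8 * 8) - 1)
    (stressSteps vs (fun u v => decide (u ≤ v)) p stV) 0 = true := by decide +kernel

theorem ind : IndOn (fun α β : V => α ≤ β) univ (fun v i => ((p v i : ℤ) : ℂ)) :=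
  indOn_of_cert (fun α β => α ≤ β) vs vs_nodup mem_vs (fun u v => decide (u ≤ v))
    (fun u v => by simp) p enc (LeftInverse.injective dec_enc) 8 enc_lt stV run_ok

end I1

namespace I2

/-- The vertices. -/
abbrev V : Type := Fin 2 × Fin 2 × Fin 3

/-- The number of a vertex. -/
def enc (v : V) : ℕ := (v.1 : ℕ) * 6 + (v.2.1 : ℕ) * 3 + (v.2.2 : ℕ)

/-- The vertex of a number. -/
def dec (n : ℕ) : V := (Fin.ofNat 2 (n / 6), Fin.ofNat 2 (n / 3), Fin.ofNat 3 n)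

/-- The coordinates. -/
def tab : List (List ℤ) :=
  [[1, 0, 0, 0, 0, 0], [0, 1, 0, 0, 0, 0], [0, 0, 0, 0, 1, 1], [1, 1, 0, 0, 1, 0],
   [0, 0, 0, 0, 0, 1], [0, 0, 1, 0, 1, 0], [0, 0, 0, 0, 0, 1], [0, 0, 1, 0, 0, 0],
   [0, 0, 0, 1, 1, 0], [0, 0, 1, 0, 1, 0], [0, 0, 0, 1, 0, 0], [0, 0, 0, 0, 1, 0]]

/-- The configuration. -/
def p (v : V) (i : Fin 6) : ℤ := (tab.getD (enc v) []).getD i 0

/-- The steps. -/
def st : List (ℕ × ℕ × ℕ × ℕ) :=
  [(1, 0, 0, 1), (1, 1, 1, 1), (2, 0, 0, 2), (2, 1, 1, 2), (2, 2, 2, 5), (2, 3, 2, 8),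
   (2, 5, 2, 2), (3, 1, 3, 3), (3, 3, 3, 10), (3, 5, 3, 4), (4, 0, 0, 4), (4, 1, 1, 4),
   (4, 2, 4, 5), (4, 3, 4, 10), (4, 4, 4, 11), (4, 5, 4, 4), (5, 2, 5, 5), (6, 0, 0, 6),
   (6, 5, 6, 6), (7, 0, 0, 7), (7, 1, 1, 7), (7, 2, 7, 7), (7, 5, 6, 7), (8, 0, 0, 8),
   (8, 1, 1, 8), (8, 2, 7, 8), (8, 3, 8, 8), (8, 4, 8, 11), (8, 5, 6, 8), (9, 1, 3, 9),
   (9, 2, 9, 9), (9, 3, 9, 10), (9, 4, 9, 11), (9, 5, 6, 9), (10, 0, 0, 10), (10, 1, 1, 10),
   (10, 2, 7, 10), (10, 3, 10, 10), (10, 4, 10, 11), (10, 5, 6, 10), (0, 1, 0, 3),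
   (1, 2, 1, 5), (1, 4, 1, 11), (2, 4, 2, 11), (3, 2, 3, 5), (3, 4, 3, 11), (5, 0, 0, 5),
   (5, 4, 5, 11), (6, 4, 6, 11), (7, 4, 7, 11), (9, 0, 0, 9), (11, 0, 0, 11), (11, 4, 11, 11),
   (0, 0, 0, 0)]

/-- The steps in terms of the vertices. -/
def stV : List ((V × Fin 6) × (V × V)) :=
  st.map fun s => ((dec s.1, Fin.ofNat 6 s.2.1), (dec s.2.2.1, dec s.2.2.2))

/-- The list of the vertices. -/
def vs : List V := (List.range 12).map dec

theorem dec_enc : ∀ v : V, dec (enc v) = v := by decide +kernel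

theorem enc_lt : ∀ v : V, enc v < 12 := by decide +kernel

theorem vs_nodup : vs.Nodup := by decide +kernel

theorem mem_vs : ∀ v : V, v ∈ vs := by decide +kernel

theorem run_ok : Elim.run (bitP 12 enc) (2 ^ (12 * 12) - 1)
    (stressSteps vs (fun u v => decide (u ≤ v)) p stV) 0 = true := by decide +kernel

theorem ind : IndOn (fun α β : V => α ≤ β) univ (fun v i => ((p v i : ℤ) : ℂ)) :=
  indOn_of_cert (fun α β => α ≤ β) vs vs_nodup mem_vs (fun u v => decide (u ≤ v))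
    (fun u v => by simp) p enc (LeftInverse.injective dec_enc) 12 enc_lt stV run_ok

end I2

namespace I3

/-- The vertices. -/
abbrev V : Type := Fin 2 × Fin 2 × Fin 4

/-- The number of a vertex. -/
def enc (v : V) : ℕ := (v.1 : ℕ) * 8 + (v.2.1 : ℕ) * 4 + (v.2.2 : ℕ)

/-- The vertex of a number. -/
def dec (n : ℕ) : V := (Fin.ofNat 2 (n / 8), Fin.ofNat 2 (n / 4), Fin.ofNat 4 n)

/-- The coordinates. -/
def tab : List (List ℤ) :=
  [[1, 0, 0, 0, 0, 0, 0], [0, 1, 0, 0, 0, 0, 0], [1, 0, 1, 0, 1, 1, 0], [0, 1, 0, 1, 0, 0, 0],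
   [0, 0, 1, 0, 0, 0, 0], [0, 0, 0, 1, 0, 1, 0], [0, 0, 0, 0, 0, 0, 1], [0, 1, 0, 0, 1, 1, 0],
   [1, 1, 0, 1, 0, 1, 0], [0, 0, 1, 0, 0, 0, 0], [0, 0, 0, 1, 0, 0, 0], [0, 0, 0, 0, 0, 1, 1],
   [0, 1, 0, 0, 0, 0, 0], [0, 0, 0, 0, 1, 0, 1], [0, 0, 0, 0, 1, 0, 0], [0, 0, 0, 0, 0, 1, 0]]

/-- The configuration. -/
def p (v : V) (i : Fin 7) : ℤ := (tab.getD (enc v) []).getD i 0

/-- The steps. -/
def st : List (ℕ × ℕ × ℕ × ℕ) :=
  [(2, 2, 2, 2), (3, 2, 2, 3), (3, 3, 3, 3), (3, 4, 3, 7), (3, 6, 3, 11), (4, 0, 0, 4),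
   (4, 2, 4, 4), (4, 3, 4, 5), (5, 0, 0, 5), (5, 3, 5, 5), (6, 3, 5, 6), (6, 6, 6, 6),
   (7, 3, 5, 7), (7, 6, 6, 7), (8, 2, 8, 9), (9, 0, 0, 9), (9, 1, 1, 9), (9, 2, 9, 9),
   (9, 3, 9, 10), (10, 2, 2, 10), (10, 4, 10, 14), (10, 6, 10, 11), (11, 3, 8, 11),
   (11, 4, 2, 11), (11, 6, 11, 11), (12, 2, 4, 12), (12, 3, 8, 12), (12, 5, 12, 15),
   (12, 6, 12, 13), (13, 6, 13, 13), (0, 2, 0, 2), (1, 2, 1, 2), (2, 1, 2, 7), (2, 4, 2, 14),
   (2, 5, 2, 15), (2, 6, 2, 6), (3, 0, 0, 3), (3, 1, 1, 3), (3, 5, 3, 15), (4, 1, 4, 7),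
   (4, 5, 4, 15), (5, 1, 1, 5), (5, 5, 5, 15), (5, 6, 5, 13), (6, 0, 0, 6), (6, 1, 1, 6),
   (6, 2, 4, 6), (6, 4, 6, 14), (6, 5, 6, 15), (7, 0, 0, 7), (7, 4, 7, 7), (7, 5, 7, 15),
   (8, 1, 8, 8), (8, 3, 8, 10), (8, 5, 8, 15), (8, 6, 8, 13), (10, 0, 0, 10), (10, 1, 1, 10),
   (10, 3, 10, 10), (10, 5, 10, 15), (11, 0, 0, 11), (11, 1, 1, 11), (11, 2, 9, 11),
   (11, 5, 11, 15), (12, 0, 0, 12), (12, 1, 12, 12), (12, 4, 12, 14), (13, 0, 0, 13),
   (13, 1, 1, 13), (13, 4, 13, 14), (13, 5, 13, 15), (14, 4, 14, 14), (15, 0, 0, 15),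
   (15, 1, 1, 15), (15, 2, 9, 15), (15, 4, 14, 15), (15, 5, 15, 15), (0, 3, 0, 8),
   (0, 4, 0, 14), (1, 0, 0, 1), (1, 5, 1, 7), (4, 6, 4, 13), (5, 4, 5, 14), (8, 4, 8, 14),
   (9, 6, 9, 13), (14, 1, 1, 14), (0, 0, 0, 0), (1, 1, 1, 1), (4, 4, 4, 14), (9, 4, 9, 14)]

/-- The steps in terms of the vertices. -/
def stV : List ((V × Fin 7) × (V × V)) :=
  st.map fun s => ((dec s.1, Fin.ofNat 7 s.2.1), (dec s.2.2.1, dec s.2.2.2))

/-- The list of the vertices. -/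
def vs : List V := (List.range 16).map dec

theorem dec_enc : ∀ v : V, dec (enc v) = v := by decide +kernel

theorem enc_lt : ∀ v : V, enc v < 16 := by decide +kernel

theorem vs_nodup : vs.Nodup := by decide +kernel

theorem mem_vs : ∀ v : V, v ∈ vs := by decide +kernel

theorem run_ok : Elim.run (bitP 16 enc) (2 ^ (16 * 16) - 1)
    (stressSteps vs (fun u v => decide (u ≤ v)) p stV) 0 = true := by decide +kernel

theorem ind : IndOn (fun α β : V => α ≤ β) univ (fun v i => ((p v i : ℤ) : ℂ)) :=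
  indOn_of_cert (fun α β => α ≤ β) vs vs_nodup mem_vs (fun u v => decide (u ≤ v))
    (fun u v => by simp) p enc (LeftInverse.injective dec_enc) 16 enc_lt stV run_ok

end I3

theorem ind11 : StInd11 := by
  intro m h1 h3
  interval_cases m
  · exact ⟨_, I1.ind⟩
  · exact ⟨_, I2.ind⟩
  · exact ⟨_, I3.ind⟩

end Pool.Agent.Helper41.SV
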