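import Pool.Agent.Helper41.SV.Stmts
import Pool.Agent.Helper41.SV.Poly

/-!
Rigidity is a generic property.
-/

open Finset Function

noncomputable section

namespace Pool.Agent.Helper41.SV

open Matrix

section r1

variable {V : Type} [Fintype V] [DecidableEq V] (adj : V → V → Prop) (W : Finset V) {d : ℕ}

open Classical in
/-- The matrix of the motion equations, with the coordinates outside `W`. -/
def r1E (p : V → Fin d → ℂ) : Matrix ((V × V) ⊕ (V × Fin d)) (V × Fin d) ℂ :=
  fun r c => match r with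
    | Sum.inl e => if e.1 ∈ W ∧ e.2 ∈ W ∧ adj e.1 e.2 then
        (if c.1 = e.1 then p e.2 c.2 else 0) + (if c.1 = e.2 then p e.1 c.2 else 0) else 0
    | Sum.inr e => if e.1 ∉ W then (if c = e then 1 else 0) else 0

/-- The matrix of the trivial motions. -/
def r1O (p : V → Fin d → ℂ) : Matrix (V × Fin d) (Fin d × Fin d) ℂ :=
  fun r c => if r.1 ∈ W then
    (if c.1 = r.2 then p r.1 c.2 else 0) - (if c.2 = r.2 then p r.1 c.1 else 0) else 0

theorem r1E_inl (p : V → Fin d → ℂ) (P : V × Fin d → ℂ) (u v : V) (hu : u ∈ W) (hv : v ∈ W)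
    (h : adj u v) : (r1E adj W p *ᵥ P) (Sum.inl (u, v)) =
      ∑ i, (P (u, i) * p v i + P (v, i) * p u i) := by
  have h1 : ∀ c : V × Fin d, r1E adj W p (Sum.inl (u, v)) c * P c =
      (if c.1 = u then P c * p v c.2 else 0) + (if c.1 = v then P c * p u c.2 else 0) := by
    intro c
    simp only [r1E]
    rw [if_pos ⟨hu, hv, h⟩]
    split_ifs <;> ring
  simp only [Matrix.mulVec, dotProduct]
  rw [Finset.sum_congr rfl fun c _ => h1 c, Finset.sum_add_distrib, Fintype.sum_prod_type,
    Fintype.sum_prod_type, Finset.sum_eq_single u, Finset.sum_eq_single v,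
    ← Finset.sum_add_distrib]
  · simp
  · intro x _ hx
    simp [hx]
  · simp
  · intro x _ hx
    simp [hx]
  · simp

theorem r1E_inl' (p : V → Fin d → ℂ) (P : V × Fin d → ℂ) (u v : V)
    (h : ¬ (u ∈ W ∧ v ∈ W ∧ adj u v)) : (r1E adj W p *ᵥ P) (Sum.inl (u, v)) = 0 := by
  simp only [Matrix.mulVec, dotProduct]
  refine Finset.sum_eq_zero fun c _ => ?_
  simp only [r1E]
  rw [if_neg h, zero_mul]

theorem r1E_inr (p : V → Fin d → ℂ) (P : V × Fin d → ℂ) (e : V × Fin d) :
    (r1E adj W p *ᵥ P) (Sum.inr e) = if e.1 ∉ W then P e else 0 := by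
  simp only [Matrix.mulVec, dotProduct, r1E]
  by_cases h : e.1 ∈ W
  · simp [h]
  · simp only [h, not_false_eq_true, if_true]
    rw [Finset.sum_eq_single e]
    · simp
    · intro c _ hc
      simp [hc]
    · simp

omit [Fintype V] in
theorem r1O_apply (p : V → Fin d → ℂ) (A : Fin d × Fin d → ℂ) (v : V) (i : Fin d) (hv : v ∈ W) :
    (r1O W p *ᵥ A) (v, i) = ∑ j, (A (i, j) - A (j, i)) * p v j := by
  have h1 : ∀ c : Fin d × Fin d, r1O W p (v, i) c * A c =
      (if c.1 = i then A c * p v c.2 else 0) - (if c.2 = i then A c * p v c.1 else 0) := by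
    intro c
    simp only [r1O]
    rw [if_pos hv]
    split_ifs <;> ring
  have e1 : ∑ c : Fin d × Fin d, (if c.1 = i then A c * p v c.2 else 0) =
      ∑ j, A (i, j) * p v j := by
    rw [Fintype.sum_prod_type, Finset.sum_eq_single i]
    · simp
    · intro x _ hx
      simp [hx]
    · simp
  have e2 : ∑ c : Fin d × Fin d, (if c.2 = i then A c * p v c.1 else 0) =
      ∑ j, A (j, i) * p v j := by
    rw [Fintype.sum_prod_type_right, Finset.sum_eq_single i]
    · simp
    · intro x _ hx
      simp [hx]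
    · simp
  simp only [Matrix.mulVec, dotProduct]
  rw [Finset.sum_congr rfl fun c _ => h1 c, Finset.sum_sub_distrib, e1, e2,
    ← Finset.sum_sub_distrib]
  exact Finset.sum_congr rfl fun j _ => by ring

omit [Fintype V] in
theorem r1O_apply' (p : V → Fin d → ℂ) (A : Fin d × Fin d → ℂ) (v : V) (i : Fin d) (hv : v ∉ W) :
    (r1O W p *ᵥ A) (v, i) = 0 := by
  simp only [Matrix.mulVec, dotProduct]
  refine Finset.sum_eq_zero fun c _ => ?_
  simp only [r1O]
  rw [if_neg hv, zero_mul]

theorem r1_EO (p : V → Fin d → ℂ) : r1E adj W p * r1O W p = 0 := by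
  refine Matrix.ext_of_mulVec_single fun k => ?_
  rw [← Matrix.mulVec_mulVec, Matrix.zero_mulVec]
  set A : Fin d × Fin d → ℂ := Pi.single k 1
  funext r
  rw [Pi.zero_apply]
  rcases r with ⟨u, v⟩ | ⟨v, i⟩
  · by_cases h : u ∈ W ∧ v ∈ W ∧ adj u v
    · obtain ⟨hu, hv, ha⟩ := h
      rw [r1E_inl adj W p _ u v hu hv ha, Finset.sum_add_distrib]
      have e1 : ∑ i, (r1O W p *ᵥ A) (u, i) * p v i =
          ∑ i, ∑ j, (A (i, j) - A (j, i)) * p u j * p v i := by
        refine Finset.sum_congr rfl fun i _ => ?_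
        rw [r1O_apply W p A u i hu, Finset.sum_mul]
      have e2 : ∑ i, (r1O W p *ᵥ A) (v, i) * p u i =
          ∑ i, ∑ j, (A (j, i) - A (i, j)) * p u j * p v i := by
        rw [Finset.sum_comm]
        refine Finset.sum_congr rfl fun i _ => ?_
        rw [r1O_apply W p A v i hv, Finset.sum_mul]
        refine Finset.sum_congr rfl fun j _ => ?_
        ring
      rw [e1, e2, ← Finset.sum_add_distrib]
      refine Finset.sum_eq_zero fun i _ => ?_
      rw [← Finset.sum_add_distrib]
      refine Finset.sum_eq_zero fun j _ => ?_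
      ring
    · exact r1E_inl' adj W p _ u v h
  · rw [r1E_inr]
    by_cases h : v ∈ W
    · rw [if_neg (not_not.2 h)]
    · rw [if_pos h]
      exact r1O_apply' W p A v i h

theorem r1_ker (p : V → Fin d → ℂ) (h : RigOn adj W p) (P : V × Fin d → ℂ)
    (hP : r1E adj W p *ᵥ P = 0) : ∃ A, P = r1O W p *ᵥ A := by
  obtain ⟨A, hA, hA'⟩ := h (fun v i => P (v, i)) (fun u hu v hv ha => by
    rw [← r1E_inl adj W p P u v hu hv ha, hP, Pi.zero_apply])
  refine ⟨fun e => A e.1 e.2 / 2, ?_⟩
  funext ⟨v, i⟩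
  by_cases hv : v ∈ W
  · rw [r1O_apply W p _ v i hv]
    refine (hA' v hv i).trans (Finset.sum_congr rfl fun j _ => ?_)
    rw [hA j i]
    ring
  · rw [r1O_apply' W p _ v i hv]
    have := congrFun hP (Sum.inr (v, i))
    rw [r1E_inr, if_pos hv, Pi.zero_apply] at this
    exact this

omit [Fintype V] in
theorem r1E_isPoly (r : (V × V) ⊕ (V × Fin d)) (c : V × Fin d) :
    IsPoly (fun t : V × Fin d → ℂ => r1E adj W (curry t) r c) := by
  classical
  rcases r with e | e
  · simp only [r1E]
    exact ((IsPoly.ite (IsPoly.coord (e.2, c.2)) (IsPoly.const 0)).add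
      (IsPoly.ite (IsPoly.coord (e.1, c.2)) (IsPoly.const 0))).ite (IsPoly.const 0)
  · simp only [r1E]
    exact (IsPoly.ite (IsPoly.const 1) (IsPoly.const 0)).ite (IsPoly.const 0)

omit [Fintype V] in
theorem r1O_isPoly (r : V × Fin d) (c : Fin d × Fin d) :
    IsPoly (fun t : V × Fin d → ℂ => r1O W (curry t) r c) := by
  simp only [r1O]
  exact ((IsPoly.ite (IsPoly.coord (r.1, c.2)) (IsPoly.const 0)).sub
    (IsPoly.ite (IsPoly.coord (r.1, c.1)) (IsPoly.const 0))).ite (IsPoly.const 0)

end r1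

/-- Rigidity is a generic property. -/
theorem rigGen : StRigGen := by
  intro V _ _ adj W d p₀ h0
  classical
  obtain ⟨B, C, hBC⟩ := exists_split (r1E adj W p₀) (r1O W p₀) (r1_ker adj W p₀ h0)
  have hpoly : IsPoly (fun t : V × Fin d → ℂ =>
      (B * r1E adj W (curry t) + r1O W (curry t) * C).det) := by
    refine IsPoly.det fun i j => ?_
    simp only [Matrix.add_apply, Matrix.mul_apply]
    refine (IsPoly.sum _ fun k _ => (IsPoly.const _).mul (r1E_isPoly adj W k j)).add
      (IsPoly.sum _ fun k _ => (r1O_isPoly W i k).mul (IsPoly.const _))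
  have hne : (B * r1E adj W (curry (uncurry p₀)) + r1O W (curry (uncurry p₀)) * C).det ≠ 0 := by
    rw [curry_uncurry, hBC, Matrix.det_one]
    exact one_ne_zero
  refine (Gen.of_poly hpoly hne).mono fun t ht P hP => ?_
  set Q : V × Fin d → ℂ := fun e => if e.1 ∈ W then P e.1 e.2 else 0 with hQ
  have hQ0 : r1E adj W (curry t) *ᵥ Q = 0 := by
    funext r
    rw [Pi.zero_apply]
    rcases r with ⟨u, v⟩ | ⟨v, i⟩
    · by_cases h : u ∈ W ∧ v ∈ W ∧ adj u v
      · obtain ⟨hu, hv, ha⟩ := h
        rw [r1E_inl adj W _ _ u v hu hv ha]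
        have := hP u hu v hv ha
        rw [← this]
        refine Finset.sum_congr rfl fun i _ => ?_
        simp only [hQ]
        rw [if_pos hu, if_pos hv]
      · exact r1E_inl' adj W _ _ u v h
    · rw [r1E_inr]
      by_cases h : v ∈ W
      · rw [if_neg (not_not.2 h)]
      · rw [if_pos h]
        simp only [hQ]
        rw [if_neg h]
  obtain ⟨A, hA⟩ := exact_of_det (r1E adj W (curry t)) (r1O W (curry t)) B C
    (r1_EO adj W _) ht Q hQ0
  refine ⟨fun i j => A (i, j) - A (j, i), fun i j => by ring, fun v hv i => ?_⟩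
  have h1 := congrFun hA (v, i)
  rw [r1O_apply W _ A v i hv] at h1
  rw [← h1]
  simp only [hQ]
  rw [if_pos hv]

end Pool.Agent.Helper41.SV
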