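import Pool.Agent.Helper41.SV.Stmts
import Pool.Agent.Helper41.SV.Basic
import Pool.Agent.Helper41.SV.R1

/-!
Generic multilinear forms have only the Koszul syzygies in degree one (MP_f2a874_ag).
-/

open Finset Function

noncomputable section

namespace Pool.Agent.Helper41.SV

/-- Exactness is a generic property. -/
theorem gen_exact {σ v w a : Type} [Fintype v] [DecidableEq v] [Fintype w] [DecidableEq w]
    [Fintype a] [DecidableEq a] (E : (σ → ℂ) → Matrix w v ℂ) (Om : (σ → ℂ) → Matrix v a ℂ)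
    (hE : ∀ i j, IsPoly (fun t => E t i j)) (hO : ∀ i j, IsPoly (fun t => Om t i j))
    (h0 : ∀ t, E t * Om t = 0) (t₀ : σ → ℂ)
    (hex : ∀ P, Matrix.mulVec (E t₀) P = 0 → ∃ A, P = Matrix.mulVec (Om t₀) A) :
    Gen (fun t => ∀ P, Matrix.mulVec (E t) P = 0 → ∃ A, P = Matrix.mulVec (Om t) A) := by
  obtain ⟨B, C, hBC⟩ := exists_split (E t₀) (Om t₀) hex
  have hpoly : IsPoly (fun t : σ → ℂ => (B * E t + Om t * C).det) := by
    refine IsPoly.det fun i j => ?_
    simp only [Matrix.add_apply, Matrix.mul_apply]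
    exact (IsPoly.sum _ fun k _ => (IsPoly.const _).mul (hE k j)).add
      (IsPoly.sum _ fun k _ => (hO i k).mul (IsPoly.const _))
  have hne : (B * E t₀ + Om t₀ * C).det ≠ 0 := by
    rw [hBC, Matrix.det_one]
    exact one_ne_zero
  exact (Gen.of_poly hpoly hne).mono fun t ht P hP =>
    exact_of_det (E t) (Om t) B C (h0 t) ht P hP

section weights

variable {κ : Type} [Fintype κ] {K : ℕ}

/-- The sum of the coordinates. -/
def rk (α : κ → Fin K) : ℕ := ∑ j, (α j : ℕ)

/-- The weight. -/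
def kw (α : κ → Fin K) : ℕ := (Fintype.card κ * K) ^ 2 - rk α ^ 2

/-- The defect of modularity of the weight. -/
def ke (α β : κ → Fin K) : ℕ := 2 * ((rk α - rk (α ⊓ β)) * (rk β - rk (α ⊓ β)))

theorem rk_le (α : κ → Fin K) : rk α ≤ Fintype.card κ * K := by
  unfold rk
  calc ∑ j, (α j : ℕ) ≤ ∑ _j : κ, K := Finset.sum_le_sum fun j _ => (α j).isLt.le
    _ = Fintype.card κ * K := by simp

theorem rk_mono {α β : κ → Fin K} (h : α ≤ β) : rk α ≤ rk β :=
  Finset.sum_le_sum fun j _ => h j

theorem rk_inf_sup (α β : κ → Fin K) : rk (α ⊓ β) + rk (α ⊔ β) = rk α + rk β := by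
  unfold rk
  rw [← Finset.sum_add_distrib, ← Finset.sum_add_distrib]
  refine Finset.sum_congr rfl fun j _ => ?_
  simp only [Pi.inf_apply, Pi.sup_apply]
  rcases le_total (α j) (β j) with h | h
  · rw [inf_eq_left.2 h, sup_eq_right.2 h]
  · rw [inf_eq_right.2 h, sup_eq_left.2 h, add_comm]

theorem rk_eq_of_le {α β : κ → Fin K} (h : α ≤ β) (h' : rk α = rk β) : α = β := by
  have h1 := (Finset.sum_eq_sum_iff_of_le (s := univ) (f := fun j => (α j : ℕ))
    (g := fun j => (β j : ℕ)) (fun j _ => h j)).1 h'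
  funext j
  exact Fin.ext (h1 j (mem_univ j))

theorem kw_add (α β : κ → Fin K) :
    kw α + kw β = ke α β + (kw (α ⊓ β) + kw (α ⊔ β)) := by
  unfold kw ke
  have h1 := rk_inf_sup α β
  have h2 : rk (α ⊓ β) ≤ rk α := rk_mono inf_le_left
  have h3 : rk (α ⊓ β) ≤ rk β := rk_mono inf_le_right
  have h4 := rk_le (α ⊔ β)
  obtain ⟨x, hx⟩ := Nat.exists_eq_add_of_le h2
  obtain ⟨y, hy⟩ := Nat.exists_eq_add_of_le h3
  obtain ⟨M, hM⟩ : ∃ M, M = Fintype.card κ * K := ⟨_, rfl⟩
  rw [← hM] at h4 ⊢
  obtain ⟨a, ha⟩ : ∃ a, a = rk (α ⊓ β) := ⟨_, rfl⟩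
  rw [← ha] at hx hy h1 ⊢
  have hb : rk (α ⊔ β) = a + x + y := by omega
  rw [hb] at h4 ⊢
  rw [hx, hy]
  have e1 : a + x - a = x := by omega
  have e2 : a + y - a = y := by omega
  rw [e1, e2]
  have i1 : (a + x + y) ^ 2 ≤ M ^ 2 := Nat.pow_le_pow_left h4 2
  have i2 : (a + x) ^ 2 ≤ (a + x + y) ^ 2 := Nat.pow_le_pow_left (by omega) 2
  have i3 : (a + y) ^ 2 ≤ (a + x + y) ^ 2 := Nat.pow_le_pow_left (by omega) 2
  have i4 : a ^ 2 ≤ (a + x + y) ^ 2 := Nat.pow_le_pow_left (by omega) 2
  have i5 : a ^ 2 + (a + x + y) ^ 2 = (a + x) ^ 2 + (a + y) ^ 2 + 2 * (x * y) := by ring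
  omega

theorem ke_comm (α β : κ → Fin K) : ke α β = ke β α := by
  unfold ke
  rw [inf_comm β α, mul_comm (rk β - _)]

theorem ke_eq_zero {α β : κ → Fin K} : ke α β = 0 ↔ α ≤ β ∨ β ≤ α := by
  unfold ke
  have h2 : rk (α ⊓ β) ≤ rk α := rk_mono inf_le_left
  have h3 : rk (α ⊓ β) ≤ rk β := rk_mono inf_le_right
  constructor
  · intro h
    rcases mul_eq_zero.1 ((mul_eq_zero.1 h).resolve_left two_ne_zero) with h | h
    · left
      have : α ⊓ β = α := rk_eq_of_le inf_le_left (by omega)
      exact inf_eq_left.1 this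
    · right
      have : α ⊓ β = β := rk_eq_of_le inf_le_right (by omega)
      exact inf_eq_right.1 this
  · rintro (h | h)
    · rw [inf_eq_left.2 h]; simp
    · rw [inf_eq_right.2 h]; simp

end weights

section matrices

variable {κ : Type} [Fintype κ] [DecidableEq κ] {K d : ℕ}

/-- The monomial `s` is the product of the monomials `α` and `β`. -/
def Cmp (α β : κ → Fin K) (s : κ → Sym2 (Fin K)) : Prop := ∀ j, s(α j, β j) = s j

instance (α β : κ → Fin K) (s : κ → Sym2 (Fin K)) : Decidable (Cmp α β s) :=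
  inferInstanceAs (Decidable (∀ j, s(α j, β j) = s j))

/-- The monomial `s` is in the format. -/
def InF (n : κ → ℕ) (s : κ → Sym2 (Fin K)) : Prop := ∀ j, ∀ i ∈ s j, i ∈ low (K := K) n j

omit [Fintype κ] [DecidableEq κ] in
theorem Cmp.symm {α β : κ → Fin K} {s : κ → Sym2 (Fin K)} (h : Cmp α β s) : Cmp β α s := by
  intro j
  rw [Sym2.eq_swap]
  exact h j

omit [Fintype κ] [DecidableEq κ] in
theorem cmp_comm {α β : κ → Fin K} {s : κ → Sym2 (Fin K)} : Cmp α β s ↔ Cmp β α s :=
  ⟨Cmp.symm, Cmp.symm⟩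

omit [Fintype κ] [DecidableEq κ] in
theorem Cmp.inf_eq {α β : κ → Fin K} {s : κ → Sym2 (Fin K)} (h : Cmp α β s) :
    α ⊓ β = fun j => (s j).inf := by
  funext j
  rw [← h j]
  rfl

omit [Fintype κ] [DecidableEq κ] in
theorem Cmp.sup_eq {α β : κ → Fin K} {s : κ → Sym2 (Fin K)} (h : Cmp α β s) :
    α ⊔ β = fun j => (s j).sup := by
  funext j
  rw [← h j]
  rfl

omit [DecidableEq κ] [Fintype κ] in
theorem mem_low {n : κ → ℕ} {j : κ} {i : Fin K} : i ∈ low n j ↔ (i : ℕ) ≤ n j := by
  simp [low]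

theorem mem_box0 {n : κ → ℕ} {α : κ → Fin K} : α ∈ box 0 n ↔ ∀ j, α j ∈ low n j := by
  simp [box, low]

theorem Cmp.mem_left {n : κ → ℕ} {α β : κ → Fin K} {s : κ → Sym2 (Fin K)} (h : Cmp α β s)
    (hs : InF n s) : α ∈ box 0 n := by
  rw [mem_box0]
  intro j
  refine hs j _ ?_
  rw [← h j]
  exact Sym2.mem_mk_left _ _

open Classical in
/-- The matrix of the syzygy equations with weights `w`. -/
def kE (n : κ → ℕ) (w : (κ → Fin K) → (κ → Fin K) → ℂ) (p : (κ → Fin K) → Fin d → ℂ) :
    Matrix ((κ → Sym2 (Fin K)) ⊕ ((κ → Fin K) × Fin d)) ((κ → Fin K) × Fin d) ℂ :=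
  fun r c => match r with
    | Sum.inl s => if InF n s then
        ∑ β, (if Cmp c.1 β s then w c.1 β * p β c.2 else 0) else 0
    | Sum.inr e => if e.1 ∉ (box 0 n : Finset (κ → Fin K)) then (if c = e then 1 else 0) else 0

theorem kE_inl (n : κ → ℕ) (w : (κ → Fin K) → (κ → Fin K) → ℂ) (p : (κ → Fin K) → Fin d → ℂ)
    (P : (κ → Fin K) × Fin d → ℂ) {s : κ → Sym2 (Fin K)} (hs : InF n s) :
    Matrix.mulVec (kE n w p) P (Sum.inl s) =
      ∑ α, ∑ β, if Cmp α β s then w α β * ∑ a, P (α, a) * p β a else 0 := by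
  simp only [Matrix.mulVec, dotProduct, kE]
  rw [Fintype.sum_prod_type]
  refine Finset.sum_congr rfl fun α _ => ?_
  simp only [if_pos hs, Finset.sum_mul]
  rw [Finset.sum_comm]
  refine Finset.sum_congr rfl fun β _ => ?_
  by_cases h : Cmp α β s
  · simp only [if_pos h, Finset.mul_sum]
    exact Finset.sum_congr rfl fun a _ => by ring
  · simp only [if_neg h, zero_mul, Finset.sum_const_zero]

theorem kE_inl' (n : κ → ℕ) (w : (κ → Fin K) → (κ → Fin K) → ℂ) (p : (κ → Fin K) → Fin d → ℂ)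
    (P : (κ → Fin K) × Fin d → ℂ) {s : κ → Sym2 (Fin K)} (hs : ¬ InF n s) :
    Matrix.mulVec (kE n w p) P (Sum.inl s) = 0 := by
  simp only [Matrix.mulVec, dotProduct, kE]
  refine Finset.sum_eq_zero fun c _ => ?_
  rw [if_neg hs, zero_mul]

theorem kE_inr (n : κ → ℕ) (w : (κ → Fin K) → (κ → Fin K) → ℂ) (p : (κ → Fin K) → Fin d → ℂ)
    (P : (κ → Fin K) × Fin d → ℂ) (e : (κ → Fin K) × Fin d) :
    Matrix.mulVec (kE n w p) P (Sum.inr e) =
      if e.1 ∉ (box 0 n : Finset (κ → Fin K)) then P e else 0 := by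
  simp only [Matrix.mulVec, dotProduct, kE]
  by_cases h : e.1 ∈ (box 0 n : Finset (κ → Fin K))
  · simp [h]
  · simp only [h, not_false_eq_true, if_true]
    rw [Finset.sum_eq_single e]
    · simp
    · intro c _ hc
      simp [hc]
    · simp

theorem kE_mul (n : κ → ℕ) (w : (κ → Fin K) → (κ → Fin K) → ℂ) (hw : ∀ α β, w α β = w β α)
    (p : (κ → Fin K) → Fin d → ℂ) : kE n w p * r1O (box 0 n) p = 0 := by
  refine Matrix.ext_of_mulVec_single fun k => ?_
  rw [← Matrix.mulVec_mulVec, Matrix.zero_mulVec]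
  generalize (Pi.single k (1 : ℂ) : Fin d × Fin d → ℂ) = A
  funext r
  rw [Pi.zero_apply]
  rcases r with s | ⟨v, i⟩
  · by_cases hs : InF n s
    · rw [kE_inl n w p _ hs]
      have h1 : ∀ α β : κ → Fin K, (if Cmp α β s then w α β * ∑ a,
          Matrix.mulVec (r1O (box 0 n) p) A (α, a) * p β a else 0) =
          if Cmp α β s then w α β * ∑ a, ∑ b, (A (a, b) - A (b, a)) * p α b * p β a else 0 := by
        intro α β
        by_cases h : Cmp α β s
        · rw [if_pos h, if_pos h]
          congr 1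
          refine Finset.sum_congr rfl fun a _ => ?_
          rw [r1O_apply (box 0 n) p A α a (h.mem_left hs), Finset.sum_mul]
        · rw [if_neg h, if_neg h]
      simp only [h1]
      refine self_eq_neg.1 ?_
      conv_lhs => rw [Finset.sum_comm]
      rw [← Finset.sum_neg_distrib]
      refine Finset.sum_congr rfl fun α _ => ?_
      rw [← Finset.sum_neg_distrib]
      refine Finset.sum_congr rfl fun β _ => ?_
      by_cases h : Cmp α β s
      · rw [if_pos h, if_pos h.symm, hw β α, ← mul_neg]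
        congr 1
        rw [Finset.sum_comm, ← Finset.sum_neg_distrib]
        refine Finset.sum_congr rfl fun a _ => ?_
        rw [← Finset.sum_neg_distrib]
        exact Finset.sum_congr rfl fun b _ => by ring
      · rw [if_neg h, if_neg fun h' => h h'.symm, neg_zero]
    · exact kE_inl' n w p _ hs
  · rw [kE_inr]
    by_cases h : v ∈ (box 0 n : Finset (κ → Fin K))
    · rw [if_neg (not_not.2 h)]
    · rw [if_pos h]
      exact r1O_apply' (box 0 n) p A v i h

theorem kE_isPoly {σ : Type} (n : κ → ℕ) {w : (σ → ℂ) → (κ → Fin K) → (κ → Fin K) → ℂ}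
    {p : (σ → ℂ) → (κ → Fin K) → Fin d → ℂ} (hw : ∀ α β, IsPoly (fun t => w t α β))
    (hp : ∀ α a, IsPoly (fun t => p t α a))
    (r : (κ → Sym2 (Fin K)) ⊕ ((κ → Fin K) × Fin d)) (c : (κ → Fin K) × Fin d) :
    IsPoly (fun t => kE n (w t) (p t) r c) := by
  classical
  rcases r with s | e
  · simp only [kE]
    exact (IsPoly.sum _ fun β _ => ((hw _ _).mul (hp _ _)).ite (IsPoly.const 0)).ite
      (IsPoly.const 0)
  · simp only [kE]
    exact (IsPoly.ite (IsPoly.const 1) (IsPoly.const 0)).ite (IsPoly.const 0)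

theorem r1O_isPoly' {σ : Type} (n : κ → ℕ) {p : (σ → ℂ) → (κ → Fin K) → Fin d → ℂ}
    (hp : ∀ α a, IsPoly (fun t => p t α a)) (r : (κ → Fin K) × Fin d) (c : Fin d × Fin d) :
    IsPoly (fun t => r1O (box 0 n) (p t) r c) := by
  simp only [r1O]
  exact ((IsPoly.ite (hp _ _) (IsPoly.const 0)).sub
    (IsPoly.ite (hp _ _) (IsPoly.const 0))).ite (IsPoly.const 0)

/-- Exactness at the degenerate weights, from rigidity. -/
theorem kE_ker_zero (n : κ → ℕ) (p : (κ → Fin K) → Fin d → ℂ)
    (h : RigOn (fun α β => α ≤ β) (box 0 n) p) (P : (κ → Fin K) × Fin d → ℂ)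
    (hP : Matrix.mulVec (kE n (fun α β => (0 : ℂ) ^ ke α β) p) P = 0) :
    ∃ A, P = Matrix.mulVec (r1O (box 0 n) p) A := by
  obtain ⟨A, hA, hA'⟩ := h (fun v i => P (v, i)) (by
    intro u hu v hv huv
    rw [Finset.sum_add_distrib]
    set s : κ → Sym2 (Fin K) := fun j => s(u j, v j) with hs
    have hus : Cmp u v s := fun j => rfl
    have hsF : InF n s := by
      intro j i hi
      rw [mem_box0] at hu hv
      rcases Sym2.mem_iff.1 hi with rfl | rfl
      · exact hu j
      · exact hv j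
    have h1 := congrFun hP (Sum.inl s)
    rw [kE_inl n _ p P hsF, Pi.zero_apply] at h1
    set f : (κ → Fin K) × (κ → Fin K) → ℂ := fun c => ∑ a, P (c.1, a) * p c.2 a with hf
    have h2 : ∑ α, ∑ β, (if Cmp α β s then (0 : ℂ) ^ ke α β * ∑ a, P (α, a) * p β a else 0) =
        ∑ c ∈ ({(u, v), (v, u)} : Finset ((κ → Fin K) × (κ → Fin K))), f c := by
      rw [← Fintype.sum_prod_type' (f := fun α β =>
        (if Cmp α β s then (0 : ℂ) ^ ke α β * ∑ a, P (α, a) * p β a else 0))]
      rw [← Finset.sum_subset (Finset.subset_univ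
        ({(u, v), (v, u)} : Finset ((κ → Fin K) × (κ → Fin K))))]
      · refine Finset.sum_congr rfl fun c hc => ?_
        simp only [Finset.mem_insert, Finset.mem_singleton] at hc
        rcases hc with rfl | rfl
        · rw [if_pos hus, ke_eq_zero.2 (Or.inl huv), pow_zero, one_mul]
        · rw [if_pos hus.symm, ke_eq_zero.2 (Or.inr huv), pow_zero, one_mul]
      · rintro ⟨α, β⟩ _ hc
        by_cases h3 : Cmp α β s
        · rw [if_pos h3]
          have h4 : ke α β ≠ 0 := by
            intro h5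
            apply hc
            simp only [Finset.mem_insert, Finset.mem_singleton, Prod.mk.injEq]
            have h6 : α ⊓ β = u := by rw [h3.inf_eq, ← hus.inf_eq, inf_eq_left.2 huv]
            have h7 : α ⊔ β = v := by rw [h3.sup_eq, ← hus.sup_eq, sup_eq_right.2 huv]
            rcases ke_eq_zero.1 h5 with h8 | h8
            · left
              rw [inf_eq_left.2 h8] at h6
              rw [sup_eq_right.2 h8] at h7
              exact ⟨h6, h7⟩
            · right
              rw [inf_eq_right.2 h8] at h6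
              rw [sup_eq_left.2 h8] at h7
              exact ⟨h7, h6⟩
          rw [zero_pow h4, zero_mul]
        · rw [if_neg h3]
    rw [h2] at h1
    by_cases huv' : (u, v) = (v, u)
    · rw [← huv', Finset.pair_eq_singleton, Finset.sum_singleton] at h1
      obtain rfl : u = v := congrArg Prod.fst huv'
      change f (u, u) + f (u, u) = 0
      rw [h1, add_zero]
    · rw [Finset.sum_pair huv'] at h1
      exact h1)
  refine ⟨fun e => A e.1 e.2 / 2, ?_⟩
  funext ⟨v, i⟩
  by_cases hv : v ∈ (box 0 n : Finset (κ → Fin K))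
  · rw [r1O_apply (box 0 n) p _ v i hv]
    refine (hA' v hv i).trans (Finset.sum_congr rfl fun j _ => ?_)
    rw [hA j i]
    ring
  · rw [r1O_apply' (box 0 n) p _ v i hv]
    have := congrFun hP (Sum.inr (v, i))
    rw [kE_inr, if_pos hv, Pi.zero_apply] at this
    exact this

/-- Exactness at a nondegenerate point. -/
theorem kE_ker_one (n : κ → ℕ) (p : (κ → Fin K) → Fin d → ℂ) (ε : ℂ) (hε : ε ≠ 0)
    (h : ∀ P, Matrix.mulVec (kE n (fun α β => ε ^ ke α β) p) P = 0 →
      ∃ A, P = Matrix.mulVec (r1O (box 0 n) p) A)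
    (P : (κ → Fin K) × Fin d → ℂ)
    (hP : Matrix.mulVec (kE n (fun _ _ => 1) (fun α a => ε ^ kw α * p α a)) P = 0) :
    ∃ A, P = Matrix.mulVec (r1O (box 0 n) (fun α a => ε ^ kw α * p α a)) A := by
  obtain ⟨A, hA⟩ := h (fun e => (ε ^ kw e.1)⁻¹ * P e) (by
    funext r
    rw [Pi.zero_apply]
    rcases r with s | e
    · by_cases hs : InF n s
      · rw [kE_inl n _ p _ hs]
        have h1 := congrFun hP (Sum.inl s)
        rw [kE_inl n _ _ P hs, Pi.zero_apply] at h1
        set C : ℂ := ε ^ (kw (fun j => (s j).inf) + kw (fun j => (s j).sup)) with hC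
        have hC0 : C ≠ 0 := pow_ne_zero _ hε
        refine (mul_eq_zero.1 (?_ : C * _ = 0)).resolve_left hC0
        refine Eq.trans ?_ h1
        rw [Finset.mul_sum]
        refine Finset.sum_congr rfl fun α _ => ?_
        rw [Finset.mul_sum]
        refine Finset.sum_congr rfl fun β _ => ?_
        by_cases h3 : Cmp α β s
        · rw [if_pos h3, if_pos h3, one_mul, Finset.mul_sum, Finset.mul_sum]
          refine Finset.sum_congr rfl fun a _ => ?_
          have h4 : C * ε ^ ke α β = ε ^ kw α * ε ^ kw β := by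
            rw [hC, ← h3.inf_eq, ← h3.sup_eq, ← pow_add, ← pow_add, kw_add α β]
            congr 1
            ring
          have h5 : ε ^ kw α ≠ 0 := pow_ne_zero _ hε
          calc C * (ε ^ ke α β * ((ε ^ kw α)⁻¹ * P (α, a) * p β a))
              = (C * ε ^ ke α β) * ((ε ^ kw α)⁻¹ * P (α, a) * p β a) := by ring
            _ = P (α, a) * (ε ^ kw β * p β a) := by
              rw [h4]
              field_simp
        · rw [if_neg h3, if_neg h3, mul_zero]
      · exact kE_inl' n _ p _ hs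
    · rw [kE_inr]
      have h1 := congrFun hP (Sum.inr e)
      rw [kE_inr, Pi.zero_apply] at h1
      by_cases he : e.1 ∈ (box 0 n : Finset (κ → Fin K))
      · rw [if_neg (not_not.2 he)]
      · rw [if_pos he] at h1 ⊢
        rw [h1, mul_zero])
  refine ⟨A, ?_⟩
  funext ⟨v, i⟩
  have h1 := congrFun hA (v, i)
  have h2 : P (v, i) = ε ^ kw v * Matrix.mulVec (r1O (box 0 n) p) A (v, i) := by
    rw [← h1]
    have h5 : ε ^ kw v ≠ 0 := pow_ne_zero _ hε
    change P (v, i) = ε ^ kw v * ((ε ^ kw v)⁻¹ * P (v, i))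
    field_simp
  rw [h2]
  by_cases hv : v ∈ (box 0 n : Finset (κ → Fin K))
  · rw [r1O_apply (box 0 n) p _ v i hv, r1O_apply (box 0 n) _ _ v i hv, Finset.mul_sum]
    exact Finset.sum_congr rfl fun j _ => by ring
  · rw [r1O_apply' (box 0 n) p _ v i hv, r1O_apply' (box 0 n) _ _ v i hv, mul_zero]

end matrices

/-- Generic multilinear forms have only the Koszul syzygies in degree one. -/
theorem kos : StKos := by
  intro κ _ _ K d n hp
  obtain ⟨p, hp⟩ := hp
  -- a nonzero parameter
  have hg1 : Gen (fun t : Unit → ℂ => ∀ P, Matrix.mulVec (kE n (fun α β => t () ^ ke α β) p) P = 0 →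
      ∃ A, P = Matrix.mulVec (r1O (box 0 n) p) A) := by
    refine gen_exact (fun t : Unit → ℂ => kE n (fun α β => t () ^ ke α β) p)
      (fun _ => r1O (box 0 n) p) ?_ ?_ ?_ (fun _ => 0) (kE_ker_zero n p hp)
    · intro i j
      exact kE_isPoly n (w := fun t α β => t () ^ ke α β) (p := fun _ => p)
        (fun α β => (IsPoly.coord ()).pow _) (fun α a => IsPoly.const _) i j
    · intro i j
      exact IsPoly.const _
    · intro t
      exact kE_mul n _ (fun α β => by rw [ke_comm]) p
  obtain ⟨ε, hε, h1⟩ := hg1.exists_unit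
  have h2 := kE_ker_one n p ε hε h1
  -- the general point
  have hg2 : Gen (fun t : Fin d × (κ → Fin K) → ℂ =>
      ∀ P, Matrix.mulVec (kE n (fun _ _ => 1) (fun α a => t (a, α))) P = 0 →
      ∃ A, P = Matrix.mulVec (r1O (box 0 n) (fun α a => t (a, α))) A) := by
    refine gen_exact (fun t : Fin d × (κ → Fin K) → ℂ =>
      kE n (fun _ _ => 1) (fun α a => t (a, α)))
      (fun t => r1O (box 0 n) (fun α a => t (a, α))) ?_ ?_ ?_
      (fun e => ε ^ kw e.2 * p e.2 e.1) h2
    · intro i j
      exact kE_isPoly n (w := fun _ _ _ => 1) (p := fun t α a => t (a, α))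
        (fun α β => IsPoly.const _) (fun α a => IsPoly.coord _) i j
    · intro i j
      exact r1O_isPoly' n (p := fun t α a => t (a, α)) (fun α a => IsPoly.coord _) i j
    · intro t
      exact kE_mul n _ (fun α β => rfl) _
  refine hg2.mono fun t ht P hsupp hP => ?_
  have h3 : Matrix.mulVec (kE n (fun _ _ => 1) (fun α a => t (a, α)))
      (fun e : (κ → Fin K) × Fin d => P e.2 e.1) = 0 := by
    funext r
    rw [Pi.zero_apply]
    rcases r with s | e
    · by_cases hs : InF n s
      · rw [kE_inl n _ _ _ hs]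
        have h4 : ∀ x, SuppX (low n) x →
            evS (fun s => ∑ a, mulS (P a) (curry t a) s) x = 0 := by
          intro x hx
          rw [evS_sum]
          simp only [evS_mulS]
          exact hP x hx
        have h5 := evS_eq_zero h4 s hs
        refine Eq.trans ?_ h5
        simp only [mulS]
        symm
        rw [Finset.sum_comm]
        refine Finset.sum_congr rfl fun α _ => ?_
        rw [Finset.sum_comm]
        refine Finset.sum_congr rfl fun β _ => ?_
        by_cases h : Cmp α β s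
        · rw [if_pos h, one_mul]
          exact Finset.sum_congr rfl fun a _ => if_pos h
        · rw [if_neg h]
          exact Finset.sum_eq_zero fun a _ => if_neg h
      · exact kE_inl' n _ _ _ hs
    · rw [kE_inr]
      by_cases he : e.1 ∈ (box 0 n : Finset (κ → Fin K))
      · rw [if_neg (not_not.2 he)]
      · rw [if_pos he]
        rw [mem_box0] at he
        push Not at he
        exact hsupp e.2 e.1 he
  obtain ⟨A, hA⟩ := ht _ h3
  refine ⟨fun a b => A (a, b) - A (b, a), fun a b => by ring, fun a α hα => ?_⟩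
  have h6 := congrFun hA (α, a)
  rw [r1O_apply (box 0 n) _ A α a (mem_box0.2 hα)] at h6
  exact h6

end Pool.Agent.Helper41.SV
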