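import Pool.Agent.Helper41.SV.Basic
import Pool.Agent.Helper41.SV.Stmts

/-!
The kernel lemma.
-/

open Finset Function

noncomputable section

set_option linter.unusedSectionVars false

namespace Pool.Agent.Helper41.SV

section

variable {κ ι : Type} [Fintype κ] [DecidableEq κ] [Fintype ι] [DecidableEq ι]

theorem mem_del {I : κ → Finset ι} {o : κ → ι} {S : Finset κ} {m : κ} {i : ι} :
    i ∈ del I o S m ↔ i ∈ I m ∧ (m ∈ S → i ≠ o m) := by
  simp only [del]
  split_ifs with h
  · rw [Finset.mem_erase]
    exact ⟨fun h' => ⟨h'.2, fun _ => h'.1⟩, fun h' => ⟨h'.2 h, h'.1⟩⟩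
  · exact ⟨fun h' => ⟨h', fun h'' => absurd h'' h⟩, fun h' => h'.1⟩

theorem del_anti {I : κ → Finset ι} {o : κ → ι} {S S' : Finset κ} (h : S ⊆ S') (m : κ) :
    del I o S' m ⊆ del I o S m := by
  intro i hi
  rw [mem_del] at hi ⊢
  exact ⟨hi.1, fun hm => hi.2 (h hm)⟩

theorem del_nonempty {I : κ → Finset ι} {o : κ → ι} {S : Finset κ} (ho : ∀ m, o m ∈ I m)
    (hS : ∀ m ∈ S, 2 ≤ (I m).card) (m : κ) : ∃ i, i ∈ del I o S m := by
  by_cases hm : m ∈ S
  · obtain ⟨i, hi, hne⟩ := Finset.exists_mem_ne (hS m hm) (o m)
    exact ⟨i, mem_del.2 ⟨hi, fun _ => hne⟩⟩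
  · exact ⟨o m, mem_del.2 ⟨ho m, fun h => absurd h hm⟩⟩

theorem soG_sub (A B : κ → ι → ι → ℂ) {r : ℕ} (T : Fin r → (κ → ι) → ℂ) (x : κ → ι → ℂ) :
    soG (A - B) T x = soG A T x - soG B T x := by
  simp only [soG_eq, ← Finset.sum_sub_distrib, ← sub_mul]
  rfl

/-- An antisymmetric array supported in `I` is its own sharp, up to a factor. -/
theorem sharp_half {I : κ → Finset ι} {B : κ → ι → ι → ℂ} (hB : ∀ j a b, B j a b = - B j b a)
    (hI : ∀ j a b, a ∉ I j → B j a b = 0) :
    sharp I (fun j a b => B j a b / 2) = B := by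
  funext j a b
  simp only [sharp]
  split_ifs with h
  · rw [hB j b a]; ring
  · by_cases ha : a ∈ I j
    · have hb : b ∉ I j := fun hb => h ⟨ha, hb⟩
      rw [hB, hI j b a hb, neg_zero]
    · rw [hI j a b ha]

/-- The step (a). -/
theorem kl_step {I : κ → Finset ι} {o : κ → ι} {r : ℕ} {H : Fin r → (κ → ι) → ℂ}
    (ho : ∀ m, o m ∈ I m) {j l : κ} (hjl : j ≠ l) (hj : 2 ≤ (I j).card) (hl : 2 ≤ (I l).card)
    {S : Set (κ → ι → ℂ)}
    (hS : ∀ x ∈ S, SuppX (del I o {j, l}) x ∧
        (∃ lam : κ → ℂ, ∀ m, ∀ i ∈ del I o {j, l} m, dG H x m i = lam m * x m i) ∧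
        dG H x l (o l) ≠ 0)
    (hU : ∀ t, SuppU (del I o {j, l}) t → (∀ x ∈ S, ev t x = 0) → t = 0)
    (A : κ → ι → ι → ℂ)
    (hA : ∀ x ∈ S, soG (sharp (del I o {j}) A) H x = 0) (b : ι) :
    sharp (del I o {j}) A l (o l) b = 0 := by
  set B := sharp (del I o {j}) A with hB
  have hanti : ∀ m a b, B m a b = - B m b a := fun m a b => sharp_anti _ A m a b
  -- the linear relation
  have key : ∀ x ∈ S, ∑ b, B l (o l) b * x l b = 0 := by
    intro x hx
    obtain ⟨hsx, ⟨lam, hlam⟩, hne⟩ := hS x hx
    have hxo : x l (o l) = 0 := by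
      refine hsx l (o l) fun h => ?_
      exact (mem_del.1 h).2 (by simp) rfl
    have h1 := hA x hx
    rw [soG_eq] at h1
    have h2 : ∀ m, m ≠ l → ∑ i, (∑ b, B m i b * x m b) * dG H x m i = 0 := by
      intro m hm
      have h3 : ∀ i, (∑ b, B m i b * x m b) * dG H x m i =
          lam m * ((∑ b, B m i b * x m b) * x m i) := by
        intro i
        by_cases hi : i ∈ del I o {j, l} m
        · rw [hlam m i hi]; ring
        · have hi' : i ∉ del I o {j} m := by
            intro h
            rw [mem_del] at h
            refine hi (mem_del.2 ⟨h.1, fun h' => h.2 ?_⟩)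
            rw [Finset.mem_insert, Finset.mem_singleton] at h'
            rw [Finset.mem_singleton]
            rcases h' with h' | h'
            · exact h'
            · exact absurd h' hm
          have : ∑ b, B m i b * x m b = 0 :=
            Finset.sum_eq_zero fun b _ => by rw [hB, sharp_left A hi', zero_mul]
          rw [this]; ring
      simp only [h3]
      rw [← Finset.mul_sum, anti_quad (hanti m), mul_zero]
    rw [Finset.sum_eq_single l (fun m _ hm => h2 m hm) (fun h => absurd (mem_univ _) h)] at h1
    have h4 : ∀ i, (∑ b, B l i b * x l b) * dG H x l i =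
        lam l * ((∑ b, B l i b * x l b) * x l i) +
          (if i = o l then (∑ b, B l i b * x l b) * dG H x l i else 0) := by
      intro i
      by_cases hio : i = o l
      · subst hio
        rw [if_pos rfl, hxo]; ring
      · rw [if_neg hio, add_zero]
        by_cases hi : i ∈ I l
        · rw [hlam l i (mem_del.2 ⟨hi, fun _ => hio⟩)]; ring
        · have hi' : i ∉ del I o {j} l := fun h => hi (mem_del.1 h).1
          have : ∑ b, B l i b * x l b = 0 :=
            Finset.sum_eq_zero fun b _ => by rw [hB, sharp_left A hi', zero_mul]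
          rw [this]; ring
    rw [Finset.sum_congr rfl fun i _ => h4 i, Finset.sum_add_distrib, ← Finset.mul_sum,
      anti_quad (hanti l), mul_zero, zero_add, Finset.sum_ite_eq' univ (o l),
      if_pos (mem_univ _)] at h1
    exact (mul_eq_zero.1 h1).resolve_right hne
  -- the test form
  have hcard : ∀ m ∈ ({j, l} : Finset κ), 2 ≤ (I m).card := by
    intro m hm
    rw [Finset.mem_insert, Finset.mem_singleton] at hm
    rcases hm with rfl | rfl
    · exact hj
    · exact hl
  choose c hc using fun m => del_nonempty (o := o) ho hcard m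
  let t : (κ → ι) → ℂ := fun α => if (∀ m, m ≠ l → α m = c m) then B l (o l) (α l) else 0
  have ht1 : SuppU (del I o {j, l}) t := by
    rintro α ⟨m, hm⟩
    simp only [t]
    split_ifs with h
    · by_cases hml : m = l
      · subst hml
        by_cases hαo : α m = o m
        · rw [hαo]
          have := hanti m (o m) (o m)
          exact self_eq_neg.1 this
        · have : α m ∉ del I o {j} m := by
            intro h'
            exact hm (mem_del.2 ⟨(mem_del.1 h').1, fun _ => hαo⟩)
          rw [hB, sharp_right A this]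
      · exact absurd (hc m) (by rw [← h m hml]; exact hm)
    · rfl
  have ht2 : ∀ x ∈ S, ev t x = 0 := by
    intro x hx
    have h1 : ev t x = (∏ m ∈ univ.erase l, x m (c m)) * ∑ b, B l (o l) b * x l b := by
      simp only [ev]
      rw [← Finset.sum_filter_add_sum_filter_not univ (fun α : κ → ι => ∀ m, m ≠ l → α m = c m)]
      have h2 : ∑ α ∈ univ.filter (fun α : κ → ι => ¬ ∀ m, m ≠ l → α m = c m),
          t α * ∏ m, x m (α m) = 0 := by
        refine Finset.sum_eq_zero fun α hα => ?_
        simp only [t]
        rw [if_neg (mem_filter.1 hα).2, zero_mul]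
      rw [h2, add_zero, Finset.mul_sum]
      refine Finset.sum_bij' (fun α _ => α l) (fun b _ => update c l b) ?_ ?_ ?_ ?_ ?_
      · intro α _; exact mem_univ _
      · intro b _
        rw [mem_filter]
        exact ⟨mem_univ _, fun m hm => update_of_ne hm _ _⟩
      · intro α hα
        funext m
        by_cases hm : m = l
        · subst hm; rw [update_self]
        · rw [update_of_ne hm]; exact ((mem_filter.1 hα).2 m hm).symm
      · intro b _; simp
      · intro α hα
        simp only [t]
        rw [if_pos (mem_filter.1 hα).2, ← Finset.mul_prod_erase univ _ (mem_univ l)]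
        have h3 : ∏ m ∈ univ.erase l, x m (α m) = ∏ m ∈ univ.erase l, x m (c m) :=
          Finset.prod_congr rfl fun m hm => by
            rw [(mem_filter.1 hα).2 m (Finset.ne_of_mem_erase hm)]
        rw [h3]; ring
    rw [h1, key x hx, mul_zero]
  have ht := hU t ht1 ht2
  have h5 := congrFun ht (update c l b)
  simp only [t, Pi.zero_apply] at h5
  rw [if_pos (fun m hm => update_of_ne hm _ _), update_self] at h5
  exact h5

/-- The multilinear part: `2 * actU (sharp I A) (Pi.single o 1)`. -/
theorem actU_basis {I : κ → Finset ι} {o : κ → ι} (Q : (κ → ι) → ℂ) (hQ : SuppU I Q)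
    (hQo : Q o = 0)
    (hQ2 : ∀ α j l, j ≠ l → α j ≠ o j → α l ≠ o l → Q α = 0) (A : κ → ι → ι → ℂ)
    (hA : ∀ j b, b ∈ I j → b ≠ o j → sharp I A j (o j) b = Q (update o j b) / 2) :
    Q = fun α => 2 * actU (sharp I A) (Pi.single o 1) α := by
  funext β
  simp only [actU]
  by_cases h0 : β = o
  · subst h0
    rw [hQo]
    have : ∀ j, ∑ a, (Pi.single β (1 : ℂ) : (κ → ι) → ℂ) (update β j a) *
        sharp I A j a (β j) = 0 := by
      intro j
      refine Finset.sum_eq_zero fun a _ => ?_
      by_cases ha : a = β j
      · have h1 : sharp I A j a (β j) = 0 := by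
          rw [ha]
          exact self_eq_neg.1 (sharp_anti I A j _ _)
        rw [h1, mul_zero]
      · rw [Pi.single_eq_of_ne, zero_mul]
        intro h
        exact ha (by simpa using congrFun h j)
    simp [this]
  · obtain ⟨j, hj⟩ := Function.ne_iff.1 h0
    by_cases h2 : ∃ l, l ≠ j ∧ β l ≠ o l
    · obtain ⟨l, hlj, hl⟩ := h2
      rw [hQ2 β j l hlj.symm hj hl]
      have : ∀ m, ∑ a, (Pi.single o (1 : ℂ) : (κ → ι) → ℂ) (update β m a) *
          sharp I A m a (β m) = 0 := by
        intro m
        refine Finset.sum_eq_zero fun a _ => ?_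
        rw [Pi.single_eq_of_ne, zero_mul]
        intro h
        by_cases hm : m = j
        · have := congrFun h l
          rw [update_of_ne (by rw [hm]; exact hlj)] at this
          exact hl this
        · have := congrFun h j
          rw [update_of_ne (Ne.symm hm)] at this
          exact hj this
      simp [this]
    · push Not at h2
      have hβ : β = update o j (β j) := by
        funext m
        by_cases hm : m = j
        · subst hm; rw [update_self]
        · rw [update_of_ne hm]; exact h2 m hm
      have h3 : ∀ m, m ≠ j → ∑ a, (Pi.single o (1 : ℂ) : (κ → ι) → ℂ) (update β m a) *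
          sharp I A m a (β m) = 0 := by
        intro m hm
        refine Finset.sum_eq_zero fun a _ => ?_
        rw [Pi.single_eq_of_ne, zero_mul]
        intro h
        have := congrFun h j
        rw [update_of_ne (Ne.symm hm)] at this
        exact hj this
      rw [Finset.sum_eq_single j (fun m _ hm => h3 m hm) (fun h => absurd (mem_univ _) h)]
      rw [Finset.sum_eq_single (o j)]
      · have h4 : update β j (o j) = o := by
          funext m
          by_cases hm : m = j
          · subst hm; rw [update_self]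
          · rw [update_of_ne hm]; exact h2 m hm
        rw [h4, Pi.single_eq_same, one_mul]
        by_cases hI : β j ∈ I j
        · rw [hA j (β j) hI hj, ← hβ]; ring
        · rw [sharp_right A hI, mul_zero]
          exact hQ β ⟨j, hI⟩
      · intro a _ ha
        rw [Pi.single_eq_of_ne, zero_mul]
        intro h
        exact ha (by simpa using congrFun h j)
      · intro h; exact absurd (mem_univ _) h

end

theorem kl : StKL := by
  intro κ ι _ _ _ _ I o r H P1 P2 ho hyp1 hyp2 R Q hRI hRo hQI hQo hR1 hRQ2
  -- the arrays `A j`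
  have hex : ∀ j, 2 ≤ (I j).card → ∃ A : κ → ι → ι → ℂ, ∀ x, SuppX (del I o {j}) x →
      evS R x = soG (sharp (del I o {j}) A) H x := by
    intro j hj
    obtain ⟨hP1, hP⟩ := hyp1 j hj
    obtain ⟨A, hA⟩ := hP (cutS (del I o {j}) R) (suppS_cutS _ _) fun x hx => by
      rw [evS_cutS R (hP1 x hx)]
      exact hR1 j hj x hx
    exact ⟨A, fun x hx => by rw [← evS_cutS R hx]; exact hA x hx⟩
  -- (a)
  have hI1 : ∀ m, ¬ 2 ≤ (I m).card → ∀ a, a ∈ I m → a = o m := by
    intro m hm a ha
    exact Finset.card_le_one.1 (by omega) a ha (o m) (ho m)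
  have hsubX : ∀ j l (x : κ → ι → ℂ), SuppX (del I o {j, l}) x → SuppX (del I o {j}) x := by
    intro j l x hx
    exact suppX_mono (del_anti (Finset.singleton_subset_iff.2 (Finset.mem_insert_self _ _))) hx
  have hsubX' : ∀ j l (x : κ → ι → ℂ), SuppX (del I o {j, l}) x → SuppX (del I o {l}) x := by
    intro j l x hx
    exact suppX_mono (del_anti (Finset.singleton_subset_iff.2
      (Finset.mem_insert_of_mem (Finset.mem_singleton_self _)))) hx
  have hoff : ∀ j, 2 ≤ (I j).card → ∀ A : κ → ι → ι → ℂ, (∀ x, SuppX (del I o {j}) x →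
      evS R x = soG (sharp (del I o {j}) A) H x) → ∀ m a b, a ∉ del I o univ m →
      sharp (del I o {j}) A m a b = 0 := by
    intro j hj A hA m a b ha
    by_cases haI : a ∈ I m
    · have hao : a = o m := by
        by_contra h
        exact ha (mem_del.2 ⟨haI, fun _ => h⟩)
      subst hao
      by_cases hmj : m = j
      · subst hmj
        refine sharp_left A (fun h => ?_) b
        exact (mem_del.1 h).2 (Finset.mem_singleton_self _) rfl
      · by_cases hm : 2 ≤ (I m).card
        · obtain ⟨h1, h2, _⟩ := hyp2 j m (Ne.symm hmj) hj hm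
          refine kl_step (H := H) ho (Ne.symm hmj) hj hm (S := P2 j m) ?_ h2 A ?_ b
          · intro x hx
            obtain ⟨g1, g2, g3, g4⟩ := h1 x hx
            exact ⟨g1, g2, g4⟩
          · intro x hx
            rw [← hA x (hsubX j m x (h1 x hx).1)]
            exact (hRQ2 j m (Ne.symm hmj) hj hm x hx).1
        · by_cases hb : b ∈ I m
          · rw [hI1 m hm b hb]
            exact self_eq_neg.1 (sharp_anti _ A m _ _)
          · exact sharp_right A (fun h => hb (mem_del.1 h).1) _
    · exact sharp_left A (fun h => haI (mem_del.1 h).1) _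
  -- (b) the arrays agree
  have hagree : ∀ j l, j ≠ l → 2 ≤ (I j).card → 2 ≤ (I l).card → ∀ A A' : κ → ι → ι → ℂ,
      (∀ x, SuppX (del I o {j}) x → evS R x = soG (sharp (del I o {j}) A) H x) →
      (∀ x, SuppX (del I o {l}) x → evS R x = soG (sharp (del I o {l}) A') H x) →
      sharp (del I o {j}) A = sharp (del I o {l}) A' := by
    intro j l hjl hj hl A A' hA hA'
    obtain ⟨_, _, hfree⟩ := hyp2 j l hjl hj hl
    set B := sharp (del I o {j}) A - sharp (del I o {l}) A' with hBdef
    have hB1 : ∀ m a b, B m a b = - B m b a := by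
      intro m a b
      simp only [hBdef, Pi.sub_apply]
      rw [sharp_anti _ A m a b, sharp_anti _ A' m a b]; ring
    have hB2 : ∀ m a b, a ∉ del I o {j, l} m → B m a b = 0 := by
      intro m a b ha
      have ha' : a ∉ del I o univ m := fun h => ha (del_anti (Finset.subset_univ _) m h)
      simp only [hBdef, Pi.sub_apply]
      rw [hoff j hj A hA m a b ha', hoff l hl A' hA' m a b ha', sub_zero]
    have hsh := sharp_half hB1 hB2
    have h1 := hfree (fun m a b => B m a b / 2) fun x hx => by
      rw [hsh, hBdef, soG_sub, ← hA x (hsubX j l x hx), ← hA' x (hsubX' j l x hx), sub_self]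
    rw [hsh] at h1
    exact sub_eq_zero.1 h1
  -- the common array
  obtain ⟨B, hB1, hB2, hB3⟩ : ∃ B : κ → ι → ι → ℂ, (∀ m a b, B m a b = - B m b a) ∧
      (∀ m a b, a ∉ del I o univ m → B m a b = 0) ∧
      ∀ j, 2 ≤ (I j).card → ∀ x, SuppX (del I o {j}) x → evS R x = soG B H x := by
    by_cases hJ : ∃ j, 2 ≤ (I j).card
    · obtain ⟨j, hj⟩ := hJ
      obtain ⟨A, hA⟩ := hex j hj
      refine ⟨sharp (del I o {j}) A, fun m a b => sharp_anti _ A m a b, hoff j hj A hA, ?_⟩
      intro l hl x hx
      by_cases hjl : j = l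
      · subst hjl
        exact hA x hx
      · obtain ⟨A', hA'⟩ := hex l hl
        rw [hagree j l hjl hj hl A A' hA hA']
        exact hA' x hx
    · refine ⟨0, by simp, by simp, fun j hj => absurd ⟨j, hj⟩ hJ⟩
  -- (d) the support of `Q`
  have hQ2 : ∀ α j l, j ≠ l → α j ≠ o j → α l ≠ o l → Q α = 0 := by
    intro α j l hjl hj hl
    by_cases hαI : ∀ m, α m ∈ I m
    · have cj : 2 ≤ (I j).card := by
        by_contra h
        exact hj (hI1 j h _ (hαI j))
      have cl : 2 ≤ (I l).card := by
        by_contra h
        exact hl (hI1 l h _ (hαI l))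
      obtain ⟨h1, h2, _⟩ := hyp2 j l hjl cj cl
      have h3 := h2 (cutU (del I o {j, l}) Q) (suppU_cutU _ _) fun x hx => by
        rw [ev_cutU Q (h1 x hx).1]
        exact (hRQ2 j l hjl cj cl x hx).2
      have h4 := congrFun h3 α
      simp only [cutU, Pi.zero_apply] at h4
      rw [if_pos] at h4
      · exact h4
      · intro m
        rw [mem_del]
        refine ⟨hαI m, fun hm => ?_⟩
        rw [Finset.mem_insert, Finset.mem_singleton] at hm
        rcases hm with rfl | rfl
        · exact hj
        · exact hl
    · push Not at hαI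
      exact hQI α hαI
  -- (e) the array
  let A : κ → ι → ι → ℂ := fun j a b =>
    if a = o j then (if b = o j then 0 else Q (update o j b) / 4)
    else (if b = o j then - Q (update o j a) / 4 else B j a b / 2)
  have hsharp : sharp (del I o univ) A = B := by
    funext m a b
    simp only [sharp]
    split_ifs with h
    · obtain ⟨ha, hb⟩ := h
      have ha' := (mem_del.1 ha).2 (mem_univ _)
      have hb' := (mem_del.1 hb).2 (mem_univ _)
      simp only [A, if_neg ha', if_neg hb']
      rw [hB1 m b a]; ring
    · by_cases ha : a ∈ del I o univ m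
      · have hb : b ∉ del I o univ m := fun hb => h ⟨ha, hb⟩
        rw [hB1, hB2 m b a hb, neg_zero]
      · rw [hB2 m a b ha]
  refine ⟨A, ?_, ?_⟩
  · rw [hsharp]
    funext s
    simp only [cutS, restS]
    split_ifs with h1 h2
    · exact hRo s h2
    · push Not at h2
      obtain ⟨j, hj⟩ := h2
      -- `j` is active
      have hcj : 2 ≤ (I j).card := by
        by_contra h
        obtain ⟨i, hi⟩ : ∃ i, i ∈ s j := by
          induction s j using Sym2.ind with
          | _ a b => exact ⟨a, Sym2.mem_mk_left _ _⟩
        have := hI1 j h i (h1 j i hi)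
        exact hj (this ▸ hi)
      have h3 : (R - soS B H) s = 0 := by
        refine evS_eq_zero (I := del I o {j}) (fun x hx => ?_) s fun m i hi => ?_
        · rw [evS_sub, evS_soS, hB3 j hcj x hx, sub_self]
        · rw [mem_del]
          refine ⟨h1 m i hi, fun hm => ?_⟩
          rw [Finset.mem_singleton] at hm
          subst hm
          intro h4
          exact hj (h4 ▸ hi)
      exact sub_eq_zero.1 h3
    · push Not at h1
      exact hRI s h1
  · refine actU_basis Q hQI hQo hQ2 A fun j b hb hbo => ?_
    simp only [sharp]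
    rw [if_pos ⟨ho j, hb⟩]
    simp only [A, if_neg hbo, if_true]
    ring

end Pool.Agent.Helper41.SV
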