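import Pool.Agent.Helper41.SV.Poly
import Pool.Agent.Helper41.SV.Stmts

/-!
Module M: enough critical points, generically, by induction on the number of slices.
-/

open Finset Function

noncomputable section

namespace Pool.Agent.Helper41.SV

theorem many_sum_del {κ ι : Type} [Fintype κ] [DecidableEq κ] [DecidableEq ι]
    (I : κ → Finset ι) (o : κ → ι) (ho : ∀ j, o j ∈ I j) (S : Finset κ)
    (hS : ∀ j ∈ S, 2 ≤ (I j).card) :
    ∑ m, ((del I o S m).card - 1) + S.card = ∑ m, ((I m).card - 1) := by
  have h1 : S.card = ∑ m, (if m ∈ S then 1 else 0) := by simp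
  rw [h1, ← Finset.sum_add_distrib]
  refine Finset.sum_congr rfl fun m _ => ?_
  unfold del
  by_cases hm : m ∈ S
  · have h2 := hS m hm
    simp only [hm, if_true]
    rw [Finset.card_erase_of_mem (ho m)]
    omega
  · simp only [hm, if_false]
    omega

theorem many_del_mem {κ ι : Type} [DecidableEq κ] [DecidableEq ι]
    (I : κ → Finset ι) (o : κ → ι) (ho : ∀ j, o j ∈ I j) (j : κ) {b : ι}
    (hb : b ∈ (I j).erase (o j)) (m : κ) : update o j b m ∈ del I o {j} m := by
  unfold del
  by_cases hm : m = j
  · subst hm
    simpa using hb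
  · simp [hm, ho m]

theorem many_del_mem2 {κ ι : Type} [DecidableEq κ] [DecidableEq ι]
    (I : κ → Finset ι) (o : κ → ι) (ho : ∀ j, o j ∈ I j) (j l : κ) (hjl : j ≠ l) {b c : ι}
    (hb : b ∈ (I j).erase (o j)) (hc : c ∈ (I l).erase (o l)) (m : κ) :
    update (update o j b) l c m ∈ del I o {j, l} m := by
  unfold del
  by_cases hm : m = l
  · subst hm
    simpa using hc
  · by_cases hm2 : m = j
    · subst hm2
      rw [update_of_ne hjl, update_self]
      simpa using hb
    · rw [update_of_ne hm, update_of_ne hm2]
      simp [hm, hm2, ho m]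

theorem many (hStep : StStep) (hGood : StGoodGen) (hExt : StExtX) (hFree : StFree) : StMany := by
  intro κ ι _ _ _ _ I o X r
  induction r generalizing I o X with
  | zero =>
    intro ho hX hr
    have hcard : ∀ j, ¬ 2 ≤ (I j).card := by
      intro j hj
      have h1 : (I j).card - 1 ≤ ∑ j, ((I j).card - 1) :=
        Finset.single_le_sum (f := fun j => (I j).card - 1) (fun _ _ => Nat.zero_le _)
          (Finset.mem_univ j)
      omega
    obtain ⟨T, hT⟩ := hStep κ ι I o 0 (fun _ _ => 0) ho (fun j hj => absurd hj (hcard j))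
      (fun j l _ hj _ => absurd hj (hcard j))
    obtain ⟨T', hT'⟩ := hExt κ ι I o X _ T hX hT
    exact hGood κ ι I o X _ T' hT'
  | succ r ih =>
    intro ho hX hr
    -- the choice of the new distinguished coordinates
    have hne : ∀ j, 2 ≤ (I j).card → ∃ b, b ∈ (I j).erase (o j) := by
      intro j hj
      have h1 : 0 < ((I j).erase (o j)).card := by
        rw [Finset.card_erase_of_mem (ho j)]
        omega
      exact Finset.card_pos.1 h1
    have hb : ∀ j, ∃ b, 2 ≤ (I j).card → b ∈ (I j).erase (o j) := by
      intro j
      by_cases hj : 2 ≤ (I j).card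
      · obtain ⟨b, hb⟩ := hne j hj
        exact ⟨b, fun _ => hb⟩
      · exact ⟨o j, fun h => absurd h hj⟩
    choose b hb using hb
    have h1 : Gen (fun t : Fin (r + 1) × (κ → ι) → ℂ => ∀ j, 2 ≤ (I j).card →
        GoodX (del I o {j}) (update o j (b j)) {(j, o j)} (curry t)) := by
      refine Gen.forall fun j => Gen.imp_const fun hj => ?_
      refine ih (del I o {j}) (update o j (b j)) {(j, o j)}
        (many_del_mem I o ho j (hb j hj)) ?_ ?_
      · intro e he
        rw [Finset.mem_singleton] at he
        subst he
        simp [del]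
      · have := many_sum_del I o ho {j} (by simpa using hj)
        rw [Finset.card_singleton] at this
        omega
    have h2 : Gen (fun t : Fin (r + 1) × (κ → ι) → ℂ => ∀ j l, j ≠ l → 2 ≤ (I j).card →
        2 ≤ (I l).card →
        (GoodX (del I o {j, l}) (update (update o j (b j)) l (b l)) {(j, o j), (l, o l)}
          (curry t) ∧ Free (del I o {j, l}) (curry t))) := by
      refine Gen.forall fun j => Gen.forall fun l => Gen.imp_const fun hjl =>
        Gen.imp_const fun hj => Gen.imp_const fun hl => ?_
      have hsum := many_sum_del I o ho {j, l} (by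
        intro m hm
        rw [Finset.mem_insert, Finset.mem_singleton] at hm
        rcases hm with rfl | rfl
        · exact hj
        · exact hl)
      rw [Finset.card_pair hjl] at hsum
      refine Gen.and ?_ ?_
      · refine ih (del I o {j, l}) (update (update o j (b j)) l (b l)) {(j, o j), (l, o l)}
          (many_del_mem2 I o ho j l hjl (hb j hj) (hb l hl)) ?_ ?_
        · intro e he
          rw [Finset.mem_insert, Finset.mem_singleton] at he
          rcases he with rfl | rfl
          · simp [del]
          · simp [del]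
        · omega
      · refine hFree κ ι (del I o {j, l}) (r + 1) ?_ ?_
        · intro m
          exact ⟨_, many_del_mem2 I o ho j l hjl (hb j hj) (hb l hl) m⟩
        · omega
    obtain ⟨t, ht1, ht2⟩ := (h1.and h2).exists
    obtain ⟨T, hT⟩ := hStep κ ι I o (r + 1) (curry t) ho
      (fun j hj => ⟨b j, hb j hj, ht1 j hj⟩)
      (fun j l hjl hj hl => ⟨⟨b j, hb j hj, b l, hb l hl, (ht2 j l hjl hj hl).1⟩,
        (ht2 j l hjl hj hl).2⟩)
    obtain ⟨T', hT'⟩ := hExt κ ι I o X _ T hX hT
    exact hGood κ ι I o X _ T' hT'

end Pool.Agent.Helper41.SV
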