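import Pool.Agent.Helper41.SV.Step0

/-!
The limit points of the first and of the second type.
-/

open Finset Function

noncomputable section

set_option linter.unusedSectionVars false

namespace Pool.Agent.Helper41.SV

variable {κ ι : Type} [Fintype κ] [DecidableEq κ] [Fintype ι] [DecidableEq ι]

theorem xo_th_zero (o : κ → ι) (δ : ℂ) (u : Un κ ι → ℂ) :
    xo (Th o (Ty.zero : Ty κ) δ u) = xo u := by
  funext j i
  simp [xo, Th, Ty.zero]

theorem fs_zero_inl {I : κ → Finset ι} {o : κ → ι} {r : ℕ} (H : Fin r → (κ → ι) → ℂ)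
    (u : Un κ ι → ℂ) (j : κ) (i : ι) (hi : i ∈ I j) :
    Fs I o H (Ty.zero : Ty κ) 0 u (Sum.inl (j, i)) =
      (if i = o j then 2 * Mh o u * ∏ m ∈ univ.erase j, u (Sum.inl (m, o m)) else 0)
        - u (Sum.inr j) * u (Sum.inl (j, i)) := by
  simp only [Fs, if_pos hi, xo_th_zero]
  simp [Ty.zero, xo]

theorem fs_zero_out {I : κ → Finset ι} {o : κ → ι} {r : ℕ} (H : Fin r → (κ → ι) → ℂ)
    (τ : Ty κ) (δ : ℂ) (u : Un κ ι → ℂ) (j : κ) (i : ι) (hi : i ∉ I j) :
    Fs I o H τ δ u (Sum.inl (j, i)) = u (Sum.inl (j, i)) := by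
  simp only [Fs, if_neg hi]

theorem fs_zero_inr {I : κ → Finset ι} {o : κ → ι} {r : ℕ} (H : Fin r → (κ → ι) → ℂ)
    (u : Un κ ι → ℂ) (j : κ) :
    Fs I o H (Ty.zero : Ty κ) 0 u (Sum.inr j) = ∑ i, u (Sum.inl (j, i)) ^ 2 - 1 := by
  simp only [Fs, xo_th_zero]
  rfl

theorem pt0 : StPt0 := by
  intro κ ι _ _ _ _ I o r H ho
  set u : Un κ ι → ℂ := fun w => Sum.elim (fun p => if p.2 = o p.1 then 1 else 0) (fun _ => 2) w
    with hu
  have ul : ∀ j i, u (Sum.inl (j, i)) = if i = o j then 1 else 0 := fun j i => rfl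
  have uo : ∀ j, u (Sum.inl (j, o j)) = 1 := fun j => by rw [ul, if_pos rfl]
  have ur : ∀ j, u (Sum.inr j) = 2 := fun j => rfl
  have hx : xo u = fun j => Pi.single (o j) 1 := by
    funext j i
    simp only [xo, ul, Pi.single_apply]
  have hM : Mh o u = 1 := by
    simp only [Mh, uo, Finset.prod_const_one]
  have hnorm : ∀ j, ∑ i, u (Sum.inl (j, i)) ^ 2 = 1 := by
    intro j
    rw [Finset.sum_eq_single (o j)]
    · rw [uo]; ring
    · intro i _ hi
      rw [ul, if_neg hi]; ring
    · intro h; exact absurd (mem_univ _) h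
  refine ⟨u, ?_, ?_, fun j => by rw [uo]; exact one_ne_zero, fun j => by rw [ur]; exact two_ne_zero,
    ?_, ?_⟩
  · rintro (⟨j, i⟩ | j)
    · by_cases hi : i ∈ I j
      · rw [fs_zero_inl H u j i hi]
        by_cases hio : i = o j
        · rw [if_pos hio, hM, ur, hio, uo]
          simp only [uo, Finset.prod_const_one]
          ring
        · rw [if_neg hio, ul, if_neg hio]; ring
      · rw [fs_zero_out H _ _ u j i hi, ul, if_neg]
        rintro rfl; exact hi (ho j)
    · rw [fs_zero_inr, hnorm]; ring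
  · intro ξ hξ
    have h1 : ∀ j, ξ (Sum.inl (j, o j)) = 0 := by
      intro j
      have h2 := hξ (Sum.inr j)
      simp only [fs_zero_inr, Pi.add_apply, Pi.smul_apply, smul_eq_mul] at h2
      have h3 : HasDerivAt (fun s : ℂ => ∑ i, (u (Sum.inl (j, i)) + s * ξ (Sum.inl (j, i))) ^ 2 - 1)
          (∑ i, (2 : ℕ) * (u (Sum.inl (j, i)) + 0 * ξ (Sum.inl (j, i))) ^ (2 - 1) *
            ξ (Sum.inl (j, i))) 0 := by
        refine HasDerivAt.sub_const _ (HasDerivAt.fun_sum fun i _ => ?_)
        have h4 : HasDerivAt (fun s : ℂ => u (Sum.inl (j, i)) + s * ξ (Sum.inl (j, i)))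
            (ξ (Sum.inl (j, i))) 0 := by
          have h5 := ((hasDerivAt_id (0 : ℂ)).mul_const (ξ (Sum.inl (j, i)))).const_add
            (u (Sum.inl (j, i)))
          simpa using h5
        exact h4.fun_pow 2
      have h6 := h3.unique h2
      rw [Finset.sum_eq_single (o j)] at h6
      · rw [uo] at h6
        have h7 : (2 : ℂ) * ξ (Sum.inl (j, o j)) = 0 := by
          rw [← h6]; push_cast; ring
        simpa using h7
      · intro i _ hi
        rw [ul, if_neg hi]; simp
      · intro h; exact absurd (mem_univ _) h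
    have h2 : ∀ j i, ξ (Sum.inl (j, i)) = 0 := by
      intro j i
      by_cases hio : i = o j
      · rw [hio]; exact h1 j
      · have hul : u (Sum.inl (j, i)) = 0 := by rw [ul, if_neg hio]
        have h3 := hξ (Sum.inl (j, i))
        by_cases hi : i ∈ I j
        · simp only [fs_zero_inl H _ j i hi, if_neg hio, Pi.add_apply, Pi.smul_apply,
            smul_eq_mul, hul, ur, zero_add, zero_sub] at h3
          have h4 : HasDerivAt (fun s : ℂ => -((2 + s * ξ (Sum.inr j)) * (s * ξ (Sum.inl (j, i)))))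
              (-((ξ (Sum.inr j)) * ((0 : ℂ) * ξ (Sum.inl (j, i))) +
                (2 + (0 : ℂ) * ξ (Sum.inr j)) * ξ (Sum.inl (j, i)))) 0 := by
            have h5 : HasDerivAt (fun s : ℂ => 2 + s * ξ (Sum.inr j)) (ξ (Sum.inr j)) 0 := by
              have h5 := ((hasDerivAt_id (0 : ℂ)).mul_const (ξ (Sum.inr j))).const_add (2 : ℂ)
              simpa using h5
            have h6 : HasDerivAt (fun s : ℂ => s * ξ (Sum.inl (j, i))) (ξ (Sum.inl (j, i))) 0 := by
              have h5 := ((hasDerivAt_id (0 : ℂ)).mul_const (ξ (Sum.inl (j, i))))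
              simpa using h5
            exact (h5.mul h6).neg
          have h5 := h4.unique h3
          have h6 : (2 : ℂ) * ξ (Sum.inl (j, i)) = 0 := by
            linear_combination -h5
          simpa using h6
        · simp only [fs_zero_out H _ _ _ j i hi, Pi.add_apply, Pi.smul_apply,
            smul_eq_mul, hul, zero_add] at h3
          have h5 : HasDerivAt (fun s : ℂ => s * ξ (Sum.inl (j, i))) (ξ (Sum.inl (j, i))) 0 := by
            have h5 := ((hasDerivAt_id (0 : ℂ)).mul_const (ξ (Sum.inl (j, i))))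
            simpa using h5
          exact h5.unique h3
    have h3 : ∀ j, ξ (Sum.inr j) = 0 := by
      intro j
      have h4 := hξ (Sum.inl (j, o j))
      have h5 : ∀ s : ℂ, Fs I o H (Ty.zero : Ty κ) 0 (u + s • ξ) (Sum.inl (j, o j)) =
          -(s * ξ (Sum.inr j)) := by
        intro s
        rw [fs_zero_inl H _ j (o j) (ho j), if_pos rfl]
        simp only [Mh, Pi.add_apply, Pi.smul_apply, smul_eq_mul, h2, uo, ur, mul_zero, add_zero,
          Finset.prod_const_one]
        ring
      simp only [h5] at h4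
      have h6 : HasDerivAt (fun s : ℂ => -(s * ξ (Sum.inr j))) (-ξ (Sum.inr j)) 0 := by
        have h5 : HasDerivAt (fun s : ℂ => s * ξ (Sum.inr j)) (ξ (Sum.inr j)) 0 := by
          have h5 := ((hasDerivAt_id (0 : ℂ)).mul_const (ξ (Sum.inr j)))
          simpa using h5
        exact h5.fun_neg
      have h7 := h6.unique h4
      simpa using h7
    funext w
    rcases w with ⟨j, i⟩ | j
    · exact h2 j i
    · exact h3 j
  · intro t
    rw [xo_th_zero, hx, ev_single]
  · intro R P
    simp only [rowS, xo_th_zero, hM]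
    rw [hx, ev_single]
    simp [Ty.zero]

/-- The product over the factors with one of them singled out. -/
theorem mh_eq (o : κ → ι) (u : Un κ ι → ℂ) (j : κ) :
    Mh o u = u (Sum.inl (j, o j)) * ∏ m ∈ univ.erase j, u (Sum.inl (m, o m)) := by
  simp only [Mh]
  rw [← Finset.mul_prod_erase univ _ (mem_univ j)]

theorem pt1 : StPt1 := by
  intro κ ι _ _ _ _ I o r H j v ho hv hnd hne hlam hdG
  have hsv : SuppX (del I o {j}) (xo v) := by
    intro m i hi
    have h := hv (Sum.inl (m, i))
    simpa only [crit, if_neg hi] using h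
  have hoj : o j ∉ del I o {j} j := by
    simp [del]
  have hvj : xo v j (o j) = 0 := hsv j (o j) hoj
  set P : ℂ := ∏ m ∈ univ.erase j, xo v m (o m) with hP
  have hP0 : P ≠ 0 := Finset.prod_ne_zero_iff.2 fun m hm => hne m (Finset.ne_of_mem_erase hm)
  set b : ℂ := - dG H (xo v) j (o j) / (2 * P ^ 2) with hb
  have hb0 : b ≠ 0 := div_ne_zero (neg_ne_zero.2 hdG)
    (mul_ne_zero two_ne_zero (pow_ne_zero 2 hP0))
  set u : Un κ ι → ℂ := update v (Sum.inl (j, o j)) b with hu
  have uj : u (Sum.inl (j, o j)) = b := by rw [hu, update_self]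
  have ul : ∀ m i, (m, i) ≠ (j, o j) → u (Sum.inl (m, i)) = v (Sum.inl (m, i)) := by
    intro m i h
    rw [hu, update_of_ne]
    intro h'; exact h (Sum.inl.inj h')
  have ur : ∀ m, u (Sum.inr m) = v (Sum.inr m) := by
    intro m
    rw [hu, update_of_ne]
    intro h; cases h
  -- the relation between the two systems
  have hxo : ∀ (y z : Un κ ι → ℂ), (∀ m i, (m, i) ≠ (j, o j) → y (Sum.inl (m, i)) =
      z (Sum.inl (m, i))) → z (Sum.inl (j, o j)) = 0 →
      xo (Th o (Ty.one j) 0 y) = xo z := by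
    intro y z h1 h2
    funext m i
    simp only [xo, Th, Ty.one, Finset.mem_singleton]
    by_cases h : m = j ∧ i = o m
    · obtain ⟨rfl, rfl⟩ := h
      rw [if_pos ⟨rfl, rfl⟩, h2]
      simp
    · rw [if_neg h]
      refine h1 m i fun h' => h ?_
      rw [Prod.mk.injEq] at h'
      obtain ⟨rfl, rfl⟩ := h'
      exact ⟨rfl, rfl⟩
  have hFs : ∀ (y z : Un κ ι → ℂ), (∀ m i, (m, i) ≠ (j, o j) → y (Sum.inl (m, i)) =
      z (Sum.inl (m, i))) → z (Sum.inl (j, o j)) = 0 → (∀ m, y (Sum.inr m) = z (Sum.inr m)) →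
      ∀ w, w ≠ Sum.inl (j, o j) → Fs I o H (Ty.one j) 0 y w = crit (del I o {j}) H z w := by
    intro y z h1 h2 h3 w hw
    rcases w with ⟨m, i⟩ | m
    · have hmi : (m, i) ≠ (j, o j) := fun h => hw (by rw [h])
      by_cases hi : i ∈ I m
      · have hi' : i ∈ del I o {j} m := by
          simp only [del, Finset.mem_singleton]
          split_ifs with h
          · refine Finset.mem_erase.2 ⟨fun h' => hmi ?_, hi⟩
            subst h; rw [h']
          · exact hi
        simp only [Fs, if_pos hi, crit, if_pos hi', hxo y z h1 h2, h3, lo]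
        have h4 : (if i = o m then 2 * (if m ∈ (Ty.one j : Ty κ).S then (1 : ℂ) else
            0 ^ (Ty.one j : Ty κ).a) * Mh o y * ∏ m' ∈ univ.erase m, y (Sum.inl (m', o m'))
            else 0) = 0 := by
          split_ifs with h5 h6
          · exfalso
            have h7 : m = j := by simpa [Ty.one] using h6
            subst h7; exact hmi (by rw [h5])
          · simp [Ty.one]
          · rfl
        rw [h4]
        simp [Ty.one]
      · have hi' : i ∉ del I o {j} m := fun h => hi (del_subset I o {j} m h)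
        simp only [Fs, if_neg hi, crit, if_neg hi', xo]
        exact h1 m i hmi
    · simp only [Fs, crit, hxo y z h1 h2]
  have hFj : ∀ (y z : Un κ ι → ℂ), (∀ m i, (m, i) ≠ (j, o j) → y (Sum.inl (m, i)) =
      z (Sum.inl (m, i))) → z (Sum.inl (j, o j)) = 0 →
      Fs I o H (Ty.one j) 0 y (Sum.inl (j, o j)) =
        2 * (y (Sum.inl (j, o j)) * ∏ m ∈ univ.erase j, z (Sum.inl (m, o m))) *
          (∏ m ∈ univ.erase j, z (Sum.inl (m, o m))) + dG H (xo z) j (o j) := by
    intro y z h1 h2
    have h3 : ∏ m ∈ univ.erase j, y (Sum.inl (m, o m)) =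
        ∏ m ∈ univ.erase j, z (Sum.inl (m, o m)) := by
      refine Finset.prod_congr rfl fun m hm => h1 m (o m) fun h => ?_
      rw [Prod.mk.injEq] at h
      exact Finset.ne_of_mem_erase hm h.1
    have h4 : xo z j (o j) = 0 := h2
    simp only [Fs, if_pos (ho j), hxo y z h1 h2, h4, mh_eq o y j, h3]
    simp [Ty.one]
  have hzv : v (Sum.inl (j, o j)) = 0 := hvj
  refine ⟨u, ?_, ?_, ?_, ?_, ?_, ?_⟩
  · intro w
    by_cases hw : w = Sum.inl (j, o j)
    · rw [hw, hFj u v ul hzv, uj]
      have h1 : ∏ m ∈ univ.erase j, v (Sum.inl (m, o m)) = P := rfl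
      rw [h1, hb]
      field_simp
      ring
    · rw [hFs u v ul hzv ur w hw, hv w]
  · intro ξ hξ
    set ξ' : Un κ ι → ℂ := update ξ (Sum.inl (j, o j)) 0 with hξ'
    have e1 : ξ' (Sum.inl (j, o j)) = 0 := by rw [hξ', update_self]
    have e2 : ∀ w, w ≠ Sum.inl (j, o j) → ξ' w = ξ w := by
      intro w hw
      rw [hξ', update_of_ne hw]
    have k1 : ∀ s : ℂ, ∀ m i, (m, i) ≠ (j, o j) → (u + s • ξ) (Sum.inl (m, i)) =
        (v + s • ξ') (Sum.inl (m, i)) := by
      intro s m i h
      simp only [Pi.add_apply, Pi.smul_apply, smul_eq_mul]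
      rw [ul m i h, e2 _ (fun h' => h (Sum.inl.inj h'))]
    have k2 : ∀ s : ℂ, (v + s • ξ') (Sum.inl (j, o j)) = 0 := by
      intro s
      simp only [Pi.add_apply, Pi.smul_apply, smul_eq_mul, e1, hzv, mul_zero, add_zero]
    have k3 : ∀ s : ℂ, ∀ m, (u + s • ξ) (Sum.inr m) = (v + s • ξ') (Sum.inr m) := by
      intro s m
      simp only [Pi.add_apply, Pi.smul_apply, smul_eq_mul]
      rw [ur m, e2 _ (fun h => by cases h)]
    have h0 : ξ' = 0 := by
      refine hnd ξ' fun w => ?_
      by_cases hw : w = Sum.inl (j, o j)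
      · subst hw
        have h1 : ∀ s : ℂ, crit (del I o {j}) H (v + s • ξ') (Sum.inl (j, o j)) = 0 := by
          intro s
          simp only [crit, if_neg hoj, xo]
          exact k2 s
        simp only [h1]
        exact hasDerivAt_const _ _
      · have h1 := hξ w
        have h2 : (fun s : ℂ => Fs I o H (Ty.one j) 0 (u + s • ξ) w) =
            fun s : ℂ => crit (del I o {j}) H (v + s • ξ') w := by
          funext s
          exact hFs _ _ (k1 s) (k2 s) (k3 s) w hw
        rw [h2] at h1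
        exact h1
    have h1 := hξ (Sum.inl (j, o j))
    have h2 : (fun s : ℂ => Fs I o H (Ty.one j) 0 (u + s • ξ) (Sum.inl (j, o j))) =
        fun s : ℂ => 2 * ((b + s * ξ (Sum.inl (j, o j))) * P) * P + dG H (xo v) j (o j) := by
      funext s
      have h3 : v + s • ξ' = v := by rw [h0, smul_zero, add_zero]
      rw [hFj _ _ (k1 s) (k2 s), h3]
      simp only [Pi.add_apply, Pi.smul_apply, smul_eq_mul, uj]
      rfl
    rw [h2] at h1
    have h3 : HasDerivAt (fun s : ℂ => 2 * ((b + s * ξ (Sum.inl (j, o j))) * P) * P +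
        dG H (xo v) j (o j)) (2 * (ξ (Sum.inl (j, o j)) * P) * P) 0 := by
      have h4 : HasDerivAt (fun s : ℂ => b + s * ξ (Sum.inl (j, o j))) (ξ (Sum.inl (j, o j))) 0 := by
        have h5 := ((hasDerivAt_id (0 : ℂ)).mul_const (ξ (Sum.inl (j, o j)))).const_add b
        simpa using h5
      exact (((h4.mul_const P).const_mul 2).mul_const P).add_const _
    have h4 := h3.unique h1
    have h5 : ξ (Sum.inl (j, o j)) = 0 := by
      by_contra h6
      exact (mul_ne_zero (mul_ne_zero two_ne_zero (mul_ne_zero h6 hP0)) hP0) h4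
    funext w
    by_cases hw : w = Sum.inl (j, o j)
    · rw [hw, h5]; rfl
    · rw [← e2 w hw, h0]
  · intro m
    by_cases h : m = j
    · rw [h, uj]; exact hb0
    · rw [ul m (o m) (fun h' => h (by rw [Prod.mk.injEq] at h'; exact h'.1))]
      exact hne m h
  · intro m
    rw [ur]; exact hlam m
  · exact hxo u v ul hzv
  · intro R Q
    simp only [rowS, hxo u v ul hzv]
    simp [Ty.one]

end Pool.Agent.Helper41.SV
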