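import Pool.Agent.Helper41.SV.Step0

/-!
The points of the third type.
-/

open Finset Function

noncomputable section

set_option linter.unusedSectionVars false

namespace Pool.Agent.Helper41.SV.PT2

variable {κ ι : Type} [Fintype κ] [DecidableEq κ] [Fintype ι] [DecidableEq ι]

theorem th_two (o : κ → ι) (j l : κ) (u : Un κ ι → ℂ) (m : κ) (i : ι) :
    xo (Th o (Ty.two j l) 0 u) m i =
      if (m = j ∨ m = l) ∧ i = o m then 0 else u (Sum.inl (m, i)) := by
  simp [xo, Th, Ty.two]

theorem fs_inl (I : κ → Finset ι) (o : κ → ι) {r : ℕ} (H : Fin r → (κ → ι) → ℂ) (j l : κ)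
    (u : Un κ ι → ℂ) (m : κ) (i : ι) :
    Fs I o H (Ty.two j l) 0 u (Sum.inl (m, i)) = if i ∈ I m then
        (if i = o m then 2 * (if m = j ∨ m = l then 1 else 0) * Mh o u *
          ∏ m' ∈ univ.erase m, u (Sum.inl (m', o m')) else 0)
        + dG H (xo (Th o (Ty.two j l) 0 u)) m i
        - u (Sum.inr m) * xo (Th o (Ty.two j l) 0 u) m i
      else u (Sum.inl (m, i)) := by
  simp [Fs, Ty.two]

theorem fs_inr (I : κ → Finset ι) (o : κ → ι) {r : ℕ} (H : Fin r → (κ → ι) → ℂ) (j l : κ)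
    (u : Un κ ι → ℂ) (m : κ) :
    Fs I o H (Ty.two j l) 0 u (Sum.inr m) =
      ∑ i, xo (Th o (Ty.two j l) 0 u) m i ^ 2 - 1 := rfl

/-- the product of the other coordinates -/
def Dp (o : κ → ι) (j l : κ) (u : Un κ ι → ℂ) : ℂ :=
  ∏ m ∈ (univ.erase j).erase l, u (Sum.inl (m, o m))

theorem prod_j (o : κ → ι) {j l : κ} (hjl : j ≠ l) (u : Un κ ι → ℂ) :
    ∏ m ∈ univ.erase j, u (Sum.inl (m, o m)) = u (Sum.inl (l, o l)) * Dp o j l u :=
  (Finset.mul_prod_erase (univ.erase j) (fun m => u (Sum.inl (m, o m)))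
    (Finset.mem_erase.mpr ⟨Ne.symm hjl, mem_univ _⟩)).symm

theorem prod_l (o : κ → ι) {j l : κ} (hjl : j ≠ l) (u : Un κ ι → ℂ) :
    ∏ m ∈ univ.erase l, u (Sum.inl (m, o m)) = u (Sum.inl (j, o j)) * Dp o j l u := by
  unfold Dp
  rw [Finset.erase_right_comm]
  exact (Finset.mul_prod_erase (univ.erase l) (fun m => u (Sum.inl (m, o m)))
    (Finset.mem_erase.mpr ⟨hjl, mem_univ _⟩)).symm

theorem mh_eq (o : κ → ι) {j l : κ} (hjl : j ≠ l) (u : Un κ ι → ℂ) :
    Mh o u = u (Sum.inl (j, o j)) * (u (Sum.inl (l, o l)) * Dp o j l u) := by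
  unfold Mh
  rw [← prod_j o hjl, Finset.mul_prod_erase univ (fun m => u (Sum.inl (m, o m))) (mem_univ j)]

theorem Dp_congr (o : κ → ι) {j l : κ} {u u' : Un κ ι → ℂ}
    (h : ∀ m, m ≠ j → m ≠ l → u (Sum.inl (m, o m)) = u' (Sum.inl (m, o m))) :
    Dp o j l u = Dp o j l u' := by
  unfold Dp
  refine Finset.prod_congr rfl fun m hm => ?_
  rw [Finset.mem_erase, Finset.mem_erase] at hm
  exact h m hm.2.1 hm.1

/-- replace two entries -/
def rep (o : κ → ι) (j l : κ) (v : Un κ ι → ℂ) (b c : ℂ) : Un κ ι → ℂ :=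
  update (update v (Sum.inl (j, o j)) b) (Sum.inl (l, o l)) c

theorem rep_l (o : κ → ι) (j l : κ) (v : Un κ ι → ℂ) (b c : ℂ) :
    rep o j l v b c (Sum.inl (l, o l)) = c := by
  unfold rep
  rw [update_self]

theorem rep_j (o : κ → ι) {j l : κ} (hjl : j ≠ l) (v : Un κ ι → ℂ) (b c : ℂ) :
    rep o j l v b c (Sum.inl (j, o j)) = b := by
  unfold rep
  rw [update_of_ne, update_self]
  intro h
  exact hjl (congrArg Prod.fst (Sum.inl.inj h))

theorem rep_inl (o : κ → ι) {j l : κ} (v : Un κ ι → ℂ) (b c : ℂ) {m : κ} {i : ι}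
    (h : ¬ ((m = j ∨ m = l) ∧ i = o m)) : rep o j l v b c (Sum.inl (m, i)) = v (Sum.inl (m, i)) := by
  unfold rep
  rw [update_of_ne, update_of_ne]
  · intro h'
    have h1 := Sum.inl.inj h'
    rw [Prod.mk.injEq] at h1
    obtain ⟨rfl, rfl⟩ := h1
    exact h ⟨Or.inl rfl, rfl⟩
  · intro h'
    have h1 := Sum.inl.inj h'
    rw [Prod.mk.injEq] at h1
    obtain ⟨rfl, rfl⟩ := h1
    exact h ⟨Or.inr rfl, rfl⟩

theorem rep_inr (o : κ → ι) {j l : κ} (v : Un κ ι → ℂ) (b c : ℂ) (m : κ) :
    rep o j l v b c (Sum.inr m) = v (Sum.inr m) := by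
  unfold rep
  rw [update_of_ne (by simp), update_of_ne (by simp)]

/-- one branch -/
theorem branch (I : κ → Finset ι) (o : κ → ι) (r : ℕ) (H : Fin r → (κ → ι) → ℂ) (j l : κ)
    (v : Un κ ι → ℂ) (hjl : j ≠ l) (ho : ∀ j, o j ∈ I j)
    (hv : ∀ w, crit (del I o {j, l}) H v w = 0) (hnd : NonDeg (crit (del I o {j, l}) H) v)
    (hx : ∀ m, m ≠ j → m ≠ l → xo v m (o m) ≠ 0) (hl : ∀ m, lo v m ≠ 0)
    (b c : ℂ) (hb : b ≠ 0) (hc : c ≠ 0)
    (e1 : 2 * b * c ^ 2 * Dp o j l v ^ 2 + dG H (xo v) j (o j) = 0)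
    (e2 : 2 * b ^ 2 * c * Dp o j l v ^ 2 + dG H (xo v) l (o l) = 0) :
    (∀ w, Fs I o H (Ty.two j l) 0 (rep o j l v b c) w = 0) ∧
      NonDeg (Fs I o H (Ty.two j l) 0) (rep o j l v b c) ∧
      (∀ m, rep o j l v b c (Sum.inl (m, o m)) ≠ 0) ∧
      (∀ m, rep o j l v b c (Sum.inr m) ≠ 0) ∧
      xo (Th o (Ty.two j l) 0 (rep o j l v b c)) = xo v ∧
      Mh o (rep o j l v b c) = b * c * Dp o j l v := by
  have hsupp := crit_supp hv
  have hmem : ∀ m i, i ∈ del I o {j, l} m ↔ i ∈ I m ∧ ¬ ((m = j ∨ m = l) ∧ i = o m) := by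
    intro m i
    unfold del
    by_cases hm : m ∈ ({j, l} : Finset κ)
    · rw [if_pos hm, Finset.mem_erase]
      have hm' : m = j ∨ m = l := by simpa using hm
      constructor
      · rintro ⟨h1, h2⟩
        exact ⟨h2, fun h => h1 h.2⟩
      · rintro ⟨h1, h2⟩
        exact ⟨fun h => h2 ⟨hm', h⟩, h1⟩
    · rw [if_neg hm]
      have hm' : ¬ (m = j ∨ m = l) := by simpa using hm
      exact ⟨fun h => ⟨h, fun h' => hm' h'.1⟩, fun h => h.1⟩
  have hv0 : ∀ m i, (m = j ∨ m = l) ∧ i = o m → v (Sum.inl (m, i)) = 0 := by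
    intro m i h
    exact hsupp m i fun h' => ((hmem m i).mp h').2 h
  -- the actual point of a perturbed unknown
  have hTh : ∀ (ξ : Un κ ι → ℂ) (s : ℂ), xo (Th o (Ty.two j l) 0 (rep o j l v b c + s • ξ)) =
      xo (v + s • rep o j l ξ 0 0) := by
    intro ξ s
    funext m i
    rw [th_two]
    by_cases h : (m = j ∨ m = l) ∧ i = o m
    · rw [if_pos h]
      show 0 = v (Sum.inl (m, i)) + s * rep o j l ξ 0 0 (Sum.inl (m, i))
      rw [hv0 m i h]
      have : rep o j l ξ 0 0 (Sum.inl (m, i)) = 0 := by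
        obtain ⟨rfl | rfl, rfl⟩ := h
        · exact rep_j o hjl ξ 0 0
        · exact rep_l o _ _ ξ 0 0
      rw [this]
      ring
    · rw [if_neg h]
      show rep o j l v b c (Sum.inl (m, i)) + s * ξ (Sum.inl (m, i)) =
        v (Sum.inl (m, i)) + s * rep o j l ξ 0 0 (Sum.inl (m, i))
      rw [rep_inl o v b c h, rep_inl o ξ 0 0 h]
  have hTh0 : xo (Th o (Ty.two j l) 0 (rep o j l v b c)) = xo v := by
    have := hTh 0 0
    simpa using this
  have hDp : Dp o j l (rep o j l v b c) = Dp o j l v := by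
    apply Dp_congr
    intro m h1 h2
    apply rep_inl
    rintro ⟨h | h, -⟩
    · exact h1 h
    · exact h2 h
  have hDp0 : Dp o j l v ≠ 0 := by
    unfold Dp
    rw [Finset.prod_ne_zero_iff]
    intro m hm
    rw [Finset.mem_erase, Finset.mem_erase] at hm
    exact hx m hm.2.1 hm.1
  have hMh : Mh o (rep o j l v b c) = b * c * Dp o j l v := by
    rw [mh_eq o hjl, rep_j o hjl, rep_l, hDp]
    ring
  refine ⟨?_, ?_, ?_, ?_, hTh0, hMh⟩
  · rintro (⟨m, i⟩ | m)
    · rw [fs_inl, hTh0]
      by_cases hi : i ∈ I m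
      · rw [if_pos hi]
        by_cases hm : (m = j ∨ m = l) ∧ i = o m
        · rw [if_pos hm.2, if_pos hm.1]
          have h0 : xo v m i = 0 := hv0 m i hm
          rw [h0, mul_zero, sub_zero, hMh]
          obtain ⟨rfl | rfl, rfl⟩ := hm
          · rw [prod_j o hjl, rep_l, hDp, ← e1]
            ring
          · rw [prod_l o hjl, rep_j o hjl, hDp, ← e2]
            ring
        · have h1 := hv (Sum.inl (m, i))
          simp only [crit] at h1
          rw [if_pos ((hmem m i).mpr ⟨hi, hm⟩)] at h1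
          have h2 : (if i = o m then 2 * (if m = j ∨ m = l then (1 : ℂ) else 0) *
              Mh o (rep o j l v b c) *
              ∏ m' ∈ univ.erase m, rep o j l v b c (Sum.inl (m', o m')) else 0) = 0 := by
            by_cases h3 : i = o m
            · rw [if_pos h3, if_neg (fun h4 => hm ⟨h4, h3⟩)]
              ring
            · rw [if_neg h3]
          rw [h2, rep_inr, zero_add]
          exact h1
      · rw [if_neg hi, rep_inl]
        · exact hsupp m i fun h => hi ((hmem m i).mp h).1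
        · rintro ⟨-, rfl⟩
          exact hi (ho m)
    · rw [fs_inr, hTh0]
      exact hv (Sum.inr m)
  · intro ξ hξ
    have hξ' : rep o j l ξ 0 0 = 0 := by
      apply hnd
      rintro (⟨m, i⟩ | m)
      · by_cases hi : i ∈ I m
        · by_cases hm : (m = j ∨ m = l) ∧ i = o m
          · -- constant function
            have h1 : (fun s : ℂ => crit (del I o {j, l}) H (v + s • rep o j l ξ 0 0)
                (Sum.inl (m, i))) = fun _ => 0 := by
              funext s
              simp only [crit]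
              rw [if_neg (fun h => ((hmem m i).mp h).2 hm)]
              show v (Sum.inl (m, i)) + s * rep o j l ξ 0 0 (Sum.inl (m, i)) = 0
              rw [hv0 m i hm]
              have : rep o j l ξ 0 0 (Sum.inl (m, i)) = 0 := by
                obtain ⟨rfl | rfl, rfl⟩ := hm
                · exact rep_j o hjl ξ 0 0
                · exact rep_l o _ _ ξ 0 0
              rw [this]
              ring
            rw [h1]
            exact hasDerivAt_const _ _
          · have h1 := hξ (Sum.inl (m, i))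
            have h2 : (fun s : ℂ => crit (del I o {j, l}) H (v + s • rep o j l ξ 0 0)
                (Sum.inl (m, i))) = fun s : ℂ => Fs I o H (Ty.two j l) 0
                  (rep o j l v b c + s • ξ) (Sum.inl (m, i)) := by
              funext s
              rw [fs_inl, hTh, if_pos hi]
              simp only [crit]
              rw [if_pos ((hmem m i).mpr ⟨hi, hm⟩)]
              have h3 : (if i = o m then 2 * (if m = j ∨ m = l then (1 : ℂ) else 0) *
                  Mh o (rep o j l v b c + s • ξ) *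
                  ∏ m' ∈ univ.erase m, (rep o j l v b c + s • ξ) (Sum.inl (m', o m')) else 0) =
                  0 := by
                by_cases h3 : i = o m
                · rw [if_pos h3, if_neg (fun h4 => hm ⟨h4, h3⟩)]
                  ring
                · rw [if_neg h3]
              rw [h3, zero_add]
              have h4 : (rep o j l v b c + s • ξ) (Sum.inr m) =
                  lo (v + s • rep o j l ξ 0 0) m := by
                show rep o j l v b c (Sum.inr m) + s * ξ (Sum.inr m) =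
                  v (Sum.inr m) + s * rep o j l ξ 0 0 (Sum.inr m)
                rw [rep_inr, rep_inr]
              rw [h4]
            rw [h2]
            exact h1
        · have h1 := hξ (Sum.inl (m, i))
          have hm : ¬ ((m = j ∨ m = l) ∧ i = o m) := by
            rintro ⟨-, rfl⟩
            exact hi (ho m)
          have h2 : (fun s : ℂ => crit (del I o {j, l}) H (v + s • rep o j l ξ 0 0)
              (Sum.inl (m, i))) = fun s : ℂ => Fs I o H (Ty.two j l) 0
                (rep o j l v b c + s • ξ) (Sum.inl (m, i)) := by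
            funext s
            rw [fs_inl, if_neg hi]
            simp only [crit]
            rw [if_neg (fun h => hi ((hmem m i).mp h).1)]
            show v (Sum.inl (m, i)) + s * rep o j l ξ 0 0 (Sum.inl (m, i)) =
              rep o j l v b c (Sum.inl (m, i)) + s * ξ (Sum.inl (m, i))
            rw [rep_inl o v b c hm, rep_inl o ξ 0 0 hm]
          rw [h2]
          exact h1
      · have h1 := hξ (Sum.inr m)
        have h2 : (fun s : ℂ => crit (del I o {j, l}) H (v + s • rep o j l ξ 0 0)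
            (Sum.inr m)) = fun s : ℂ => Fs I o H (Ty.two j l) 0
              (rep o j l v b c + s • ξ) (Sum.inr m) := by
          funext s
          rw [fs_inr, hTh]
          rfl
        rw [h2]
        exact h1
    -- the direction is supported at two entries
    have hsup : ∀ m i, ¬ ((m = j ∨ m = l) ∧ i = o m) → ξ (Sum.inl (m, i)) = 0 := by
      intro m i h
      rw [← rep_inl o ξ 0 0 h, hξ']
      rfl
    have hsup' : ∀ m, ξ (Sum.inr m) = 0 := by
      intro m
      rw [← rep_inr o ξ 0 0 m (j := j) (l := l), hξ']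
      rfl
    have hTh2 : ∀ s : ℂ, xo (Th o (Ty.two j l) 0 (rep o j l v b c + s • ξ)) = xo v := by
      intro s
      rw [hTh, hξ', smul_zero, add_zero]
    have hDp2 : ∀ s : ℂ, Dp o j l (rep o j l v b c + s • ξ) = Dp o j l v := by
      intro s
      rw [← hDp]
      apply Dp_congr
      intro m h1 h2
      show rep o j l v b c (Sum.inl (m, o m)) + s * ξ (Sum.inl (m, o m)) = _
      rw [hsup m (o m), mul_zero, add_zero]
      rintro ⟨h | h, -⟩
      · exact h1 h
      · exact h2 h
    have hj2 : ∀ s : ℂ, (rep o j l v b c + s • ξ) (Sum.inl (j, o j)) =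
        b + s * ξ (Sum.inl (j, o j)) := by
      intro s
      show rep o j l v b c (Sum.inl (j, o j)) + s * ξ (Sum.inl (j, o j)) = _
      rw [rep_j o hjl]
    have hl2 : ∀ s : ℂ, (rep o j l v b c + s • ξ) (Sum.inl (l, o l)) =
        c + s * ξ (Sum.inl (l, o l)) := by
      intro s
      show rep o j l v b c (Sum.inl (l, o l)) + s * ξ (Sum.inl (l, o l)) = _
      rw [rep_l]
    have hlin : ∀ a d : ℂ, HasDerivAt (fun s : ℂ => a + s * d) d 0 := by
      intro a d
      have h3 := ((hasDerivAt_id (0 : ℂ)).mul_const d).const_add a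
      simpa using h3
    set x := ξ (Sum.inl (j, o j)) with hxdef
    set y := ξ (Sum.inl (l, o l)) with hydef
    have hF1 : (fun s : ℂ => Fs I o H (Ty.two j l) 0 (rep o j l v b c + s • ξ)
        (Sum.inl (j, o j))) = fun s : ℂ => (b + s * x) * ((c + s * y) * (c + s * y)) *
          (2 * Dp o j l v ^ 2) + dG H (xo v) j (o j) := by
      funext s
      rw [fs_inl, if_pos (ho j), if_pos rfl, if_pos (Or.inl rfl), hTh2, mh_eq o hjl,
        prod_j o hjl, hDp2, hj2, hl2]
      have h0 : xo v j (o j) = 0 := hv0 j (o j) ⟨Or.inl rfl, rfl⟩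
      rw [h0]
      ring
    have hF2 : (fun s : ℂ => Fs I o H (Ty.two j l) 0 (rep o j l v b c + s • ξ)
        (Sum.inl (l, o l))) = fun s : ℂ => ((b + s * x) * (b + s * x)) * (c + s * y) *
          (2 * Dp o j l v ^ 2) + dG H (xo v) l (o l) := by
      funext s
      rw [fs_inl, if_pos (ho l), if_pos rfl, if_pos (Or.inr rfl), hTh2, mh_eq o hjl,
        prod_l o hjl, hDp2, hj2, hl2]
      have h0 : xo v l (o l) = 0 := hv0 l (o l) ⟨Or.inr rfl, rfl⟩
      rw [h0]
      ring
    have hd1 := hξ (Sum.inl (j, o j))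
    rw [hF1] at hd1
    have hd2 := hξ (Sum.inl (l, o l))
    rw [hF2] at hd2
    have hd1' := ((((hlin b x).mul ((hlin c y).mul (hlin c y))).mul_const
      (2 * Dp o j l v ^ 2)).add_const (dG H (xo v) j (o j)))
    have hd2' := (((((hlin b x).mul (hlin b x)).mul (hlin c y)).mul_const
      (2 * Dp o j l v ^ 2)).add_const (dG H (xo v) l (o l)))
    have q1 := hd1'.unique hd1
    have q2 := hd2'.unique hd2
    have hD2 : (2 * Dp o j l v ^ 2) ≠ 0 := mul_ne_zero two_ne_zero (pow_ne_zero 2 hDp0)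
    have q1' : c * (x * c + 2 * b * y) = 0 := by
      have h := (mul_eq_zero.mp q1).resolve_right hD2
      simp only [Pi.mul_apply, zero_mul, add_zero] at h
      rw [← h]
      ring
    have q2' : b * (2 * c * x + b * y) = 0 := by
      have h := (mul_eq_zero.mp q2).resolve_right hD2
      simp only [Pi.mul_apply, zero_mul, add_zero] at h
      rw [← h]
      ring
    have q1'' := (mul_eq_zero.mp q1').resolve_left hc
    have q2'' := (mul_eq_zero.mp q2').resolve_left hb
    have hy0 : y = 0 := by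
      have h : b * (3 * y) = 0 := by linear_combination 2 * q1'' - q2''
      simpa [hb] using h
    have hx0 : x = 0 := by
      rw [hy0, mul_zero, add_zero] at q1''
      exact (mul_eq_zero.mp q1'').resolve_right hc
    funext w
    rcases w with ⟨m, i⟩ | m
    · by_cases hm : (m = j ∨ m = l) ∧ i = o m
      · obtain ⟨rfl | rfl, rfl⟩ := hm
        · exact hx0
        · exact hy0
      · exact hsup m i hm
    · exact hsup' m
  · intro m
    by_cases hm : m = j
    · subst hm
      rw [rep_j o hjl]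
      exact hb
    · by_cases hm' : m = l
      · subst hm'
        rw [rep_l]
        exact hc
      · rw [rep_inl]
        · exact hx m hm hm'
        · rintro ⟨h | h, -⟩
          · exact hm h
          · exact hm' h
  · intro m
    rw [rep_inr]
    exact hl m

end PT2

open PT2

theorem pt2 : StPt2 := by
  intro κ ι _ _ _ _ I o r H j l v hjl ho hv hnd hx hl hα hβ
  set α := dG H (xo v) j (o j) with hαdef
  set β := dG H (xo v) l (o l) with hβdef
  have hD : Dp o j l v ≠ 0 := by
    unfold Dp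
    rw [Finset.prod_ne_zero_iff]
    intro m hm
    rw [Finset.mem_erase, Finset.mem_erase] at hm
    exact hx m hm.2.1 hm.1
  obtain ⟨b₀, hb₀⟩ := IsAlgClosed.exists_pow_nat_eq (-(β ^ 2) / (2 * α * Dp o j l v ^ 2))
    (n := 3) (by norm_num)
  obtain ⟨z, hz⟩ := IsAlgClosed.exists_pow_nat_eq (-3 : ℂ) (n := 2) (by norm_num)
  -- a primitive cube root of unity
  have hω : ∃ ω : ℂ, ω ^ 3 = 1 ∧ ω ^ 2 ≠ 1 := by
    refine ⟨(-1 + z) / 2, ?_, ?_⟩
    · linear_combination (z - 3) / 8 * hz
    · intro h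
      have h1 : z = -3 := by linear_combination -2 * h + hz / 2
      rw [h1] at hz
      norm_num at hz
  obtain ⟨ω, hω1, hω2⟩ := hω
  have hb₀0 : b₀ ≠ 0 := by
    intro h
    rw [h] at hb₀
    have h1 : -(β ^ 2) / (2 * α * Dp o j l v ^ 2) ≠ 0 := by
      apply div_ne_zero
      · exact neg_ne_zero.mpr (pow_ne_zero 2 hβ)
      · exact mul_ne_zero (mul_ne_zero two_ne_zero hα) (pow_ne_zero 2 hD)
    apply h1
    rw [← hb₀]
    norm_num
  have hω0 : ω ≠ 0 := by
    intro h
    rw [h] at hω1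
    norm_num at hω1
  have key : ∀ b : ℂ, b ≠ 0 → b ^ 3 = -(β ^ 2) / (2 * α * Dp o j l v ^ 2) →
      2 * b * (b * α / β) ^ 2 * Dp o j l v ^ 2 + α = 0 ∧
      2 * b ^ 2 * (b * α / β) * Dp o j l v ^ 2 + β = 0 := by
    intro b _ hb3
    have h1 : b ^ 3 * (2 * α * Dp o j l v ^ 2) = -(β ^ 2) := by
      rw [hb3]
      field_simp
    constructor
    · have h2 : 2 * b * (b * α / β) ^ 2 * Dp o j l v ^ 2 + α =
          (b ^ 3 * (2 * α * Dp o j l v ^ 2) + β ^ 2) * α / β ^ 2 := by
        field_simp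
      rw [h2, h1]
      ring
    · have h2 : 2 * b ^ 2 * (b * α / β) * Dp o j l v ^ 2 + β =
          (b ^ 3 * (2 * α * Dp o j l v ^ 2) + β ^ 2) / β := by
        field_simp
      rw [h2, h1]
      ring
  have hB : ∀ k : Fin 2, (ω ^ (k : ℕ) * b₀) ≠ 0 := fun k =>
    mul_ne_zero (pow_ne_zero _ hω0) hb₀0
  have hB3 : ∀ k : Fin 2, (ω ^ (k : ℕ) * b₀) ^ 3 = -(β ^ 2) / (2 * α * Dp o j l v ^ 2) := by
    intro k
    rw [mul_pow, hb₀, ← pow_mul, mul_comm (k : ℕ) 3, pow_mul, hω1, one_pow, one_mul]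
  have hbr := fun k : Fin 2 => branch I o r H j l v hjl ho hv hnd hx hl
    (ω ^ (k : ℕ) * b₀) ((ω ^ (k : ℕ) * b₀) * α / β) (hB k)
    (div_ne_zero (mul_ne_zero (hB k) hα) hβ) (key _ (hB k) (hB3 k)).1 (key _ (hB k) (hB3 k)).2
  refine ⟨fun k => rep o j l v (ω ^ (k : ℕ) * b₀) ((ω ^ (k : ℕ) * b₀) * α / β),
    fun k => (hbr k).1, fun k => (hbr k).2.1, fun k => (hbr k).2.2.1, fun k => (hbr k).2.2.2.1,
    fun k => (hbr k).2.2.2.2.1, ?_⟩
  intro R P h
  have h0 := h 0
  have h1 := h 1
  have hrow : ∀ u : Un κ ι → ℂ, rowS o (Ty.two j l) 0 u R P =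
      evS R (xo (Th o (Ty.two j l) 0 u)) + Mh o u * ev P (xo (Th o (Ty.two j l) 0 u)) := by
    intro u
    simp [rowS, Ty.two]
  rw [hrow, (hbr 0).2.2.2.2.1, (hbr 0).2.2.2.2.2] at h0
  rw [hrow, (hbr 1).2.2.2.2.1, (hbr 1).2.2.2.2.2] at h1
  simp only [Fin.val_zero, Fin.val_one, pow_zero, pow_one, one_mul] at h0 h1
  have hsub : (1 - ω ^ 2) * (b₀ ^ 2 * α / β * Dp o j l v) * ev P (xo v) = 0 := by
    have h2 : (1 - ω ^ 2) * (b₀ ^ 2 * α / β * Dp o j l v) * ev P (xo v) =
      (evS R (xo v) + b₀ * (b₀ * α / β) * Dp o j l v * ev P (xo v)) -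
      (evS R (xo v) + ω * b₀ * (ω * b₀ * α / β) * Dp o j l v * ev P (xo v)) := by ring
    rw [h2, h0, h1, sub_zero]
  have hP : ev P (xo v) = 0 := by
    have h3 : (1 - ω ^ 2) * (b₀ ^ 2 * α / β * Dp o j l v) ≠ 0 := by
      apply mul_ne_zero
      · exact sub_ne_zero.mpr (Ne.symm hω2)
      · exact mul_ne_zero (div_ne_zero (mul_ne_zero (pow_ne_zero 2 hb₀0) hα) hβ) hD
    exact (mul_eq_zero.mp hsub).resolve_left h3
  refine ⟨?_, hP⟩
  rw [hP, mul_zero, add_zero] at h0
  exact h0

end Pool.Agent.Helper41.SV
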