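import Pool.Agent.Helper41.SV.Stmts
import Pool.Agent.Helper41.SV.Poly

/-!
Rigidity of cones and of extensions by a vertex of large degree (MP_f2a874_ag).
-/

open Finset Function

noncomputable section

namespace Pool.Agent.Helper41.SV

theorem antisym_pair {d : ℕ} (A : Fin d → Fin d → ℂ) (hA : ∀ i j, A i j = - A j i)
    (a b : Fin d → ℂ) :
    ∑ i, (∑ j, A i j * a j) * b i = - ∑ i, (∑ j, A i j * b j) * a i := by
  simp only [Finset.sum_mul]
  rw [Finset.sum_comm, ← Finset.sum_neg_distrib]
  refine Finset.sum_congr rfl fun i _ => ?_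
  rw [← Finset.sum_neg_distrib]
  refine Finset.sum_congr rfl fun j _ => ?_
  rw [hA j i]
  ring

theorem rigExt : StRigExt := by
  intro V _ _ adj W N d v hNW hd hvW hvv hN hW
  -- `d` elements of `insert v N`
  have hcard : Fintype.card (Fin d) ≤ Fintype.card {x // x ∈ insert v N} := by
    rw [Fintype.card_fin, Fintype.card_coe, Finset.card_insert_of_notMem fun h => hvW (hNW h)]
    exact hd
  obtain ⟨e⟩ := Function.Embedding.nonempty_of_card_le hcard
  have hgen : Gen (fun t : V × Fin d → ℂ =>
      (Matrix.of fun i j : Fin d => t ((e i : V), j)).det ≠ 0) := by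
    refine Gen.of_poly (f := fun t : V × Fin d → ℂ =>
      (Matrix.of fun i j : Fin d => t ((e i : V), j)).det)
      (IsPoly.det fun i j => IsPoly.coord _)
      (t₀ := fun x => if x.1 = (e x.2 : V) then 1 else 0) ?_
    have h1 : (Matrix.of fun i j : Fin d => if (e i : V) = (e j : V) then (1 : ℂ) else 0) = 1 := by
      ext i j
      rw [Matrix.of_apply, Matrix.one_apply]
      by_cases hij : i = j
      · subst hij
        simp
      · rw [if_neg hij, if_neg fun h => hij (e.injective (Subtype.ext h))]
    change (Matrix.of fun i j : Fin d => if (e i : V) = (e j : V) then (1 : ℂ) else 0).det ≠ 0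
    rw [h1, Matrix.det_one]
    exact one_ne_zero
  refine (hW.and hgen).mono fun t ht => ?_
  obtain ⟨ht1, ht2⟩ := ht
  intro P hP
  obtain ⟨A, hA, hAP⟩ := ht1 P fun x hx y hy hxy =>
    hP x (Finset.mem_insert_of_mem hx) y (Finset.mem_insert_of_mem hy) hxy
  refine ⟨A, hA, ?_⟩
  set p := curry t with hp
  -- pairing of `P v` with the chosen vectors
  have key : ∀ x ∈ insert v N, ∑ i, P v i * p x i = ∑ i, (∑ j, A i j * p v j) * p x i := by
    intro x hx
    rcases Finset.mem_insert.1 hx with rfl | hx
    · have h1 := hP x (Finset.mem_insert_self _ _) x (Finset.mem_insert_self _ _) hvv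
      rw [Finset.sum_add_distrib] at h1
      have h2 : ∑ i, P x i * p x i = 0 := by linear_combination h1 / 2
      have h3 := antisym_pair A hA (p x) (p x)
      have h4 : ∑ i, (∑ j, A i j * p x j) * p x i = 0 := by linear_combination h3 / 2
      rw [h2, h4]
    · have h0 : ∑ i, (P v i * p x i + P x i * p v i) = 0 := by
        rcases hN x hx with h | h
        · exact hP v (Finset.mem_insert_self _ _) x (Finset.mem_insert_of_mem (hNW hx)) h
        · have h5 := hP x (Finset.mem_insert_of_mem (hNW hx)) v (Finset.mem_insert_self _ _) h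
          rw [← h5]
          exact Finset.sum_congr rfl fun i _ => add_comm _ _
      rw [Finset.sum_add_distrib] at h0
      have h6 : ∑ i, P x i * p v i = ∑ i, (∑ j, A i j * p x j) * p v i :=
        Finset.sum_congr rfl fun i _ => by rw [hAP x (hNW hx) i]
      have h3 := antisym_pair A hA (p x) (p v)
      linear_combination h0 - h6 - h3
  have hz : (fun i => P v i - ∑ j, A i j * p v j) = 0 := by
    refine Matrix.eq_zero_of_mulVec_eq_zero ht2 ?_
    funext i
    have h7 := key (e i) (e i).2
    simp only [Matrix.mulVec, dotProduct, Matrix.of_apply, Pi.zero_apply]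
    have h8 : ∀ j, t ((e i : V), j) = p (e i) j := fun j => rfl
    simp only [h8, mul_sub]
    rw [Finset.sum_sub_distrib]
    have h9 : ∑ j, p (e i) j * P v j = ∑ j, P v j * p (e i) j :=
      Finset.sum_congr rfl fun j _ => mul_comm _ _
    have h10 : ∑ j, p (e i) j * (∑ k, A j k * p v k) = ∑ j, (∑ k, A j k * p v k) * p (e i) j :=
      Finset.sum_congr rfl fun j _ => mul_comm _ _
    rw [h9, h10, h7, sub_self]
  intro x hx i
  rcases Finset.mem_insert.1 hx with rfl | hx
  · exact sub_eq_zero.1 (congrFun hz i)
  · exact hAP x hx i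

theorem rigCone : StRigCone := by
  intro V _ adj W d p v₀ hW hv₀ hvv hN
  refine ⟨fun w => if w = v₀ then Fin.snoc (α := fun _ => ℂ) (fun _ => 0) 1
    else Fin.snoc (α := fun _ => ℂ) (p w) 0, ?_⟩
  intro P hP
  have hne : ∀ w ∈ W, w ≠ v₀ := fun w hw h => hv₀ (h ▸ hw)
  -- the first coordinates
  obtain ⟨A', hA', hAP⟩ := hW (fun w i => P w i.castSucc) (by
    intro u hu w hw huw
    have h := hP u (Finset.mem_insert_of_mem hu) w (Finset.mem_insert_of_mem hw) huw
    simp only [if_neg (hne u hu), if_neg (hne w hw)] at h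
    rw [Fin.sum_univ_castSucc] at h
    simpa using h)
  -- the last coordinates
  have hlast : ∀ w ∈ W, P w (Fin.last d) = - ∑ i : Fin d, P v₀ i.castSucc * p w i := by
    intro w hw
    have h0 : ∑ i : Fin d, P v₀ i.castSucc * p w i + P w (Fin.last d) = 0 := by
      rcases hN w hw with h | h
      · have h1 := hP v₀ (Finset.mem_insert_self _ _) w (Finset.mem_insert_of_mem hw) h
        simp only [if_neg (hne w hw), if_true] at h1
        rw [Fin.sum_univ_castSucc] at h1
        simpa using h1
      · have h1 := hP w (Finset.mem_insert_of_mem hw) v₀ (Finset.mem_insert_self _ _) h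
        simp only [if_neg (hne w hw), if_true] at h1
        rw [Fin.sum_univ_castSucc] at h1
        simpa using h1
    linear_combination h0
  have hv : P v₀ (Fin.last d) = 0 := by
    have h1 := hP v₀ (Finset.mem_insert_self _ _) v₀ (Finset.mem_insert_self _ _) hvv
    simp only [if_true] at h1
    rw [Fin.sum_univ_castSucc] at h1
    simpa using h1
  refine ⟨Fin.snoc (α := fun _ => Fin (d + 1) → ℂ)
    (fun i => Fin.snoc (α := fun _ => ℂ) (A' i) (P v₀ i.castSucc))
    (Fin.snoc (α := fun _ => ℂ) (fun j => - P v₀ j.castSucc) 0), ?_, ?_⟩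
  · intro i j
    refine Fin.lastCases ?_ (fun i => ?_) i <;> refine Fin.lastCases ?_ (fun j => ?_) j
    · simp
    · simp
    · simp
    · simpa using hA' i j
  · intro w hw i
    rcases Finset.mem_insert.1 hw with rfl | hw
    · rw [Fin.sum_univ_castSucc]
      refine Fin.lastCases ?_ (fun i => ?_) i
      · simp [hv]
      · simp
    · rw [Fin.sum_univ_castSucc]
      refine Fin.lastCases ?_ (fun i => ?_) i
      · simp [hne w hw, hlast w hw]
      · simp [hne w hw, hAP w hw]

end Pool.Agent.Helper41.SV
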