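import Pool.Agent.Helper41.SV.Poly
import Pool.Agent.Helper41.SV.Stmts

/-!
Lowering one side of a box: `StBoxStep` from the cone lemma and the extension lemma.
-/

open Finset Function

noncomputable section

namespace Pool.Agent.Helper41.SV

theorem card_filter_fin {K a b : ℕ} (hb : b < K) :
    ((univ : Finset (Fin K)).filter
      (fun i : Fin K => a ≤ (i : ℕ) ∧ (i : ℕ) ≤ b)).card = b + 1 - a := by
  have h : ((univ : Finset (Fin K)).filter
      (fun i : Fin K => a ≤ (i : ℕ) ∧ (i : ℕ) ≤ b)).map Fin.valEmbedding = Finset.Icc a b := by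
    ext x
    simp only [mem_map, mem_filter, mem_univ, true_and, Fin.valEmbedding_apply, mem_Icc]
    constructor
    · rintro ⟨i, hi, rfl⟩
      exact hi
    · intro hx
      exact ⟨⟨x, lt_of_le_of_lt hx.2 hb⟩, hx, rfl⟩
  rw [← Finset.card_map Fin.valEmbedding, h, Nat.card_Icc]

theorem card_box {κ : Type} [Fintype κ] [DecidableEq κ] {K : ℕ} (c n : κ → ℕ)
    (hn : ∀ m, n m < K) :
    (box c n : Finset (κ → Fin K)).card = ∏ m, (n m + 1 - c m) := by
  have h : (box c n : Finset (κ → Fin K)) = Fintype.piFinset (fun m =>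
      (univ : Finset (Fin K)).filter (fun i : Fin K => c m ≤ (i : ℕ) ∧ (i : ℕ) ≤ n m)) := by
    ext α
    simp [box, Fintype.mem_piFinset]
  rw [h, Fintype.card_piFinset]
  exact Finset.prod_congr rfl fun m _ => card_filter_fin (hn m)

theorem mem_box {κ : Type} [Fintype κ] [DecidableEq κ] {K : ℕ} (c n : κ → ℕ)
    (α : κ → Fin K) : α ∈ box c n ↔ ∀ m, c m ≤ (α m : ℕ) ∧ (α m : ℕ) ≤ n m := by
  simp [box]

theorem one_add_sum_le_prod {κ : Type} [DecidableEq κ] (t : Finset κ) (a : κ → ℕ) :
    1 + ∑ m ∈ t, a m ≤ ∏ m ∈ t, (a m + 1) := by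
  induction t using Finset.induction_on with
  | empty => simp
  | insert x t hx ih =>
    rw [Finset.sum_insert hx, Finset.prod_insert hx]
    nlinarith [Nat.zero_le (a x), Nat.zero_le (∑ m ∈ t, a m),
      Nat.mul_le_mul_left (a x + 1) ih, Nat.zero_le (a x * ∑ m ∈ t, a m)]

theorem two_add_sum_le_prod {κ : Type} [DecidableEq κ] (t : Finset κ) (a : κ → ℕ)
    (h : 2 ≤ (t.filter (fun m => 1 ≤ a m)).card) :
    2 + ∑ m ∈ t, a m ≤ ∏ m ∈ t, (a m + 1) := by
  obtain ⟨x, hx, y, hy, hxy⟩ := Finset.one_lt_card.1 h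
  rw [mem_filter] at hx hy
  have hx' : x ∉ t.erase x := Finset.notMem_erase x t
  have hy1 : y ∈ t.erase x := Finset.mem_erase.2 ⟨hxy.symm, hy.1⟩
  have h1 := one_add_sum_le_prod ((t.erase x).erase y) a
  rw [← Finset.add_sum_erase t a hx.1, ← Finset.add_sum_erase _ a hy1,
    ← Finset.mul_prod_erase t _ hx.1, ← Finset.mul_prod_erase _ _ hy1]
  set P := ∏ m ∈ (t.erase x).erase y, (a m + 1)
  set s := ∑ m ∈ (t.erase x).erase y, a m
  have h2 : 2 + (a x + a y) ≤ (a x + 1) * (a y + 1) := by
    nlinarith [hx.2, hy.2, Nat.mul_le_mul hx.2 hy.2]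
  have h3 : (a x + 1) * (a y + 1) * (1 + s) ≤ (a x + 1) * ((a y + 1) * P) := by
    rw [← mul_assoc]
    exact Nat.mul_le_mul_left _ h1
  have h4 : 2 + (a x + (a y + s)) ≤ (a x + 1) * (a y + 1) * (1 + s) := by
    have h5 : (a x + 1) * (a y + 1) * s ≥ s := Nat.le_mul_of_pos_left _ (by positivity)
    nlinarith [h2, h5]
  exact h4.trans h3

theorem two_pow_sum {κ : Type} [DecidableEq κ] (t : Finset κ) (a : κ → ℕ)
    (h : ∀ m ∈ t, a m ≤ 1) : ∏ m ∈ t, (a m + 1) = 2 ^ (∑ m ∈ t, a m) := by
  rw [← Finset.prod_pow_eq_pow_sum]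
  refine Finset.prod_congr rfl fun m hm => ?_
  have := h m hm
  interval_cases a m <;> rfl

theorem two_pow_ge {x : ℕ} (hx : 2 ≤ x) : x + 2 ≤ 2 ^ x := by
  induction x, hx using Nat.le_induction with
  | base => norm_num
  | succ x hx ih =>
    rw [pow_succ]
    omega

theorem pow_ineq {x y : ℕ} (hx : 1 ≤ x) (hxy : 3 ≤ x + y) : x + y + 3 ≤ 2 ^ x + 2 ^ y := by
  have hx1 : x + 1 ≤ 2 ^ x := Nat.lt_two_pow_self
  have hy1 : y + 1 ≤ 2 ^ y := Nat.lt_two_pow_self
  by_cases h2 : 2 ≤ x
  · have := two_pow_ge h2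
    omega
  · have hy : 2 ≤ y := by omega
    have := two_pow_ge hy
    omega

/-- The numerical inequality behind the extension steps. -/
theorem count_ineq {κ : Type} [DecidableEq κ] (t : Finset κ) (a b : κ → ℕ) (S : ℕ)
    (ha : 1 ≤ ∑ m ∈ t, a m)
    (h : (2 ≤ S ∧ 2 ≤ (t.filter (fun m => 1 ≤ a m + b m)).card) ∨
      (S = 1 ∧ (∀ m ∈ t, a m + b m ≤ 1) ∧ 3 ≤ (t.filter (fun m => 1 ≤ a m + b m)).card)) :
    S + ∑ m ∈ t, a m + ∑ m ∈ t, b m + 2 ≤ ∏ m ∈ t, (a m + 1) + S * ∏ m ∈ t, (b m + 1) := by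
  rcases h with ⟨hS, h2⟩ | ⟨rfl, h1, h3⟩
  · have hA := one_add_sum_le_prod t a
    have hB := one_add_sum_le_prod t b
    set sa := ∑ m ∈ t, a m
    set sb := ∑ m ∈ t, b m with hsb
    by_cases hb : sb = 0
    · have hb0 : ∀ m ∈ t, b m = 0 := by
        rw [hsb] at hb
        exact fun m hm => (Finset.sum_eq_zero_iff.1 hb) m hm
      have hB1 : ∏ m ∈ t, (b m + 1) = 1 := Finset.prod_eq_one fun m hm => by rw [hb0 m hm, zero_add]
      have hfil : t.filter (fun m => 1 ≤ a m + b m) = t.filter (fun m => 1 ≤ a m) := by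
        refine Finset.filter_congr fun m hm => ?_
        rw [hb0 m hm, add_zero]
      rw [hfil] at h2
      have hA2 := two_add_sum_le_prod t a h2
      rw [hB1, hb]
      simp only [mul_one]
      omega
    · have h4 : S * (1 + sb) ≤ S * ∏ m ∈ t, (b m + 1) := Nat.mul_le_mul_left _ hB
      have h5 : S + 2 * sb ≤ S * (1 + sb) := by nlinarith [Nat.mul_le_mul_right sb hS]
      omega
  · rw [two_pow_sum t a (fun m hm => (Nat.le_add_right _ _).trans (h1 m hm)),
      two_pow_sum t b (fun m hm => (Nat.le_add_left _ _).trans (h1 m hm))]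
    have h4 : 3 ≤ ∑ m ∈ t, a m + ∑ m ∈ t, b m := by
      rw [← Finset.sum_add_distrib]
      calc 3 ≤ (t.filter (fun m => 1 ≤ a m + b m)).card := h3
        _ = ∑ m ∈ t.filter (fun m => 1 ≤ a m + b m), 1 := by simp
        _ ≤ ∑ m ∈ t.filter (fun m => 1 ≤ a m + b m), (a m + b m) :=
          Finset.sum_le_sum fun m hm => (mem_filter.1 hm).2
        _ ≤ ∑ m ∈ t, (a m + b m) :=
          Finset.sum_le_sum_of_subset (Finset.filter_subset _ _)
    have := pow_ineq ha h4
    omega

theorem boxStep : StRigGen → StRigCone → StRigExt → StBoxStep := by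
  intro hGen hCone hExt κ _ _ K d c n j hcn hnK hj hd halt ⟨p, hp⟩
  -- the corner
  let v₀ : κ → Fin K := fun m => ⟨c m, lt_of_le_of_lt (hcn m) (hnK m)⟩
  set B1 : Finset (κ → Fin K) := box (update c j (c j + 1)) n with hB1
  have memB1 : ∀ α : κ → Fin K, α ∈ B1 ↔ α ∈ (box c n : Finset (κ → Fin K)) ∧ c j < (α j : ℕ) := by
    intro α
    rw [hB1, mem_box, mem_box]
    constructor
    · intro h
      refine ⟨fun m => ⟨?_, (h m).2⟩, ?_⟩
      · by_cases hm : m = j
        · subst hm
          have := (h m).1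
          rw [update_self] at this
          omega
        · have := (h m).1
          rwa [update_of_ne hm] at this
      · have := (h j).1
        rw [update_self] at this
        omega
    · rintro ⟨h, h'⟩ m
      refine ⟨?_, (h m).2⟩
      by_cases hm : m = j
      · subst hm
        rw [update_self]
        omega
      · rw [update_of_ne hm]
        exact (h m).1
  have hv₀ : v₀ ∉ B1 := fun h => lt_irrefl _ ((memB1 v₀).1 h).2
  have hle : ∀ w ∈ B1, v₀ ≤ w := by
    intro w hw m
    exact ((mem_box _ _ _).1 ((memB1 w).1 hw).1 m).1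
  obtain ⟨p', hp'⟩ := hCone (κ → Fin K) (fun α β => α ≤ β) B1 d p v₀ hp hv₀ le_rfl
    fun w hw => Or.inl (hle w hw)
  have h0 := hGen (κ → Fin K) (fun α β => α ≤ β) (insert v₀ B1) (d + 1) p' hp'
  -- the levels
  let W : ℕ → Finset (κ → Fin K) := fun k =>
    (box c n : Finset (κ → Fin K)).filter (fun α => c j < (α j : ℕ) ∨ ∑ m, (α m : ℕ) < k)
  have memW : ∀ k (α : κ → Fin K), α ∈ W k ↔
      α ∈ (box c n : Finset (κ → Fin K)) ∧ (c j < (α j : ℕ) ∨ ∑ m, (α m : ℕ) < k) := by
    intro k α
    simp [W]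
  have hW0 : W (∑ m, c m + 1) = insert v₀ B1 := by
    ext α
    rw [memW, mem_insert, memB1]
    constructor
    · rintro ⟨h1, h2⟩
      by_cases h3 : c j < (α j : ℕ)
      · exact Or.inr ⟨h1, h3⟩
      · left
        have h4 : ∑ m, (α m : ℕ) ≤ ∑ m, c m := by
          rcases h2 with h2 | h2
          · exact absurd h2 h3
          · omega
        have h5 : ∀ m ∈ (univ : Finset κ), c m ≤ (α m : ℕ) :=
          fun m _ => ((mem_box _ _ _).1 h1 m).1
        have h6 : ∑ m, c m = ∑ m, (α m : ℕ) := le_antisymm (Finset.sum_le_sum h5) h4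
        have h7 := (Finset.sum_eq_sum_iff_of_le h5).1 h6
        funext m
        exact Fin.ext (h7 m (mem_univ m)).symm
    · rintro (rfl | ⟨h1, h2⟩)
      · refine ⟨(mem_box _ _ _).2 fun m => ⟨le_rfl, hcn m⟩, Or.inr ?_⟩
        exact Nat.lt_succ_self _
      · exact ⟨h1, Or.inl h2⟩
  -- one extension
  have step1 : ∀ (k : ℕ) (v : κ → Fin K) (U : Finset (κ → Fin K)), ∑ m, c m + 1 ≤ k →
      v ∈ (box c n : Finset (κ → Fin K)) → (v j : ℕ) = c j → ∑ m, (v m : ℕ) = k →
      W k ⊆ U → v ∉ U →
      Gen (fun t : (κ → Fin K) × Fin (d + 1) → ℂ => RigOn (fun α β => α ≤ β) U (curry t)) →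
      Gen (fun t : (κ → Fin K) × Fin (d + 1) → ℂ =>
        RigOn (fun α β => α ≤ β) (insert v U) (curry t)) := by
    intro k v U hk hv hvj hvk hWU hvU hU
    have hvb := (mem_box _ _ _).1 hv
    let N1 : Finset (κ → Fin K) := (box c (fun m => (v m : ℕ))).erase v
    let N2 : Finset (κ → Fin K) := box (update (fun m => (v m : ℕ)) j (c j + 1)) n
    have hN1 : ∀ w ∈ N1, w ≤ v ∧ w ≠ v ∧ w ∈ (box c n : Finset (κ → Fin K)) ∧ (w j : ℕ) = c j := by
      intro w hw
      obtain ⟨h1, h2⟩ := Finset.mem_erase.1 hw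
      rw [mem_box] at h2
      refine ⟨fun m => (h2 m).2, h1, (mem_box _ _ _).2 fun m =>
        ⟨(h2 m).1, (h2 m).2.trans (hvb m).2⟩, ?_⟩
      have := h2 j
      omega
    have hN2 : ∀ w ∈ N2, v ≤ w ∧ w ∈ (box c n : Finset (κ → Fin K)) ∧ c j < (w j : ℕ) := by
      intro w hw
      rw [mem_box] at hw
      have hwj := (hw j).1
      rw [update_self] at hwj
      have hvw : ∀ m, (v m : ℕ) ≤ (w m : ℕ) := by
        intro m
        by_cases hm : m = j
        · subst hm
          omega
        · have := (hw m).1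
          rwa [update_of_ne hm] at this
      exact ⟨fun m => hvw m, (mem_box _ _ _).2 fun m =>
        ⟨(hvb m).1.trans (hvw m), (hw m).2⟩, by omega⟩
    have hdisj : Disjoint N1 N2 := by
      rw [Finset.disjoint_left]
      intro w h1 h2
      have e1 := (hN1 w h1).2.2.2
      have e2 := (hN2 w h2).2.2
      omega
    refine hExt (κ → Fin K) (fun α β => α ≤ β) U (N1 ∪ N2) (d + 1) v ?_ ?_ hvU le_rfl ?_ hU
    · refine Finset.Subset.trans ?_ hWU
      intro w hw
      rw [memW]
      rcases Finset.mem_union.1 hw with hw | hw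
      · obtain ⟨h1, h2, h3, _⟩ := hN1 w hw
        refine ⟨h3, Or.inr ?_⟩
        rw [← hvk]
        have hlt : w < v := lt_of_le_of_ne h1 h2
        obtain ⟨_, i, hi⟩ := Pi.lt_def.1 hlt
        exact Finset.sum_lt_sum (fun m _ => h1 m) ⟨i, mem_univ i, hi⟩
      · obtain ⟨_, h2, h3⟩ := hN2 w hw
        exact ⟨h2, Or.inl h3⟩
    · -- the count
      rw [Finset.card_union_of_disjoint hdisj]
      have hvK : ∀ m, (v m : ℕ) < K := fun m => (v m).2
      have hvmem : v ∈ (box c (fun m => (v m : ℕ)) : Finset (κ → Fin K)) :=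
        (mem_box _ _ _).2 fun m => ⟨(hvb m).1, le_rfl⟩
      have hc1 : N1.card + 1 = ∏ m ∈ univ.erase j, (((v m : ℕ) - c m) + 1) := by
        rw [Finset.card_erase_add_one hvmem, card_box _ _ hvK,
          ← Finset.mul_prod_erase univ _ (mem_univ j), hvj, Nat.add_sub_cancel_left, one_mul]
        refine Finset.prod_congr rfl fun m _ => ?_
        have := (hvb m).1
        omega
      have hc2 : N2.card = (n j - c j) * ∏ m ∈ univ.erase j, ((n m - (v m : ℕ)) + 1) := by
        rw [card_box _ _ hnK, ← Finset.mul_prod_erase univ _ (mem_univ j), update_self]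
        congr 1
        · omega
        · refine Finset.prod_congr rfl fun m hm => ?_
          rw [update_of_ne (Finset.ne_of_mem_erase hm)]
          have := (hvb m).2
          omega
      have hab : ∀ m, ((v m : ℕ) - c m) + (n m - (v m : ℕ)) = n m - c m := by
        intro m
        have := hvb m
        omega
      have hfil : (univ.erase j).filter
          (fun m => 1 ≤ ((v m : ℕ) - c m) + (n m - (v m : ℕ))) =
          (univ.erase j).filter (fun m => c m < n m) := by
        refine Finset.filter_congr fun m _ => ?_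
        rw [hab]
        omega
      have hsum : ∑ m ∈ univ.erase j, ((v m : ℕ) - c m) +
          ∑ m ∈ univ.erase j, (n m - (v m : ℕ)) = ∑ m ∈ univ.erase j, (n m - c m) := by
        rw [← Finset.sum_add_distrib]
        exact Finset.sum_congr rfl fun m _ => hab m
      have hd' : d = (n j - c j) + ∑ m ∈ univ.erase j, (n m - c m) + 1 := by
        rw [hd, ← Finset.add_sum_erase univ _ (mem_univ j)]
      have ha1 : 1 ≤ ∑ m ∈ univ.erase j, ((v m : ℕ) - c m) := by
        have e1 : ∑ m, (v m : ℕ) = ∑ m, c m + ∑ m, ((v m : ℕ) - c m) := by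
          rw [← Finset.sum_add_distrib]
          refine Finset.sum_congr rfl fun m _ => ?_
          have := (hvb m).1
          omega
        have e2 : ∑ m, ((v m : ℕ) - c m) = ∑ m ∈ univ.erase j, ((v m : ℕ) - c m) := by
          rw [← Finset.add_sum_erase univ _ (mem_univ j), hvj, Nat.sub_self, zero_add]
        omega
      have key := count_ineq (univ.erase j) (fun m => (v m : ℕ) - c m)
        (fun m => n m - (v m : ℕ)) (n j - c j) ha1 (by
          rw [hfil]
          rcases halt with h | ⟨h1, h2⟩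
          · exact Or.inl h
          · refine Or.inr ⟨?_, fun m _ => ?_, h2⟩
            · have := h1 j
              omega
            · rw [hab]
              exact h1 m)
      rw [← hc1, ← hc2] at key
      omega
    · intro w hw
      rcases Finset.mem_union.1 hw with hw | hw
      · exact Or.inr (hN1 w hw).1
      · exact Or.inl (hN2 w hw).1
  -- one level
  have step2 : ∀ k, ∑ m, c m + 1 ≤ k →
      Gen (fun t : (κ → Fin K) × Fin (d + 1) → ℂ => RigOn (fun α β => α ≤ β) (W k) (curry t)) →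
      Gen (fun t : (κ → Fin K) × Fin (d + 1) → ℂ =>
        RigOn (fun α β => α ≤ β) (W (k + 1)) (curry t)) := by
    intro k hk hW
    let L : Finset (κ → Fin K) := (box c n : Finset (κ → Fin K)).filter
      (fun α => (α j : ℕ) = c j ∧ ∑ m, (α m : ℕ) = k)
    have key : ∀ T : Finset (κ → Fin K), T ⊆ L →
        Gen (fun t : (κ → Fin K) × Fin (d + 1) → ℂ =>
          RigOn (fun α β => α ≤ β) (T ∪ W k) (curry t)) := by
      intro T
      induction T using Finset.induction_on with
      | empty =>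
        intro _
        rwa [Finset.empty_union]
      | insert v T hvT ih =>
        intro hT
        have hv := hT (Finset.mem_insert_self v T)
        obtain ⟨hv1, hv2, hv3⟩ := Finset.mem_filter.1 hv
        rw [Finset.insert_union]
        refine step1 k v (T ∪ W k) hk hv1 hv2 hv3 Finset.subset_union_right ?_
          (ih fun w hw => hT (Finset.mem_insert_of_mem hw))
        rw [Finset.mem_union, memW]
        rintro (h | ⟨_, h | h⟩)
        · exact hvT h
        · omega
        · omega
    have hWk : W (k + 1) = L ∪ W k := by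
      ext α
      rw [Finset.mem_union, memW, memW, Finset.mem_filter]
      constructor
      · rintro ⟨h1, h2⟩
        by_cases h3 : c j < (α j : ℕ)
        · exact Or.inr ⟨h1, Or.inl h3⟩
        · have h4 : c j ≤ (α j : ℕ) := ((mem_box _ _ _).1 h1 j).1
          rcases h2 with h2 | h2
          · exact absurd h2 h3
          · by_cases h5 : ∑ m, (α m : ℕ) < k
            · exact Or.inr ⟨h1, Or.inr h5⟩
            · exact Or.inl ⟨h1, by omega, by omega⟩
      · rintro (⟨h1, h2, h3⟩ | ⟨h1, h2⟩)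
        · exact ⟨h1, Or.inr (by omega)⟩
        · refine ⟨h1, ?_⟩
          rcases h2 with h2 | h2
          · exact Or.inl h2
          · exact Or.inr (by omega)
    rw [hWk]
    exact key L subset_rfl
  have step3 : ∀ k, ∑ m, c m + 1 ≤ k →
      Gen (fun t : (κ → Fin K) × Fin (d + 1) → ℂ =>
        RigOn (fun α β => α ≤ β) (W k) (curry t)) := by
    intro k hk
    induction k, hk using Nat.le_induction with
    | base =>
      rw [hW0]
      exact h0
    | succ k hk ih => exact step2 k hk ih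
  have hlast : W (∑ m, n m + ∑ m, c m + 1) = (box c n : Finset (κ → Fin K)) := by
    ext α
    rw [memW]
    constructor
    · exact fun h => h.1
    · intro h
      refine ⟨h, Or.inr ?_⟩
      have h1 : ∑ m, (α m : ℕ) ≤ ∑ m, n m :=
        Finset.sum_le_sum fun m _ => ((mem_box _ _ _).1 h m).2
      omega
  have hfin := step3 (∑ m, n m + ∑ m, c m + 1) (by omega)
  rw [hlast] at hfin
  obtain ⟨t, ht⟩ := hfin.exists
  exact ⟨curry t, ht⟩

end Pool.Agent.Helper41.SV
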