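import Pool.Agent.Helper41.SV.Stmts

/-!
Rigidity of all nonexceptional boxes, from the box step and the three base cases.
-/

open Finset Function

noncomputable section

namespace Pool.Agent.Helper41.SV

theorem r5_transport {V1 V2 : Type} [Fintype V1] (adj1 : V1 → V1 → Prop) (adj2 : V2 → V2 → Prop)
    (W2 : Finset V2) {d : ℕ} (p1 : V1 → Fin d → ℂ) (φ : V1 → V2) (ψ : V2 → V1)
    (h1 : ∀ u, ψ (φ u) = u) (h2 : ∀ v ∈ W2, φ (ψ v) = v) (h3 : ∀ u, φ u ∈ W2)
    (h4 : ∀ u v, adj1 u v → adj2 (φ u) (φ v)) (hr : RigOn adj1 univ p1) :
    RigOn adj2 W2 (fun v => p1 (ψ v)) := by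
  intro P hP
  obtain ⟨A, hA, hAP⟩ := hr (fun u => P (φ u)) (by
    intro u _ v _ huv
    have := hP (φ u) (h3 u) (φ v) (h3 v) (h4 u v huv)
    simpa only [h1] using this)
  refine ⟨A, hA, fun v hv i => ?_⟩
  have := hAP (ψ v) (mem_univ _) i
  simp only [h2 v hv] at this
  exact this

section tr3

variable {κ : Type} [Fintype κ] [DecidableEq κ]

/-- The embedding of a product of three chains. -/
def r5val (c : κ → ℕ) (a b e : κ) {x y z : ℕ} (u : Fin (x + 1) × Fin (y + 1) × Fin (z + 1))
    (m : κ) : ℕ :=
  c m + (if m = a then (u.1 : ℕ) else if m = b then (u.2.1 : ℕ) else if m = e then (u.2.2 : ℕ)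
    else 0)

theorem r5_tr3 (K : ℕ) (c n : κ → ℕ) (hcn : ∀ m, c m ≤ n m) (hK : ∀ m, n m < K) (a b e : κ)
    (hab : a ≠ b) (hae : a ≠ e) (hbe : b ≠ e) (x y z : ℕ) (hx : n a = c a + x)
    (hy : n b = c b + y) (hz : n e = c e + z)
    (ho : ∀ m, m ≠ a → m ≠ b → m ≠ e → n m = c m) {d : ℕ}
    (h : ∃ p : (Fin (x + 1) × Fin (y + 1) × Fin (z + 1)) → Fin d → ℂ,
      RigOn (fun α β => α ≤ β) univ p) :
    ∃ p : (κ → Fin K) → Fin d → ℂ, RigOn (fun α β => α ≤ β) (box c n) p := by
  obtain ⟨p, hp⟩ := h
  have hval : ∀ (u : Fin (x + 1) × Fin (y + 1) × Fin (z + 1)) (m : κ), r5val c a b e u m ≤ n m := by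
    intro u m
    have h1 := u.1.2
    have h2 := u.2.1.2
    have h3 := u.2.2.2
    unfold r5val
    split_ifs with ha hb he
    · subst ha; omega
    · subst hb; omega
    · subst he; omega
    · have := hcn m
      omega
  let φ : (Fin (x + 1) × Fin (y + 1) × Fin (z + 1)) → (κ → Fin K) :=
    fun u m => ⟨r5val c a b e u m, lt_of_le_of_lt (hval u m) (hK m)⟩
  let ψ : (κ → Fin K) → (Fin (x + 1) × Fin (y + 1) × Fin (z + 1)) :=
    fun α => (Fin.ofNat (x + 1) ((α a : ℕ) - c a), Fin.ofNat (y + 1) ((α b : ℕ) - c b),
      Fin.ofNat (z + 1) ((α e : ℕ) - c e))
  refine ⟨fun v => p (ψ v), r5_transport (fun α β => α ≤ β) (fun α β => α ≤ β) (box c n) p φ ψ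
    ?_ ?_ ?_ ?_ hp⟩
  · intro u
    have h1 := u.1.2
    have h2 := u.2.1.2
    have h3 := u.2.2.2
    refine Prod.ext ?_ (Prod.ext ?_ ?_)
    · apply Fin.ext
      simp only [ψ, φ, r5val, if_true, Fin.val_ofNat, add_tsub_cancel_left]
      exact Nat.mod_eq_of_lt h1
    · apply Fin.ext
      simp only [ψ, φ, r5val, if_neg hab.symm, if_true, Fin.val_ofNat, add_tsub_cancel_left]
      exact Nat.mod_eq_of_lt h2
    · apply Fin.ext
      simp only [ψ, φ, r5val, if_neg hae.symm, if_neg hbe.symm, if_true, Fin.val_ofNat,
        add_tsub_cancel_left]
      exact Nat.mod_eq_of_lt h3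
  · intro v hv
    simp only [box, mem_filter, mem_univ, true_and] at hv
    funext m
    apply Fin.ext
    have hm := hv m
    simp only [ψ, φ, r5val, Fin.val_ofNat]
    split_ifs with ha hb he
    · subst ha
      rw [Nat.mod_eq_of_lt (by omega)]
      omega
    · subst hb
      rw [Nat.mod_eq_of_lt (by omega)]
      omega
    · subst he
      rw [Nat.mod_eq_of_lt (by omega)]
      omega
    · have := ho m ha hb he
      omega
  · intro u
    simp only [box, mem_filter, mem_univ, true_and]
    intro m
    exact ⟨by simp only [φ, r5val]; omega, hval u m⟩
  · intro u v huv m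
    have h1 : (u.1 : ℕ) ≤ v.1 := huv.1
    have h2 : (u.2.1 : ℕ) ≤ v.2.1 := huv.2.1
    have h3 : (u.2.2 : ℕ) ≤ v.2.2 := huv.2.2
    show r5val c a b e u m ≤ r5val c a b e v m
    unfold r5val
    split_ifs <;> omega

open Classical in
theorem r5_tr4 (K : ℕ) (c n : κ → ℕ) (hcn : ∀ m, c m ≤ n m) (hK : ∀ m, n m < K) (f : Fin 4 → κ)
    (hf : Injective f) (h1 : ∀ i, n (f i) = c (f i) + 1)
    (ho : ∀ m, m ∉ Set.range f → n m = c m) {d : ℕ}
    (h : ∃ p : (Fin 4 → Fin 2) → Fin d → ℂ, RigOn (fun α β => α ≤ β) univ p) :
    ∃ p : (κ → Fin K) → Fin d → ℂ, RigOn (fun α β => α ≤ β) (box c n) p := by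
  obtain ⟨p, hp⟩ := h
  let val : (Fin 4 → Fin 2) → κ → ℕ :=
    fun u m => c m + (if h : ∃ i, f i = m then (u h.choose : ℕ) else 0)
  have hvf : ∀ u i, val u (f i) = c (f i) + u i := by
    intro u i
    have hex : ∃ j, f j = f i := ⟨i, rfl⟩
    simp only [val, dif_pos hex]
    rw [hf hex.choose_spec]
  have hvo : ∀ u m, m ∉ Set.range f → val u m = c m := by
    intro u m hm
    have hex : ¬ ∃ j, f j = m := hm
    simp only [val, dif_neg hex, add_zero]
  have hval : ∀ u m, c m ≤ val u m ∧ val u m ≤ n m := by
    intro u m
    by_cases hm : m ∈ Set.range f
    · obtain ⟨i, rfl⟩ := hm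
      rw [hvf, h1]
      have := (u i).2
      omega
    · rw [hvo u m hm, ho m hm]
      omega
  let φ : (Fin 4 → Fin 2) → (κ → Fin K) :=
    fun u m => ⟨val u m, lt_of_le_of_lt (hval u m).2 (hK m)⟩
  let ψ : (κ → Fin K) → (Fin 4 → Fin 2) := fun α i => Fin.ofNat 2 ((α (f i) : ℕ) - c (f i))
  refine ⟨fun v => p (ψ v), r5_transport (fun α β => α ≤ β) (fun α β => α ≤ β) (box c n) p φ ψ
    ?_ ?_ ?_ ?_ hp⟩
  · intro u
    funext i
    apply Fin.ext
    simp only [ψ, φ, hvf, Fin.val_ofNat, add_tsub_cancel_left]
    exact Nat.mod_eq_of_lt (u i).2
  · intro v hv
    simp only [box, mem_filter, mem_univ, true_and] at hv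
    funext m
    apply Fin.ext
    have hm := hv m
    by_cases hmr : m ∈ Set.range f
    · obtain ⟨i, rfl⟩ := hmr
      simp only [φ, hvf, ψ, Fin.val_ofNat]
      rw [h1] at hm
      rw [Nat.mod_eq_of_lt (by omega)]
      omega
    · simp only [φ, hvo _ m hmr]
      have := ho m hmr
      omega
  · intro u
    simp only [box, mem_filter, mem_univ, true_and]
    intro m
    exact hval u m
  · intro u v huv m
    show val u m ≤ val v m
    by_cases hmr : m ∈ Set.range f
    · obtain ⟨i, rfl⟩ := hmr
      rw [hvf, hvf]
      have : (u i : ℕ) ≤ v i := huv i
      omega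
    · rw [hvo _ m hmr, hvo _ m hmr]

end tr3

theorem boxAll : StBoxStep → StBase1111 → StBase122 → StBase114 → StBox := by
  intro hstep hb1 hb2 hb3 κ _ _ K c n hcn hK
  have key : ∀ (N : ℕ) (c : κ → ℕ), ∑ m, (n m - c m) = N → (∀ m, c m ≤ n m) →
      3 ≤ (univ.filter (fun m => c m < n m)).card →
      ¬ ((univ.filter (fun m => c m < n m)).card = 3 ∧
        ∃ i, (∀ m, m ≠ i → n m - c m ≤ 1) ∧ n i - c i ≤ 3) →
      ∃ p : (κ → Fin K) → Fin (N + 2) → ℂ, RigOn (fun α β => α ≤ β) (box c n) p := by
    intro N
    induction N using Nat.strong_induction_on with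
    | _ N ih =>
    intro c hN hcn h3 hne
    -- facts on lowering
    have hsum : ∀ j, c j < n j → ∑ m, (n m - update c j (c j + 1) m) + 1 = N := by
      intro j hj
      rw [← hN, ← Finset.add_sum_erase _ _ (mem_univ j), ← Finset.add_sum_erase univ
        (fun m => n m - c m) (mem_univ j)]
      have e1 : ∑ m ∈ univ.erase j, (n m - update c j (c j + 1) m) =
          ∑ m ∈ univ.erase j, (n m - c m) := by
        refine Finset.sum_congr rfl fun m hm => ?_
        rw [update_of_ne (ne_of_mem_erase hm)]
      rw [e1, update_self]
      omega
    have hle : ∀ j, c j < n j → ∀ m, update c j (c j + 1) m ≤ n m := by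
      intro j hj m
      by_cases hm : m = j
      · subst hm
        rw [update_self]
        omega
      · rw [update_of_ne hm]
        exact hcn m
    have hcard : ∀ j, c j < n j → ((univ.erase j).filter (fun m => c m < n m)).card + 1 =
        (univ.filter (fun m => c m < n m)).card := by
      intro j hj
      rw [Finset.filter_erase, Finset.card_erase_add_one]
      simp only [mem_filter, mem_univ, true_and]
      exact hj
    have hstep' : ∀ j, c j < n j →
        ((2 ≤ n j - c j ∧ 2 ≤ ((univ.erase j).filter (fun m => c m < n m)).card) ∨
          ((∀ m, n m - c m ≤ 1) ∧ 3 ≤ ((univ.erase j).filter (fun m => c m < n m)).card)) →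
        3 ≤ (univ.filter (fun m => update c j (c j + 1) m < n m)).card →
        ¬ ((univ.filter (fun m => update c j (c j + 1) m < n m)).card = 3 ∧
          ∃ i, (∀ m, m ≠ i → n m - update c j (c j + 1) m ≤ 1) ∧
            n i - update c j (c j + 1) i ≤ 3) →
        ∃ p : (κ → Fin K) → Fin (N + 2) → ℂ, RigOn (fun α β => α ≤ β) (box c n) p := by
      intro j hj halt h3' hne'
      have hs := hsum j hj
      obtain ⟨M, hM⟩ : ∃ M, N = M + 1 := ⟨_, hs.symm⟩
      subst hM
      have hs' : ∑ m, (n m - update c j (c j + 1) m) = M := by omega
      have := ih M (by omega) (update c j (c j + 1)) hs' (hle j hj) h3' hne'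
      exact hstep κ K (M + 2) c n j hcn hK hj (by omega) halt this
    by_cases hex : ∃ j, 2 ≤ n j - c j ∧
        ¬ ((univ.filter (fun m => update c j (c j + 1) m < n m)).card = 3 ∧
          ∃ i, (∀ m, m ≠ i → n m - update c j (c j + 1) m ≤ 1) ∧
            n i - update c j (c j + 1) i ≤ 3)
    · obtain ⟨j, hj2, hj⟩ := hex
      have hjlt : c j < n j := by omega
      have hact : (univ.filter (fun m => update c j (c j + 1) m < n m)) =
          (univ.filter (fun m => c m < n m)) := by
        ext m
        simp only [mem_filter, mem_univ, true_and]
        by_cases hm : m = j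
        · subst hm
          rw [update_self]
          omega
        · rw [update_of_ne hm]
      refine hstep' j hjlt (Or.inl ⟨hj2, ?_⟩) (by rw [hact]; exact h3) hj
      have := hcard j hjlt
      omega
    · by_cases hall : ∀ m, n m - c m ≤ 1
      · -- all sides at most one
        have hc3 : (univ.filter (fun m => c m < n m)).card ≠ 3 := by
          intro h
          have hne0 : (univ.filter (fun m => c m < n m)).Nonempty := by
            rw [← card_pos]; omega
          obtain ⟨i, _⟩ := hne0
          exact hne ⟨h, i, fun m _ => hall m, (hall i).trans (by norm_num)⟩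
        by_cases hc4 : (univ.filter (fun m => c m < n m)).card = 4
        · -- base case
          have e := (Finset.equivFinOfCardEq hc4).symm
          have hN4 : N = 4 := by
            rw [← hN, ← hc4, Finset.card_filter]
            refine Finset.sum_congr rfl fun m _ => ?_
            have := hall m
            split_ifs <;> omega
          subst hN4
          refine r5_tr4 K c n hcn hK (fun i => (e i : κ)) ?_ ?_ ?_ hb1
          · intro i j hij
            exact e.injective (Subtype.ext hij)
          · intro i
            have h1 := (e i).2
            simp only [mem_filter, mem_univ, true_and] at h1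
            have := hall (e i)
            omega
          · intro m hm
            by_contra hcon
            apply hm
            have h1 : m ∈ univ.filter (fun m => c m < n m) := by
              simp only [mem_filter, mem_univ, true_and]
              have := hcn m
              omega
            exact ⟨e.symm ⟨m, h1⟩, by simp⟩
        · -- at least five active
          have hne0 : (univ.filter (fun m => c m < n m)).Nonempty := by
            rw [← card_pos]; omega
          obtain ⟨j, hj⟩ := hne0
          simp only [mem_filter, mem_univ, true_and] at hj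
          have hact : (univ.filter (fun m => update c j (c j + 1) m < n m)) =
              ((univ.erase j).filter (fun m => c m < n m)) := by
            ext m
            simp only [mem_filter, mem_univ, true_and, mem_erase, and_true]
            by_cases hm : m = j
            · subst hm
              rw [update_self]
              have := hall m
              simp
              omega
            · rw [update_of_ne hm]
              simp [hm]
          have h1 := hcard j hj
          refine hstep' j hj (Or.inr ⟨hall, by omega⟩) (by rw [hact]; omega) ?_
          rintro ⟨h2, _⟩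
          rw [hact] at h2
          omega
      · -- three active, type (1,2,2) or (1,1,4)
        push Not at hall
        obtain ⟨j, hj⟩ := hall
        have hj2 : 2 ≤ n j - c j := hj
        have hexc : ∀ j, 2 ≤ n j - c j → (univ.filter (fun m => c m < n m)).card = 3 ∧
            ∃ i, (∀ m, m ≠ i → n m - update c j (c j + 1) m ≤ 1) ∧
              n i - update c j (c j + 1) i ≤ 3 := by
          intro j hj2
          have h1 : (univ.filter (fun m => update c j (c j + 1) m < n m)).card = 3 ∧
              ∃ i, (∀ m, m ≠ i → n m - update c j (c j + 1) m ≤ 1) ∧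
                n i - update c j (c j + 1) i ≤ 3 := by
            by_contra hcon
            exact hex ⟨j, hj2, hcon⟩
          have hact : (univ.filter (fun m => update c j (c j + 1) m < n m)) =
              (univ.filter (fun m => c m < n m)) := by
            ext m
            simp only [mem_filter, mem_univ, true_and]
            by_cases hm : m = j
            · subst hm
              rw [update_self]
              omega
            · rw [update_of_ne hm]
          rw [hact] at h1
          exact h1
        obtain ⟨hc3, i, hi1, hi2⟩ := hexc j hj2
        obtain ⟨a, b, e, hab, hae, hbe, hset⟩ := Finset.card_eq_three.1 hc3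
        have hmem : ∀ m, c m < n m ↔ (m = a ∨ m = b ∨ m = e) := by
          intro m
          have : m ∈ univ.filter (fun m => c m < n m) ↔ m ∈ ({a, b, e} : Finset κ) := by
            rw [hset]
          simpa using this
        have hsum3 : N = (n a - c a) + (n b - c b) + (n e - c e) := by
          rw [← hN, ← Finset.sum_subset (Finset.subset_univ ({a, b, e} : Finset κ))]
          · rw [Finset.sum_insert (by simp [hab, hae]), Finset.sum_insert (by simp [hbe]),
              Finset.sum_singleton]
            ring
          · intro m _ hm
            have h1 : ¬ c m < n m := by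
              rw [hmem]
              simpa using hm
            omega
        have hother : ∀ m, ¬ (m = a ∨ m = b ∨ m = e) → n m = c m := by
          intro m hm
          have h1 : ¬ c m < n m := by
            rw [hmem]
            exact hm
          have := hcn m
          omega
        -- transport for an ordered triple
        have fin3 : ∀ (u v w : κ) (x y z : ℕ), u ≠ v → u ≠ w → v ≠ w →
            (∀ m, (m = a ∨ m = b ∨ m = e) ↔ (m = u ∨ m = v ∨ m = w)) →
            n u - c u = x → n v - c v = y → n w - c w = z →
            (∃ p : (Fin (x + 1) × Fin (y + 1) × Fin (z + 1)) → Fin (x + y + z + 2) → ℂ,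
              RigOn (fun α β => α ≤ β) univ p) →
            ∃ p : (κ → Fin K) → Fin (N + 2) → ℂ, RigOn (fun α β => α ≤ β) (box c n) p := by
          intro u v w x y z huv huw hvw hiff hx hy hz hp
          have hN' : N = x + y + z := by
            have hset' : ({a, b, e} : Finset κ) = {u, v, w} := by
              ext m
              simpa using hiff m
            rw [← hN, ← Finset.sum_subset (Finset.subset_univ ({u, v, w} : Finset κ))]
            · rw [Finset.sum_insert (by simp [huv, huw]), Finset.sum_insert (by simp [hvw]),
                Finset.sum_singleton, hx, hy, hz]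
              ring
            · intro m _ hm
              have h1 : ¬ c m < n m := by
                rw [hmem, hiff]
                simpa using hm
              omega
          subst hN'
          have h1 := hcn u
          have h2 := hcn v
          have h3 := hcn w
          refine r5_tr3 K c n hcn hK u v w huv huw hvw x y z (by omega) (by omega) (by omega)
            ?_ hp
          intro m hm1 hm2 hm3
          apply hother
          rw [hiff]
          tauto
        have hpos : ∀ m, (m = a ∨ m = b ∨ m = e) → 1 ≤ n m - c m := by
          intro m hm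
          have := (hmem m).2 hm
          omega
        have hjm : j = a ∨ j = b ∨ j = e := (hmem j).1 (by omega)
        by_cases hij : i = j
        · -- type (1,1,4)
          subst hij
          rw [update_self] at hi2
          have hoth : ∀ m, m ≠ i → n m - c m ≤ 1 := by
            intro m hm
            have := hi1 m hm
            rwa [update_of_ne hm] at this
          have hi4 : n i - c i = 4 := by
            by_contra hcon
            exact hne ⟨hc3, i, hoth, by omega⟩
          have hb3' : ∃ p : (Fin (1 + 1) × Fin (1 + 1) × Fin (4 + 1)) → Fin (1 + 1 + 4 + 2) → ℂ,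
              RigOn (fun α β => α ≤ β) univ p := hb3
          rcases hjm with rfl | rfl | rfl
          · refine fin3 b e i 1 1 4 hbe hab.symm hae.symm (by intro m; tauto) ?_ ?_ hi4 hb3'
            · have := hpos b (by tauto)
              have := hoth b hab.symm
              omega
            · have := hpos e (by tauto)
              have := hoth e hae.symm
              omega
          · refine fin3 a e i 1 1 4 hae hab hbe.symm (by intro m; tauto) ?_ ?_ hi4 hb3'
            · have := hpos a (by tauto)
              have := hoth a hab
              omega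
            · have := hpos e (by tauto)
              have := hoth e hbe.symm
              omega
          · refine fin3 a b i 1 1 4 hab hae hbe (by intro m; tauto) ?_ ?_ hi4 hb3'
            · have := hpos a (by tauto)
              have := hoth a hae
              omega
            · have := hpos b (by tauto)
              have := hoth b hbe
              omega
        · -- type (1,2,2)
          have hsj : n j - c j = 2 := by
            have := hi1 j (Ne.symm hij)
            rw [update_self] at this
            omega
          have hoth : ∀ m, m ≠ i → m ≠ j → n m - c m ≤ 1 := by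
            intro m hm hm'
            have := hi1 m hm
            rwa [update_of_ne hm'] at this
          rw [update_of_ne hij] at hi2
          have hi2' : 2 ≤ n i - c i := by
            by_contra hcon
            refine hne ⟨hc3, j, fun m hm => ?_, by omega⟩
            by_cases hmi : m = i
            · subst hmi; omega
            · exact hoth m hmi hm
          have hsi : n i - c i = 2 := by
            by_contra hcon
            obtain ⟨_, l, hl1, hl2⟩ := hexc i hi2'
            by_cases hlj : l = j
            · subst hlj
              have := hl1 i (Ne.symm (Ne.symm hij))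
              rw [update_self] at this
              omega
            · have := hl1 j (Ne.symm hlj)
              rw [update_of_ne (Ne.symm hij)] at this
              omega
          have him : i = a ∨ i = b ∨ i = e := (hmem i).1 (by omega)
          have hb2' : ∃ p : (Fin (1 + 1) × Fin (2 + 1) × Fin (2 + 1)) → Fin (1 + 2 + 2 + 2) → ℂ,
              RigOn (fun α β => α ≤ β) univ p := hb2
          have third : ∀ u, (u = a ∨ u = b ∨ u = e) → u ≠ i → u ≠ j →
              (∀ m, (m = a ∨ m = b ∨ m = e) ↔ (m = u ∨ m = i ∨ m = j)) →
              ∃ p : (κ → Fin K) → Fin (N + 2) → ℂ, RigOn (fun α β => α ≤ β) (box c n) p := by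
            intro u hu hui huj hiff
            refine fin3 u i j 1 2 2 hui huj hij hiff ?_ hsi hsj hb2'
            have h1 := hpos u hu
            have h2 := hoth u hui huj
            omega
          rcases him with rfl | rfl | rfl <;> rcases hjm with rfl | rfl | rfl
          · exact absurd rfl hij
          · exact third e (by tauto) hae.symm hbe.symm (by intro m; tauto)
          · exact third b (by tauto) hab.symm hbe (by intro m; tauto)
          · exact third e (by tauto) hbe.symm hae.symm (by intro m; tauto)
          · exact absurd rfl hij
          · exact third a (by tauto) hab hae (by intro m; tauto)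
          · exact third b (by tauto) hbe hab.symm (by intro m; tauto)
          · exact third a (by tauto) hae hab (by intro m; tauto)
          · exact absurd rfl hij
  intro h3 hne
  exact key _ c rfl hcn h3 hne

end Pool.Agent.Helper41.SV
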