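import Pool.Agent.Helper41.SV.K

/-!
Surjectivity of generic multilinear forms from independence (MP_f2a874_ag).
-/

open Finset Function

noncomputable section

namespace Pool.Agent.Helper41.SV

open Classical in
/-- Surjectivity onto the coordinates in `F` is a generic property. -/
theorem gen_surj {σ v w : Type} [Fintype v] [DecidableEq v] [Fintype w] [DecidableEq w]
    (E : (σ → ℂ) → Matrix w v ℂ) (F : w → Prop)
    (hE : ∀ i j, IsPoly (fun t => E t i j)) (hF : ∀ t i j, ¬ F i → E t i j = 0) (t₀ : σ → ℂ)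
    (hs : ∀ S : w → ℂ, (∀ i, ¬ F i → S i = 0) → ∃ P, Matrix.mulVec (E t₀) P = S) :
    Gen (fun t => ∀ S : w → ℂ, (∀ i, ¬ F i → S i = 0) → ∃ P, Matrix.mulVec (E t) P = S) := by
  have h1 : ∀ j : w, ∃ P, Matrix.mulVec (E t₀) P =
      fun i => if F i then (Pi.single j 1 : w → ℂ) i else 0 :=
    fun j => hs (fun i => if F i then (Pi.single j 1 : w → ℂ) i else 0) fun i hi => if_neg hi
  choose c hc using h1
  let C : Matrix v w ℂ := fun i j => c j i
  let D : Matrix w w ℂ := fun i j => if F i then 0 else (Pi.single j 1 : w → ℂ) i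
  have hpoly : IsPoly (fun t : σ → ℂ => (E t * C + D).det) := by
    refine IsPoly.det fun i j => ?_
    simp only [Matrix.add_apply, Matrix.mul_apply]
    exact (IsPoly.sum _ fun k _ => (hE i k).mul (IsPoly.const _)).add (IsPoly.const _)
  have hone : E t₀ * C + D = 1 := by
    ext i j
    have h2 := congrFun (hc j) i
    simp only [Matrix.mulVec, dotProduct] at h2
    rw [Matrix.add_apply, Matrix.mul_apply]
    change ∑ k, E t₀ i k * c j k + (if F i then 0 else (Pi.single j 1 : w → ℂ) i) = _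
    rw [h2, Matrix.one_apply, Pi.single_apply]
    by_cases h : F i <;> simp [h]
  have hne : (E t₀ * C + D).det ≠ 0 := by
    rw [hone, Matrix.det_one]
    exact one_ne_zero
  refine (Gen.of_poly hpoly hne).mono fun t ht S hS => ?_
  have hu : IsUnit (E t * C + D) := (Matrix.isUnit_iff_isUnit_det _).2 (isUnit_iff_ne_zero.2 ht)
  obtain ⟨x, hx⟩ := (Matrix.mulVec_surjective_iff_isUnit.2 hu) S
  refine ⟨Matrix.mulVec C x, ?_⟩
  rw [Matrix.mulVec_mulVec]
  rw [Matrix.add_mulVec] at hx
  have hD : Matrix.mulVec D x = 0 := by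
    funext i
    by_cases h : F i
    · simp [Matrix.mulVec, dotProduct, D, h]
    · have h3 := congrFun hx i
      rw [hS i h, Pi.add_apply] at h3
      have h4 : Matrix.mulVec (E t * C) x i = 0 := by
        simp only [Matrix.mulVec, dotProduct, Matrix.mul_apply]
        refine Finset.sum_eq_zero fun j _ => ?_
        rw [Finset.sum_eq_zero fun k _ => by rw [hF t i k h, zero_mul], zero_mul]
      rw [h4, zero_add] at h3
      exact h3
  rw [hD, add_zero] at hx
  exact hx

section matrices

variable {κ : Type} [Fintype κ] [DecidableEq κ] {K d : ℕ}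

/-- At the degenerate weights only the comparable pairs remain. -/
theorem sum_cmp_zero {u v : κ → Fin K} (huv : u ≤ v) {s : κ → Sym2 (Fin K)} (hus : Cmp u v s)
    (g : (κ → Fin K) → (κ → Fin K) → ℂ) :
    ∑ α, ∑ β, (if Cmp α β s then (0 : ℂ) ^ ke α β * g α β else 0) =
      ∑ c ∈ ({(u, v), (v, u)} : Finset ((κ → Fin K) × (κ → Fin K))), g c.1 c.2 := by
  rw [← Fintype.sum_prod_type' (f := fun α β =>
    (if Cmp α β s then (0 : ℂ) ^ ke α β * g α β else 0))]
  rw [← Finset.sum_subset (Finset.subset_univ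
    ({(u, v), (v, u)} : Finset ((κ → Fin K) × (κ → Fin K))))]
  · refine Finset.sum_congr rfl fun c hc => ?_
    simp only [Finset.mem_insert, Finset.mem_singleton] at hc
    rcases hc with rfl | rfl
    · rw [if_pos hus, ke_eq_zero.2 (Or.inl huv), pow_zero, one_mul]
    · rw [if_pos hus.symm, ke_eq_zero.2 (Or.inr huv), pow_zero, one_mul]
  · rintro ⟨α, β⟩ _ hc
    by_cases h3 : Cmp α β s
    · rw [if_pos h3]
      have h4 : ke α β ≠ 0 := by
        intro h5
        apply hc
        simp only [Finset.mem_insert, Finset.mem_singleton, Prod.mk.injEq]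
        have h6 : α ⊓ β = u := by rw [h3.inf_eq, ← hus.inf_eq, inf_eq_left.2 huv]
        have h7 : α ⊔ β = v := by rw [h3.sup_eq, ← hus.sup_eq, sup_eq_right.2 huv]
        rcases ke_eq_zero.1 h5 with h8 | h8
        · left
          rw [inf_eq_left.2 h8] at h6
          rw [sup_eq_right.2 h8] at h7
          exact ⟨h6, h7⟩
        · right
          rw [inf_eq_right.2 h8] at h6
          rw [sup_eq_left.2 h8] at h7
          exact ⟨h7, h6⟩
      rw [zero_pow h4, zero_mul]
    · rw [if_neg h3]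

theorem sym2_inf_sup (x : Sym2 (Fin K)) : s(x.inf, x.sup) = x := by
  induction x using Sym2.ind with
  | _ a b =>
    rw [Sym2.inf_mk, Sym2.sup_mk]
    rcases le_total a b with h | h
    · rw [inf_eq_left.2 h, sup_eq_right.2 h]
    · rw [inf_eq_right.2 h, sup_eq_left.2 h, Sym2.eq_swap]

open Classical in
/-- The matrix of the multiplication with weights `w`. -/
def kS (n : κ → ℕ) (w : (κ → Fin K) → (κ → Fin K) → ℂ) (p : (κ → Fin K) → Fin d → ℂ) :
    Matrix (κ → Sym2 (Fin K)) ((κ → Fin K) × Fin d) ℂ :=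
  fun s c => if InF n s then ∑ β, (if Cmp c.1 β s then w c.1 β * p β c.2 else 0) else 0

theorem kS_inl (n : κ → ℕ) (w : (κ → Fin K) → (κ → Fin K) → ℂ) (p : (κ → Fin K) → Fin d → ℂ)
    (P : (κ → Fin K) × Fin d → ℂ) {s : κ → Sym2 (Fin K)} (hs : InF n s) :
    Matrix.mulVec (kS n w p) P s =
      ∑ α, ∑ β, if Cmp α β s then w α β * ∑ a, P (α, a) * p β a else 0 := by
  rw [← kE_inl n w p P hs]
  rfl

theorem kS_inl' (n : κ → ℕ) (w : (κ → Fin K) → (κ → Fin K) → ℂ) (p : (κ → Fin K) → Fin d → ℂ)
    (P : (κ → Fin K) × Fin d → ℂ) {s : κ → Sym2 (Fin K)} (hs : ¬ InF n s) :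
    Matrix.mulVec (kS n w p) P s = 0 := by
  rw [← kE_inl' n w p P hs]
  rfl

theorem kS_isPoly {σ : Type} (n : κ → ℕ) {w : (σ → ℂ) → (κ → Fin K) → (κ → Fin K) → ℂ}
    {p : (σ → ℂ) → (κ → Fin K) → Fin d → ℂ} (hw : ∀ α β, IsPoly (fun t => w t α β))
    (hp : ∀ α a, IsPoly (fun t => p t α a))
    (s : κ → Sym2 (Fin K)) (c : (κ → Fin K) × Fin d) :
    IsPoly (fun t => kS n (w t) (p t) s c) :=
  kE_isPoly n hw hp (Sum.inl s) c

/-- Surjectivity at the degenerate weights, from independence. -/
theorem kS_zero (n : κ → ℕ) (p : (κ → Fin K) → Fin d → ℂ)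
    (h : IndOn (fun α β => α ≤ β) (box 0 n) p) (S : (κ → Sym2 (Fin K)) → ℂ)
    (hS : ∀ s, ¬ InF n s → S s = 0) :
    ∃ P, Matrix.mulVec (kS n (fun α β => (0 : ℂ) ^ ke α β) p) P = S := by
  obtain ⟨P, hP⟩ := h fun u v => if u = v then 2 * S (fun j => s(u j, v j))
    else S (fun j => s(u j, v j))
  refine ⟨fun e => P e.1 e.2, ?_⟩
  funext s
  by_cases hs : InF n s
  · rw [kS_inl n _ p _ hs]
    set u : κ → Fin K := fun j => (s j).inf with hu
    set v : κ → Fin K := fun j => (s j).sup with hv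
    have huv : u ≤ v := fun j => Sym2.inf_le_sup _
    have hus : Cmp u v s := fun j => sym2_inf_sup _
    have hs' : (fun j => s(u j, v j)) = s := funext hus
    have h1 := hP u (hus.mem_left hs) v (hus.symm.mem_left hs) huv
    rw [hs', Finset.sum_add_distrib] at h1
    rw [sum_cmp_zero huv hus (fun α β => ∑ a, P α a * p β a)]
    by_cases huv' : u = v
    · rw [if_pos huv'] at h1
      rw [← huv'] at h1 ⊢
      rw [Finset.pair_eq_singleton, Finset.sum_singleton]
      change ∑ a, P u a * p u a = S s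
      linear_combination h1 / 2
    · rw [if_neg huv'] at h1
      have hne : (u, v) ≠ (v, u) := fun h => huv' (congrArg Prod.fst h)
      rw [Finset.sum_pair hne]
      exact h1
  · rw [kS_inl' n _ p _ hs, hS s hs]

/-- Surjectivity at a nondegenerate point. -/
theorem kS_one (n : κ → ℕ) (p : (κ → Fin K) → Fin d → ℂ) (ε : ℂ) (hε : ε ≠ 0)
    (h : ∀ S : (κ → Sym2 (Fin K)) → ℂ, (∀ s, ¬ InF n s → S s = 0) →
      ∃ P, Matrix.mulVec (kS n (fun α β => ε ^ ke α β) p) P = S)
    (S : (κ → Sym2 (Fin K)) → ℂ) (hS : ∀ s, ¬ InF n s → S s = 0) :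
    ∃ P, Matrix.mulVec (kS n (fun _ _ => 1) (fun α a => ε ^ kw α * p α a)) P = S := by
  obtain ⟨P, hP⟩ := h (fun s =>
    (ε ^ (kw (fun j => (s j).inf) + kw (fun j => (s j).sup)))⁻¹ * S s)
    fun s hs => by rw [hS s hs, mul_zero]
  refine ⟨fun e => ε ^ kw e.1 * P e, ?_⟩
  funext s
  by_cases hs : InF n s
  · rw [kS_inl n _ _ _ hs]
    have h1 := congrFun hP s
    rw [kS_inl n _ p P hs] at h1
    set C : ℂ := ε ^ (kw (fun j => (s j).inf) + kw (fun j => (s j).sup)) with hC
    have hC0 : C ≠ 0 := pow_ne_zero _ hε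
    have h2 : S s = C * (C⁻¹ * S s) := by field_simp
    rw [h2, ← h1, Finset.mul_sum]
    refine Finset.sum_congr rfl fun α _ => ?_
    rw [Finset.mul_sum]
    refine Finset.sum_congr rfl fun β _ => ?_
    by_cases h3 : Cmp α β s
    · rw [if_pos h3, if_pos h3, one_mul, Finset.mul_sum, Finset.mul_sum]
      refine Finset.sum_congr rfl fun a _ => ?_
      have h4 : C * ε ^ ke α β = ε ^ kw α * ε ^ kw β := by
        rw [hC, ← h3.inf_eq, ← h3.sup_eq, ← pow_add, ← pow_add, kw_add α β]
        congr 1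
        ring
      calc ε ^ kw α * P (α, a) * (ε ^ kw β * p β a)
          = (ε ^ kw α * ε ^ kw β) * (P (α, a) * p β a) := by ring
        _ = C * (ε ^ ke α β * (P (α, a) * p β a)) := by
          rw [← h4]
          ring
    · rw [if_neg h3, if_neg h3, mul_zero]
  · rw [kS_inl' n _ _ _ hs, hS s hs]

end matrices

/-- Surjectivity from independence. -/
theorem sur : StSur := by
  intro κ _ _ K d n hp
  obtain ⟨p, hp⟩ := hp
  -- a nonzero parameter
  have hg1 : Gen (fun t : Unit → ℂ => ∀ S : (κ → Sym2 (Fin K)) → ℂ,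
      (∀ s, ¬ InF n s → S s = 0) →
      ∃ P, Matrix.mulVec (kS n (fun α β => t () ^ ke α β) p) P = S) := by
    refine gen_surj (fun t : Unit → ℂ => kS n (fun α β => t () ^ ke α β) p) (InF n) ?_ ?_
      (fun _ => 0) (kS_zero n p hp)
    · intro i j
      exact kS_isPoly n (w := fun t α β => t () ^ ke α β) (p := fun _ => p)
        (fun α β => (IsPoly.coord ()).pow _) (fun α a => IsPoly.const _) i j
    · intro t i j hi
      exact if_neg hi
  obtain ⟨ε, hε, h1⟩ := hg1.exists_unit
  have h2 := kS_one n p ε hε h1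
  -- the general point
  have hg2 : Gen (fun t : Fin d × (κ → Fin K) → ℂ => ∀ S : (κ → Sym2 (Fin K)) → ℂ,
      (∀ s, ¬ InF n s → S s = 0) →
      ∃ P, Matrix.mulVec (kS n (fun _ _ => 1) (fun α a => t (a, α))) P = S) := by
    refine gen_surj (fun t : Fin d × (κ → Fin K) → ℂ =>
      kS n (fun _ _ => 1) (fun α a => t (a, α))) (InF n) ?_ ?_
      (fun e => ε ^ kw e.2 * p e.2 e.1) h2
    · intro i j
      exact kS_isPoly n (w := fun _ _ _ => 1) (p := fun t α a => t (a, α))
        (fun α β => IsPoly.const _) (fun α a => IsPoly.coord _) i j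
    · intro t i j hi
      exact if_neg hi
  refine hg2.mono fun t ht S hS => ?_
  have hS' : ∀ s, ¬ InF n s → S s = 0 := by
    intro s hs
    refine hS s ?_
    simp only [InF] at hs
    push Not at hs
    exact hs
  obtain ⟨P, hP⟩ := ht S hS'
  classical
  refine ⟨fun a α => if α ∈ (box 0 n : Finset (κ → Fin K)) then P (α, a) else 0, ?_, ?_⟩
  · intro a α hα
    refine if_neg fun h => ?_
    rw [mem_box0] at h
    obtain ⟨j, hj⟩ := hα
    exact hj (h j)
  · intro x hx
    have h3 : cutS (low n) (fun s => ∑ a, mulS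
        (fun α => if α ∈ (box 0 n : Finset (κ → Fin K)) then P (α, a) else 0)
        (curry t a) s) = S := by
      funext s
      simp only [cutS]
      by_cases hs : ∀ j, ∀ i ∈ s j, i ∈ low n j
      · rw [if_pos hs]
        have h4 := congrFun hP s
        rw [kS_inl n _ _ P (s := s) hs] at h4
        rw [← h4]
        simp only [mulS]
        rw [Finset.sum_comm]
        refine Finset.sum_congr rfl fun α _ => ?_
        rw [Finset.sum_comm]
        refine Finset.sum_congr rfl fun β _ => ?_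
        by_cases h : Cmp α β s
        · rw [if_pos h, one_mul]
          refine Finset.sum_congr rfl fun a _ => ?_
          refine (if_pos h).trans ?_
          rw [if_pos (h.mem_left hs)]
          rfl
        · rw [if_neg h]
          exact Finset.sum_eq_zero fun a _ => if_neg h
      · rw [if_neg hs, hS' s hs]
    rw [← h3, evS_cutS _ hx, evS_sum]
    simp only [evS_mulS]

end Pool.Agent.Helper41.SV
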