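import Pool.Agent.Helper41.SV.Step0
import Pool.Agent.Helper41.SV.G

/-!
The degeneration step: from the limit points to the points of the degenerate tensor.
-/

open Finset Function

noncomputable section

set_option linter.unusedSectionVars false

namespace Pool.Agent.Helper41.SV

namespace SP

open GG

variable {κ ι : Type} [Fintype κ] [DecidableEq κ] [Fintype ι] [DecidableEq ι]

/-! ### The scaling map -/

theorem xo_Th (o : κ → ι) (τ : Ty κ) (δ : ℂ) (u : Un κ ι → ℂ) (j : κ) (i : ι) :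
    xo (Th o τ δ u) j i =
      if j ∈ τ.S ∧ i = o j then δ ^ τ.θ * u (Sum.inl (j, i)) else u (Sum.inl (j, i)) := rfl

theorem lo_Th (o : κ → ι) (τ : Ty κ) (δ : ℂ) (u : Un κ ι → ℂ) (j : κ) :
    lo (Th o τ δ u) j = δ ^ τ.c * u (Sum.inr j) := rfl

theorem prod_Th (o : κ → ι) (τ : Ty κ) (δ : ℂ) (u : Un κ ι → ℂ) (s : Finset κ) :
    ∏ m ∈ s, xo (Th o τ δ u) m (o m) =
      δ ^ (τ.θ * (s ∩ τ.S).card) * ∏ m ∈ s, u (Sum.inl (m, o m)) := by
  have h1 : ∀ m, xo (Th o τ δ u) m (o m) =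
      (if m ∈ τ.S then δ ^ τ.θ else 1) * u (Sum.inl (m, o m)) := by
    intro m
    rw [xo_Th]
    by_cases hm : m ∈ τ.S
    · simp [hm]
    · simp [hm]
  simp only [h1, Finset.prod_mul_distrib, Finset.prod_ite_mem, Finset.prod_const, ← pow_mul]

theorem Mh_Th (o : κ → ι) (τ : Ty κ) (δ : ℂ) (u : Un κ ι → ℂ) :
    ∏ m, xo (Th o τ δ u) m (o m) = δ ^ (τ.θ * τ.S.card) * Mh o u := by
  rw [prod_Th, Finset.univ_inter]
  rfl

theorem erase_Th (o : κ → ι) (τ : Ty κ) (δ : ℂ) (u : Un κ ι → ℂ) (j : κ) :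
    ∏ m ∈ univ.erase j, xo (Th o τ δ u) m (o m) =
      δ ^ (τ.θ * (τ.S.erase j).card) * ∏ m ∈ univ.erase j, u (Sum.inl (m, o m)) := by
  rw [prod_Th]
  congr 3
  congr 1
  ext m
  simp

/-- The inverse scaling of a direction. -/
def Ti (o : κ → ι) (τ : Ty κ) (δ : ℂ) (u : Un κ ι → ℂ) : Un κ ι → ℂ
  | Sum.inl (j, i) =>
      if j ∈ τ.S ∧ i = o j then (δ ^ τ.θ)⁻¹ * u (Sum.inl (j, i)) else u (Sum.inl (j, i))
  | Sum.inr j => (δ ^ τ.c)⁻¹ * u (Sum.inr j)

theorem Th_add_smul (o : κ → ι) (τ : Ty κ) {δ : ℂ} (hδ : δ ≠ 0) (u ξ : Un κ ι → ℂ) (s : ℂ) :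
    Th o τ δ (u + s • Ti o τ δ ξ) = Th o τ δ u + s • ξ := by
  funext w
  rcases w with ⟨j, i⟩ | j
  · simp only [Th, Ti, Pi.add_apply, Pi.smul_apply, smul_eq_mul]
    by_cases h : j ∈ τ.S ∧ i = o j
    · simp only [if_pos h]
      field_simp
    · simp only [if_neg h]
  · simp only [Th, Ti, Pi.add_apply, Pi.smul_apply, smul_eq_mul]
    field_simp

/-! ### The gradient of the degenerate tensor -/

theorem ev_basis_update (o : κ → ι) (x : κ → ι → ℂ) (j : κ) (i : ι) :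
    ev (Pi.single o 1) (update x j (Pi.single i 1)) =
      if i = o j then ∏ m ∈ univ.erase j, x m (o m) else 0 := by
  rw [ev_basis, prod_update x j (Pi.single i 1) o]
  by_cases h : i = o j
  · subst h; simp
  · rw [Pi.single_eq_of_ne (Ne.symm h), if_neg h, zero_mul]

theorem dG_Tdeg (o : κ → ι) {r : ℕ} (H : Fin r → (κ → ι) → ℂ) (η : ℂ) (x : κ → ι → ℂ) (j : κ)
    (i : ι) : dG (Tdeg o H η) x j i =
      2 * (∏ m, x m (o m)) * (if i = o j then ∏ m ∈ univ.erase j, x m (o m) else 0) +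
        η ^ 2 * dG H x j i := by
  simp only [dG, Tdeg, Fin.sum_univ_succ, Fin.cons_zero, Fin.cons_succ, ev_mul_left,
    ev_basis_update]
  rw [ev_basis]
  have h : ∀ a, η * ev (H a) x * (η * ev (H a) (update x j (Pi.single i 1))) =
      η ^ 2 * (ev (H a) x * ev (H a) (update x j (Pi.single i 1))) := fun a => by ring
  simp only [h, ← Finset.mul_sum]
  ring

/-- The factor relating the scaled and the actual equations. -/
def fac (I : κ → Finset ι) (τ : Ty κ) (δ : ℂ) : Un κ ι → ℂ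
  | Sum.inl (j, i) => if i ∈ I j then δ ^ τ.c else 1
  | Sum.inr _ => 1

theorem fac_ne (I : κ → Finset ι) (τ : Ty κ) {δ : ℂ} (hδ : δ ≠ 0) (w : Un κ ι) :
    fac I τ δ w ≠ 0 := by
  rcases w with ⟨j, i⟩ | j
  · simp only [fac]
    split_ifs
    · exact pow_ne_zero _ hδ
    · exact one_ne_zero
  · exact one_ne_zero

theorem crit_Th {I : κ → Finset ι} {o : κ → ι} (ho : ∀ j, o j ∈ I j) {r : ℕ}
    (H : Fin r → (κ → ι) → ℂ) {τ : Ty κ} (hτ : τ.Ok) {δ η : ℂ} (hη : η ^ 2 = δ ^ 3)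
    (u : Un κ ι → ℂ) (w : Un κ ι) :
    crit I (Tdeg o H η) (Th o τ δ u) w = fac I τ δ w * Fs I o H τ δ u w := by
  obtain ⟨hc, h1, h2, h3⟩ := hτ
  rcases w with ⟨j, i⟩ | j
  · by_cases hi : i ∈ I j
    · simp only [crit, Fs, fac, if_pos hi, dG_Tdeg, lo_Th, Mh_Th, erase_Th, hη]
      have h4 : δ ^ 3 = δ ^ τ.c * δ ^ (3 - τ.c) := by
        rw [← pow_add]
        congr 1
        omega
      by_cases hio : i = o j
      · simp only [if_pos hio]
        by_cases hj : j ∈ τ.S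
        · simp only [if_pos hj]
          have h5 : δ ^ (τ.θ * τ.S.card) * δ ^ (τ.θ * (τ.S.erase j).card) = δ ^ τ.c := by
            rw [← pow_add, h1 j hj]
          rw [h4]
          linear_combination (2 * Mh o u * ∏ m ∈ univ.erase j, u (Sum.inl (m, o m))) * h5
        · simp only [if_neg hj]
          have h5 : δ ^ (τ.θ * τ.S.card) * δ ^ (τ.θ * (τ.S.erase j).card) =
              δ ^ τ.c * δ ^ τ.a := by
            rw [← pow_add, ← pow_add, Finset.erase_eq_of_notMem hj, ← two_mul, h2]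
          rw [h4]
          linear_combination (2 * Mh o u * ∏ m ∈ univ.erase j, u (Sum.inl (m, o m))) * h5
      · simp only [if_neg hio]
        rw [h4]
        ring
    · have hio : ¬ (j ∈ τ.S ∧ i = o j) := fun h => hi (h.2 ▸ ho j)
      simp only [crit, Fs, fac, if_neg hi, xo_Th, if_neg hio, one_mul]
  · simp only [crit, Fs, fac, one_mul]

theorem nonDeg_Th {I : κ → Finset ι} {o : κ → ι} (ho : ∀ j, o j ∈ I j) {r : ℕ}
    {H : Fin r → (κ → ι) → ℂ} {τ : Ty κ} (hτ : τ.Ok) {δ η : ℂ} (hδ : δ ≠ 0)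
    (hη : η ^ 2 = δ ^ 3) {u : Un κ ι → ℂ} (h : NonDeg (Fs I o H τ δ) u) :
    NonDeg (crit I (Tdeg o H η)) (Th o τ δ u) := by
  intro ξ hξ
  have h1 : Ti o τ δ ξ = 0 := by
    refine h _ fun w => ?_
    have h2 := (hξ w).const_mul (fac I τ δ w)⁻¹
    have h3 : (fun s : ℂ => (fac I τ δ w)⁻¹ * crit I (Tdeg o H η) (Th o τ δ u + s • ξ) w) =
        fun s : ℂ => Fs I o H τ δ (u + s • Ti o τ δ ξ) w := by
      funext s
      rw [← Th_add_smul o τ hδ u ξ s, crit_Th ho H hτ hη]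
      rw [← mul_assoc, inv_mul_cancel₀ (fac_ne I τ hδ w), one_mul]
    rw [h3, mul_zero] at h2
    exact h2
  have h2 := Th_add_smul o τ hδ (0 : Un κ ι → ℂ) ξ 1
  rw [h1] at h2
  have h3 : Th o τ δ (0 : Un κ ι → ℂ) = 0 := by
    funext w
    rcases w with ⟨j, i⟩ | j <;> simp [Th]
  simpa [h3] using h2.symm

/-! ### The rotations -/

/-- `A` cut to the format `J`. -/
def cutA (J : κ → Finset ι) (A : κ → ι → ι → ℂ) : κ → ι → ι → ℂ :=
  fun j a b => if a ∈ J j ∧ b ∈ J j then A j a b else 0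

theorem sharp_cutA {I J : κ → Finset ι} (h : ∀ j, J j ⊆ I j) (A : κ → ι → ι → ℂ) :
    sharp I (cutA J A) = sharp J A := by
  funext j a b
  simp only [sharp, cutA]
  by_cases h1 : a ∈ J j ∧ b ∈ J j
  · have hI : a ∈ I j ∧ b ∈ I j := ⟨h j h1.1, h j h1.2⟩
    have h2 : b ∈ J j ∧ a ∈ J j := ⟨h1.2, h1.1⟩
    simp only [if_pos h1, if_pos hI, if_pos h2]
  · have h2 : ¬ (b ∈ J j ∧ a ∈ J j) := fun h' => h1 ⟨h'.2, h'.1⟩
    simp only [if_neg h1, if_neg h2, sub_self, ite_self]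

/-- The rotation of `T` corresponding to `A`. -/
def rotB (I : κ → Finset ι) (o : κ → ι) (δ : ℂ) (A : κ → ι → ι → ℂ) : κ → ι → ι → ℂ :=
  (δ ^ 2)⁻¹ • A + ((δ ^ 3)⁻¹ - (δ ^ 2)⁻¹) • cutA (del I o univ) A

theorem sharp_rotB (I : κ → Finset ι) (o : κ → ι) (δ : ℂ) (A : κ → ι → ι → ℂ) :
    sharp I (rotB I o δ A) = (δ ^ 2)⁻¹ • wPart I o A + (δ ^ 3)⁻¹ • sharp (del I o univ) A := by
  rw [rotB, sharp_add, sharp_smul, sharp_smul, sharp_cutA (del_subset I o univ)]
  funext j a b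
  simp only [wPart, Pi.add_apply, Pi.smul_apply, smul_eq_mul]
  ring

theorem act_add (A B : κ → ι → ι → ℂ) (t : (κ → ι) → ℂ) (x : κ → ι → ℂ) :
    act (A + B) t x = act A t x + act B t x := by
  rw [← ev_actU, ← ev_actU, ← ev_actU, actU_add, ev_add]

theorem act_smul (c : ℂ) (A : κ → ι → ι → ℂ) (t : (κ → ι) → ℂ) (x : κ → ι → ℂ) :
    act (c • A) t x = c * act A t x := by
  rw [← ev_actU, ← ev_actU, actU_smul, ev_smul]

theorem soG_add (A B : κ → ι → ι → ℂ) {r : ℕ} (T : Fin r → (κ → ι) → ℂ) (x : κ → ι → ℂ) :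
    soG (A + B) T x = soG A T x + soG B T x := by
  rw [← evS_soS, ← evS_soS, ← evS_soS, soS_add, evS_add]

theorem soG_smul (c : ℂ) (A : κ → ι → ι → ℂ) {r : ℕ} (T : Fin r → (κ → ι) → ℂ)
    (x : κ → ι → ℂ) : soG (c • A) T x = c * soG A T x := by
  rw [← evS_soS, ← evS_soS, soS_smul, evS_smul]

/-- Rotations fixing `o` do not move `M`. -/
theorem act_del_basis (I : κ → Finset ι) (o : κ → ι) (A : κ → ι → ι → ℂ) (x : κ → ι → ℂ) :
    act (sharp (del I o univ) A) (Pi.single o 1) x = 0 := by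
  rw [act]
  refine Finset.sum_eq_zero fun j _ => ?_
  rw [ev_basis, prod_update x j _ o]
  have h : o j ∉ del I o univ j := by simp [del]
  rw [Finset.sum_eq_zero, zero_mul]
  intro b _
  rw [sharp_left A h, zero_mul]

theorem act_mul_left (A : κ → ι → ι → ℂ) (c : ℂ) (t : (κ → ι) → ℂ) (x : κ → ι → ℂ) :
    act A (fun α => c * t α) x = c * act A t x := by
  simp only [act, ev_mul_left, Finset.mul_sum]

theorem soG_Tdeg (B : κ → ι → ι → ℂ) (o : κ → ι) {r : ℕ} (H : Fin r → (κ → ι) → ℂ) (η : ℂ)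
    (x : κ → ι → ℂ) : soG B (Tdeg o H η) x =
      2 * (∏ m, x m (o m)) * act B (Pi.single o 1) x + η ^ 2 * soG B H x := by
  simp only [soG, Tdeg, Fin.sum_univ_succ, Fin.cons_zero, Fin.cons_succ, ev_mul_left,
    act_mul_left, ev_basis]
  have h : ∀ a, η * ev (H a) x * (η * act B (H a) x) =
      η ^ 2 * (ev (H a) x * act B (H a) x) := fun a => by ring
  simp only [h, ← Finset.mul_sum]
  ring

theorem evS_omS (I : κ → Finset ι) (o : κ → ι) {r : ℕ} (H : Fin r → (κ → ι) → ℂ) (δ : ℂ)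
    (A : κ → ι → ι → ℂ) (x : κ → ι → ℂ) :
    evS (omS I o H δ A) x = soG (sharp (del I o univ) A) H x + δ * soG (wPart I o A) H x := by
  have h : omS I o H δ A = soS (sharp (del I o univ) A) H + δ • soS (wPart I o A) H := rfl
  rw [h, evS_add, evS_smul, evS_soS, evS_soS]

/-- The forms `omR`, `omQ` represent a rotation of `T`. -/
theorem rot_eq {I : κ → Finset ι} {o : κ → ι} {r : ℕ} (H : Fin r → (κ → ι) → ℂ) {δ η : ℂ}
    (hδ : δ ≠ 0) (hη : η ^ 2 = δ ^ 3) (A : κ → ι → ι → ℂ) {x : κ → ι → ℂ} (hx : SuppX I x) :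
    evS (omR I o H δ A) x + (δ ^ 2)⁻¹ * (∏ m, x m (o m)) * ev (omQ I o H δ A) x =
      soG (sharp I (rotB I o δ A)) (Tdeg o H η) x := by
  have h1 : evS (omR I o H δ A) x = evS (restS o (omS I o H δ A)) x := evS_cutS _ hx
  have h2 : ev (omQ I o H δ A) x = 2 * act (sharp I A) (Pi.single o 1) x +
      δ ^ 2 * ev (quoM o (omS I o H δ A)) x := by
    rw [omQ, ev_cutU _ hx]
    have : (fun α => 2 * actU (sharp I A) (Pi.single o 1) α +
        δ ^ 2 * quoM o (omS I o H δ A) α) = (2 : ℂ) • actU (sharp I A) (Pi.single o 1) +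
          (δ ^ 2) • quoM o (omS I o H δ A) := rfl
    rw [this, ev_add, ev_smul, ev_smul, ev_actU]
  have h3 := evS_split o (omS I o H δ A) x
  rw [evS_omS] at h3
  rw [soG_Tdeg, sharp_rotB, act_add, act_smul, act_smul, act_del_basis, soG_add, soG_smul,
    soG_smul, h1, h2, hη]
  have h4 : act (wPart I o A) (Pi.single o 1) x = act (sharp I A) (Pi.single o 1) x := by
    have h5 : sharp I A = wPart I o A + sharp (del I o univ) A := by
      funext j a b
      simp [wPart]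
    rw [h5, act_add, act_del_basis, add_zero]
  rw [h4]
  field_simp
  linear_combination (-δ ^ 3) * h3

/-! ### Linearity -/

theorem wPart_add (I : κ → Finset ι) (o : κ → ι) (A B : κ → ι → ι → ℂ) :
    wPart I o (A + B) = wPart I o A + wPart I o B := by
  funext j a b
  simp only [wPart, sharp_add, Pi.add_apply]
  ring

theorem wPart_smul (I : κ → Finset ι) (o : κ → ι) (c : ℂ) (A : κ → ι → ι → ℂ) :
    wPart I o (c • A) = c • wPart I o A := by
  funext j a b
  simp only [wPart, sharp_smul, Pi.smul_apply, smul_eq_mul]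
  ring

theorem omS_add (I : κ → Finset ι) (o : κ → ι) {r : ℕ} (H : Fin r → (κ → ι) → ℂ) (δ : ℂ)
    (A B : κ → ι → ι → ℂ) : omS I o H δ (A + B) = omS I o H δ A + omS I o H δ B := by
  funext s
  simp only [omS, sharp_add, wPart_add, soS_add, Pi.add_apply]
  ring

theorem omS_smul (I : κ → Finset ι) (o : κ → ι) {r : ℕ} (H : Fin r → (κ → ι) → ℂ) (δ c : ℂ)
    (A : κ → ι → ι → ℂ) : omS I o H δ (c • A) = c • omS I o H δ A := by
  funext s
  simp only [omS, sharp_smul, wPart_smul, soS_smul, Pi.smul_apply, smul_eq_mul]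
  ring

theorem restS_add (o : κ → ι) (P Q : (κ → Sym2 ι) → ℂ) :
    restS o (P + Q) = restS o P + restS o Q := by
  funext s
  simp only [restS, Pi.add_apply]
  split_ifs <;> ring

theorem restS_smul (o : κ → ι) (c : ℂ) (P : (κ → Sym2 ι) → ℂ) :
    restS o (c • P) = c • restS o P := by
  funext s
  simp only [restS, Pi.smul_apply, smul_eq_mul]
  split_ifs <;> ring

theorem omR_add (I : κ → Finset ι) (o : κ → ι) {r : ℕ} (H : Fin r → (κ → ι) → ℂ) (δ : ℂ)
    (A B : κ → ι → ι → ℂ) : omR I o H δ (A + B) = omR I o H δ A + omR I o H δ B := by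
  simp only [omR, omS_add, restS_add, cutS_add]

theorem omR_smul (I : κ → Finset ι) (o : κ → ι) {r : ℕ} (H : Fin r → (κ → ι) → ℂ) (δ c : ℂ)
    (A : κ → ι → ι → ℂ) : omR I o H δ (c • A) = c • omR I o H δ A := by
  simp only [omR, omS_smul, restS_smul, cutS_smul]

theorem omQ_add (I : κ → Finset ι) (o : κ → ι) {r : ℕ} (H : Fin r → (κ → ι) → ℂ) (δ : ℂ)
    (A B : κ → ι → ι → ℂ) : omQ I o H δ (A + B) = omQ I o H δ A + omQ I o H δ B := by
  funext α
  simp only [omQ, cutU, omS_add, sharp_add, actU_add, quoM, Pi.add_apply]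
  split_ifs <;> ring

theorem omQ_smul (I : κ → Finset ι) (o : κ → ι) {r : ℕ} (H : Fin r → (κ → ι) → ℂ) (δ c : ℂ)
    (A : κ → ι → ι → ℂ) : omQ I o H δ (c • A) = c • omQ I o H δ A := by
  funext α
  simp only [omQ, cutU, omS_smul, sharp_smul, actU_smul, quoM, Pi.smul_apply, smul_eq_mul]
  split_ifs <;> ring

/-- The linear map `A ↦ (omR, omQ)`. -/
def OmL (I : κ → Finset ι) (o : κ → ι) {r : ℕ} (H : Fin r → (κ → ι) → ℂ) (δ : ℂ) :
    (κ × ι × ι → ℂ) →ₗ[ℂ] ((κ → Sym2 ι) ⊕ (κ → ι) → ℂ) where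
  toFun A := Sum.elim (omR I o H δ (fun j a b => A (j, a, b)))
    (omQ I o H δ (fun j a b => A (j, a, b)))
  map_add' A B := by
    funext w
    rcases w with s | α
    · exact congrFun (omR_add I o H δ (fun j a b => A (j, a, b)) (fun j a b => B (j, a, b))) s
    · exact congrFun (omQ_add I o H δ (fun j a b => A (j, a, b)) (fun j a b => B (j, a, b))) α
  map_smul' c A := by
    funext w
    rcases w with s | α
    · exact congrFun (omR_smul I o H δ c (fun j a b => A (j, a, b))) s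
    · exact congrFun (omQ_smul I o H δ c (fun j a b => A (j, a, b))) α

theorem rowS_add (o : κ → ι) (τ : Ty κ) (δ : ℂ) (u : Un κ ι → ℂ) (R R' : (κ → Sym2 ι) → ℂ)
    (P P' : (κ → ι) → ℂ) :
    rowS o τ δ u (R + R') (P + P') = rowS o τ δ u R P + rowS o τ δ u R' P' := by
  simp only [rowS, evS_add, ev_add]
  ring

theorem rowS_smul (o : κ → ι) (τ : Ty κ) (δ : ℂ) (u : Un κ ι → ℂ) (c : ℂ)
    (R : (κ → Sym2 ι) → ℂ) (P : (κ → ι) → ℂ) :
    rowS o τ δ u (c • R) (c • P) = c * rowS o τ δ u R P := by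
  simp only [rowS, evS_smul, ev_smul]
  ring

variable {Q : Type}

/-- The functionals of the points and the conditions on the support. -/
def EL (I : κ → Finset ι) (o : κ → ι) (ty : Q → Ty κ) (δ : ℂ) (u : Q → Un κ ι → ℂ) :
    ((κ → Sym2 ι) ⊕ (κ → ι) → ℂ) →ₗ[ℂ] (Q ⊕ ((κ → Sym2 ι) ⊕ (κ → ι)) → ℂ) where
  toFun P := Sum.elim
    (fun q => rowS o (ty q) δ (u q) (fun s => P (Sum.inl s)) (fun α => P (Sum.inr α)))
    (Sum.elim
      (fun s => if (∃ j, ∃ i ∈ s j, i ∉ I j) ∨ (∀ j, o j ∈ s j) then P (Sum.inl s) else 0)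
      (fun α => if (∃ j, α j ∉ I j) then P (Sum.inr α) else 0))
  map_add' A B := by
    funext w
    rcases w with q | s | α
    · exact rowS_add o (ty q) δ (u q) (fun s => A (Sum.inl s)) (fun s => B (Sum.inl s))
        (fun α => A (Sum.inr α)) (fun α => B (Sum.inr α))
    · simp only [Sum.elim_inr, Sum.elim_inl, Pi.add_apply]
      split_ifs <;> ring
    · simp only [Sum.elim_inr, Pi.add_apply]
      split_ifs <;> ring
  map_smul' c A := by
    funext w
    rcases w with q | s | α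
    · exact rowS_smul o (ty q) δ (u q) c (fun s => A (Sum.inl s)) (fun α => A (Sum.inr α))
    · simp only [Sum.elim_inr, Sum.elim_inl, Pi.smul_apply, smul_eq_mul, RingHom.id_apply]
      split_ifs <;> ring
    · simp only [Sum.elim_inr, Pi.smul_apply, smul_eq_mul, RingHom.id_apply]
      split_ifs <;> ring

theorem EL_zero_iff (I : κ → Finset ι) (o : κ → ι) (ty : Q → Ty κ) (δ : ℂ)
    (u : Q → Un κ ι → ℂ) (P : (κ → Sym2 ι) ⊕ (κ → ι) → ℂ) :
    EL I o ty δ u P = 0 ↔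
      (∀ q, rowS o (ty q) δ (u q) (fun s => P (Sum.inl s)) (fun α => P (Sum.inr α)) = 0) ∧
      SuppS I (fun s => P (Sum.inl s)) ∧ (∀ s, (∀ j, o j ∈ s j) → P (Sum.inl s) = 0) ∧
      SuppU I (fun α => P (Sum.inr α)) := by
  constructor
  · intro h
    refine ⟨fun q => congrFun h (Sum.inl q), fun s hs => ?_, fun s hs => ?_, fun α hα => ?_⟩
    · have h1 := congrFun h (Sum.inr (Sum.inl s))
      change (if _ then P (Sum.inl s) else 0) = 0 at h1
      rwa [if_pos (Or.inl hs)] at h1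
    · have h1 := congrFun h (Sum.inr (Sum.inl s))
      change (if _ then P (Sum.inl s) else 0) = 0 at h1
      rwa [if_pos (Or.inr hs)] at h1
    · have h1 := congrFun h (Sum.inr (Sum.inr α))
      change (if _ then P (Sum.inr α) else 0) = 0 at h1
      rwa [if_pos hα] at h1
  · rintro ⟨h1, h2, h3, h4⟩
    funext w
    rcases w with q | s | α
    · exact h1 q
    · change (if _ then P (Sum.inl s) else 0) = 0
      split_ifs with h
      · rcases h with h | h
        · exact h2 s h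
        · exact h3 s h
      · rfl
    · change (if _ then P (Sum.inr α) else 0) = 0
      split_ifs with h
      · exact h4 α h
      · rfl

/-- The evaluations of multilinear forms and the conditions on the support. -/
def UL (I : κ → Finset ι) (o : κ → ι) (ty : Q → Ty κ) (δ : ℂ) (u : Q → Un κ ι → ℂ) :
    ((κ → ι) → ℂ) →ₗ[ℂ] (Q ⊕ (κ → ι) → ℂ) where
  toFun t := Sum.elim (fun q => ev t (xo (Th o (ty q) δ (u q))))
    (fun α => if (∃ j, α j ∉ I j) then t α else 0)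
  map_add' A B := by
    funext w
    rcases w with q | α
    · exact ev_add A B _
    · simp only [Sum.elim_inr, Pi.add_apply]
      split_ifs <;> ring
  map_smul' c A := by
    funext w
    rcases w with q | α
    · exact ev_smul c A _
    · simp only [Sum.elim_inr, Pi.smul_apply, smul_eq_mul, RingHom.id_apply]
      split_ifs <;> ring

theorem UL_zero_iff (I : κ → Finset ι) (o : κ → ι) (ty : Q → Ty κ) (δ : ℂ)
    (u : Q → Un κ ι → ℂ) (t : (κ → ι) → ℂ) :
    UL I o ty δ u t = 0 ↔ (∀ q, ev t (xo (Th o (ty q) δ (u q))) = 0) ∧ SuppU I t := by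
  constructor
  · intro h
    refine ⟨fun q => congrFun h (Sum.inl q), fun α hα => ?_⟩
    have h1 := congrFun h (Sum.inr α)
    change (if _ then t α else 0) = 0 at h1
    rwa [if_pos hα] at h1
  · rintro ⟨h1, h4⟩
    funext w
    rcases w with q | α
    · exact h1 q
    · change (if _ then t α else 0) = 0
      split_ifs with h
      · exact h4 α h
      · rfl

/-! ### Polynomiality -/

variable {σ : Type}

theorem isPoly_Th (o : κ → ι) (τ : Ty κ) {δ : (σ → ℂ) → ℂ} {u : (σ → ℂ) → Un κ ι → ℂ}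
    (hδ : IsPoly δ) (hu : ∀ w, IsPoly (fun z => u z w)) (w : Un κ ι) :
    IsPoly (fun z => Th o τ (δ z) (u z) w) := by
  rcases w with ⟨j, i⟩ | j
  · exact IsPoly.ite ((hδ.pow _).mul (hu _)) (hu _)
  · exact (hδ.pow _).mul (hu _)

theorem isPoly_Mh (o : κ → ι) {u : (σ → ℂ) → Un κ ι → ℂ}
    (hu : ∀ w, IsPoly (fun z => u z w)) : IsPoly (fun z => Mh o (u z)) :=
  IsPoly.prod _ fun _ _ => hu _

theorem isPoly_Fs (I : κ → Finset ι) (o : κ → ι) {r : ℕ} (H : Fin r → (κ → ι) → ℂ) (τ : Ty κ)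
    {δ : (σ → ℂ) → ℂ} {u : (σ → ℂ) → Un κ ι → ℂ}
    (hδ : IsPoly δ) (hu : ∀ w, IsPoly (fun z => u z w)) (w : Un κ ι) :
    IsPoly (fun z => Fs I o H τ (δ z) (u z) w) := by
  have hx : ∀ j i, IsPoly (fun z => xo (Th o τ (δ z) (u z)) j i) := fun j i =>
    isPoly_Th o τ hδ hu (Sum.inl (j, i))
  rcases w with ⟨j, i⟩ | j
  · refine IsPoly.ite (IsPoly.sub (IsPoly.add (IsPoly.ite ?_ (IsPoly.const 0)) ?_) ?_) (hu _)
    · exact (((IsPoly.const 2).mul (IsPoly.ite (IsPoly.const 1) (hδ.pow _))).mul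
        (isPoly_Mh o hu)).mul (IsPoly.prod _ fun _ _ => hu _)
    · exact (hδ.pow _).mul (isPoly_dG (T := fun _ => H) (fun a α => IsPoly.const _) hx j i)
    · exact (hu _).mul (hx j i)
  · exact (IsPoly.sum _ fun i _ => (hx j i).pow 2).sub (IsPoly.const 1)

theorem isPoly_rowS (o : κ → ι) (τ : Ty κ) (R : (κ → Sym2 ι) → ℂ) (P : (κ → ι) → ℂ)
    {δ : (σ → ℂ) → ℂ} {u : (σ → ℂ) → Un κ ι → ℂ}
    (hδ : IsPoly δ) (hu : ∀ w, IsPoly (fun z => u z w)) :
    IsPoly (fun z => rowS o τ (δ z) (u z) R P) := by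
  have hx : ∀ j i, IsPoly (fun z => xo (Th o τ (δ z) (u z)) j i) := fun j i =>
    isPoly_Th o τ hδ hu (Sum.inl (j, i))
  exact ((hδ.pow _).mul (isPoly_evS (P := fun _ => R) (fun s => IsPoly.const _) hx)).add
    (((hδ.pow _).mul (isPoly_Mh o hu)).mul
      (isPoly_ev (t := fun _ => P) (fun s => IsPoly.const _) hx))

theorem isPoly_omS (I : κ → Finset ι) (o : κ → ι) {r : ℕ} (H : Fin r → (κ → ι) → ℂ)
    (A : κ → ι → ι → ℂ) {δ : (σ → ℂ) → ℂ} (hδ : IsPoly δ) (s : κ → Sym2 ι) :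
    IsPoly (fun z => omS I o H (δ z) A s) :=
  (IsPoly.const _).add (hδ.mul (IsPoly.const _))

theorem isPoly_omR (I : κ → Finset ι) (o : κ → ι) {r : ℕ} (H : Fin r → (κ → ι) → ℂ)
    (A : κ → ι → ι → ℂ) {δ : (σ → ℂ) → ℂ} (hδ : IsPoly δ) (s : κ → Sym2 ι) :
    IsPoly (fun z => omR I o H (δ z) A s) :=
  IsPoly.ite (IsPoly.ite (IsPoly.const 0) (isPoly_omS I o H A hδ s)) (IsPoly.const 0)

theorem isPoly_omQ (I : κ → Finset ι) (o : κ → ι) {r : ℕ} (H : Fin r → (κ → ι) → ℂ)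
    (A : κ → ι → ι → ℂ) {δ : (σ → ℂ) → ℂ} (hδ : IsPoly δ) (α : κ → ι) :
    IsPoly (fun z => omQ I o H (δ z) A α) :=
  IsPoly.ite ((IsPoly.const _).add ((hδ.pow _).mul (isPoly_omS I o H A hδ _))) (IsPoly.const 0)

/-! ### The rows at a critical point -/

theorem rowS_eq (o : κ → ι) {τ : Ty κ} (hτ : τ.Ok) {δ : ℂ} (hδ : δ ≠ 0) (u : Un κ ι → ℂ)
    (R : (κ → Sym2 ι) → ℂ) (P : (κ → ι) → ℂ) :
    rowS o τ δ u R P = δ ^ τ.f * (evS R (xo (Th o τ δ u)) + (δ ^ 2)⁻¹ *
      (∏ m, xo (Th o τ δ u) m (o m)) * ev P (xo (Th o τ δ u))) := by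
  obtain ⟨_, _, _, h3⟩ := hτ
  have h4 : δ ^ τ.g = δ ^ τ.f * (δ ^ 2)⁻¹ * δ ^ (τ.θ * τ.S.card) := by
    have h5 : δ ^ τ.g * δ ^ 2 = δ ^ τ.f * δ ^ (τ.θ * τ.S.card) := by
      rw [← pow_add, ← pow_add, h3]
    field_simp
    linear_combination h5
  rw [rowS, Mh_Th, h4]
  ring

end SP

open SP GG

theorem spreadAll : StZ → StSpread := by
  intro hZ κ ι _ _ _ _ I o r H Q _ _ ty u₀ ho hlim
  obtain ⟨h1, h2, h3, h4, h5, h6, h7⟩ := hlim
  -- the parameters
  let z₀ : Unit ⊕ Q × Un κ ι → ℂ := Sum.elim (fun _ => 0) (fun p => u₀ p.1 p.2)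
  have hδ : IsPoly (fun z : Unit ⊕ Q × Un κ ι → ℂ => z (Sum.inl ())) := IsPoly.coord _
  have hu : ∀ q w, IsPoly (fun z : Unit ⊕ Q × Un κ ι → ℂ => z (Sum.inr (q, w))) :=
    fun q w => IsPoly.coord _
  obtain ⟨g₁, hg₁, hg₁0, hg₁'⟩ := exact_poly
    (fun z : Unit ⊕ Q × Un κ ι → ℂ => EL I o ty (z (Sum.inl ())) (fun q w => z (Sum.inr (q, w))))
    (fun z : Unit ⊕ Q × Un κ ι → ℂ => OmL I o H (z (Sum.inl ())))
    (by
      intro i j
      rcases i with q | s | α
      · exact isPoly_rowS o (ty q) _ _ hδ (hu q)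
      · exact IsPoly.const _
      · exact IsPoly.const _)
    (by
      intro i j
      rcases i with s | α
      · exact isPoly_omR I o H _ hδ s
      · exact isPoly_omQ I o H _ hδ α)
    z₀
    (by
      intro P hP
      rw [EL_zero_iff] at hP
      obtain ⟨ha, hb, hc, hd⟩ := hP
      obtain ⟨A, hA1, hA2⟩ := h7 _ _ hb hc hd ha
      refine ⟨fun e => A e.1 e.2.1 e.2.2, ?_⟩
      funext w
      rcases w with s | α
      · exact congrFun hA1 s
      · exact congrFun hA2 α)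
  obtain ⟨g₂, hg₂, hg₂0, hg₂'⟩ := inj_poly
    (fun z : Unit ⊕ Q × Un κ ι → ℂ => UL I o ty (z (Sum.inl ())) (fun q w => z (Sum.inr (q, w))))
    (by
      intro i j
      rcases i with q | α
      · exact isPoly_ev (t := fun _ => Pi.single j 1) (fun _ => IsPoly.const _)
          (fun m i' => isPoly_Th o (ty q) hδ (hu q) (Sum.inl (m, i')))
      · exact IsPoly.const _)
    z₀
    (by
      intro t ht
      rw [UL_zero_iff] at ht
      exact h6 t ht.2 ht.1)
  let g : (Unit → ℂ) → (Q → Un κ ι → ℂ) → ℂ := fun t u =>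
    g₁ (Sum.elim t (fun p => u p.1 p.2)) * g₂ (Sum.elim t (fun p => u p.1 p.2)) *
      (∏ q, ∏ j, u q (Sum.inl (j, o j))) * ∏ q, ∏ j, u q (Sum.inr j)
  have hgen := hZ Unit (Un κ ι) Q (fun q t u => Fs I o H (ty q) (t ()) u) g
    (fun q w => isPoly_Fs I o H (ty q) (IsPoly.coord (Sum.inl ()))
      (u := fun z w => z (Sum.inr w)) (fun w => IsPoly.coord _) w)
    (by
      have hz : ∀ z : Unit ⊕ Q × Un κ ι → ℂ,
          Sum.elim (fun i => z (Sum.inl i)) (fun p : Q × Un κ ι => z (Sum.inr (p.1, p.2))) = z := by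
        intro z
        funext w
        rcases w with w | w <;> rfl
      simp only [g, hz]
      exact ((hg₁.mul hg₂).mul (IsPoly.prod _ fun q _ => IsPoly.prod _ fun j _ => hu q _)).mul
        (IsPoly.prod _ fun q _ => IsPoly.prod _ fun j _ => hu q _))
    (fun _ => 0) u₀ h2 h3
    (by
      refine mul_ne_zero (mul_ne_zero (mul_ne_zero hg₁0 hg₂0) ?_) ?_
      · exact Finset.prod_ne_zero_iff.2 fun q _ => Finset.prod_ne_zero_iff.2 fun j _ => h4 q j
      · exact Finset.prod_ne_zero_iff.2 fun q _ => Finset.prod_ne_zero_iff.2 fun j _ => h5 q j)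
  obtain ⟨δ, hδ0, u, hu1, hu2, hu3⟩ := hgen.exists_unit
  have hg1 := left_ne_zero_of_mul (left_ne_zero_of_mul (left_ne_zero_of_mul hu3))
  have hg2 := right_ne_zero_of_mul (left_ne_zero_of_mul (left_ne_zero_of_mul hu3))
  have hg3 : ∀ q j, u q (Sum.inl (j, o j)) ≠ 0 := by
    have := right_ne_zero_of_mul (left_ne_zero_of_mul hu3)
    exact fun q j => Finset.prod_ne_zero_iff.1 (Finset.prod_ne_zero_iff.1 this q (mem_univ q)) j
      (mem_univ j)
  have hg4 : ∀ q j, u q (Sum.inr j) ≠ 0 := by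
    have := right_ne_zero_of_mul hu3
    exact fun q j => Finset.prod_ne_zero_iff.1 (Finset.prod_ne_zero_iff.1 this q (mem_univ q)) j
      (mem_univ j)
  obtain ⟨η, hη⟩ := IsAlgClosed.exists_pow_nat_eq (δ ^ 3) (n := 2) (by norm_num)
  -- the points are critical
  have hcrit : ∀ q w, crit I (Tdeg o H η) (Th o (ty q) δ (u q)) w = 0 := fun q w => by
    rw [crit_Th ho H (h1 q) hη, hu1 q w, mul_zero]
  have hEO : ∀ A, EL I o ty δ u (OmL I o H δ A) = 0 := by
    intro A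
    rw [EL_zero_iff]
    refine ⟨fun q => ?_, suppS_cutS _ _, fun s hs => ?_, suppU_cutU _ _⟩
    · have h8 := rot_eq (o := o) H hδ0 hη (fun j a b => A (j, a, b)) (crit_supp (hcrit q))
      have h9 := soG_crit (fun j i hi => crit_eq (hcrit q) j i hi)
        (rotB I o δ (fun j a b => A (j, a, b)))
      rw [rowS_eq o (h1 q) hδ0]
      refine mul_eq_zero_of_right _ ?_
      rw [h9] at h8
      exact h8
    · change cutS I (restS o _) s = 0
      simp only [cutS, restS, if_pos hs, ite_self]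
  refine ⟨Tdeg o H η, Fintype.card Q, fun k => Th o (ty ((Fintype.equivFin Q).symm k)) δ
    (u ((Fintype.equivFin Q).symm k)), fun k => hcrit _, fun k => ?_, fun k j => ?_, fun k j => ?_,
    fun k e he => absurd he (Finset.notMem_empty e), fun t ht hk => ?_, fun P hP hk => ?_⟩
  · exact nonDeg_Th ho (h1 _) hδ0 hη (hu2 _)
  · rw [xo_Th]
    split_ifs
    · exact mul_ne_zero (pow_ne_zero _ hδ0) (hg3 _ _)
    · exact hg3 _ _
  · rw [lo_Th]
    exact mul_ne_zero (pow_ne_zero _ hδ0) (hg4 _ _)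
  · refine hg₂' _ hg2 t ?_
    rw [UL_zero_iff]
    refine ⟨fun q => ?_, ht⟩
    have := hk (Fintype.equivFin Q q)
    simp only [Equiv.symm_apply_apply] at this
    exact this
  · have hk' : ∀ q, evS P (xo (Th o (ty q) δ (u q))) = 0 := by
      intro q
      have := hk (Fintype.equivFin Q q)
      simp only [Equiv.symm_apply_apply] at this
      exact this
    obtain ⟨A, hA⟩ := hg₁' _ hg1 hEO (Sum.elim (restS o P) (fun α => δ ^ 2 * quoM o P α)) (by
      change EL I o ty δ u _ = 0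
      rw [EL_zero_iff]
      refine ⟨fun q => ?_, fun s hs => ?_, fun s hs => ?_, fun α hα => ?_⟩
      · rw [rowS_eq o (h1 q) hδ0]
        refine mul_eq_zero_of_right _ ?_
        have h8 := evS_split o P (xo (Th o (ty q) δ (u q)))
        rw [hk' q] at h8
        have h9 : ev (fun α => δ ^ 2 * quoM o P α) (xo (Th o (ty q) δ (u q))) =
            δ ^ 2 * ev (quoM o P) (xo (Th o (ty q) δ (u q))) := ev_mul_left _ _ _
        simp only [Sum.elim_inl, Sum.elim_inr]
        rw [h9]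
        field_simp
        exact h8.symm
      · simp only [Sum.elim_inl, restS]
        rw [hP s hs, ite_self]
      · simp only [Sum.elim_inl, restS, if_pos hs]
      · obtain ⟨j, hj⟩ := hα
        simp only [Sum.elim_inr, quoM]
        rw [hP _ ⟨j, α j, Sym2.mem_mk_right _ _, hj⟩, mul_zero])
    refine ⟨rotB I o δ (fun j a b => A (j, a, b)), fun x hx => ?_⟩
    rw [← rot_eq H hδ0 hη (fun j a b => A (j, a, b)) hx, evS_split o P x]
    have hR : restS o P = omR I o H δ (fun j a b => A (j, a, b)) := by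
      funext s
      exact congrFun hA (Sum.inl s)
    have hQ : (fun α => δ ^ 2 * quoM o P α) = omQ I o H δ (fun j a b => A (j, a, b)) := by
      funext α
      exact congrFun hA (Sum.inr α)
    rw [← hR, ← hQ, ev_mul_left]
    field_simp

end Pool.Agent.Helper41.SV
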