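import Pool.Agent.Helper41.SV.FStmts

/-!
The exceptional formats (MP_f2a874_ag, module X).
-/

open Finset Function

noncomputable section

namespace Pool.Agent.Helper41.SV

theorem IndOn.transport {V₁ V₂ : Type} {adj₁ : V₁ → V₁ → Prop} {adj₂ : V₂ → V₂ → Prop}
    {W₁ : Finset V₁} {W₂ : Finset V₂} {d : ℕ} (ψ : V₂ → V₁) (φ : V₁ → V₂)
    (h₁ : ∀ w ∈ W₂, φ (ψ w) = w) (h₂ : ∀ w ∈ W₂, ψ w ∈ W₁)
    (h₃ : ∀ u ∈ W₂, ∀ v ∈ W₂, adj₂ u v → adj₁ (ψ u) (ψ v)) {p : V₁ → Fin d → ℂ}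
    (hp : IndOn adj₁ W₁ p) : IndOn adj₂ W₂ (fun w => p (ψ w)) := by
  intro y
  obtain ⟨P, hP⟩ := hp (fun u v => y (φ u) (φ v))
  refine ⟨fun w => P (ψ w), ?_⟩
  intro u hu v hv huv
  have h := hP (ψ u) (h₂ u hu) (ψ v) (h₂ v hv) (h₃ u hu v hv huv)
  rw [h₁ u hu, h₁ v hv] at h
  exact h

theorem others : ∀ i : Fin 3, ∃ j₁ j₂ : Fin 3, j₁ ≠ i ∧ j₂ ≠ i ∧ j₁ ≠ j₂ ∧
    ∀ j, j = i ∨ j = j₁ ∨ j = j₂ := by
  decide

theorem sum_of_exc (n : Fin 3 → ℕ) (i : Fin 3) (hi : ∀ j, j ≠ i → n j = 1) :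
    ∑ j, n j = n i + 2 := by
  rw [Fin.sum_univ_three]
  fin_cases i
  · have h1 := hi 1 (by decide)
    have h2 := hi 2 (by decide)
    simp [h1, h2]
  · have h1 := hi 0 (by decide)
    have h2 := hi 2 (by decide)
    simp [h1, h2]
    omega
  · have h1 := hi 0 (by decide)
    have h2 := hi 1 (by decide)
    simp [h1, h2]
    omega

theorem excInd (h11 : StInd11) : StExcInd := by
  intro k n hn hE
  obtain ⟨rfl, i, hi, hi3⟩ := hE
  have hs := sum_of_exc n i hi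
  obtain ⟨s, hs'⟩ : ∃ s, s = ∑ j, n j := ⟨_, rfl⟩
  rw [← hs']
  rw [← hs'] at hs
  subst hs
  obtain ⟨p, hp⟩ := h11 (n i) (hn i) hi3
  obtain ⟨j₁, j₂, h1, h2, h12, hall⟩ := others i
  let ψ : (Fin 3 → Fin (n i + 2 + 1)) → Fin 2 × Fin 2 × Fin (n i + 1) := fun α =>
    (⟨min (α j₁ : ℕ) 1, by omega⟩, ⟨min (α j₂ : ℕ) 1, by omega⟩,
      ⟨min (α i : ℕ) (n i), by omega⟩)
  let φ : Fin 2 × Fin 2 × Fin (n i + 1) → (Fin 3 → Fin (n i + 2 + 1)) := fun w j =>
    if j = i then ⟨(w.2.2 : ℕ), by omega⟩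
    else if j = j₁ then ⟨(w.1 : ℕ), by omega⟩ else ⟨(w.2.1 : ℕ), by omega⟩
  refine ⟨fun w => p (ψ w), IndOn.transport ψ φ ?_ (fun _ _ => mem_univ _) ?_ hp⟩
  · intro w hw
    have hw' : ∀ j, (w j : ℕ) ≤ n j := by
      simp only [box, mem_filter, mem_univ, true_and] at hw
      exact fun j => (hw j).2
    have e1 : (w j₁ : ℕ) ≤ 1 := by
      have := hw' j₁
      rwa [hi j₁ h1] at this
    have e2 : (w j₂ : ℕ) ≤ 1 := by
      have := hw' j₂
      rwa [hi j₂ h2] at this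
    have e3 := hw' i
    funext j
    apply Fin.ext
    rcases hall j with rfl | rfl | rfl
    · simp only [φ, ψ, if_pos rfl]
      simp [e3]
    · simp only [φ, ψ, if_neg h1]
      simp [e1]
    · simp only [φ, ψ, if_neg h2, if_neg h12.symm]
      simp [e2]
  · intro u _ v _ huv
    refine ⟨?_, ?_, ?_⟩
    · show min (u j₁ : ℕ) 1 ≤ min (v j₁ : ℕ) 1
      exact min_le_min_right _ (huv j₁)
    · show min (u j₂ : ℕ) 1 ≤ min (v j₂ : ℕ) 1
      exact min_le_min_right _ (huv j₂)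
    · show min (u i : ℕ) (n i) ≤ min (v i : ℕ) (n i)
      exact min_le_min_right _ (huv i)

theorem excNum : StExcNum := by
  intro k n hn hE
  have hE' := hE
  rw [excess, if_pos hE']
  obtain ⟨rfl, i, hi, hi3⟩ := hE
  have h0 := hn i
  have hn' : n = Function.update (fun _ => 1) i (n i) := by
    funext j
    by_cases h : j = i
    · subst h
      simp
    · rw [Function.update_of_ne h, hi j h]
  clear hE' hn hi
  generalize n i = m at *
  subst hn'
  interval_cases m <;> fin_cases i <;> decide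

theorem nonExc (hbox : StBox) : StNonExc := by
  intro k n hk hn hE
  have hf : (univ.filter (fun m : Fin k => (0 : Fin k → ℕ) m < n m)) = univ := by
    apply filter_true_of_mem
    intro m _
    exact hn m
  have hcard : (univ.filter (fun m : Fin k => (0 : Fin k → ℕ) m < n m)).card = k := by
    rw [hf, card_univ, Fintype.card_fin]
  have h := hbox (Fin k) (∑ j, n j + 1) 0 n (fun m => Nat.zero_le _)
    (fun m => Nat.lt_succ_of_le (Finset.single_le_sum (f := n) (fun _ _ => Nat.zero_le _)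
      (mem_univ m))) (by rw [hcard]; exact hk) ?_
  · exact h
  · rintro ⟨h3, i, hi, hi3⟩
    rw [hcard] at h3
    refine hE ⟨h3, i, fun j hj => ?_, hi3⟩
    have := hi j hj
    have h1 := hn j
    have h2 : n j - (0 : Fin k → ℕ) j = n j := rfl
    rw [h2] at this
    omega

end Pool.Agent.Helper41.SV
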