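import Pool.Agent.Helper41.SV.Stmts

/-!
Spreading out nondegenerate solutions of a polynomial system with parameters.

The solutions with invertible Jacobian form a standard smooth algebra over the ring of the
parameters, so the image on spectra is open.
-/

open Finset MvPolynomial

noncomputable section

namespace Pool.Agent.Helper41.SV

namespace Zm

variable {σ Ω : Type}

/-- The Jacobian matrix. -/
def jac {R : Type} [CommRing R] (P : Ω → MvPolynomial Ω R) : Matrix Ω Ω (MvPolynomial Ω R) :=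
  Matrix.of fun i j => pderiv i (P j)

theorem isOpenMap_jac {R : Type} [CommRing R] [Fintype Ω] [DecidableEq Ω]
    (P : Ω → MvPolynomial Ω R) (G : MvPolynomial Ω R)
    (B : Type) [CommRing B] [Algebra (MvPolynomial Ω R ⧸ Ideal.span (Set.range P)) B] [Algebra R B]
    [IsScalarTower R (MvPolynomial Ω R ⧸ Ideal.span (Set.range P)) B]
    [IsLocalization.Away (Ideal.Quotient.mk (Ideal.span (Set.range P)) ((jac P).det * G)) B] :
    IsOpenMap (PrimeSpectrum.comap (algebraMap R B)) := by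
  let I : Ideal (MvPolynomial Ω R) := Ideal.span (Set.range P)
  let B₀ := MvPolynomial Ω R ⧸ I
  let hb : B₀ := Ideal.Quotient.mk I ((jac P).det * G)
  let P₀ : Algebra.PreSubmersivePresentation R B₀ Ω Ω :=
    Algebra.PreSubmersivePresentation.naive (v := P) id Function.injective_id
  let L : Algebra.PreSubmersivePresentation B₀ B Unit Unit :=
    Algebra.PreSubmersivePresentation.localizationAway B hb
  have hunit : IsUnit (algebraMap B₀ B hb) := IsLocalization.Away.algebraMap_isUnit hb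
  have hjac : P₀.jacobian = Ideal.Quotient.mk I (jac P).det := by
    rw [Algebra.PreSubmersivePresentation.jacobian_eq_jacobiMatrix_det]
    have : P₀.jacobiMatrix = jac P := by
      refine Matrix.ext fun i j => ?_
      exact Algebra.PreSubmersivePresentation.jacobiMatrix_naive _ _ _ _ i j
    rw [this]
    rfl
  have hu : IsUnit (L.comp P₀).jacobian := by
    rw [Algebra.PreSubmersivePresentation.comp_jacobian_eq_jacobian_smul_jacobian]
    rw [Algebra.smul_def, hjac]
    have e1 : L.jacobian = algebraMap B₀ B hb :=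
      Algebra.PreSubmersivePresentation.localizationAway_jacobian hb
    rw [e1]
    refine IsUnit.mul ?_ hunit
    have e2 : algebraMap B₀ B hb = algebraMap B₀ B (Ideal.Quotient.mk I (jac P).det) *
        algebraMap B₀ B (Ideal.Quotient.mk I G) := by
      rw [← map_mul, ← map_mul]
    rw [e2] at hunit
    exact isUnit_of_mul_isUnit_left hunit
  have hsm : Algebra.IsStandardSmooth R B :=
    Algebra.SubmersivePresentation.isStandardSmooth (⟨L.comp P₀, hu⟩ :
      Algebra.SubmersivePresentation R B (Unit ⊕ Ω) (Unit ⊕ Ω))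
  exact PrimeSpectrum.isOpenMap_comap_of_hasGoingDown_of_finitePresentation

/-- Evaluation of a polynomial in the unknowns with coefficients in `R`. -/
def evR {R : Type} [CommRing R] (φ : R →+* ℂ) (u : Ω → ℂ) : MvPolynomial Ω R →+* ℂ :=
  eval₂Hom φ u

lemma eq_of_ker {R : Type} [CommRing R] [Algebra ℂ R] (φ ψ : R →ₐ[ℂ] ℂ)
    (h : ∀ p, φ p = 0 → ψ p = 0) (p : R) : ψ p = φ p := by
  have h1 := h (p - algebraMap ℂ R (φ p)) (by simp)
  rw [map_sub, sub_eq_zero] at h1
  rw [h1, AlgHom.commutes]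
  rfl

theorem spreadR {R : Type} [CommRing R] [Algebra ℂ R] [Algebra.FiniteType ℂ R]
    [Fintype Ω] [DecidableEq Ω]
    (P : Ω → MvPolynomial Ω R) (G : MvPolynomial Ω R)
    (φ₀ : R →ₐ[ℂ] ℂ) (u₀ : Ω → ℂ) (h0 : ∀ w, evR (φ₀ : R →+* ℂ) u₀ (P w) = 0)
    (h1 : evR (φ₀ : R →+* ℂ) u₀ ((jac P).det * G) ≠ 0) :
    ∃ Φ : R, φ₀ Φ ≠ 0 ∧ ∀ φ : R →ₐ[ℂ] ℂ, φ Φ ≠ 0 →
      ∃ u, (∀ w, evR (φ : R →+* ℂ) u (P w) = 0) ∧
        evR (φ : R →+* ℂ) u ((jac P).det * G) ≠ 0 := by
  let I : Ideal (MvPolynomial Ω R) := Ideal.span (Set.range P)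
  let B₀ := MvPolynomial Ω R ⧸ I
  let hb : B₀ := Ideal.Quotient.mk I ((jac P).det * G)
  let B := Localization.Away hb
  have hopen : IsOpenMap (PrimeSpectrum.comap (algebraMap R B)) := isOpenMap_jac P G B
  -- the point over `φ₀`
  have hI : ∀ a ∈ I, evR (φ₀ : R →+* ℂ) u₀ a = 0 := by
    intro a ha
    have : I ≤ RingHom.ker (evR (φ₀ : R →+* ℂ) u₀) := by
      rw [Ideal.span_le]
      rintro _ ⟨w, rfl⟩
      exact h0 w
    exact this ha
  let χ₀ : B₀ →+* ℂ := Ideal.Quotient.lift I (evR (φ₀ : R →+* ℂ) u₀) hI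
  have hχ₀ : IsUnit (χ₀ hb) := by
    rw [isUnit_iff_ne_zero]
    exact h1
  let χ : B →+* ℂ := IsLocalization.Away.lift (S := B) hb hχ₀
  have hχ : ∀ a : R, χ (algebraMap R B a) = φ₀ a := by
    intro a
    rw [IsScalarTower.algebraMap_apply R B₀ B, IsLocalization.Away.lift_eq]
    change evR (φ₀ : R →+* ℂ) u₀ (C a) = _
    rw [evR, coe_eval₂Hom, eval₂_C]
    rfl
  let x₀ : PrimeSpectrum B := ⟨RingHom.ker χ, RingHom.ker_isPrime χ⟩
  have hrange : IsOpen (Set.range (PrimeSpectrum.comap (algebraMap R B))) := hopen.isOpen_range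
  obtain ⟨_, ⟨_, ⟨Φ, rfl⟩, rfl⟩, hmem, hsub⟩ :=
    PrimeSpectrum.isBasis_basic_opens.exists_subset_of_mem_open
      (Set.mem_range_self (f := PrimeSpectrum.comap (algebraMap R B)) x₀) hrange
  refine ⟨Φ, ?_, ?_⟩
  · intro h
    apply hmem
    change χ (algebraMap R B Φ) = 0
    rw [hχ, h]
  intro φ hφ
  let xt : PrimeSpectrum R := ⟨RingHom.ker φ, RingHom.ker_isPrime _⟩
  have hxt : xt ∈ Set.range (PrimeSpectrum.comap (algebraMap R B)) := hsub hφ
  obtain ⟨y, hy⟩ := hxt
  obtain ⟨M, hM, hyM⟩ := Ideal.exists_le_maximal y.asIdeal y.isPrime.ne_top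
  let K := B ⧸ M
  let _ : Field K := Ideal.Quotient.field M
  have hft : Algebra.FiniteType ℂ B := by
    have h2 : Algebra.FiniteType R B₀ := inferInstance
    have h3 : Algebra.FiniteType R B := inferInstance
    exact Algebra.FiniteType.trans (S := R) inferInstance h3
  have hftK : Algebra.FiniteType ℂ K := inferInstance
  have hfin : Module.Finite ℂ K := finite_of_finite_type_of_isJacobsonRing ℂ K
  have hbij := IsAlgClosed.algebraMap_bijective_of_isIntegral (k := ℂ) (K := K)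
  let e : ℂ ≃ₐ[ℂ] K := AlgEquiv.ofBijective (Algebra.ofId ℂ K) hbij
  let ψ : B →ₐ[ℂ] ℂ := (e.symm : K →ₐ[ℂ] ℂ).comp (Ideal.Quotient.mkₐ ℂ M)
  have hψ : ∀ b ∈ M, ψ b = 0 := by
    intro b hb
    change e.symm (Ideal.Quotient.mk M b) = 0
    rw [Ideal.Quotient.eq_zero_iff_mem.2 hb, map_zero]
  have hψR : ∀ a : R, ψ (algebraMap R B a) = φ a := by
    intro a
    refine eq_of_ker φ (ψ.comp (IsScalarTower.toAlgHom ℂ R B)) ?_ a
    intro p hp
    apply hψ
    apply hyM
    have h3 : p ∈ (PrimeSpectrum.comap (algebraMap R B) y).asIdeal := by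
      rw [hy]
      exact hp
    exact h3
  let ρ : MvPolynomial Ω R →+* B := (algebraMap B₀ B).comp (Ideal.Quotient.mk I)
  let u : Ω → ℂ := fun w => ψ (ρ (X w))
  have hev : ∀ a : MvPolynomial Ω R, evR (φ : R →+* ℂ) u a =
      ψ (algebraMap B₀ B (Ideal.Quotient.mk I a)) := by
    intro a
    have h4 : evR (φ : R →+* ℂ) u = (ψ : B →+* ℂ).comp ρ := by
      apply MvPolynomial.ringHom_ext
      · intro r
        change evR (φ : R →+* ℂ) u (C r) = ψ (algebraMap R B r)
        rw [hψR, evR, coe_eval₂Hom, eval₂_C]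
        rfl
      · intro w
        rw [evR, coe_eval₂Hom, eval₂_X]
        rfl
    rw [h4]
    rfl
  refine ⟨u, ?_, ?_⟩
  · intro w
    rw [hev]
    have h5 : Ideal.Quotient.mk I (P w) = 0 :=
      Ideal.Quotient.eq_zero_iff_mem.2 (Ideal.subset_span ⟨w, rfl⟩)
    rw [h5, map_zero, map_zero]
  · rw [hev]
    have h6 : IsUnit (algebraMap B₀ B hb) := IsLocalization.Away.algebraMap_isUnit hb
    exact (h6.map ψ).ne_zero

/-- Evaluation of a polynomial in the unknowns with polynomial coefficients in the parameters. -/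
def ev2 (t : σ → ℂ) (u : Ω → ℂ) : MvPolynomial Ω (MvPolynomial σ ℂ) →+* ℂ :=
  eval₂Hom (eval t) u

theorem spread [Fintype Ω] [DecidableEq Ω] [Fintype σ]
    (P : Ω → MvPolynomial Ω (MvPolynomial σ ℂ)) (G : MvPolynomial Ω (MvPolynomial σ ℂ))
    (t₀ : σ → ℂ) (u₀ : Ω → ℂ) (h0 : ∀ w, ev2 t₀ u₀ (P w) = 0)
    (h1 : ev2 t₀ u₀ ((jac P).det * G) ≠ 0) :
    ∃ Φ : MvPolynomial σ ℂ, Φ ≠ 0 ∧ ∀ t, eval t Φ ≠ 0 →
      ∃ u, (∀ w, ev2 t u (P w) = 0) ∧ ev2 t u ((jac P).det * G) ≠ 0 := by
  have he : ∀ t : σ → ℂ, ∀ u : Ω → ℂ,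
      evR ((aeval t : MvPolynomial σ ℂ →ₐ[ℂ] ℂ) : MvPolynomial σ ℂ →+* ℂ) u = ev2 t u := by
    intro t u
    rfl
  obtain ⟨Φ, hΦ, hΦ2⟩ := spreadR P G (aeval t₀) u₀ (by rw [he]; exact h0) (by rw [he]; exact h1)
  refine ⟨Φ, ?_, ?_⟩
  · rintro rfl
    exact hΦ (map_zero _)
  · intro t ht
    obtain ⟨u, hu⟩ := hΦ2 (aeval t) ht
    rw [he] at hu
    exact ⟨u, hu⟩

/-! ### Derivatives -/

lemma hasDerivAt_eval [Fintype Ω] (p : MvPolynomial Ω ℂ) (u ξ : Ω → ℂ) :
    HasDerivAt (fun s : ℂ => eval (u + s • ξ) p) (∑ v, ξ v * eval u (pderiv v p)) 0 := by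
  classical
  induction p using MvPolynomial.induction_on with
  | C a =>
    simp only [eval_C, pderiv_C, map_zero, mul_zero, Finset.sum_const_zero]
    exact hasDerivAt_const _ _
  | add p q hp hq =>
    simp only [map_add, mul_add, Finset.sum_add_distrib]
    exact hp.add hq
  | mul_X p i hp =>
    have h1 : HasDerivAt (fun s : ℂ => (u + s • ξ) i) (ξ i) 0 := by
      simp only [Pi.add_apply, Pi.smul_apply, smul_eq_mul]
      have := ((hasDerivAt_id (0 : ℂ)).mul_const (ξ i)).const_add (u i)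
      simpa using this
    have h2 := hp.mul h1
    have h2' : (fun s : ℂ => eval (u + s • ξ) (p * X i)) =
        (fun s : ℂ => eval (u + s • ξ) p) * fun s : ℂ => (u + s • ξ) i := by
      funext s
      rw [eval_mul, eval_X]
      rfl
    rw [h2']
    refine h2.congr_deriv ?_
    simp only [zero_smul, add_zero, pderiv_mul, pderiv_X, map_add, map_mul, eval_X]
    have h3 : ∀ v, ξ v * (eval u (pderiv v p) * u i +
        eval u p * eval u ((Pi.single v 1 : Ω → MvPolynomial Ω ℂ) i)) =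
        (ξ v * eval u (pderiv v p)) * u i + (if v = i then eval u p * ξ v else 0) := by
      intro v
      by_cases h : v = i
      · subst h
        rw [Pi.single_eq_same, if_pos rfl, map_one]
        ring
      · rw [Pi.single_eq_of_ne (fun h' => h h'.symm), if_neg h, map_zero]
        ring
    rw [Finset.sum_congr rfl fun v _ => h3 v, Finset.sum_add_distrib, ← Finset.sum_mul,
      Finset.sum_ite_eq' Finset.univ i]
    simp

lemma ev2_eq (t : σ → ℂ) (u : Ω → ℂ) (p : MvPolynomial Ω (MvPolynomial σ ℂ)) :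
    ev2 t u p = eval u (map (eval t) p) := by
  rw [ev2, coe_eval₂Hom, eval_map]

lemma hasDerivAt_ev2 [Fintype Ω] (t : σ → ℂ) (p : MvPolynomial Ω (MvPolynomial σ ℂ))
    (u ξ : Ω → ℂ) :
    HasDerivAt (fun s : ℂ => ev2 t (u + s • ξ) p) (∑ v, ξ v * ev2 t u (pderiv v p)) 0 := by
  simp only [ev2_eq, ← pderiv_map]
  exact hasDerivAt_eval _ _ _

lemma nonDeg_iff [Fintype Ω] [DecidableEq Ω] (P : Ω → MvPolynomial Ω (MvPolynomial σ ℂ))
    (t : σ → ℂ) (u : Ω → ℂ) :
    NonDeg (fun u w => ev2 t u (P w)) u ↔ ev2 t u (jac P).det ≠ 0 := by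
  have hdet : ev2 t u (jac P).det = ((ev2 t u).mapMatrix (jac P)).transpose.det := by
    rw [Matrix.det_transpose, RingHom.map_det]
  have hmv : ∀ ξ : Ω → ℂ, ∀ w, (((ev2 t u).mapMatrix (jac P)).transpose.mulVec ξ) w =
      ∑ v, ξ v * ev2 t u (pderiv v (P w)) := by
    intro ξ w
    rw [Matrix.mulVec, dotProduct]
    apply Finset.sum_congr rfl
    intro v _
    rw [mul_comm]
    rfl
  rw [hdet, Ne, ← Matrix.exists_mulVec_eq_zero_iff]
  constructor
  · rintro h ⟨ξ, hξ, hξ0⟩
    apply hξ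
    apply h
    intro w
    have h1 := hasDerivAt_ev2 t (P w) u ξ
    rw [← hmv, hξ0] at h1
    exact h1
  · intro h ξ hξ
    by_contra hne
    apply h
    refine ⟨ξ, hne, ?_⟩
    ext w
    rw [hmv]
    exact (hasDerivAt_ev2 t (P w) u ξ).unique (hξ w)

/-- Polynomials in all variables as polynomials in the unknowns. -/
def conv : MvPolynomial (σ ⊕ Ω) ℂ →ₐ[ℂ] MvPolynomial Ω (MvPolynomial σ ℂ) :=
  aeval (Sum.elim (fun i => C (X i)) X)

lemma ev2_conv (t : σ → ℂ) (u : Ω → ℂ) (p : MvPolynomial (σ ⊕ Ω) ℂ) :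
    ev2 t u (conv p) = eval (Sum.elim t u) p := by
  have : (ev2 t u).comp (conv : MvPolynomial (σ ⊕ Ω) ℂ →ₐ[ℂ] _).toRingHom =
      eval (Sum.elim t u) := by
    apply MvPolynomial.ringHom_ext
    · intro r
      change ev2 t u (conv (C r)) = _
      rw [conv, aeval_C, eval_C, ev2]
      simp [MvPolynomial.algebraMap_apply]
    · intro i
      change ev2 t u (conv (X i)) = _
      rw [conv, aeval_X, eval_X]
      rcases i with i | i <;> simp [ev2]
  exact congrArg (fun f : MvPolynomial (σ ⊕ Ω) ℂ →+* ℂ => f p) this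

lemma nonDeg_prod {Q ω : Type} [DecidableEq Q] (F : Q → (ω → ℂ) → ω → ℂ) (u : Q × ω → ℂ) :
    NonDeg (fun u (x : Q × ω) => F x.1 (fun w => u (x.1, w)) x.2) u ↔
      ∀ q, NonDeg (F q) (fun w => u (q, w)) := by
  constructor
  · intro h q ξ hξ
    have h1 := h (fun x => if x.1 = q then ξ x.2 else 0) ?_
    · ext w
      have := congrFun h1 (q, w)
      simpa using this
    · rintro ⟨q', w⟩
      by_cases hq : q' = q
      · subst hq
        have := hξ w
        convert this using 1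
        funext s
        refine congrArg (fun v => F q' v w) (funext fun w' => ?_)
        simp
      · have : (fun s : ℂ => F q' (fun w' => (u + s • fun x : Q × ω =>
            if x.1 = q then ξ x.2 else 0) (q', w')) w) = fun _ => F q' (fun w' => u (q', w')) w := by
          funext s
          refine congrArg (fun v => F q' v w) (funext fun w' => ?_)
          simp [hq]
        change HasDerivAt (fun s : ℂ => F q' (fun w' => (u + s • fun x : Q × ω =>
            if x.1 = q then ξ x.2 else 0) (q', w')) w) 0 0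
        rw [this]
        exact hasDerivAt_const _ _
  · intro h ξ hξ
    ext ⟨q, w⟩
    have h1 := h q (fun w => ξ (q, w)) (fun w => hξ (q, w))
    exact congrFun h1 w

end Zm

open Zm in
theorem lemmaZ : StZ := by
  intro σ ω Q _ _ _ _ _ _ F g hF hg t₀ u₀ h0 hnd hg0
  choose P0 hP0 using hF
  obtain ⟨G0, hG0⟩ := hg
  let P : Q × ω → MvPolynomial (Q × ω) (MvPolynomial σ ℂ) := fun x =>
    conv (rename (Sum.map id (Prod.mk x.1)) (P0 x.1 x.2))
  let G : MvPolynomial (Q × ω) (MvPolynomial σ ℂ) := conv G0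
  have hP : ∀ t u (x : Q × ω), ev2 t u (P x) = F x.1 t (fun w => u (x.1, w)) x.2 := by
    intro t u x
    have h1 := hP0 x.1 x.2 (Sum.elim t (fun w => u (x.1, w)))
    simp only [Sum.elim_inl, Sum.elim_inr] at h1
    rw [h1, ev2_conv, eval_rename]
    congr 2
    ext i
    rcases i with i | i <;> rfl
  have hG : ∀ t u, ev2 t u G = g t (fun q w => u (q, w)) := by
    intro t u
    have h1 := hG0 (Sum.elim t u)
    simp only [Sum.elim_inl, Sum.elim_inr] at h1
    rw [h1, ev2_conv]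
  have hnd' : ∀ t u, ev2 t u (jac P).det ≠ 0 ↔ ∀ q, NonDeg (F q t) (fun w => u (q, w)) := by
    intro t u
    rw [← nonDeg_iff, ← nonDeg_prod (fun q => F q t)]
    simp only [hP]
  obtain ⟨Φ, hΦ, hΦ2⟩ := spread P G t₀ (fun x => u₀ x.1 x.2)
    (fun x => by rw [hP]; exact h0 x.1 x.2)
    (by
      rw [map_mul, mul_ne_zero_iff]
      refine ⟨(hnd' _ _).2 fun q => hnd q, ?_⟩
      rw [hG]
      exact hg0)
  refine ⟨Φ, hΦ, fun t ht => ?_⟩
  obtain ⟨u, hu1, hu2⟩ := hΦ2 t ht
  rw [map_mul, mul_ne_zero_iff] at hu2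
  refine ⟨fun q w => u (q, w), ?_, ?_, ?_⟩
  · intro q w
    have := hu1 (q, w)
    rw [hP] at this
    exact this
  · exact (hnd' t u).1 hu2.1
  · rw [← hG]
    exact hu2.2

end Pool.Agent.Helper41.SV
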