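import Pool.Agent.Helper41.SV.FE
import Pool.Agent.Helper41.SV.B1
import Pool.Agent.Helper41.SV.B2
import Pool.Agent.Helper41.SV.B3
import Pool.Agent.Helper41.SV.I
import Pool.Agent.Helper41.SV.X
import Pool.Agent.Helper41.SV.R1
import Pool.Agent.Helper41.SV.R2
import Pool.Agent.Helper41.SV.R4
import Pool.Agent.Helper41.SV.R5
import Pool.Agent.Helper41.SV.K
import Pool.Agent.Helper41.SV.S
import Pool.Agent.Helper41.SV.Z
import Pool.Agent.Helper41.SV.F
import Pool.Agent.Helper41.SV.G
import Pool.Agent.Helper41.SV.KL
import Pool.Agent.Helper41.SV.L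
import Pool.Agent.Helper41.SV.M
import Pool.Agent.Helper41.SV.P1
import Pool.Agent.Helper41.SV.P2
import Pool.Agent.Helper41.SV.Spread

/-!
The theorem from all the modules.
-/

open Finset Function Module

noncomputable section

namespace Pool.Agent.Helper41.SV

theorem stepAll : StStep := step_of_parts (spreadAll lemmaZ) (limit pt0 pt1 pt2 kl)

theorem manyAll : StMany := many stepAll (goodGen lemmaZ) extX free

theorem boxAll' : StBox := boxAll (boxStep rigGen rigCone rigExt) base1111 base122 base114

theorem main (k : ℕ) (hk : 3 ≤ k) (n : Fin k → ℕ) (hn : ∀ j, 1 ≤ n j) :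
    Gen (fun T : Idx (fmt n) → ℂ =>
      singSpan T ≤ critSpace T ∧
      (¬ Exceptional n → singSpan T = critSpace T) ∧
      (Exceptional n → singSpan T < critSpace T) ∧
      (finrank ℂ (critSpace T) : ℤ) - finrank ℂ (singSpan T) = excess n) :=
  final manyAll kos sur free (excInd ind11) excNum (nonExc boxAll') k hk n hn

end Pool.Agent.Helper41.SV
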