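import Pool.Agent.Helper41.SV.Step0

/-!
All the limit points together (MP_f2a874_ag).
-/

open Finset Function

noncomputable section

namespace Pool.Agent.Helper41.SV

section data

variable {κ ι : Type} [Fintype κ] [DecidableEq κ] [Fintype ι] [DecidableEq ι]

/-- The points of the second type over one index. -/
theorem data1 (h1 : StPt1) (I : κ → Finset ι) (o : κ → ι) {r : ℕ} (H : Fin r → (κ → ι) → ℂ)
    (ho : ∀ j, o j ∈ I j) (j : κ) (b : ι)
    (hG : GoodX (del I o {j}) (update o j b) {(j, o j)} H) :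
    ∃ (m : ℕ) (v u : Fin m → Un κ ι → ℂ),
      (∀ q, SuppX (del I o {j}) (xo (v q))) ∧
      (∀ q w, Fs I o H (Ty.one j) 0 (u q) w = 0) ∧
      (∀ q, NonDeg (Fs I o H (Ty.one j) 0) (u q)) ∧
      (∀ q m, u q (Sum.inl (m, o m)) ≠ 0) ∧ (∀ q m, u q (Sum.inr m) ≠ 0) ∧
      (∀ q, xo (Th o (Ty.one j) 0 (u q)) = xo (v q)) ∧
      (∀ q R P, rowS o (Ty.one j) 0 (u q) R P = evS R (xo (v q))) ∧
      (∀ t, SuppU (del I o {j}) t → (∀ q, ev t (xo (v q)) = 0) → t = 0) ∧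
      (∀ P, SuppS (del I o {j}) P → (∀ q, evS P (xo (v q)) = 0) →
        ∃ A : κ → ι → ι → ℂ, ∀ x, SuppX (del I o {j}) x →
          evS P x = soG (sharp (del I o {j}) A) H x) := by
  obtain ⟨m, v, hc, hn, hx, hl, hd, ht, hP⟩ := hG
  have h2 := fun q => h1 κ ι I o r H j (v q) ho (hc q) (hn q) (fun m hm => by
    have := hx q m
    rwa [update_of_ne hm] at this) (hl q) (hd q (j, o j) (by simp))
  choose u hu1 hu2 hu3 hu4 hu5 hu6 using h2
  exact ⟨m, v, u, fun q => crit_supp (hc q), hu1, hu2, hu3, hu4, hu5, hu6, ht, hP⟩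

/-- The points of the third type over one pair. -/
theorem data2 (h2 : StPt2) (I : κ → Finset ι) (o : κ → ι) {r : ℕ} (H : Fin r → (κ → ι) → ℂ)
    (ho : ∀ j, o j ∈ I j) (j l : κ) (hjl : j ≠ l) (b c : ι)
    (hG : GoodX (del I o {j, l}) (update (update o j b) l c) {(j, o j), (l, o l)} H) :
    ∃ (m : ℕ) (v : Fin m → Un κ ι → ℂ) (u : Fin m → Fin 2 → Un κ ι → ℂ),
      (∀ q, SuppX (del I o {j, l}) (xo (v q))) ∧
      (∀ q, ∀ m, ∀ i ∈ del I o {j, l} m, dG H (xo (v q)) m i = lo (v q) m * xo (v q) m i) ∧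
      (∀ q, dG H (xo (v q)) j (o j) ≠ 0) ∧ (∀ q, dG H (xo (v q)) l (o l) ≠ 0) ∧
      (∀ q k w, Fs I o H (Ty.two j l) 0 (u q k) w = 0) ∧
      (∀ q k, NonDeg (Fs I o H (Ty.two j l) 0) (u q k)) ∧
      (∀ q k m, u q k (Sum.inl (m, o m)) ≠ 0) ∧ (∀ q k m, u q k (Sum.inr m) ≠ 0) ∧
      (∀ q k, xo (Th o (Ty.two j l) 0 (u q k)) = xo (v q)) ∧
      (∀ q R P, (∀ k, rowS o (Ty.two j l) 0 (u q k) R P = 0) →
        evS R (xo (v q)) = 0 ∧ ev P (xo (v q)) = 0) ∧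
      (∀ t, SuppU (del I o {j, l}) t → (∀ q, ev t (xo (v q)) = 0) → t = 0) := by
  obtain ⟨m, v, hc, hn, hx, hl, hd, ht, -⟩ := hG
  have h3 := fun q => h2 κ ι I o r H j l (v q) hjl ho (hc q) (hn q) (fun m hm hm' => by
    have := hx q m
    rwa [update_of_ne hm', update_of_ne hm] at this) (hl q) (hd q (j, o j) (by simp))
    (hd q (l, o l) (by simp))
  choose u hu1 hu2 hu3 hu4 hu5 hu6 using h3
  exact ⟨m, v, u, fun q => crit_supp (hc q), fun q m i hi => crit_eq (hc q) m i hi,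
    fun q => hd q (j, o j) (by simp), fun q => hd q (l, o l) (by simp),
    hu1, hu2, hu3, hu4, hu5, hu6, ht⟩

end data

/-- All the limit points together. -/
theorem limit (h0 : StPt0) (h1 : StPt1) (h2 : StPt2) (hKL : StKL) : StLimit := by
  classical
  intro κ ι _ _ _ _ I o r H ho hj hjl
  obtain ⟨u0, hz1, hz2, hz3, hz4, hz5, hz6⟩ := h0 κ ι I o r H ho
  have hd1 : ∀ j : {j : κ // 2 ≤ (I j).card}, _ := fun j =>
    data1 h1 I o H ho j.1 _ (hj j.1 j.2).choose_spec.2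
  choose m1 v1 u1 ha1 ha2 ha3 ha4 ha5 ha6 ha7 ha8 ha9 using hd1
  have hd2 : ∀ p : {p : κ × κ // p.1 ≠ p.2 ∧ 2 ≤ (I p.1).card ∧ 2 ≤ (I p.2).card}, _ := fun p =>
    data2 h2 I o H ho p.1.1 p.1.2 p.2.1 _ _
      (hjl p.1.1 p.1.2 p.2.1 p.2.2.1 p.2.2.2).1.choose_spec.2.choose_spec.2
  choose m2 v2 u2 hb1 hb2 hb3 hb4 hb5 hb6 hb7 hb8 hb9 hb10 hb11 using hd2
  refine ⟨Unit ⊕ ((Σ j : {j : κ // 2 ≤ (I j).card}, Fin (m1 j)) ⊕
      (Σ p : {p : κ × κ // p.1 ≠ p.2 ∧ 2 ≤ (I p.1).card ∧ 2 ≤ (I p.2).card},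
        Fin (m2 p) × Fin 2)), inferInstance, inferInstance,
    Sum.elim (fun _ => Ty.zero) (Sum.elim (fun x => Ty.one x.1.1)
      (fun x => Ty.two x.1.1.1 x.1.1.2)),
    Sum.elim (fun _ => u0) (Sum.elim (fun x => u1 x.1 x.2) (fun x => u2 x.1 x.2.1 x.2.2)),
    ?_, ?_, ?_, ?_, ?_, ?_, ?_⟩
  · rintro (_ | x | x)
    · exact Ty.ok_zero
    · exact Ty.ok_one _
    · exact Ty.ok_two x.1.2.1
  · rintro (_ | x | x)
    · exact hz1
    · exact ha2 x.1 x.2
    · exact hb5 x.1 x.2.1 x.2.2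
  · rintro (_ | x | x)
    · exact hz2
    · exact ha3 x.1 x.2
    · exact hb6 x.1 x.2.1 x.2.2
  · rintro (_ | x | x)
    · exact hz3
    · exact ha4 x.1 x.2
    · exact hb7 x.1 x.2.1 x.2.2
  · rintro (_ | x | x)
    · exact hz4
    · exact ha5 x.1 x.2
    · exact hb8 x.1 x.2.1 x.2.2
  · intro t ht hq
    funext α
    by_cases hα : ∃ j, α j ∉ I j
    · exact ht α hα
    · push Not at hα
      by_cases hαo : α = o
      · have h := hq (Sum.inl ())
        rw [hαo, ← hz5 t]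
        exact h
      · obtain ⟨j, hj'⟩ := Function.ne_iff.1 hαo
        have hcard : 2 ≤ (I j).card := Finset.one_lt_card.2 ⟨α j, hα j, o j, ho j, hj'⟩
        have hcut : cutU (del I o {j}) t = 0 := by
          refine ha8 ⟨j, hcard⟩ _ (suppU_cutU _ _) fun q => ?_
          rw [ev_cutU t (ha1 ⟨j, hcard⟩ q)]
          have h := hq (Sum.inr (Sum.inl ⟨⟨j, hcard⟩, q⟩))
          rw [← ha6 ⟨j, hcard⟩ q]
          exact h
        have h := congrFun hcut α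
        have hin : ∀ m, α m ∈ del I o {j} m := by
          intro m
          simp only [del, Finset.mem_singleton]
          split_ifs with hm
          · rw [hm]
            exact Finset.mem_erase.2 ⟨hj', hα j⟩
          · exact hα m
        simp only [cutU] at h
        rw [if_pos hin] at h
        exact h
  · intro R P hR hRM hP hq
    obtain ⟨A, hA1, hA2⟩ := hKL κ ι I o r H
      (fun j => {x | ∃ (h : 2 ≤ (I j).card) (q : Fin (m1 ⟨j, h⟩)), x = xo (v1 ⟨j, h⟩ q)})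
      (fun j l => {x | ∃ (h : j ≠ l ∧ 2 ≤ (I j).card ∧ 2 ≤ (I l).card)
        (q : Fin (m2 ⟨(j, l), h⟩)), x = xo (v2 ⟨(j, l), h⟩ q)}) ho
      (fun j hcard => ⟨by
          rintro x ⟨h, q, rfl⟩
          exact ha1 _ q,
        fun S hS hSx => ha9 ⟨j, hcard⟩ S hS fun q => hSx _ ⟨hcard, q, rfl⟩⟩)
      (fun j l hne hcj hcl => ⟨by
          rintro x ⟨h, q, rfl⟩
          exact ⟨hb1 _ q, ⟨lo (v2 _ q), hb2 _ q⟩, hb3 _ q, hb4 _ q⟩,
        fun t ht htx => hb11 ⟨(j, l), ⟨hne, hcj, hcl⟩⟩ t ht fun q => htx _ ⟨⟨hne, hcj, hcl⟩, q, rfl⟩,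
        (hjl j l hne hcj hcl).2⟩)
      R P hR hRM hP
      (by
        have h := hq (Sum.inl ())
        rw [← hz6 R P]
        exact h)
      (by
        rintro j hcard x ⟨h, q, rfl⟩
        have h' := hq (Sum.inr (Sum.inl ⟨⟨j, h⟩, q⟩))
        rw [← ha7 ⟨j, h⟩ q R P]
        exact h')
      (by
        rintro j l hne hcj hcl x ⟨h, q, rfl⟩
        exact hb10 ⟨(j, l), h⟩ q R P fun k => hq (Sum.inr (Sum.inr ⟨⟨(j, l), h⟩, (q, k)⟩)))
    refine ⟨A, ?_, ?_⟩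
    · rw [hA1]
      simp only [omR]
      congr 2
      funext s
      simp only [omS]
      ring
    · funext α
      simp only [omQ, cutU]
      by_cases hα : ∀ j, α j ∈ I j
      · rw [if_pos hα, hA2]
        ring
      · rw [if_neg hα]
        push Not at hα
        exact hP α hα

end Pool.Agent.Helper41.SV
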