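import Pool.Agent.Helper41.SV.Poly

/-!
Exactness of families of linear maps depending polynomially on parameters.
-/

open Finset Function

noncomputable section

namespace Pool.Agent.Helper41.SV

variable {σ v w a : Type} [Fintype v] [DecidableEq v] [Fintype w] [DecidableEq w]
  [Fintype a] [DecidableEq a]

/-- Exactness spreads out. -/
theorem exact_poly (E : (σ → ℂ) → (v → ℂ) →ₗ[ℂ] (w → ℂ)) (Om : (σ → ℂ) → (a → ℂ) →ₗ[ℂ] (v → ℂ))
    (hE : ∀ i j, IsPoly (fun z => E z (Pi.single j 1) i))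
    (hO : ∀ i j, IsPoly (fun z => Om z (Pi.single j 1) i)) (z₀ : σ → ℂ)
    (h0 : ∀ P, E z₀ P = 0 → ∃ A, P = Om z₀ A) :
    ∃ g : (σ → ℂ) → ℂ, IsPoly g ∧ g z₀ ≠ 0 ∧ ∀ z, g z ≠ 0 → (∀ A, E z (Om z A) = 0) →
      ∀ P, E z P = 0 → ∃ A, P = Om z A := by
  have hEm : ∀ z P, (LinearMap.toMatrix' (E z)).mulVec P = E z P := fun z P =>
    LinearMap.toMatrix'_mulVec (E z) P
  have hOm : ∀ z A, (LinearMap.toMatrix' (Om z)).mulVec A = Om z A := fun z P =>
    LinearMap.toMatrix'_mulVec (Om z) P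
  obtain ⟨B, C, hBC⟩ := exists_split (LinearMap.toMatrix' (E z₀)) (LinearMap.toMatrix' (Om z₀))
    (fun P hP => by
      rw [hEm] at hP
      obtain ⟨A, hA⟩ := h0 P hP
      exact ⟨A, by rw [hOm]; exact hA⟩)
  refine ⟨fun z => (B * LinearMap.toMatrix' (E z) + LinearMap.toMatrix' (Om z) * C).det,
    ?_, ?_, ?_⟩
  · refine IsPoly.det fun i j => ?_
    simp only [Matrix.add_apply, Matrix.mul_apply, LinearMap.toMatrix'_apply]
    exact (IsPoly.sum _ fun k _ => (IsPoly.const _).mul (hE k j)).add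
      (IsPoly.sum _ fun k _ => (hO i k).mul (IsPoly.const _))
  · simp only [hBC, Matrix.det_one]
    exact one_ne_zero
  · intro z hz h1 P hP
    obtain ⟨A, hA⟩ := exact_of_det (LinearMap.toMatrix' (E z)) (LinearMap.toMatrix' (Om z)) B C
      (by
        refine Matrix.ext_of_mulVec_single fun i => ?_
        rw [← Matrix.mulVec_mulVec, hOm, hEm, h1, Matrix.zero_mulVec])
      hz P (by rw [hEm]; exact hP)
    exact ⟨A, by rw [hA, hOm]⟩

/-- Injectivity spreads out. -/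
theorem inj_poly (E : (σ → ℂ) → (v → ℂ) →ₗ[ℂ] (w → ℂ))
    (hE : ∀ i j, IsPoly (fun z => E z (Pi.single j 1) i)) (z₀ : σ → ℂ)
    (h0 : ∀ P, E z₀ P = 0 → P = 0) :
    ∃ g : (σ → ℂ) → ℂ, IsPoly g ∧ g z₀ ≠ 0 ∧ ∀ z, g z ≠ 0 → ∀ P, E z P = 0 → P = 0 := by
  obtain ⟨g, hg, hg0, h⟩ := exact_poly (a := Unit) E (fun _ => 0) hE
    (fun i j => by simpa using IsPoly.const 0) z₀
    (fun P hP => ⟨0, by simpa using h0 P hP⟩)
  exact ⟨g, hg, hg0, fun z hz P hP => by
    obtain ⟨A, hA⟩ := h z hz (fun A => by simp) P hP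
    simpa using hA⟩

end Pool.Agent.Helper41.SV
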