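import Mathlib

/-!
Definitions used in the statement of the result on spans of singular vector tuples
(MP_f2a874_ag).
-/

open Finset Function

noncomputable section

namespace Pool.Agent.Helper41.SV

/-- `Q` holds outside the zero set of some nonzero polynomial. -/
def Gen {σ : Type} (Q : (σ → ℂ) → Prop) : Prop :=
  ∃ P : MvPolynomial σ ℂ, P ≠ 0 ∧ ∀ t, MvPolynomial.eval t P ≠ 0 → Q t

/-! ### The statement -/

section statement

variable {m : ℕ}

/-- Multi-indices of a format with factors of dimensions `d i + 1`. -/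
abbrev Idx (d : Fin m → ℕ) : Type := (i : Fin m) → Fin (d i + 1)

/-- Contraction of `T` with all the `x j`, `j ≠ i`. -/
def contract {d : Fin m → ℕ} (T : Idx d → ℂ) (x : (i : Fin m) → Fin (d i + 1) → ℂ) (i : Fin m)
    (a : Fin (d i + 1)) : ℂ :=
  ∑ α : Idx d, if α i = a then T α * ∏ j ∈ Finset.univ.erase i, x j (α j) else 0

/-- Singular vector tuples of `T`. -/
def IsSingularTuple {d : Fin m → ℕ} (T : Idx d → ℂ) (x : (i : Fin m) → Fin (d i + 1) → ℂ) : Prop :=
  (∀ i, x i ≠ 0) ∧ ∀ i a b, contract T x i a * x i b = contract T x i b * x i a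

/-- The rank one tensor of a tuple of vectors. -/
def rankOne {d : Fin m → ℕ} (x : (i : Fin m) → Fin (d i + 1) → ℂ) : Idx d → ℂ :=
  fun α => ∏ i, x i (α i)

/-- The linear span of the rank one tensors of the singular vector tuples. -/
def singSpan {d : Fin m → ℕ} (T : Idx d → ℂ) : Submodule ℂ (Idx d → ℂ) :=
  Submodule.span ℂ {Z | ∃ x, IsSingularTuple T x ∧ Z = rankOne x}

/-- The matrix `C_l(T, Z)`. -/
def CMat {d : Fin m → ℕ} (T Z : Idx d → ℂ) (l : Fin m) (a b : Fin (d l + 1)) : ℂ :=
  ∑ α : Idx d, if α l = a then T α * Z (update α l b) else 0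

/-- The critical space. -/
def critSpace {d : Fin m → ℕ} (T : Idx d → ℂ) : Submodule ℂ (Idx d → ℂ) where
  carrier := {Z | ∀ l a b, CMat T Z l a b = CMat T Z l b a}
  add_mem' := by
    intro Z Z' h h' l a b
    have e : ∀ a b, CMat T (Z + Z') l a b = CMat T Z l a b + CMat T Z' l a b := by
      intro a b
      simp only [CMat, ← Finset.sum_add_distrib]
      refine Finset.sum_congr rfl fun α _ => ?_
      split_ifs <;> simp [mul_add]
    rw [e, e, h l a b, h' l a b]
  zero_mem' := by
    intro l a b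
    simp [CMat]
  smul_mem' := by
    intro c Z h l a b
    have e : ∀ a b, CMat T (c • Z) l a b = c * CMat T Z l a b := by
      intro a b
      simp only [CMat, Finset.mul_sum]
      refine Finset.sum_congr rfl fun α _ => ?_
      split_ifs <;> simp [mul_left_comm]
    rw [e, e, h l a b]

/-- The format `(n 1, ..., n k, n 1 + ... + n k + 1)`. -/
def fmt {k : ℕ} (n : Fin k → ℕ) : Fin (k + 1) → ℕ :=
  Fin.snoc (α := fun _ => ℕ) n (∑ j, n j + 1)

/-- The three exceptional formats `(1,1,1)`, `(1,1,2)`, `(1,1,3)`, up to order. -/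
def Exceptional {k : ℕ} (n : Fin k → ℕ) : Prop :=
  k = 3 ∧ ∃ i, (∀ j, j ≠ i → n j = 1) ∧ n i ≤ 3

open Classical in
/-- The codimension predicted in the problem. -/
def excess {k : ℕ} (n : Fin k → ℕ) : ℤ :=
  if Exceptional n then
    ((∏ j, ((∑ i, n i) - 1).choose (n j) : ℕ) : ℤ)
      - ((∑ i, n i) + 2 : ℕ) * ((∏ j, ((∑ i, n i) - 2).choose (n j) : ℕ) : ℤ)
  else 0

end statement

end Pool.Agent.Helper41.SV
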