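import Pool.Agent.Helper41.SV.Basic
import Pool.Agent.Helper41.SV.Lin
import Pool.Agent.Helper41.SV.Stmts

/-!
The degeneration step: definitions of the scaled systems and statements of the parts.
-/

open Finset Function

noncomputable section

set_option linter.unusedSectionVars false

namespace Pool.Agent.Helper41.SV

variable {κ ι : Type} [Fintype κ] [DecidableEq κ] [Fintype ι] [DecidableEq ι]

/-- A type of scaling: `x j (o j)`, `j ∈ S`, is scaled by `δ ^ θ`, the multipliers by `δ ^ c`. -/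
structure Ty (κ : Type) where
  S : Finset κ
  θ : ℕ
  a : ℕ
  c : ℕ
  f : ℕ
  g : ℕ

/-- The point near `(e_o, ..., e_o)`. -/
def Ty.zero : Ty κ := ⟨∅, 0, 0, 0, 2, 0⟩

/-- Points with `x j (o j) ~ δ ^ 3`. -/
def Ty.one (j : κ) : Ty κ := ⟨{j}, 3, 3, 3, 0, 1⟩

/-- Points with `x j (o j), x l (o l) ~ δ`. -/
def Ty.two (j l : κ) : Ty κ := ⟨{j, l}, 1, 1, 3, 0, 0⟩

/-- The relations between the exponents. -/
def Ty.Ok (τ : Ty κ) : Prop :=
  τ.c ≤ 3 ∧ (∀ j ∈ τ.S, τ.θ * τ.S.card + τ.θ * (τ.S.erase j).card = τ.c) ∧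
    2 * (τ.θ * τ.S.card) = τ.c + τ.a ∧ τ.g + 2 = τ.f + τ.θ * τ.S.card

/-- The actual unknown of a scaled unknown. -/
def Th (o : κ → ι) (τ : Ty κ) (δ : ℂ) (u : Un κ ι → ℂ) : Un κ ι → ℂ
  | Sum.inl (j, i) =>
      if j ∈ τ.S ∧ i = o j then δ ^ τ.θ * u (Sum.inl (j, i)) else u (Sum.inl (j, i))
  | Sum.inr j => δ ^ τ.c * u (Sum.inr j)

/-- The product of the scaled coordinates `x j (o j)`. -/
def Mh (o : κ → ι) (u : Un κ ι → ℂ) : ℂ := ∏ m, u (Sum.inl (m, o m))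

/-- The scaled system. -/
def Fs (I : κ → Finset ι) (o : κ → ι) {r : ℕ} (H : Fin r → (κ → ι) → ℂ) (τ : Ty κ) (δ : ℂ)
    (u : Un κ ι → ℂ) : Un κ ι → ℂ
  | Sum.inl (j, i) => if i ∈ I j then
        (if i = o j then 2 * (if j ∈ τ.S then 1 else δ ^ τ.a) * Mh o u *
          ∏ m ∈ univ.erase j, u (Sum.inl (m, o m)) else 0)
        + δ ^ (3 - τ.c) * dG H (xo (Th o τ δ u)) j i
        - u (Sum.inr j) * xo (Th o τ δ u) j i
      else u (Sum.inl (j, i))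
  | Sum.inr j => ∑ i, xo (Th o τ δ u) j i ^ 2 - 1

/-- The degenerate tensor. -/
def Tdeg (o : κ → ι) {r : ℕ} (H : Fin r → (κ → ι) → ℂ) (η : ℂ) : Fin (r + 1) → (κ → ι) → ℂ :=
  Fin.cons (Pi.single o 1) (fun a α => η * H a α)

/-- The part of a rotation moving `o`. -/
def wPart (I : κ → Finset ι) (o : κ → ι) (A : κ → ι → ι → ℂ) : κ → ι → ι → ℂ :=
  fun j a b => sharp I A j a b - sharp (del I o univ) A j a b

/-- The (scaled) rotation `soG(δ⁻³ A' + δ⁻² A^w)` as a form, before the multiples of `M` are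
separated. -/
def omS (I : κ → Finset ι) (o : κ → ι) {r : ℕ} (H : Fin r → (κ → ι) → ℂ) (δ : ℂ)
    (A : κ → ι → ι → ℂ) : (κ → Sym2 ι) → ℂ :=
  fun s => soS (sharp (del I o univ) A) H s + δ * soS (wPart I o A) H s

/-- First component of the rotations. -/
def omR (I : κ → Finset ι) (o : κ → ι) {r : ℕ} (H : Fin r → (κ → ι) → ℂ) (δ : ℂ)
    (A : κ → ι → ι → ℂ) : (κ → Sym2 ι) → ℂ :=
  cutS I (restS o (omS I o H δ A))

/-- Second component of the rotations. -/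
def omQ (I : κ → Finset ι) (o : κ → ι) {r : ℕ} (H : Fin r → (κ → ι) → ℂ) (δ : ℂ)
    (A : κ → ι → ι → ℂ) : (κ → ι) → ℂ :=
  cutU I (fun α => 2 * actU (sharp I A) (Pi.single o 1) α + δ ^ 2 * quoM o (omS I o H δ A) α)

/-- The functional of a point. -/
def rowS (o : κ → ι) (τ : Ty κ) (δ : ℂ) (u : Un κ ι → ℂ) (R : (κ → Sym2 ι) → ℂ)
    (Q : (κ → ι) → ℂ) : ℂ :=
  δ ^ τ.f * evS R (xo (Th o τ δ u)) + δ ^ τ.g * Mh o u * ev Q (xo (Th o τ δ u))

/-- The conditions on a family of limit points. -/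
def Limit (I : κ → Finset ι) (o : κ → ι) {r : ℕ} (H : Fin r → (κ → ι) → ℂ) {Q : Type}
    (ty : Q → Ty κ) (u : Q → Un κ ι → ℂ) : Prop :=
  (∀ q, (ty q).Ok) ∧
  (∀ q w, Fs I o H (ty q) 0 (u q) w = 0) ∧
  (∀ q, NonDeg (Fs I o H (ty q) 0) (u q)) ∧
  (∀ q j, u q (Sum.inl (j, o j)) ≠ 0) ∧
  (∀ q j, u q (Sum.inr j) ≠ 0) ∧
  (∀ t, SuppU I t → (∀ q, ev t (xo (Th o (ty q) 0 (u q))) = 0) → t = 0) ∧
  (∀ R P, SuppS I R → (∀ s, (∀ j, o j ∈ s j) → R s = 0) → SuppU I P →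
    (∀ q, rowS o (ty q) 0 (u q) R P = 0) →
      ∃ A : κ → ι → ι → ℂ, R = omR I o H 0 A ∧ P = omQ I o H 0 A)

/-- From the limit points to the points of `T`. -/
def StSpread : Prop :=
  ∀ (κ ι : Type) [Fintype κ] [DecidableEq κ] [Fintype ι] [DecidableEq ι]
    (I : κ → Finset ι) (o : κ → ι) (r : ℕ) (H : Fin r → (κ → ι) → ℂ) (Q : Type) [Fintype Q]
    [DecidableEq Q] (ty : Q → Ty κ) (u : Q → Un κ ι → ℂ), (∀ j, o j ∈ I j) →
    Limit I o H ty u → ∃ T : Fin (r + 1) → (κ → ι) → ℂ, GoodX I o ∅ T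

/-- The point of the first type. -/
def StPt0 : Prop :=
  ∀ (κ ι : Type) [Fintype κ] [DecidableEq κ] [Fintype ι] [DecidableEq ι]
    (I : κ → Finset ι) (o : κ → ι) (r : ℕ) (H : Fin r → (κ → ι) → ℂ), (∀ j, o j ∈ I j) →
    ∃ u : Un κ ι → ℂ, (∀ w, Fs I o H Ty.zero 0 u w = 0) ∧ NonDeg (Fs I o H Ty.zero 0) u ∧
      (∀ j, u (Sum.inl (j, o j)) ≠ 0) ∧ (∀ j, u (Sum.inr j) ≠ 0) ∧
      (∀ t, ev t (xo (Th o Ty.zero 0 u)) = t o) ∧
      (∀ R P, rowS o Ty.zero 0 u R P = P o)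

/-- The points of the second type. -/
def StPt1 : Prop :=
  ∀ (κ ι : Type) [Fintype κ] [DecidableEq κ] [Fintype ι] [DecidableEq ι]
    (I : κ → Finset ι) (o : κ → ι) (r : ℕ) (H : Fin r → (κ → ι) → ℂ) (j : κ)
    (v : Un κ ι → ℂ), (∀ j, o j ∈ I j) →
    (∀ w, crit (del I o {j}) H v w = 0) → NonDeg (crit (del I o {j}) H) v →
    (∀ m, m ≠ j → xo v m (o m) ≠ 0) → (∀ m, lo v m ≠ 0) → dG H (xo v) j (o j) ≠ 0 →
    ∃ u : Un κ ι → ℂ, (∀ w, Fs I o H (Ty.one j) 0 u w = 0) ∧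
      NonDeg (Fs I o H (Ty.one j) 0) u ∧
      (∀ m, u (Sum.inl (m, o m)) ≠ 0) ∧ (∀ m, u (Sum.inr m) ≠ 0) ∧
      xo (Th o (Ty.one j) 0 u) = xo v ∧
      (∀ R P, rowS o (Ty.one j) 0 u R P = evS R (xo v))

/-- The points of the third type: two branches over each point. -/
def StPt2 : Prop :=
  ∀ (κ ι : Type) [Fintype κ] [DecidableEq κ] [Fintype ι] [DecidableEq ι]
    (I : κ → Finset ι) (o : κ → ι) (r : ℕ) (H : Fin r → (κ → ι) → ℂ) (j l : κ)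
    (v : Un κ ι → ℂ), j ≠ l → (∀ j, o j ∈ I j) →
    (∀ w, crit (del I o {j, l}) H v w = 0) → NonDeg (crit (del I o {j, l}) H) v →
    (∀ m, m ≠ j → m ≠ l → xo v m (o m) ≠ 0) → (∀ m, lo v m ≠ 0) →
    dG H (xo v) j (o j) ≠ 0 → dG H (xo v) l (o l) ≠ 0 →
    ∃ u : Fin 2 → Un κ ι → ℂ, (∀ k w, Fs I o H (Ty.two j l) 0 (u k) w = 0) ∧
      (∀ k, NonDeg (Fs I o H (Ty.two j l) 0) (u k)) ∧
      (∀ k m, u k (Sum.inl (m, o m)) ≠ 0) ∧ (∀ k m, u k (Sum.inr m) ≠ 0) ∧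
      (∀ k, xo (Th o (Ty.two j l) 0 (u k)) = xo v) ∧
      (∀ R P, (∀ k, rowS o (Ty.two j l) 0 (u k) R P = 0) → evS R (xo v) = 0 ∧ ev P (xo v) = 0)

/-- All the limit points together. -/
def StLimit : Prop :=
  ∀ (κ ι : Type) [Fintype κ] [DecidableEq κ] [Fintype ι] [DecidableEq ι]
    (I : κ → Finset ι) (o : κ → ι) (r : ℕ) (H : Fin r → (κ → ι) → ℂ), (∀ j, o j ∈ I j) →
    (∀ j, 2 ≤ (I j).card →
      ∃ b ∈ (I j).erase (o j), GoodX (del I o {j}) (update o j b) {(j, o j)} H) →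
    (∀ j l, j ≠ l → 2 ≤ (I j).card → 2 ≤ (I l).card →
      (∃ b ∈ (I j).erase (o j), ∃ c ∈ (I l).erase (o l),
        GoodX (del I o {j, l}) (update (update o j b) l c) {(j, o j), (l, o l)} H) ∧
      Free (del I o {j, l}) H) →
    ∃ (Q : Type) (_ : Fintype Q) (_ : DecidableEq Q) (ty : Q → Ty κ) (u : Q → Un κ ι → ℂ),
      Limit I o H ty u

theorem Ty.ok_zero : (Ty.zero : Ty κ).Ok := by
  refine ⟨by simp [Ty.zero], fun j hj => by simp [Ty.zero] at hj, by simp [Ty.zero],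
    by simp [Ty.zero]⟩

theorem Ty.ok_one (j : κ) : (Ty.one j : Ty κ).Ok := by
  refine ⟨by simp [Ty.one], fun l hl => ?_, by simp [Ty.one], by simp [Ty.one]⟩
  have : l = j := by simpa [Ty.one] using hl
  subst this
  simp [Ty.one]

theorem Ty.ok_two {j l : κ} (h : j ≠ l) : (Ty.two j l : Ty κ).Ok := by
  have hc : ({j, l} : Finset κ).card = 2 := Finset.card_pair h
  refine ⟨by simp [Ty.two], fun m hm => ?_, by simp [Ty.two, hc], by simp [Ty.two, hc]⟩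
  have hm' : m ∈ ({j, l} : Finset κ) := hm
  simp only [Ty.two, hc, Finset.card_erase_of_mem hm']

/-- The step from its two parts. -/
theorem step_of_parts (h1 : StSpread) (h2 : StLimit) : StStep := by
  intro κ ι _ _ _ _ I o r H ho hj hjl
  obtain ⟨Q, _, _, ty, u, h⟩ := h2 κ ι I o r H ho hj hjl
  exact h1 κ ι I o r H Q ty u ho h

end Pool.Agent.Helper41.SV
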